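import Pool.Agent.Helper835_LTC.Defs2

set_option autoImplicit false

open Finset
open scoped Classical

namespace Pool.Agent.Helper835_LTC

section
variable {V M : Type} [Fintype V] [AddCommGroup M] [Module F2 M]

theorem dual_iff (F : V → Module.Dual F2 M) (u : V → F2) :
    (∀ c ∈ LinearMap.range (enc F), ∑ i, u i * c i = 0) ↔ ∑ v, u v • F v = 0 := by
  constructor
  · intro h
    ext m
    have := h (enc F m) ⟨m, rfl⟩
    simpa [enc] using this
  · rintro h c ⟨m, rfl⟩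
    have := congrArg (fun f => f m) h
    simpa [enc] using this

theorem d3_card (F : V → Module.Dual F2 M) :
    (D3 (LinearMap.range (enc F))).card = (univ.filter fun u : V → F2 => ∑ v, u v • F v = 0 ∧
        0 < hammingNorm u ∧ hammingNorm u ≤ 3).card := by
  unfold D3
  congr 1
  ext u
  simp only [mem_filter, mem_univ, true_and, dual_iff]

theorem d3_pos (C : Submodule F2 (V → F2)) (κ' d : ℝ) (hκ' : 0 < κ') (hd : 1 < d)
    (hV : 0 < Fintype.card V) (hdist : MinD d C)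
    (hsnd : ∀ w : V → F2, ∃ c ∈ C, κ' * hammingDist w c ≤
      (((D3 C).filter fun u => ∑ v, u v * w v ≠ 0).card : ℝ)) : 0 < (D3 C).card := by
  by_contra hcon
  have hemp : D3 C = ∅ := by
    rw [← Finset.card_eq_zero]; omega
  obtain ⟨v0⟩ : Nonempty V := Fintype.card_pos_iff.mp hV
  obtain ⟨cw, hcw, hle⟩ := hsnd (Pi.single v0 1)
  rw [hemp, Finset.filter_empty, Finset.card_empty, Nat.cast_zero] at hle
  have h0 : (hammingDist (Pi.single v0 1 : V → F2) cw : ℝ) ≤ 0 := by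
    by_contra hcon2
    push Not at hcon2
    nlinarith
  have h1 : hammingDist (Pi.single v0 1 : V → F2) cw = 0 := by
    have : (hammingDist (Pi.single v0 1 : V → F2) cw : ℝ) = 0 :=
      le_antisymm h0 (Nat.cast_nonneg _)
    exact_mod_cast this
  rw [hammingDist_eq_zero] at h1
  have hne : (Pi.single v0 1 : V → F2) ≠ 0 := by
    intro hz
    have := congrFun hz v0
    simp at this
  have := hdist (Pi.single v0 1) (h1 ▸ hcw) hne
  have hn : hammingNorm (Pi.single v0 1 : V → F2) ≤ 1 := by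
    unfold hammingNorm
    refine Finset.card_le_one.mpr ?_
    intro a ha b hb
    simp only [mem_filter, mem_univ, true_and] at ha hb
    have ha' : a = v0 := by
      by_contra h; exact ha (Pi.single_eq_of_ne h _)
    have hb' : b = v0 := by
      by_contra h; exact hb (Pi.single_eq_of_ne h _)
    rw [ha', hb']
  have hn' : (hammingNorm (Pi.single v0 1 : V → F2) : ℝ) ≤ 1 := by exact_mod_cast hn
  linarith

theorem good_of (C : Submodule F2 (V → F2)) (ρ' δ' κ' : ℝ) (B : ℕ) (hκ' : 0 < κ')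
    (hδ' : 0 < δ') (hbig : 1 < δ' * Fintype.card V) (hV : 0 < Fintype.card V)
    (hrate : ρ' * Fintype.card V ≤ Module.finrank F2 C)
    (hdist : MinD (δ' * Fintype.card V) C)
    (hcnt : (D3 C).card ≤ B * Fintype.card V)
    (hsnd : ∀ w : V → F2, ∃ c ∈ C, κ' * hammingDist w c ≤
      (((D3 C).filter fun u => ∑ v, u v * w v ≠ 0).card : ℝ)) :
    Good ρ' δ' (κ' * δ' / (3 * (B + 1))) B C := by
  have hB : ((D3 C).card : ℝ) ≤ B * Fintype.card V := by exact_mod_cast hcnt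
  have hVpos : (0 : ℝ) < Fintype.card V := by exact_mod_cast hV
  refine ⟨hrate, hdist, d3_pos C κ' _ hκ' hbig hV hdist hsnd, hB, ?_⟩
  intro w hw
  obtain ⟨cw, hcw, hle⟩ := hsnd w
  have h1 := hw cw hcw
  have hB0 : (0 : ℝ) ≤ B := Nat.cast_nonneg B
  calc κ' * δ' / (3 * (B + 1)) * ((D3 C).card : ℝ)
      ≤ κ' * δ' / (3 * (B + 1)) * (B * Fintype.card V) :=
        mul_le_mul_of_nonneg_left hB (by positivity)
    _ = κ' * (δ' / 3 * Fintype.card V) * (B / (B + 1)) := by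
        field_simp
    _ ≤ κ' * (δ' / 3 * Fintype.card V) * 1 := by
        refine mul_le_mul_of_nonneg_left ?_ (by positivity)
        rw [div_le_one (by positivity)]
        linarith
    _ ≤ κ' * hammingDist w cw := by
        rw [mul_one]
        exact mul_le_mul_of_nonneg_left h1 hκ'.le
    _ ≤ _ := hle

end

theorem good_asm (hL : S_LTC) (hST1 : S_ST1) (hSPR : S_SPR) (hPOT : S_POT) (hCNT : S_CNT)
    (hSIZE : S_SIZE) (hOCC : S_OCC) (hHYP : S_HYP) (hD3 : S_DIST3) (hS3 : S_SND3) : S_GOOD := by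
  obtain ⟨q, D, ρ, δ, κ, hq, hρ, hδ, hκ, HL⟩ := hL
  obtain ⟨q, rfl⟩ : ∃ q', q = q' + 1 := ⟨q - 1, by omega⟩
  obtain ⟨m1, K1, c, hc, H1⟩ := hST1 δ ρ hδ hρ
  obtain ⟨c1, H2⟩ := hSPR K1 c hc
  obtain ⟨K, n0, H3⟩ := hPOT c1 2 (1 + 9 * (q + 1) * D + 3 * D + 3 * m1 * D)
    (2 + 9 * (q + 1) * D)
  obtain ⟨B, H4⟩ := hCNT K K1 c hc
  obtain ⟨ρ', δ', hρ', hδ', H5⟩ := hD3 q D m1 (2 * 2) ρ δ κ hρ hδ hκ
  obtain ⟨κ', hκ', H6⟩ := hS3 q D m1 (2 * 2) ρ δ κ hρ hδ hκ
  refine ⟨ρ', δ', κ' * δ' / (3 * (B + 1)), B, hρ', hδ', by positivity, ?_⟩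
  intro N
  obtain ⟨n1, hn1⟩ := exists_nat_gt (1 / δ')
  obtain ⟨ι, E, fι, fE, Q, h, hcard, hltc⟩ := HL (N + n0 + n1 + 1)
  have hne : Nonempty ι := Fintype.card_pos_iff.mp (by omega)
  obtain ⟨φ, hφ, hgen⟩ := H1 ι (Module.Dual F2 (Msg (codeOf Q h))) (fx (codeOf Q h))
    (fy (codeOf Q h)) (Module.finrank F2 (codeOf Q h)) hltc.rate
    (hHYP ι (codeOf Q h) δ hltc.dist)
  have hspr := H2 ι (Module.Dual F2 (Msg (codeOf Q h))) (fa (codeOf Q h) φ) hgen
  obtain ⟨hE, hN⟩ := hSIZE q D ρ δ κ ι E Q h hltc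
  obtain ⟨ω, hω, hgN⟩ := H3 ι (NN ι E q) (VV ι) (Module.Dual F2 (Msg (codeOf Q h)))
    (fa (codeOf Q h) φ) (fb (codeOf Q h) Q h φ) (kf Q h φ) (by omega) hN
    (by rw [Fintype.card_prod, Fintype.card_bool]) hspr
    (by
      rintro (p | ⟨t, e, l, s⟩)
      · exact ⟨p, Finset.mem_singleton_self p⟩
      · exact ⟨_, Finset.mem_union_left _ (Finset.mem_singleton_self _)⟩)
    (by
      intro k
      convert hOCC q D m1 ρ δ κ ι E Q h φ hltc hφ k)
  obtain ⟨hrate, hdist⟩ := H5 ι E Q h φ ω hltc hφ hω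
  have hsnd := H6 ι E Q h φ ω hltc hφ hω
  have hcnt := H4 ι (NN ι E q) (Module.Dual F2 (Msg (codeOf Q h)))
    (FF (codeOf Q h) Q h φ ω) hgN hgen
  have hV : N + n0 + n1 + 1 ≤ Fintype.card (ι ⊕ NN ι E q) := by
    rw [Fintype.card_sum]; omega
  have hbig : 1 < δ' * Fintype.card (ι ⊕ NN ι E q) := by
    have h1 : (n1 : ℝ) ≤ Fintype.card (ι ⊕ NN ι E q) := by
      have : n1 ≤ Fintype.card (ι ⊕ NN ι E q) := by omega
      exact_mod_cast this
    have h2 : 1 / δ' < Fintype.card (ι ⊕ NN ι E q) := lt_of_lt_of_le hn1 h1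
    rw [div_lt_iff₀ hδ'] at h2
    linarith
  refine ⟨ι ⊕ NN ι E q, inferInstance, fin3 (codeOf Q h) Q h φ ω, by omega, ?_⟩
  refine good_of _ ρ' δ' κ' B hκ' hδ' hbig (by omega) hrate hdist ?_ hsnd
  have e := d3_card (FF (codeOf Q h) Q h φ ω)
  unfold fin3
  rw [e]
  convert hcnt

end Pool.Agent.Helper835_LTC
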