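import Mathlib

/-!
# PROJECT LTC (helper835, MP_55663b_lc, frozen S14714)

Good 3-query locally testable codes with only linearly many dual words of weight at most three.
All definitions and the statements `S_...` of all jobs.
-/

set_option autoImplicit false

open Finset
open scoped Classical

namespace Pool.Agent.Helper835_LTC

/-- the field with two elements -/
abbrev F2 := ZMod 2

/-! ## Expanders -/

/-- right multiplication by the `b j`, and by their inverses, contracts the functions of sum zero -/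
def Exp {G : Type} [Group G] [Fintype G] {J : Type} [Fintype J] (lam : ℝ) (b : J → G) : Prop :=
  ∀ f : G → ℝ, ∑ g, f g = 0 →
    ∑ g, (∑ j, f (g * b j)) ^ 2 ≤ (lam * Fintype.card J) ^ 2 * ∑ g, f g ^ 2 ∧
    ∑ g, (∑ j, f (g * (b j)⁻¹)) ^ 2 ≤ (lam * Fintype.card J) ^ 2 * ∑ g, f g ^ 2

/-- weak form: one direction only -/
def Exp1 {G : Type} [Group G] [Fintype G] {J : Type} [Fintype J] (lam : ℝ) (b : J → G) : Prop :=
  ∀ f : G → ℝ, ∑ g, f g = 0 →
    ∑ g, (∑ j, f (g * b j)) ^ 2 ≤ (lam * Fintype.card J) ^ 2 * ∑ g, f g ^ 2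

/-- arbitrarily large finite groups, expanding with a fixed number of elements -/
def S_G0 : Prop := ∃ (k : ℕ) (lam : ℝ), 0 < k ∧ 0 ≤ lam ∧ lam < 1 ∧ ∀ N : ℕ,
  ∃ (G : Type) (_ : Group G) (_ : Fintype G) (b : Fin k → G), N ≤ Fintype.card G ∧ Exp1 lam b

/-- expanders with any ratio `lam` and any large number of elements -/
def S_EXP : Prop := ∀ lam : ℝ, 0 < lam → ∃ D0 : ℕ, ∀ (J : Type) [Fintype J], D0 ≤ Fintype.card J →
  ∀ N : ℕ, ∃ (G : Type) (_ : Group G) (_ : Fintype G) (b : J → G),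
    N ≤ Fintype.card G ∧ Exp lam b

/-- expander mixing lemma (upper bound) -/
def S_MIX : Prop := ∀ (G : Type) [Group G] [Fintype G] (J : Type) [Fintype J] (lam : ℝ) (b : J → G),
  0 ≤ lam → Exp lam b → ∀ S T : Finset G,
    ((univ.filter fun p : G × J => p.1 ∈ S ∧ p.1 * b p.2 ∈ T).card : ℝ) ≤
      Fintype.card J * (S.card * T.card) / Fintype.card G +
        lam * Fintype.card J * Real.sqrt (S.card * T.card)

/-! ## Base codes -/

/-- matrices all of whose rows and columns are in the code -/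
def InLoc {I : Type} (C0 : Submodule F2 (I → F2)) (m : I → I → F2) : Prop :=
  (∀ i, m i ∈ C0) ∧ ∀ j, (fun i => m i j) ∈ C0

/-- number of different columns of `w1` and `w` -/
noncomputable def colD {I : Type} [Fintype I] (w1 w : I → I → F2) : ℕ :=
  (univ.filter fun j : I => (fun i => w1 i j) ≠ fun i => w i j).card

/-- number of different rows of `w2` and `w` -/
noncomputable def rowD {I : Type} [Fintype I] (w2 w : I → I → F2) : ℕ :=
  (univ.filter fun i : I => w2 i ≠ w i).card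

/-- number of different entries -/
noncomputable def entD {I : Type} [Fintype I] (w1 w2 : I → I → F2) : ℕ :=
  (univ.filter fun p : I × I => w1 p.1 p.2 ≠ w2 p.1 p.2).card

/-- agreement testability: columns of `w1` in the code, rows of `w2` in the code -/
def AT {I : Type} [Fintype I] (κ : ℝ) (C0 : Submodule F2 (I → F2)) : Prop :=
  ∀ w1 w2 : I → I → F2, (∀ j, (fun i => w1 i j) ∈ C0) → (∀ i, w2 i ∈ C0) →
    ∃ w : I → I → F2, InLoc C0 w ∧
      κ * Fintype.card I * ((colD w1 w : ℝ) + rowD w2 w) ≤ entD w1 w2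

/-- minimum distance -/
def MinD {I : Type} [Fintype I] (d : ℝ) (C0 : Submodule F2 (I → F2)) : Prop :=
  ∀ x ∈ C0, x ≠ 0 → d ≤ hammingNorm x

/-- agreement testable base codes of rate `7/8`, arbitrarily long -/
def S_BASE : Prop := ∃ δ κ : ℝ, 0 < δ ∧ 0 < κ ∧ ∀ D0 : ℕ, ∃ (I : Type) (_ : Fintype I),
  D0 ≤ Fintype.card I ∧ ∃ C0 : Submodule F2 (I → F2),
    (7 / 8 : ℝ) * Fintype.card I ≤ Module.finrank F2 C0 ∧ MinD (δ * Fintype.card I) C0 ∧ AT κ C0

/-- Gilbert–Varshamov -/
def S_GV : Prop := ∃ d0 : ℕ, ∀ d : ℕ, d0 ≤ d → ∃ C1 : Submodule F2 (Fin d → F2),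
  (15 / 16 : ℝ) * d ≤ Module.finrank F2 C1 ∧ MinD ((1 / 400 : ℝ) * d) C1

/-- the other end of the edge `(u, k)`: `u = (g, false)` is a left vertex, joined by its edge `k` to
the right vertex `g * b k`; `u = (h, true)` is a right vertex, joined to the left vertex
`h * (b k)⁻¹`. -/
def oth {H : Type} [Group H] {d : ℕ} (b : Fin d → H) (u : H × Bool) (k : Fin d) : H × Bool :=
  if u.2 then (u.1 * (b k)⁻¹, false) else (u.1 * b k, true)

/-- the edge (an element of `H × Fin d`: left end and label) which is number `k` at the vertex `u` -/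
def edg {H : Type} [Group H] {d : ℕ} (b : Fin d → H) (u : H × Bool) (k : Fin d) : H × Fin d :=
  if u.2 then (u.1 * (b k)⁻¹, k) else (u.1, k)

/-- the view of a vertex -/
def vw {H : Type} [Group H] {d : ℕ} (b : Fin d → H) (x : H × Fin d → F2) (u : H × Bool) :
    Fin d → F2 := fun k => x (edg b u k)

/-- the Tanner code on the bipartite Cayley graph -/
def Tan {H : Type} [Group H] {d : ℕ} (b : Fin d → H) (C1 : Submodule F2 (Fin d → F2)) :
    Submodule F2 (H × Fin d → F2) where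
  carrier := {x | ∀ u, vw b x u ∈ C1}
  add_mem' := by
    intro x y hx hy u
    exact C1.add_mem (hx u) (hy u)
  zero_mem' := by
    intro u
    exact C1.zero_mem
  smul_mem' := by
    intro c x hx u
    exact C1.smul_mem c (hx u)

/-- dimension of the Tanner code -/
def S_TDIM : Prop := ∀ (H : Type) [Group H] [Fintype H] (d : ℕ) (b : Fin d → H)
  (C1 : Submodule F2 (Fin d → F2)), (15 / 16 : ℝ) * d ≤ Module.finrank F2 C1 →
    (7 / 8 : ℝ) * Fintype.card (H × Fin d) ≤ Module.finrank F2 (Tan b C1)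

/-- distance of the Tanner code -/
def S_TDIST : Prop := ∀ (H : Type) [Group H] [Fintype H] (d : ℕ) (b : Fin d → H) (lam δ1 : ℝ)
  (C1 : Submodule F2 (Fin d → F2)), 0 < δ1 → 0 < lam → lam ≤ δ1 / 8 → Exp lam b →
  MinD (δ1 * d) C1 → MinD (δ1 ^ 2 / 2 * Fintype.card (H × Fin d)) (Tan b C1)

/-- number of edges of `u` whose other end is in `U` -/
noncomputable def dg {H : Type} [Group H] {d : ℕ} (b : Fin d → H) (U : Finset (H × Bool))
    (u : H × Bool) : ℕ := (univ.filter fun k : Fin d => oth b u k ∈ U).card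

/-- closure of a small set of vertices -/
def S_CLOS : Prop := ∀ (H : Type) [Group H] [Fintype H] (d : ℕ) (b : Fin d → H) (lam δ1 : ℝ),
  0 < d → 0 < δ1 → 0 < lam → lam ≤ δ1 / 8 → Exp lam b → ∀ U0 : Finset (H × Bool),
  (2 * U0.card : ℝ) < δ1 / 2 * Fintype.card H →
  ∃ U : Finset (H × Bool), U0 ⊆ U ∧ U.card ≤ 2 * U0.card ∧
    ∀ u ∉ U, (dg b U u : ℝ) < δ1 / 2 * d

/-- a word which satisfies the local constraints outside of `U` is zero or heavy off `U` -/
def S_COL : Prop := ∀ (H : Type) [Group H] [Fintype H] (d : ℕ) (b : Fin d → H) (lam δ1 : ℝ)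
  (C1 : Submodule F2 (Fin d → F2)), 0 < d → 0 < δ1 → 0 < lam → lam ≤ δ1 / 8 → Exp lam b →
  MinD (δ1 * d) C1 → ∀ U : Finset (H × Bool), (∀ u ∉ U, (dg b U u : ℝ) < δ1 / 2 * d) →
  ∀ x : H × Fin d → F2, (∀ u ∉ U, vw b x u ∈ C1) →
  (∃ e : H × Fin d, x e ≠ 0 ∧ (e.1, false) ∉ U ∧ (e.1 * b e.2, true) ∉ U) →
  δ1 ^ 2 / 8 * Fintype.card (H × Fin d) ≤
    ((univ.filter fun e : H × Fin d => x e ≠ 0 ∧ (e.1, false) ∉ U ∧
      (e.1 * b e.2, true) ∉ U).card : ℝ)

/-- extension from the complement of few rows and columns -/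
def S_EXT : Prop := ∀ (I : Type) [Fintype I] (C0 : Submodule F2 (I → F2)) (d : ℝ), MinD d C0 →
  ∀ R V : Finset I, (R.card : ℝ) < d → (V.card : ℝ) < d →
  ∀ w1 w2 : I → I → F2, (∀ j, (fun i => w1 i j) ∈ C0) → (∀ i, w2 i ∈ C0) →
  (∀ i ∉ R, ∀ j ∉ V, w1 i j = w2 i j) →
  ∃ w : I → I → F2, InLoc C0 w ∧ (∀ j ∉ V, ∀ i, w i j = w1 i j) ∧ ∀ i ∉ R, w i = w2 i

/-- agreement testability of the Tanner code, with a constant that does not depend on the group -/
def S_AT : Prop := ∀ (d : ℕ) (δ1 : ℝ), 0 < d → 0 < δ1 → ∃ κ : ℝ, 0 < κ ∧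
  ∀ (H : Type) [Group H] [Fintype H] (b : Fin d → H) (lam : ℝ)
    (C1 : Submodule F2 (Fin d → F2)), 0 < lam → lam ≤ δ1 / 8 → Exp lam b →
    MinD (δ1 * d) C1 → AT κ (Tan b C1)

/-! ## The square complex -/

section Complex
variable {G : Type} [Group G] {I : Type}

/-- vertices: four copies of the group -/
abbrev Vx (G : Type) := G × Bool × Bool

/-- the neighbour of a vertex along its edge `i` of the first (left) kind -/
def nbA (b : I → G) (v : Vx G) (i : I) : Vx G :=
  ((if v.2.1 then (b i)⁻¹ else b i) * v.1, !v.2.1, v.2.2)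

/-- the neighbour of a vertex along its edge `j` of the second (right) kind -/
def nbB (b : I → G) (v : Vx G) (j : I) : Vx G :=
  (v.1 * (if v.2.2 then (b j)⁻¹ else b j), v.2.1, !v.2.2)

/-- the square `(i, j)` at the vertex `v` -/
def sq (b : I → G) (v : Vx G) (i j : I) : G × I × I :=
  ((if v.2.1 then (b i)⁻¹ else 1) * v.1 * (if v.2.2 then (b j)⁻¹ else 1), i, j)

/-- the view of the vertex `v` -/
def view (b : I → G) (x : G × I × I → F2) (v : Vx G) : I → I → F2 := fun i j => x (sq b v i j)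

/-- the code on the square complex -/
def CC (b : I → G) (C0 : Submodule F2 (I → F2)) : Submodule F2 (G × I × I → F2) where
  carrier := {x | ∀ v, InLoc C0 (view b x v)}
  add_mem' := by
    intro x y hx hy v
    exact ⟨fun i => C0.add_mem ((hx v).1 i) ((hy v).1 i),
      fun j => C0.add_mem ((hx v).2 j) ((hy v).2 j)⟩
  zero_mem' := by
    intro v
    exact ⟨fun i => C0.zero_mem, fun j => C0.zero_mem⟩
  smul_mem' := by
    intro c x hx v
    exact ⟨fun i => C0.smul_mem c ((hx v).1 i), fun j => C0.smul_mem c ((hx v).2 j)⟩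

/-- number of disagreements which the matrix `m` would have at the vertex `v`, if the neighbours
have the matrices `z` -/
noncomputable def cost [Fintype I] (b : I → G) (z : Vx G → I → I → F2) (v : Vx G)
    (m : I → I → F2) : ℕ :=
  (univ.filter fun i : I => m i ≠ z (nbA b v i) i).card +
    (univ.filter fun j : I => (fun i => m i j) ≠ fun i => z (nbB b v j) i j).card

end Complex

/-- a local minimum has no disagreement, or linearly many -/
def S_LMIN : Prop := ∀ (G : Type) [Group G] [Fintype G] (I : Type) [Fintype I] (b : I → G)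
  (lam κ : ℝ) (C0 : Submodule F2 (I → F2)), 0 < lam → 0 < κ → lam ≤ κ / 8 → Exp lam b → AT κ C0 →
  ∀ z : Vx G → I → I → F2, (∀ v, InLoc C0 (z v)) →
  (∀ v m, InLoc C0 m → cost b z v (z v) ≤ cost b z v m) →
  (∑ v, cost b z v (z v) = 0 ∨
    (κ / 8) ^ 2 * Fintype.card G ≤ ((∑ v, cost b z v (z v) : ℕ) : ℝ))

/-- the greedy algorithm -/
def S_GREEDY : Prop := ∀ (G : Type) [Group G] [Fintype G] (I : Type) [Fintype I] (b : I → G)
  (C0 : Submodule F2 (I → F2)) (z0 : Vx G → I → I → F2), (∀ v, InLoc C0 (z0 v)) →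
  ∃ z : Vx G → I → I → F2, (∀ v, InLoc C0 (z v)) ∧
    (∀ v m, InLoc C0 m → cost b z v (z v) ≤ cost b z v m) ∧
    ∑ v, cost b z v (z v) ≤ ∑ v, cost b z0 v (z0 v) ∧
    (univ.filter fun v => z v ≠ z0 v).card ≤ ∑ v, cost b z0 v (z0 v)

/-- no disagreement: a codeword -/
def S_DEC : Prop := ∀ (G : Type) [Group G] [Fintype G] (I : Type) [Fintype I] (b : I → G)
  (C0 : Submodule F2 (I → F2)) (z : Vx G → I → I → F2), (∀ v, InLoc C0 (z v)) →
  ∑ v, cost b z v (z v) = 0 → ∃ x ∈ CC b C0, ∀ v, view b x v = z v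

/-- soundness of the vertex test -/
def S_SOUND : Prop := ∀ (n : ℕ) (κ : ℝ), 0 < κ → ∃ κ' : ℝ, 0 < κ' ∧
  ∀ (G : Type) [Group G] [Fintype G] (I : Type) [Fintype I] (b : I → G)
  (lam : ℝ) (C0 : Submodule F2 (I → F2)), Fintype.card I = n → 0 < lam → lam ≤ κ / 8 →
  Exp lam b → AT κ C0 → ∀ w : G × I × I → F2, ∃ c ∈ CC b C0,
    κ' * hammingDist w c ≤ ((univ.filter fun v => ¬ InLoc C0 (view b w v)).card : ℝ)

/-- rate of the code on the square complex -/
def S_RATE : Prop := ∀ (G : Type) [Group G] [Fintype G] (I : Type) [Fintype I] (b : I → G)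
  (C0 : Submodule F2 (I → F2)), (7 / 8 : ℝ) * Fintype.card I ≤ Module.finrank F2 C0 →
  (1 / 2 : ℝ) * Fintype.card (G × I × I) ≤ Module.finrank F2 (CC b C0)

/-- distance of the code on the square complex -/
def S_CDIST : Prop := ∀ (G : Type) [Group G] [Fintype G] (I : Type) [Fintype I] (b : I → G)
  (lam δ : ℝ) (C0 : Submodule F2 (I → F2)), 0 < lam → 0 < δ → lam ≤ δ / 2 → Exp lam b →
  MinD (δ * Fintype.card I) C0 → MinD (δ ^ 3 / 2 * Fintype.card (G × I × I)) (CC b C0)

/-! ## Locally testable codes given by tests -/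

/-- the code defined by the tests `∑ l, h e l * x (Q e l) = 0` -/
def codeOf {ι E : Type} {q : ℕ} (Q : E → Fin q → ι) (h : E → Fin q → F2) :
    Submodule F2 (ι → F2) where
  carrier := {x | ∀ e, ∑ l, h e l * x (Q e l) = 0}
  add_mem' := by
    intro x y hx hy e
    simp only [Pi.add_apply, mul_add, Finset.sum_add_distrib]
    rw [hx e, hy e, add_zero]
  zero_mem' := by
    intro e
    simp
  smul_mem' := by
    intro c x hx e
    have : ∑ l, h e l * (c • x) (Q e l) = c * ∑ l, h e l * x (Q e l) := by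
      rw [Finset.mul_sum]
      refine Finset.sum_congr rfl fun l _ => ?_
      simp only [Pi.smul_apply, smul_eq_mul]
      ring
    rw [this, hx e, mul_zero]

/-- a good locally testable code with tests of `q` positions -/
structure IsLTC (q D : ℕ) (ρ δ κ : ℝ) {ι E : Type} [Fintype ι] [Fintype E] (Q : E → Fin q → ι)
    (h : E → Fin q → F2) : Prop where
  deg : ∀ i, (univ.filter fun p : E × Fin q => Q p.1 p.2 = i).card ≤ D
  rate : ρ * Fintype.card ι ≤ Module.finrank F2 (codeOf Q h)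
  dist : MinD (δ * Fintype.card ι) (codeOf Q h)
  sound : ∀ w : ι → F2, ∃ c ∈ codeOf Q h,
    κ * hammingDist w c ≤ ((univ.filter fun e => ∑ l, h e l * w (Q e l) ≠ 0).card : ℝ)

/-- existence of good locally testable codes -/
def S_LTC : Prop := ∃ (q D : ℕ) (ρ δ κ : ℝ), 0 < q ∧ 0 < ρ ∧ 0 < δ ∧ 0 < κ ∧ ∀ N : ℕ,
  ∃ (ι E : Type) (_ : Fintype ι) (_ : Fintype E) (Q : E → Fin q → ι) (h : E → Fin q → F2),
    N ≤ Fintype.card ι ∧ IsLTC q D ρ δ κ Q h

/-! ## Generic families of functionals -/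

section Gen
variable {E : Type} [AddCommGroup E] [Module F2 E]

/-- span of the `F u`, `u` in a set of indices -/
def spn {V : Type} (F : V → E) (J : Set V) : Submodule F2 E := Submodule.span F2 (F '' J)

/-- `F v` is in the span of the other `F u`, `u` in a random set of density `1 / (K + 1)`, with
probability at most `1 - c` -/
def Gen {V : Type} [Fintype V] (K : ℕ) (c : ℝ) (F : V → E) (v : V) : Prop :=
  ((univ.filter fun σ : V → Fin (K + 1) => F v ∈ spn F {u | u ≠ v ∧ σ u = 0}).card : ℝ) ≤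
    (1 - c) * (K + 1 : ℝ) ^ Fintype.card V

end Gen

/-- first stage: choice of `φ` -/
def S_ST1 : Prop := ∀ δ ρ : ℝ, 0 < δ → 0 < ρ → ∃ (m1 K1 : ℕ) (c : ℝ), 0 < c ∧
  ∀ (ι : Type) [Fintype ι] [Nonempty ι] (E : Type) [AddCommGroup E] [Module F2 E] [Module.Finite F2 E]
    (α β : ι → E) (k : ℕ), ρ * Fintype.card ι ≤ k →
    (∀ W : Submodule F2 E, Module.finrank F2 W < k → ∀ i,
      δ * Fintype.card ι ≤ ((univ.filter fun j => α i + β j ∉ W).card : ℝ)) →
    ∃ φ : ι → ι, (∀ j, (univ.filter fun i => φ i = j).card ≤ m1) ∧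
      ∀ i, Gen K1 c (fun i => α i + β (φ i)) i

/-- small subspaces contain few elements of a generic family -/
def S_SPR : Prop := ∀ (K : ℕ) (c : ℝ), 0 < c → ∃ c1 : ℕ,
  ∀ (ι : Type) [Fintype ι] (E : Type) [AddCommGroup E] [Module F2 E] [Module.Finite F2 E] (a : ι → E),
    (∀ i, Gen K c a i) → ∀ W : Submodule F2 E,
      (univ.filter fun i => a i ∈ W).card ≤ c1 * Module.finrank F2 W

/-- the stored functionals -/
noncomputable def stF {ι N Var E : Type} [Fintype Var] [AddCommGroup E] (a : ι → E) (β : N → E)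
    (Kf : N → Finset Var) (ω : Var → ι) : ι ⊕ N → E
  | Sum.inl i => a i
  | Sum.inr u => β u + ∑ k ∈ Kf u, a (ω k)

/-- second stage: the potential argument -/
def S_POT : Prop := ∀ c1 m D0 C2 : ℕ, ∃ K n0 : ℕ,
  ∀ (ι N Var E : Type) [Fintype ι] [Fintype N] [Fintype Var] [AddCommGroup E] [Module F2 E]
    [Module.Finite F2 E]
    (a : ι → E) (β : N → E) (Kf : N → Finset Var), n0 ≤ Fintype.card ι →
    Fintype.card N ≤ C2 * Fintype.card ι → Fintype.card Var ≤ m * Fintype.card ι →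
    (∀ W : Submodule F2 E, (univ.filter fun i => a i ∈ W).card ≤ c1 * Module.finrank F2 W) →
    (∀ u, (Kf u).Nonempty) → (∀ k, (univ.filter fun u => k ∈ Kf u).card ≤ D0) →
    ∃ ω : Var → ι, (∀ j, (univ.filter fun k => ω k = j).card ≤ 2 * m) ∧
      ∀ u : N, Gen K (1 / 2) (stF a β Kf ω) (Sum.inr u)

/-- counting of short relations -/
def S_CNT : Prop := ∀ (K K1 : ℕ) (c : ℝ), 0 < c → ∃ B : ℕ,
  ∀ (ι N E : Type) [Fintype ι] [Fintype N] [AddCommGroup E] [Module F2 E] (F : ι ⊕ N → E),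
    (∀ u : N, Gen K (1 / 2) F (Sum.inr u)) → (∀ i : ι, Gen K1 c (fun i => F (Sum.inl i)) i) →
    (univ.filter fun u : ι ⊕ N → F2 => ∑ v, u v • F v = 0 ∧ 0 < hammingNorm u ∧
      hammingNorm u ≤ 3).card ≤ B * Fintype.card (ι ⊕ N)

end Pool.Agent.Helper835_LTC
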