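import Pool.Agent.Helper835_LTC.Defs

/-!
# PROJECT LTC: the masked code with three-query tests
-/

set_option autoImplicit false

open Finset
open scoped Classical

namespace Pool.Agent.Helper835_LTC

section Mask
variable {ι E : Type}

/-- messages: three codewords -/
abbrev Msg (C : Submodule F2 (ι → F2)) := C × C × C

/-- coordinate `i` of the first codeword -/
def fx (C : Submodule F2 (ι → F2)) (i : ι) : Module.Dual F2 (Msg C) :=
  (LinearMap.proj i).comp (C.subtype.comp (LinearMap.fst F2 C (C × C)))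

/-- coordinate `i` of the second codeword -/
def fy (C : Submodule F2 (ι → F2)) (i : ι) : Module.Dual F2 (Msg C) :=
  (LinearMap.proj i).comp (C.subtype.comp ((LinearMap.fst F2 C C).comp (LinearMap.snd F2 C (C × C))))

/-- coordinate `i` of the third codeword -/
def fz (C : Submodule F2 (ι → F2)) (i : ι) : Module.Dual F2 (Msg C) :=
  (LinearMap.proj i).comp (C.subtype.comp ((LinearMap.snd F2 C C).comp (LinearMap.snd F2 C (C × C))))

theorem fx_apply (C : Submodule F2 (ι → F2)) (i : ι) (m : Msg C) : fx C i m = m.1.1 i := rfl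
theorem fy_apply (C : Submodule F2 (ι → F2)) (i : ι) (m : Msg C) : fy C i m = m.2.1.1 i := rfl
theorem fz_apply (C : Submodule F2 (ι → F2)) (i : ι) (m : Msg C) : fz C i m = m.2.2.1 i := rfl

/-- coordinate functionals of the codeword number `t` -/
def fw (C : Submodule F2 (ι → F2)) (t : Fin 3) (i : ι) : Module.Dual F2 (Msg C) :=
  if t = 0 then fx C i else if t = 1 then fy C i else fz C i

/-- masked coordinates of the first codeword -/
def fa (C : Submodule F2 (ι → F2)) (φ : ι → ι) (i : ι) : Module.Dual F2 (Msg C) :=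
  fx C i + fy C (φ i)

/-- indices of the other stored bits: masked coordinates of the second and third codeword
(`(false, i)` and `(true, i)`), and masked partial sums of the tests -/
abbrev NN (ι E : Type) (q : ℕ) := (Bool × ι) ⊕ (Fin 3 × E × Fin (q + 1) × Fin 3)

/-- variables: `(false, i)` is the index which masks coordinate `i` of the second codeword,
`(true, i)` the one of the third -/
abbrev VV (ι : Type) := Bool × ι

/-- the part of the stored functional that does not depend on the variables -/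
def fb {q : ℕ} (C : Submodule F2 (ι → F2)) (Q : E → Fin (q + 1) → ι) (h : E → Fin (q + 1) → F2)
    (φ : ι → ι) : NN ι E q → Module.Dual F2 (Msg C)
  | Sum.inl p => if p.1 then fz C p.2 else fy C p.2
  | Sum.inr (t, e, l, s) =>
      (if t = 2 then fy C (Q e 0) else fz C (Q e 0)) +
        (∑ l' ∈ univ.filter (fun l' => l' < l), h e l' • fw C t (Q e l')) +
        h e l • (if t = 0 ∧ s = 0 then fa C φ (Q e l) else fw C t (Q e l))

/-- the variable in the partial sum, if there is one -/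
def kv {q : ℕ} (Q : E → Fin (q + 1) → ι) (φ : ι → ι) (t : Fin 3) (e : E) (l : Fin (q + 1)) : VV ι :=
  if t = 0 then (false, φ (Q e l)) else if t = 1 then (false, Q e l) else (true, Q e l)

/-- the set of variables of a stored functional -/
noncomputable def kf {q : ℕ} (Q : E → Fin (q + 1) → ι) (h : E → Fin (q + 1) → F2) (φ : ι → ι) :
    NN ι E q → Finset (VV ι)
  | Sum.inl p => {p}
  | Sum.inr (t, e, l, s) =>
      {(decide (t ≠ 2), Q e 0)} ∪
        (if h e l ≠ 0 ∧ ((t = 0 ∧ s = 1) ∨ (t ≠ 0 ∧ s = 0)) then {kv Q φ t e l} else ∅)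

/-- all stored functionals -/
noncomputable def FF [Fintype ι] {q : ℕ} (C : Submodule F2 (ι → F2)) (Q : E → Fin (q + 1) → ι)
    (h : E → Fin (q + 1) → F2) (φ : ι → ι) (ω : VV ι → ι) :
    ι ⊕ NN ι E q → Module.Dual F2 (Msg C) :=
  stF (fa C φ) (fb C Q h φ) (kf Q h φ) ω

/-- the encoding -/
noncomputable def enc {V M : Type} [AddCommGroup M] [Module F2 M] (F : V → Module.Dual F2 M) :
    M →ₗ[F2] (V → F2) := LinearMap.pi F

/-- the final code -/
noncomputable def fin3 [Fintype ι] {q : ℕ} (C : Submodule F2 (ι → F2)) (Q : E → Fin (q + 1) → ι)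
    (h : E → Fin (q + 1) → F2) (φ : ι → ι) (ω : VV ι → ι) : Submodule F2 (ι ⊕ NN ι E q → F2) :=
  LinearMap.range (enc (FF C Q h φ ω))

end Mask

/-- the nonzero dual words of weight at most three -/
noncomputable def D3 {V : Type} [Fintype V] (C : Submodule F2 (V → F2)) : Finset (V → F2) :=
  univ.filter fun u => (∀ c ∈ C, ∑ i, u i * c i = 0) ∧ 0 < hammingNorm u ∧ hammingNorm u ≤ 3

/-- size of the index set of the final code -/
def S_SIZE : Prop := ∀ (q D : ℕ) (ρ δ κ : ℝ) (ι E : Type) [Fintype ι] [Fintype E]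
  (Q : E → Fin (q + 1) → ι) (h : E → Fin (q + 1) → F2), IsLTC (q + 1) D ρ δ κ Q h →
  Fintype.card E ≤ D * Fintype.card ι ∧
  Fintype.card (NN ι E q) ≤ (2 + 9 * (q + 1) * D) * Fintype.card ι

/-- every variable occurs in boundedly many stored functionals -/
def S_OCC : Prop := ∀ (q D m1 : ℕ) (ρ δ κ : ℝ) (ι E : Type) [Fintype ι] [Fintype E]
  (Q : E → Fin (q + 1) → ι) (h : E → Fin (q + 1) → F2) (φ : ι → ι), IsLTC (q + 1) D ρ δ κ Q h →
  (∀ j, (univ.filter fun i => φ i = j).card ≤ m1) → ∀ k,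
  (univ.filter fun u => k ∈ kf Q h φ u).card ≤ 1 + 9 * (q + 1) * D + 3 * D + 3 * m1 * D

/-- hypothesis of the first stage for the coordinates of a code of distance `δ n` -/
def S_HYP : Prop := ∀ (ι : Type) [Fintype ι] (C : Submodule F2 (ι → F2)) (δ : ℝ),
  MinD (δ * Fintype.card ι) C → ∀ W : Submodule F2 (Module.Dual F2 (Msg C)),
  Module.finrank F2 W < Module.finrank F2 C → ∀ i,
    δ * Fintype.card ι ≤ ((univ.filter fun j => fx C i + fy C j ∉ W).card : ℝ)

/-- decoding: the message is determined by few stored bits, robustly -/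
def S_DIST3 : Prop := ∀ (q D m1 m2 : ℕ) (ρ δ κ : ℝ), 0 < ρ → 0 < δ → 0 < κ → ∃ ρ' δ' : ℝ,
  0 < ρ' ∧ 0 < δ' ∧ ∀ (ι E : Type) [Fintype ι] [Fintype E] [Nonempty ι]
  (Q : E → Fin (q + 1) → ι) (h : E → Fin (q + 1) → F2) (φ : ι → ι) (ω : VV ι → ι),
  IsLTC (q + 1) D ρ δ κ Q h → (∀ j, (univ.filter fun i => φ i = j).card ≤ m1) →
  (∀ j, (univ.filter fun k => ω k = j).card ≤ m2) →
  ρ' * Fintype.card (ι ⊕ NN ι E q) ≤ Module.finrank F2 (fin3 (codeOf Q h) Q h φ ω) ∧
  MinD (δ' * Fintype.card (ι ⊕ NN ι E q)) (fin3 (codeOf Q h) Q h φ ω)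

/-- soundness of the tests by the dual words of weight at most three -/
def S_SND3 : Prop := ∀ (q D m1 m2 : ℕ) (ρ δ κ : ℝ), 0 < ρ → 0 < δ → 0 < κ → ∃ κ' : ℝ,
  0 < κ' ∧ ∀ (ι E : Type) [Fintype ι] [Fintype E]
  (Q : E → Fin (q + 1) → ι) (h : E → Fin (q + 1) → F2) (φ : ι → ι) (ω : VV ι → ι),
  IsLTC (q + 1) D ρ δ κ Q h → (∀ j, (univ.filter fun i => φ i = j).card ≤ m1) →
  (∀ j, (univ.filter fun k => ω k = j).card ≤ m2) →
  ∀ w : ι ⊕ NN ι E q → F2, ∃ c ∈ fin3 (codeOf Q h) Q h φ ω,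
    κ' * hammingDist w c ≤
      (((D3 (fin3 (codeOf Q h) Q h φ ω)).filter fun u => ∑ v, u v * w v ≠ 0).card : ℝ)

/-- a good code: rate, distance, hypothesis (H), and few dual words of weight at most three -/
structure Good (r δ s M : ℝ) {V : Type} [Fintype V] (C : Submodule F2 (V → F2)) : Prop where
  rate : r * Fintype.card V ≤ Module.finrank F2 C
  dist : MinD (δ * Fintype.card V) C
  pos : 0 < (D3 C).card
  cnt : ((D3 C).card : ℝ) ≤ M * Fintype.card V
  hyp : ∀ w : V → F2, (∀ c ∈ C, δ / 3 * Fintype.card V ≤ hammingDist w c) →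
    s * (D3 C).card ≤ (((D3 C).filter fun u => ∑ v, u v * w v ≠ 0).card : ℝ)

/-- good codes of unbounded length -/
def S_GOOD : Prop := ∃ r δ s M : ℝ, 0 < r ∧ 0 < δ ∧ 0 < s ∧ ∀ N : ℕ,
  ∃ (V : Type) (_ : Fintype V) (C : Submodule F2 (V → F2)), N ≤ Fintype.card V ∧ Good r δ s M C

/-- the frozen statement S14714 -/
def S_FINAL : Prop :=
    ¬ (∀ (S : Set ℕ), S.Infinite →
  ∀ (C : ∀ n : ℕ, Submodule (ZMod 2) (Fin n → ZMod 2)) (r δ s : ℝ),
    0 < r → 0 < δ → 0 < s →
    (∀ n ∈ S, r * (n : ℝ) ≤ (Module.finrank (ZMod 2) (C n) : ℝ)) →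
    (∀ n ∈ S, ∀ c ∈ C n, c ≠ 0 → δ * (n : ℝ) ≤ (hammingNorm c : ℝ)) →
    (∀ n ∈ S, ∀ w : Fin n → ZMod 2,
      (∀ c ∈ C n, δ / 3 * (n : ℝ) ≤ (hammingDist w c : ℝ)) →
      s ≤ ({u : Fin n → ZMod 2 | (∀ c ∈ C n, ∑ i, u i * c i = 0) ∧
              0 < hammingNorm u ∧ hammingNorm u ≤ 3 ∧ ∑ i, u i * w i ≠ 0}.ncard : ℝ) /
          ({u : Fin n → ZMod 2 | (∀ c ∈ C n, ∑ i, u i * c i = 0) ∧
              0 < hammingNorm u ∧ hammingNorm u ≤ 3}.ncard : ℝ)) →
    ∀ M : ℝ, ∃ N : ℕ, ∀ n ∈ S, N ≤ n →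
      M * (n : ℝ) ≤ ({u : Fin n → ZMod 2 | (∀ c ∈ C n, ∑ i, u i * c i = 0) ∧
              0 < hammingNorm u ∧ hammingNorm u ≤ 3}.ncard : ℝ))

end Pool.Agent.Helper835_LTC
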