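import Pool.Agent.Helper835_LTC.Defs
import Pool.Agent.Helper418_Sofic.TIneq

/-!
# PROJECT LTC: expanders from T-systems (the T-systems of helper418)
-/

set_option autoImplicit false

open Finset
open scoped Classical

namespace Pool.Agent.Helper835_LTC

/-- finite groups of unbounded order generated by a T-system of six elements of order 17 -/
def S_GRP : Prop := ∀ N : ℕ, ∃ (G : Type) (_ : Group G) (_ : Fintype G) (s : Fin 6 → G),
  N ≤ Fintype.card G ∧ Helper418.IsTSystem 17 4 s ∧ Subgroup.closure (Set.range s) = ⊤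

/-- spectral gap of a finite group generated by a T-system -/
def S_GAP : Prop := ∀ (G : Type) [Group G] [Fintype G] (ι : Type) [Fintype ι] [Nonempty ι]
  (p D : ℕ) (s : ι → G), Helper418.IsTSystem p D s → Subgroup.closure (Set.range s) = ⊤ →
  ∀ f : G → ℝ, ∑ g, f g = 0 →
    ∑ g, (∑ i, ∑ k ∈ Finset.range p, f (g * s i ^ k)) ^ 2 ≤
      ((1 - (1 - D / Real.sqrt p) / Fintype.card ι) * (Fintype.card ι * p)) ^ 2 * ∑ g, f g ^ 2

end Pool.Agent.Helper835_LTC
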