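import Mathlib
import Pool.Agent.Helper835_LTC.Defs

set_option autoImplicit false

open Finset
open scoped Classical

namespace Pool.Agent.Helper835_LTC.J_AT

open Pool.Agent.Helper835_LTC

section
variable {H : Type} [Group H] [Fintype H] {d : ℕ}

/-- number of different entries in row `i` -/
noncomputable def rw0 (w1 w2 : H × Fin d → H × Fin d → F2) (i : H × Fin d) : ℕ :=
  (univ.filter fun j : H × Fin d => w1 i j ≠ w2 i j).card

/-- load of a vertex -/
noncomputable def load (b : Fin d → H) (w1 w2 : H × Fin d → H × Fin d → F2) (u : H × Bool) : ℕ :=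
  ∑ k, rw0 w1 w2 (edg b u k)

theorem entD_eq {I : Type} [Fintype I] (w1 w2 : I → I → F2) :
    entD w1 w2 = ∑ i, (univ.filter fun j : I => w1 i j ≠ w2 i j).card := by
  unfold entD
  rw [Finset.card_filter]
  rw [Fintype.sum_prod_type]
  refine Finset.sum_congr rfl fun i _ => ?_
  rw [Finset.card_filter]

theorem entD_eq_col {I : Type} [Fintype I] (w1 w2 : I → I → F2) :
    entD w1 w2 = ∑ j, (univ.filter fun i : I => w1 i j ≠ w2 i j).card := by
  unfold entD
  rw [Finset.card_filter]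
  rw [Fintype.sum_prod_type_right]
  refine Finset.sum_congr rfl fun i _ => ?_
  rw [Finset.card_filter]

theorem sum_load (b : Fin d → H) (w1 w2 : H × Fin d → H × Fin d → F2) :
    ∑ u, load b w1 w2 u = 2 * entD w1 w2 := by
  have h1 : ∑ g : H, load b w1 w2 (g, false) = entD w1 w2 := by
    rw [entD_eq, Fintype.sum_prod_type]
    refine Finset.sum_congr rfl fun g _ => ?_
    unfold load edg rw0
    simp
  have h2 : ∑ g : H, load b w1 w2 (g, true) = entD w1 w2 := by
    rw [entD_eq, Fintype.sum_prod_type_right]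
    unfold load
    rw [Finset.sum_comm]
    refine Finset.sum_congr rfl fun k _ => ?_
    have := Equiv.sum_comp (Equiv.mulRight (b k)⁻¹) (fun g : H => rw0 w1 w2 (g, k))
    rw [show (∑ x : H, (univ.filter fun j : H × Fin d => w1 (x, k) j ≠ w2 (x, k) j).card) =
      ∑ g : H, rw0 w1 w2 (g, k) from rfl, ← this]
    refine Finset.sum_congr rfl fun g _ => ?_
    simp [edg]
  rw [Fintype.sum_prod_type]
  simp only [Fintype.sum_bool]
  rw [Finset.sum_add_distrib, h1, h2]
  ring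

theorem claim1 (b : Fin d → H) (C1 : Submodule F2 (Fin d → F2)) (D : ℝ)
    (hD : MinD D (Tan b C1)) (w1 w2 : H × Fin d → H × Fin d → F2)
    (h1 : ∀ j, (fun i => w1 i j) ∈ Tan b C1) (h2 : ∀ i, w2 i ∈ Tan b C1)
    (u : H × Bool) (hu : (load b w1 w2 u : ℝ) < D) (j : H × Fin d) :
    (fun k => w1 (edg b u k) j - w2 (edg b u k) j) ∈ C1 := by
  by_contra hv
  obtain ⟨f, hf, hC⟩ := Submodule.exists_le_ker_of_notMem hv
  have hw1 : ∀ j', f (fun k => w1 (edg b u k) j') = 0 := by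
    intro j'
    have : (fun k => w1 (edg b u k) j') ∈ C1 := h1 j' u
    exact hC this
  set z : H × Fin d → F2 := fun j' => f (fun k => w2 (edg b u k) j') with hz
  have hzC : z ∈ Tan b C1 := by
    have : z = ∑ k, f (Pi.single k 1) • w2 (edg b u k) := by
      funext j'
      simp only [hz, Finset.sum_apply, Pi.smul_apply, smul_eq_mul]
      have e1 : (fun k => w2 (edg b u k) j') =
          ∑ k, w2 (edg b u k) j' • (Pi.single k (1 : F2) : Fin d → F2) := by
        funext k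
        simp [Finset.sum_apply, Pi.single_apply]
      rw [e1, map_sum]
      refine Finset.sum_congr rfl fun k _ => ?_
      rw [map_smul, smul_eq_mul, mul_comm]
    rw [this]
    exact Submodule.sum_mem _ fun k _ => Submodule.smul_mem _ _ (h2 _)
  have hz0 : z = 0 := by
    by_contra hne
    have hlow := hD z hzC hne
    have hup : hammingNorm z ≤ load b w1 w2 u := by
      unfold hammingNorm load rw0
      refine le_trans (Finset.card_le_card ?_) (Finset.card_biUnion_le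
        (s := univ) (t := fun k => univ.filter fun j' : H × Fin d =>
          w1 (edg b u k) j' ≠ w2 (edg b u k) j'))
      intro j' hj'
      simp only [Finset.mem_filter, Finset.mem_univ, true_and, Finset.mem_biUnion] at hj' ⊢
      by_contra hcon
      push Not at hcon
      apply hj'
      simp only [hz]
      have : (fun k => w2 (edg b u k) j') = (fun k => w1 (edg b u k) j') := by
        funext k
        exact (hcon k).symm
      rw [this]
      exact hw1 j'
    have : (hammingNorm z : ℝ) ≤ load b w1 w2 u := by exact_mod_cast hup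
    linarith
  apply hf
  have e2 : (fun k => w1 (edg b u k) j - w2 (edg b u k) j) =
      (fun k => w1 (edg b u k) j) - (fun k => w2 (edg b u k) j) := rfl
  rw [e2, map_sub, hw1 j, zero_sub, neg_eq_zero]
  exact congrFun hz0 j

end

/-- the rows that are spoiled by the set of vertices `U` -/
noncomputable def RR {H : Type} [Group H] [Fintype H] {d : ℕ} (b : Fin d → H)
    (U : Finset (H × Bool)) : Finset (H × Fin d) :=
  univ.filter fun i => (i.1, false) ∈ U ∨ (i.1 * b i.2, true) ∈ U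

theorem card_RR {H : Type} [Group H] [Fintype H] {d : ℕ} (b : Fin d → H)
    (U : Finset (H × Bool)) : (RR b U).card ≤ U.card * d := by
  have : RR b U ⊆ (U ×ˢ (univ : Finset (Fin d))).image (fun p => edg b p.1 p.2) := by
    intro i hi
    simp only [RR, Finset.mem_filter, Finset.mem_univ, true_and] at hi
    rw [Finset.mem_image]
    rcases hi with hi | hi
    · exact ⟨((i.1, false), i.2), by simp [hi], by simp [edg]⟩
    · exact ⟨((i.1 * b i.2, true), i.2), by simp [hi], by simp [edg]⟩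
  calc (RR b U).card ≤ _ := Finset.card_le_card this
    _ ≤ _ := Finset.card_image_le
    _ = U.card * d := by simp

theorem small (tdist : S_TDIST) (clos : S_CLOS) (col : S_COL) (ext : S_EXT)
    (H : Type) [Group H] [Fintype H] (d : ℕ) (b : Fin d → H) (lam δ1 : ℝ)
    (C1 : Submodule F2 (Fin d → F2)) (hd : 0 < d) (hδ : 0 < δ1) (hl : 0 < lam)
    (hl8 : lam ≤ δ1 / 8) (hE : Exp lam b) (hM : MinD (δ1 * d) C1)
    (w1 w2 : H × Fin d → H × Fin d → F2)
    (h1 : ∀ j, (fun i => w1 i j) ∈ Tan b C1) (h2 : ∀ i, w2 i ∈ Tan b C1)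
    (Δ δ0 e : ℝ) (hΔ : Δ = Fintype.card (H × Fin d)) (hδ0 : δ0 = δ1 ^ 2 / 2)
    (he : e = entD w1 w2)
    (ha : 4 * e / (δ0 * Δ) < δ1 / 2 * Fintype.card H)
    (hb : 4 * d * e / (δ0 * Δ) < δ0 * Δ)
    (hc : 8 * e / (δ1 ^ 2 * Δ) < δ0 * Δ) :
    ∃ w, InLoc (Tan b C1) w ∧ (colD w1 w : ℝ) ≤ 8 * e / (δ1 ^ 2 * Δ) ∧
      (rowD w2 w : ℝ) ≤ 4 * d * e / (δ0 * Δ) := by
  have : Nonempty (H × Fin d) := ⟨(1, ⟨0, hd⟩)⟩
  have hΔpos : 0 < Δ := by
    rw [hΔ]
    exact_mod_cast Fintype.card_pos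
  have hδ0pos : 0 < δ0 := by rw [hδ0]; positivity
  have hD : 0 < δ0 * Δ := by positivity
  have hMD : MinD (δ0 * Δ) (Tan b C1) := by
    rw [hδ0, hΔ]
    exact tdist H d b lam δ1 C1 hδ hl hl8 hE hM
  set U0 : Finset (H × Bool) := univ.filter fun u => δ0 * Δ ≤ (load b w1 w2 u : ℝ) with hU0
  have hU0card : (U0.card : ℝ) ≤ 2 * e / (δ0 * Δ) := by
    rw [le_div_iff₀ hD]
    have hs : (∑ u, (load b w1 w2 u : ℝ)) = 2 * e := by
      rw [he]
      exact_mod_cast sum_load b w1 w2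
    rw [← hs]
    calc (U0.card : ℝ) * (δ0 * Δ) = ∑ u ∈ U0, δ0 * Δ := by simp
      _ ≤ ∑ u ∈ U0, (load b w1 w2 u : ℝ) := by
          refine Finset.sum_le_sum fun u hu => ?_
          simp only [hU0, Finset.mem_filter, Finset.mem_univ, true_and] at hu
          exact hu
      _ ≤ ∑ u, (load b w1 w2 u : ℝ) :=
          Finset.sum_le_sum_of_subset_of_nonneg (Finset.subset_univ _)
            (fun _ _ _ => Nat.cast_nonneg _)
  have hcl : (2 * U0.card : ℝ) < δ1 / 2 * Fintype.card H := by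
    refine lt_of_le_of_lt ?_ ha
    calc (2 * U0.card : ℝ) ≤ 2 * (2 * e / (δ0 * Δ)) := by linarith
      _ = 4 * e / (δ0 * Δ) := by ring
  obtain ⟨U, hU0U, hUcard, hUdg⟩ := clos H d b lam δ1 hd hδ hl hl8 hE U0 hcl
  have hcl1 : ∀ j, ∀ u ∉ U, vw b (fun i => w1 i j - w2 i j) u ∈ C1 := by
    intro j u hu
    have hu0 : u ∉ U0 := fun h => hu (hU0U h)
    have hlt : (load b w1 w2 u : ℝ) < δ0 * Δ := by
      by_contra hcon
      push Not at hcon
      exact hu0 (by simp only [hU0, Finset.mem_filter, Finset.mem_univ, true_and]; exact hcon)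
    exact claim1 b C1 (δ0 * Δ) hMD w1 w2 h1 h2 u hlt j
  have hRcard : ((RR b U).card : ℝ) ≤ 4 * d * e / (δ0 * Δ) := by
    have e1 : ((RR b U).card : ℝ) ≤ U.card * d := by exact_mod_cast card_RR b U
    have e2 : (U.card : ℝ) ≤ 2 * U0.card := by exact_mod_cast hUcard
    have hd0 : (0 : ℝ) ≤ d := Nat.cast_nonneg _
    calc ((RR b U).card : ℝ) ≤ U.card * d := e1
      _ ≤ (2 * U0.card) * d := by gcongr
      _ ≤ (2 * (2 * e / (δ0 * Δ))) * d := by gcongr
      _ = 4 * d * e / (δ0 * Δ) := by ring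
  set V : Finset (H × Fin d) := univ.filter fun j => ∃ i ∉ RR b U, w1 i j ≠ w2 i j with hV
  have hVcol : ∀ j ∈ V, δ1 ^ 2 / 8 * Δ ≤
      ((univ.filter fun i : H × Fin d => w1 i j ≠ w2 i j).card : ℝ) := by
    intro j hj
    simp only [hV, Finset.mem_filter, Finset.mem_univ, true_and] at hj
    obtain ⟨i, hi, hij⟩ := hj
    have hi' : (i.1, false) ∉ U ∧ (i.1 * b i.2, true) ∉ U := by
      simp only [RR, Finset.mem_filter, Finset.mem_univ, true_and, not_or] at hi
      exact hi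
    have hcol := col H d b lam δ1 C1 hd hδ hl hl8 hE hM U hUdg (fun i => w1 i j - w2 i j)
      (hcl1 j) ⟨i, by simpa [sub_eq_zero] using hij, hi'.1, hi'.2⟩
    rw [← hΔ] at hcol
    refine hcol.trans ?_
    have : (univ.filter fun e : H × Fin d => w1 e j - w2 e j ≠ 0 ∧ (e.1, false) ∉ U ∧
      (e.1 * b e.2, true) ∉ U) ⊆ univ.filter fun i : H × Fin d => w1 i j ≠ w2 i j := by
      intro e' he'
      simp only [Finset.mem_filter, Finset.mem_univ, true_and] at he' ⊢
      exact sub_ne_zero.mp he'.1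
    exact_mod_cast Finset.card_le_card this
  have hVcard : (V.card : ℝ) ≤ 8 * e / (δ1 ^ 2 * Δ) := by
    rw [le_div_iff₀ (by positivity)]
    have hs : (∑ j, ((univ.filter fun i : H × Fin d => w1 i j ≠ w2 i j).card : ℝ)) = e := by
      rw [he]
      exact_mod_cast (entD_eq_col w1 w2).symm
    have : (V.card : ℝ) * (δ1 ^ 2 / 8 * Δ) ≤ e := by
      rw [← hs]
      calc (V.card : ℝ) * (δ1 ^ 2 / 8 * Δ) = ∑ j ∈ V, (δ1 ^ 2 / 8 * Δ) := by simp
        _ ≤ ∑ j ∈ V, ((univ.filter fun i : H × Fin d => w1 i j ≠ w2 i j).card : ℝ) :=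
            Finset.sum_le_sum hVcol
        _ ≤ _ := Finset.sum_le_sum_of_subset_of_nonneg (Finset.subset_univ _)
            (fun _ _ _ => Nat.cast_nonneg _)
    nlinarith [this]
  obtain ⟨w, hw, hwV, hwR⟩ := ext (H × Fin d) (Tan b C1) (δ0 * Δ) hMD (RR b U) V
    (lt_of_le_of_lt hRcard hb) (lt_of_le_of_lt hVcard hc) w1 w2 h1 h2 (by
      intro i hi j hj
      by_contra hne
      apply hj
      simp only [hV, Finset.mem_filter, Finset.mem_univ, true_and]
      exact ⟨i, hi, hne⟩)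
  refine ⟨w, hw, le_trans ?_ hVcard, le_trans ?_ hRcard⟩
  · have : colD w1 w ≤ V.card := by
      unfold colD
      refine Finset.card_le_card fun j hj => ?_
      simp only [Finset.mem_filter, Finset.mem_univ, true_and] at hj
      by_contra hjV
      exact hj (funext fun i => (hwV j hjV i).symm)
    exact_mod_cast this
  · have : rowD w2 w ≤ (RR b U).card := by
      unfold rowD
      refine Finset.card_le_card fun i hi => ?_
      simp only [Finset.mem_filter, Finset.mem_univ, true_and] at hi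
      by_contra hiR
      exact hi (hwR i hiR).symm
    exact_mod_cast this

theorem job : S_TDIST → S_CLOS → S_COL → S_EXT → S_AT := by
  intro tdist clos col ext d δ1 hd hδ
  have hdR : (0 : ℝ) < d := by exact_mod_cast hd
  set δ0 : ℝ := δ1 ^ 2 / 2 with hδ0
  have hδ0pos : 0 < δ0 := by positivity
  set ε : ℝ := min (δ0 * δ1 / (16 * d)) (min (δ0 ^ 2 / (8 * d)) (δ0 * δ1 ^ 2 / 16)) with hε
  have hεpos : 0 < ε := by
    refine lt_min (by positivity) (lt_min (by positivity) (by positivity))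
  have hε1 : ε ≤ δ0 * δ1 / (16 * d) := min_le_left _ _
  have hε2 : ε ≤ δ0 ^ 2 / (8 * d) := (min_le_right _ _).trans (min_le_left _ _)
  have hε3 : ε ≤ δ0 * δ1 ^ 2 / 16 := (min_le_right _ _).trans (min_le_right _ _)
  have hK : 0 < 4 * d / δ0 + 8 / δ1 ^ 2 := by positivity
  refine ⟨min (1 / (4 * d / δ0 + 8 / δ1 ^ 2)) (ε / 2), lt_min (by positivity) (by positivity), ?_⟩
  intro H _ _ b lam C1 hl hl8 hE hM w1 w2 h1 h2
  set κ : ℝ := min (1 / (4 * d / δ0 + 8 / δ1 ^ 2)) (ε / 2) with hκ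
  have hκpos : 0 < κ := lt_min (by positivity) (by positivity)
  have hκ1 : κ ≤ 1 / (4 * d / δ0 + 8 / δ1 ^ 2) := min_le_left _ _
  have hκ2 : κ ≤ ε / 2 := min_le_right _ _
  have : Nonempty (H × Fin d) := ⟨(1, ⟨0, hd⟩)⟩
  obtain ⟨Δ, hΔ⟩ : ∃ Δ : ℝ, Δ = Fintype.card (H × Fin d) := ⟨_, rfl⟩
  obtain ⟨e, he⟩ : ∃ e : ℝ, e = entD w1 w2 := ⟨_, rfl⟩
  have hΔpos : 0 < Δ := by
    rw [hΔ]
    exact_mod_cast Fintype.card_pos
  have hΔN : Δ = Fintype.card H * d := by
    rw [hΔ]
    simp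
  have hepos : 0 ≤ e := by rw [he]; exact Nat.cast_nonneg _
  rw [← hΔ, ← he]
  rcases le_or_gt e (ε * Δ ^ 2) with hsmall | hlarge
  · have ha : 4 * e / (δ0 * Δ) < δ1 / 2 * Fintype.card H := by
      have hN : (Fintype.card H : ℝ) = Δ / d := by
        rw [hΔN]
        field_simp
      rw [hN, div_lt_iff₀ (by positivity)]
      have : 4 * e ≤ 4 * (δ0 * δ1 / (16 * d) * Δ ^ 2) := by
        have : ε * Δ ^ 2 ≤ δ0 * δ1 / (16 * d) * Δ ^ 2 := by gcongr
        linarith
      refine lt_of_le_of_lt this ?_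
      have e1 : 4 * (δ0 * δ1 / (16 * d) * Δ ^ 2) = (δ0 * δ1 * Δ ^ 2 / d) * (1 / 4) := by
        field_simp
        ring
      have e2 : δ1 / 2 * (Δ / d) * (δ0 * Δ) = (δ0 * δ1 * Δ ^ 2 / d) * (1 / 2) := by
        field_simp
      rw [e1, e2]
      have : 0 < δ0 * δ1 * Δ ^ 2 / d := by positivity
      linarith
    have hb : 4 * d * e / (δ0 * Δ) < δ0 * Δ := by
      rw [div_lt_iff₀ (by positivity)]
      have : 4 * d * e ≤ 4 * d * (δ0 ^ 2 / (8 * d) * Δ ^ 2) := by
        have : ε * Δ ^ 2 ≤ δ0 ^ 2 / (8 * d) * Δ ^ 2 := by gcongr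
        have : e ≤ δ0 ^ 2 / (8 * d) * Δ ^ 2 := by linarith
        gcongr
      refine lt_of_le_of_lt this ?_
      have e1 : 4 * d * (δ0 ^ 2 / (8 * d) * Δ ^ 2) = (δ0 ^ 2 * Δ ^ 2) * (1 / 2) := by
        field_simp
        ring
      have e2 : δ0 * Δ * (δ0 * Δ) = δ0 ^ 2 * Δ ^ 2 := by ring
      rw [e1, e2]
      have : 0 < δ0 ^ 2 * Δ ^ 2 := by positivity
      linarith
    have hc : 8 * e / (δ1 ^ 2 * Δ) < δ0 * Δ := by
      rw [div_lt_iff₀ (by positivity)]
      have : 8 * e ≤ 8 * (δ0 * δ1 ^ 2 / 16 * Δ ^ 2) := by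
        have : ε * Δ ^ 2 ≤ δ0 * δ1 ^ 2 / 16 * Δ ^ 2 := by gcongr
        linarith
      refine lt_of_le_of_lt this ?_
      have e1 : 8 * (δ0 * δ1 ^ 2 / 16 * Δ ^ 2) = (δ0 * δ1 ^ 2 * Δ ^ 2) * (1 / 2) := by ring
      have e2 : δ0 * Δ * (δ1 ^ 2 * Δ) = δ0 * δ1 ^ 2 * Δ ^ 2 := by ring
      rw [e1, e2]
      have : 0 < δ0 * δ1 ^ 2 * Δ ^ 2 := by positivity
      linarith
    obtain ⟨w, hw, hcD, hrD⟩ := small tdist clos col ext H d b lam δ1 C1 hd hδ hl hl8 hE hM
      w1 w2 h1 h2 Δ δ0 e hΔ hδ0 he ha hb hc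
    refine ⟨w, hw, ?_⟩
    calc κ * Δ * ((colD w1 w : ℝ) + rowD w2 w)
        ≤ κ * Δ * (8 * e / (δ1 ^ 2 * Δ) + 4 * d * e / (δ0 * Δ)) := by gcongr
      _ = κ * ((4 * d / δ0 + 8 / δ1 ^ 2) * e) := by
          field_simp
          ring
      _ ≤ 1 / (4 * d / δ0 + 8 / δ1 ^ 2) * ((4 * d / δ0 + 8 / δ1 ^ 2) * e) := by gcongr
      _ = e := by
          field_simp
  · refine ⟨0, ⟨fun i => Submodule.zero_mem _, fun j => Submodule.zero_mem _⟩, ?_⟩
    have hc : (colD w1 0 : ℝ) ≤ Δ := by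
      rw [hΔ]
      exact_mod_cast Finset.card_filter_le _ _
    have hr : (rowD w2 0 : ℝ) ≤ Δ := by
      rw [hΔ]
      exact_mod_cast Finset.card_filter_le _ _
    calc κ * Δ * ((colD w1 0 : ℝ) + rowD w2 0) ≤ ε / 2 * Δ * (Δ + Δ) := by gcongr
      _ = ε * Δ ^ 2 := by ring
      _ ≤ e := hlarge.le

end Pool.Agent.Helper835_LTC.J_AT
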