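import Mathlib
import Pool.Agent.Helper835_LTC.Defs
/-!
Part of project LTC (three query locally testable codes with few short dual words).
-/

set_option autoImplicit false

open Finset
open scoped Classical

namespace Pool.Agent.Helper835_LTC.J_BASE

open Pool.Agent.Helper835_LTC

theorem job : S_GV → S_EXP → S_TDIM → S_TDIST → S_AT → S_BASE := by
  intro hGV hEXP hDIM hDIST hAT
  obtain ⟨d0, hd0⟩ := hGV
  obtain ⟨D0', hD0'⟩ := hEXP (1 / 400 / 8) (by norm_num)
  obtain ⟨d, hd1, hd2, hd3⟩ : ∃ d : ℕ, D0' ≤ d ∧ d0 ≤ d ∧ 0 < d :=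
    ⟨max (max D0' d0) 1, (le_max_left _ _).trans (le_max_left _ _),
      (le_max_right _ _).trans (le_max_left _ _), lt_of_lt_of_le Nat.one_pos (le_max_right _ _)⟩
  obtain ⟨C1, hC1, hmin⟩ := hd0 d hd2
  obtain ⟨κ, hκ, hAT'⟩ := hAT d (1 / 400) hd3 (by norm_num)
  refine ⟨(1 / 400) ^ 2 / 2, κ, by positivity, hκ, ?_⟩
  intro D0
  obtain ⟨H, iG, iF, b, hcard, hexp⟩ := hD0' (Fin d) (by rw [Fintype.card_fin]; exact hd1) D0
  refine ⟨H × Fin d, inferInstance, ?_, Tan b C1, ?_, ?_, ?_⟩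
  · rw [Fintype.card_prod, Fintype.card_fin]
    exact hcard.trans (Nat.le_mul_of_pos_right _ hd3)
  · exact hDIM H d b C1 hC1
  · exact hDIST H d b (1 / 400 / 8) (1 / 400) C1 (by norm_num) (by norm_num) le_rfl hexp hmin
  · exact hAT' H b (1 / 400 / 8) C1 (by norm_num) le_rfl hexp hmin

end Pool.Agent.Helper835_LTC.J_BASE
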