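import Mathlib
import Pool.Agent.Helper835_LTC.Defs

set_option autoImplicit false

open Finset
open scoped Classical

namespace Pool.Agent.Helper835_LTC.J_CDIST

open Pool.Agent.Helper835_LTC

theorem hn_eq {ι : Type} [Fintype ι] (x : ι → F2) :
    (hammingNorm x : ℝ) = ∑ i, (if x i ≠ 0 then (1 : ℝ) else 0) := by
  rw [sum_boole]
  unfold hammingNorm
  congr 1

theorem cols {I : Type} [Fintype I] {C0 : Submodule F2 (I → F2)} {d : ℝ} (hMin : MinD d C0)
    {m : I → I → F2} (hm : InLoc C0 m) (hne : ∃ i j, m i j ≠ 0) :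
    d ≤ ((univ.filter fun j : I => ∃ i, m i j ≠ 0).card : ℝ) := by
  obtain ⟨i, j, hij⟩ := hne
  have h1 := hMin (m i) (hm.1 i) (fun h => hij (by rw [h]; rfl))
  refine h1.trans ?_
  have h2 : (univ.filter fun j : I => m i j ≠ 0) ⊆ (univ.filter fun j : I => ∃ i, m i j ≠ 0) := by
    intro j hj
    rw [mem_filter] at hj ⊢
    exact ⟨mem_univ _, i, hj.2⟩
  have h3 := card_le_card h2
  rw [hn_eq, sum_boole]
  exact_mod_cast h3

theorem ents {I : Type} [Fintype I] {C0 : Submodule F2 (I → F2)} {d : ℝ} (hd : 0 ≤ d)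
    (hMin : MinD d C0) {m : I → I → F2} (hm : InLoc C0 m) (hne : ∃ i j, m i j ≠ 0) :
    d * d ≤ ∑ i, ∑ j, (if m i j ≠ 0 then (1 : ℝ) else 0) := by
  rw [sum_comm]
  have h1 := cols hMin hm hne
  have h2 : ∀ j ∈ univ.filter (fun j : I => ∃ i, m i j ≠ 0),
      d ≤ ∑ i, (if m i j ≠ 0 then (1 : ℝ) else 0) := by
    intro j hj
    rw [mem_filter] at hj
    obtain ⟨-, i, hi⟩ := hj
    have h3 := hMin (fun i => m i j) (hm.2 j) (fun h => hi (by
      have := congrFun h i
      exact this))
    rw [hn_eq] at h3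
    exact h3
  calc d * d ≤ ((univ.filter fun j : I => ∃ i, m i j ≠ 0).card : ℝ) * d :=
        mul_le_mul_of_nonneg_right h1 hd
    _ = ∑ j ∈ univ.filter (fun j : I => ∃ i, m i j ≠ 0), d := by rw [sum_const, nsmul_eq_mul]
    _ ≤ ∑ j ∈ univ.filter (fun j : I => ∃ i, m i j ≠ 0), ∑ i, (if m i j ≠ 0 then (1 : ℝ) else 0) :=
        sum_le_sum h2
    _ ≤ ∑ j, ∑ i, (if m i j ≠ 0 then (1 : ℝ) else 0) := by
        apply sum_le_sum_of_subset_of_nonneg (filter_subset _ _)
        intro j _ _
        exact sum_nonneg fun i _ => by split_ifs <;> norm_num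

theorem view_ff {G : Type} [Group G] {I : Type} (b : I → G) (x : G × I × I → F2) (g : G) (i j : I) :
    view b x (g, false, false) i j = x (g, i, j) := by
  simp [view, sq]

theorem view_ft {G : Type} [Group G] {I : Type} (b : I → G) (x : G × I × I → F2) (g : G) (i j : I) :
    view b x (g, false, true) i j = x (g * (b j)⁻¹, i, j) := by
  simp [view, sq]

theorem job : S_MIX → S_CDIST := by
  intro hmix G _ _ I _ b lam δ C0 hlam hδ hlδ hexp hMin x hx hx0
  set n : ℝ := (Fintype.card I : ℝ) with hn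
  set N : ℝ := (Fintype.card G : ℝ) with hN
  have hNpos : 0 < N := by
    rw [hN]
    exact_mod_cast Fintype.card_pos
  obtain ⟨⟨g0, i0, j0⟩, hg0⟩ : ∃ p, x p ≠ 0 := by
    by_contra hcon
    push Not at hcon
    exact hx0 (funext hcon)
  have hnpos : 0 < n := by
    rw [hn]
    have : 0 < Fintype.card I := Fintype.card_pos_iff.2 ⟨i0⟩
    exact_mod_cast this
  have hd0 : 0 ≤ δ * n := by positivity
  set S0 : Finset G := univ.filter (fun g => ∃ i j, view b x (g, false, false) i j ≠ 0) with hS0
  set S1 : Finset G := univ.filter (fun g => ∃ i j, view b x (g, false, true) i j ≠ 0) with hS1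
  have hL0 : ∀ g, InLoc C0 (view b x (g, false, false)) := fun g => hx _
  have hL1 : ∀ g, InLoc C0 (view b x (g, false, true)) := fun g => hx _
  set E : Finset (G × I) := univ.filter (fun p : G × I => p.1 ∈ S0 ∧ p.1 * b p.2 ∈ S1) with hE
  have hEreal : (E.card : ℝ) = ∑ p : G × I, (if p.1 ∈ S0 ∧ p.1 * b p.2 ∈ S1 then (1 : ℝ) else 0) := by
    rw [sum_boole]
  -- lower bound by S0
  have hE0 : (S0.card : ℝ) * (δ * n) ≤ E.card := by
    rw [hEreal, Fintype.sum_prod_type]
    calc (S0.card : ℝ) * (δ * n) = ∑ g ∈ S0, (δ * n) := by rw [sum_const, nsmul_eq_mul]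
      _ ≤ ∑ g ∈ S0, ∑ j, (if g ∈ S0 ∧ g * b j ∈ S1 then (1 : ℝ) else 0) := by
          refine sum_le_sum fun g hg => ?_
          have hg' := (mem_filter.1 hg).2
          refine (cols hMin (hL0 g) hg').trans ?_
          rw [sum_boole]
          have : (univ.filter fun j : I => ∃ i, view b x (g, false, false) i j ≠ 0) ⊆
              univ.filter (fun j : I => g ∈ S0 ∧ g * b j ∈ S1) := by
            intro j hj
            obtain ⟨-, i, hi⟩ := mem_filter.1 hj
            rw [mem_filter]
            refine ⟨mem_univ _, hg, ?_⟩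
            rw [hS1, mem_filter]
            refine ⟨mem_univ _, i, j, ?_⟩
            rw [view_ft, mul_inv_cancel_right]
            rwa [view_ff] at hi
          exact_mod_cast card_le_card this
      _ ≤ ∑ g, ∑ j, (if g ∈ S0 ∧ g * b j ∈ S1 then (1 : ℝ) else 0) := by
          apply sum_le_sum_of_subset_of_nonneg (subset_univ _)
          intro g _ _
          exact sum_nonneg fun j _ => by split_ifs <;> norm_num
  -- lower bound by S1
  have hE1 : (S1.card : ℝ) * (δ * n) ≤ E.card := by
    rw [hEreal, Fintype.sum_prod_type_right]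
    have hshift : ∀ j : I, ∑ g, (if g ∈ S0 ∧ g * b j ∈ S1 then (1 : ℝ) else 0) =
        ∑ g, (if g * (b j)⁻¹ ∈ S0 ∧ g ∈ S1 then (1 : ℝ) else 0) := by
      intro j
      refine Fintype.sum_equiv (Equiv.mulRight (b j)) _ _ fun g => ?_
      simp only [Equiv.coe_mulRight, mul_inv_cancel_right]
    rw [sum_congr rfl fun j _ => hshift j, sum_comm]
    calc (S1.card : ℝ) * (δ * n) = ∑ g ∈ S1, (δ * n) := by rw [sum_const, nsmul_eq_mul]
      _ ≤ ∑ g ∈ S1, ∑ j, (if g * (b j)⁻¹ ∈ S0 ∧ g ∈ S1 then (1 : ℝ) else 0) := by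
          refine sum_le_sum fun g hg => ?_
          have hg' := (mem_filter.1 hg).2
          refine (cols hMin (hL1 g) hg').trans ?_
          rw [sum_boole]
          have : (univ.filter fun j : I => ∃ i, view b x (g, false, true) i j ≠ 0) ⊆
              univ.filter (fun j : I => g * (b j)⁻¹ ∈ S0 ∧ g ∈ S1) := by
            intro j hj
            obtain ⟨-, i, hi⟩ := mem_filter.1 hj
            rw [mem_filter]
            refine ⟨mem_univ _, ?_, hg⟩
            rw [hS0, mem_filter]
            refine ⟨mem_univ _, i, j, ?_⟩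
            rw [view_ff]
            rwa [view_ft] at hi
          exact_mod_cast card_le_card this
      _ ≤ ∑ g, ∑ j, (if g * (b j)⁻¹ ∈ S0 ∧ g ∈ S1 then (1 : ℝ) else 0) := by
          apply sum_le_sum_of_subset_of_nonneg (subset_univ _)
          intro g _ _
          exact sum_nonneg fun j _ => by split_ifs <;> norm_num
  -- both sets are nonempty
  have hg0S : g0 ∈ S0 := by
    rw [hS0, mem_filter]
    exact ⟨mem_univ _, i0, j0, by rw [view_ff]; exact hg0⟩
  have hg1S : g0 * b j0 ∈ S1 := by
    rw [hS1, mem_filter]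
    exact ⟨mem_univ _, i0, j0, by rw [view_ft, mul_inv_cancel_right]; exact hg0⟩
  have hs0 : (0 : ℝ) < S0.card := by exact_mod_cast card_pos.2 ⟨_, hg0S⟩
  have hs1 : (0 : ℝ) < S1.card := by exact_mod_cast card_pos.2 ⟨_, hg1S⟩
  have hM := hmix G I lam b hlam.le hexp S0 S1
  have hM' : (E.card : ℝ) ≤ n * (S0.card * S1.card) / N +
      lam * n * Real.sqrt (S0.card * S1.card) := by
    refine le_trans (le_of_eq ?_) hM
    rw [hE]
  have hS0big : δ / 2 * N ≤ S0.card := by
    rcases le_total (S0.card : ℝ) S1.card with hle | hle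
    · have hsq : Real.sqrt (S0.card * S1.card) ≤ S1.card := by
        rw [Real.sqrt_le_left hs1.le]
        nlinarith
      have h1 : (S1.card : ℝ) * (δ * n) ≤ n * (S0.card * S1.card) / N + lam * n * S1.card := by
        refine hE1.trans (hM'.trans ?_)
        have : 0 ≤ lam * n := by positivity
        have := mul_le_mul_of_nonneg_left hsq this
        linarith
      have h2 : (S1.card * n : ℝ) * δ ≤ (S1.card * n) * (S0.card / N + lam) := by
        calc (S1.card * n : ℝ) * δ = S1.card * (δ * n) := by ring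
          _ ≤ _ := h1
          _ = _ := by ring
      have h3 : δ ≤ S0.card / N + lam := le_of_mul_le_mul_left h2 (by positivity)
      have h4 : δ / 2 ≤ S0.card / N := by linarith
      rwa [le_div_iff₀ hNpos] at h4
    · have hsq : Real.sqrt (S0.card * S1.card) ≤ S0.card := by
        rw [Real.sqrt_le_left hs0.le]
        nlinarith
      have h1 : (S0.card : ℝ) * (δ * n) ≤ n * (S0.card * S1.card) / N + lam * n * S0.card := by
        refine hE0.trans (hM'.trans ?_)
        have : 0 ≤ lam * n := by positivity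
        have := mul_le_mul_of_nonneg_left hsq this
        linarith
      have h2 : (S0.card * n : ℝ) * δ ≤ (S0.card * n) * (S1.card / N + lam) := by
        calc (S0.card * n : ℝ) * δ = S0.card * (δ * n) := by ring
          _ ≤ _ := h1
          _ = _ := by ring
      have h3 : δ ≤ S1.card / N + lam := le_of_mul_le_mul_left h2 (by positivity)
      have h4 : δ / 2 ≤ S1.card / N := by linarith
      rw [le_div_iff₀ hNpos] at h4
      linarith
  -- the weight
  rw [hn_eq, Fintype.sum_prod_type]
  simp only [Fintype.sum_prod_type]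
  have hcard : (Fintype.card (G × I × I) : ℝ) = N * (n * n) := by
    rw [Fintype.card_prod, Fintype.card_prod]
    push_cast
    rfl
  rw [hcard]
  calc δ ^ 3 / 2 * (N * (n * n)) = (δ / 2 * N) * ((δ * n) * (δ * n)) := by ring
    _ ≤ (S0.card : ℝ) * ((δ * n) * (δ * n)) :=
        mul_le_mul_of_nonneg_right hS0big (by positivity)
    _ = ∑ g ∈ S0, ((δ * n) * (δ * n)) := by rw [sum_const, nsmul_eq_mul]
    _ ≤ ∑ g ∈ S0, ∑ i, ∑ j, (if x (g, i, j) ≠ 0 then (1 : ℝ) else 0) := by
        refine sum_le_sum fun g hg => ?_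
        have hg' := (mem_filter.1 hg).2
        have h1 := ents hd0 hMin (hL0 g) hg'
        simp only [view_ff] at h1
        exact h1
    _ ≤ ∑ g, ∑ i, ∑ j, (if x (g, i, j) ≠ 0 then (1 : ℝ) else 0) := by
        apply sum_le_sum_of_subset_of_nonneg (subset_univ _)
        intro g _ _
        exact sum_nonneg fun i _ => sum_nonneg fun j _ => by split_ifs <;> norm_num

end Pool.Agent.Helper835_LTC.J_CDIST
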