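import Mathlib
import Pool.Agent.Helper835_LTC.Defs

set_option autoImplicit false

open Finset
open scoped Classical

namespace Pool.Agent.Helper835_LTC.J_CLOS

open Pool.Agent.Helper835_LTC

/-- edges inside `U` -/
noncomputable def eset {H : Type} [Group H] [Fintype H] {d : ℕ} (b : Fin d → H)
    (U : Finset (H × Bool)) : Finset (H × Fin d) :=
  univ.filter fun p : H × Fin d => (p.1, false) ∈ U ∧ (p.1 * b p.2, true) ∈ U

lemma edg_inj {H : Type} [Group H] {d : ℕ} (b : Fin d → H) (u : H × Bool) :
    Function.Injective (edg b u) := by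
  intro k k' h
  have h2 : (edg b u k).2 = (edg b u k').2 := by rw [h]
  unfold edg at h2
  split_ifs at h2
  · exact h2
  · exact h2

lemma e_insert {H : Type} [Group H] [Fintype H] {d : ℕ} (b : Fin d → H)
    (U : Finset (H × Bool)) (u : H × Bool) (hu : u ∉ U) :
    (eset b U).card + dg b U u ≤ (eset b (insert u U)).card := by
  have hcard : ((univ.filter fun k : Fin d => oth b u k ∈ U).image (edg b u)).card
      = dg b U u := by
    rw [Finset.card_image_of_injective _ (edg_inj b u)]
    rfl
  have hdisj : Disjoint (eset b U) ((univ.filter fun k : Fin d => oth b u k ∈ U).image (edg b u)) := by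
    rw [Finset.disjoint_left]
    intro p hp hq
    simp only [eset, Finset.mem_filter, Finset.mem_univ, true_and] at hp
    simp only [Finset.mem_image, Finset.mem_filter, Finset.mem_univ, true_and] at hq
    obtain ⟨k, hk, rfl⟩ := hq
    obtain ⟨g, c⟩ := u
    cases c
    · simp only [edg] at hp
      exact hu (by simpa using hp.1)
    · simp only [edg] at hp
      exact hu (by simpa using hp.2)
  have hsub : (eset b U) ∪ ((univ.filter fun k : Fin d => oth b u k ∈ U).image (edg b u)) ⊆
      eset b (insert u U) := by
    intro p hp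
    rw [Finset.mem_union] at hp
    rcases hp with hp | hp
    · simp only [eset, Finset.mem_filter, Finset.mem_univ, true_and] at hp ⊢
      exact ⟨Finset.mem_insert_of_mem hp.1, Finset.mem_insert_of_mem hp.2⟩
    · simp only [Finset.mem_image, Finset.mem_filter, Finset.mem_univ, true_and] at hp
      obtain ⟨k, hk, rfl⟩ := hp
      obtain ⟨g, c⟩ := u
      cases c
      · simp only [eset, Finset.mem_filter, Finset.mem_univ, true_and, edg]
        simp only [oth] at hk
        refine ⟨?_, ?_⟩
        · simp
        · exact Finset.mem_insert_of_mem (by simpa using hk)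
      · simp only [eset, Finset.mem_filter, Finset.mem_univ, true_and, edg]
        simp only [oth] at hk
        refine ⟨?_, ?_⟩
        · exact Finset.mem_insert_of_mem (by simpa using hk)
        · simp
  calc (eset b U).card + dg b U u
      = (eset b U).card + ((univ.filter fun k : Fin d => oth b u k ∈ U).image (edg b u)).card := by
        rw [hcard]
    _ = ((eset b U) ∪ ((univ.filter fun k : Fin d => oth b u k ∈ U).image (edg b u))).card := by
        rw [Finset.card_union_of_disjoint hdisj]
    _ ≤ _ := Finset.card_le_card hsub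

lemma card_split {H : Type} [Fintype H] (U : Finset (H × Bool)) :
    (univ.filter fun g : H => (g, false) ∈ U).card + (univ.filter fun g : H => (g, true) ∈ U).card
      = U.card := by
  have h1 : ((univ.filter fun g : H => (g, false) ∈ U).image fun g => (g, false)).card
      = (univ.filter fun g : H => (g, false) ∈ U).card :=
    Finset.card_image_of_injective _ (fun a b h => by simpa using h)
  have h2 : ((univ.filter fun g : H => (g, true) ∈ U).image fun g => (g, true)).card
      = (univ.filter fun g : H => (g, true) ∈ U).card :=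
    Finset.card_image_of_injective _ (fun a b h => by simpa using h)
  rw [← h1, ← h2, ← Finset.card_union_of_disjoint]
  · congr 1
    ext ⟨g, c⟩
    cases c <;> simp
  · rw [Finset.disjoint_left]
    intro p hp hq
    simp only [Finset.mem_image, Finset.mem_filter, Finset.mem_univ, true_and] at hp hq
    obtain ⟨a, _, rfl⟩ := hp
    obtain ⟨a', _, h⟩ := hq
    simp at h

lemma e_bound (hM : S_MIX) {H : Type} [Group H] [Fintype H] {d : ℕ} (b : Fin d → H) (lam : ℝ)
    (h0 : 0 ≤ lam) (hE : Exp lam b) (U : Finset (H × Bool)) (m : ℕ) (hU : U.card = 2 * m) :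
    ((eset b U).card : ℝ) ≤ d * (m : ℝ) ^ 2 / Fintype.card H + lam * d * m := by
  set S := univ.filter fun g : H => (g, false) ∈ U with hS
  set T := univ.filter fun g : H => (g, true) ∈ U with hT
  have h := hM H (Fin d) lam b h0 hE S T
  have hst : S.card + T.card = 2 * m := by rw [hS, hT, card_split, hU]
  have hst' : (S.card : ℝ) + T.card = 2 * m := by exact_mod_cast hst
  have hprod : (S.card : ℝ) * T.card ≤ (m : ℝ) ^ 2 := by
    have := sq_nonneg ((S.card : ℝ) - T.card)
    nlinarith
  have hsq : Real.sqrt ((S.card : ℝ) * T.card) ≤ m := by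
    rw [Real.sqrt_le_left (by positivity)]
    exact hprod
  have he : (univ.filter fun p : H × Fin d => p.1 ∈ S ∧ p.1 * b p.2 ∈ T) = eset b U := by
    ext p
    simp [eset, hS, hT]
  rw [he, Fintype.card_fin] at h
  refine h.trans ?_
  have hd : (0 : ℝ) ≤ d := Nat.cast_nonneg d
  have h1 : (d : ℝ) * ((S.card : ℝ) * T.card) / Fintype.card H ≤ d * (m : ℝ) ^ 2 / Fintype.card H := by
    gcongr
  have h2 : lam * d * Real.sqrt ((S.card : ℝ) * T.card) ≤ lam * d * m := by
    gcongr
  linarith

theorem job : S_MIX → S_CLOS := by
  intro hM H _ _ d b lam δ1 hd hδ hlam hle hE U0 hU0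
  set P : Finset (Finset (H × Bool)) := univ.filter fun U => U0 ⊆ U ∧ U.card ≤ 2 * U0.card ∧
    δ1 / 2 * d * ((U.card : ℝ) - U0.card) ≤ (eset b U).card with hP
  have hne : P.Nonempty := by
    refine ⟨U0, ?_⟩
    simp only [hP, Finset.mem_filter, Finset.mem_univ, true_and]
    refine ⟨Finset.Subset.refl _, by omega, ?_⟩
    rw [sub_self, mul_zero]
    positivity
  obtain ⟨U, hUP, hmax⟩ := Finset.exists_max_image P Finset.card hne
  have hUP' := hUP
  simp only [hP, Finset.mem_filter, Finset.mem_univ, true_and] at hUP'
  obtain ⟨hsub, hcard, hedge⟩ := hUP'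
  refine ⟨U, hsub, hcard, ?_⟩
  intro u hu
  by_contra hdg
  push Not at hdg
  have hdpos : (0 : ℝ) < d := by exact_mod_cast hd
  have hins : (insert u U).card = U.card + 1 := Finset.card_insert_of_notMem hu
  have hnot : insert u U ∉ P := by
    intro h
    have := hmax _ h
    omega
  have hei : ((eset b U).card : ℝ) + dg b U u ≤ (eset b (insert u U)).card := by
    exact_mod_cast e_insert b U u hu
  have hcard2 : ¬ (insert u U).card ≤ 2 * U0.card := by
    intro h
    apply hnot
    simp only [hP, Finset.mem_filter, Finset.mem_univ, true_and]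
    refine ⟨hsub.trans (Finset.subset_insert _ _), h, ?_⟩
    rw [hins]
    push_cast
    nlinarith
  have hcard3 : U.card = 2 * U0.card := by omega
  have hb := e_bound hM b lam hlam.le hE U U0.card hcard3
  have hN : (0 : ℝ) < Fintype.card H := by
    have : 0 < Fintype.card H := Fintype.card_pos
    exact_mod_cast this
  have hcard3' : (U.card : ℝ) = 2 * U0.card := by exact_mod_cast hcard3
  rw [hcard3'] at hedge
  have hm : (0 : ℝ) < U0.card := by
    have : 0 < U0.card := by
      rcases Nat.eq_zero_or_pos U0.card with h | h
      · exfalso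
        have hU0e : U.card = 0 := by omega
        rw [Finset.card_eq_zero] at hU0e
        subst hU0e
        have : dg b (∅ : Finset (H × Bool)) u = 0 := by simp [dg]
        rw [this] at hdg
        have : 0 < δ1 / 2 * d := by positivity
        simp at hdg
        linarith
      · exact h
    exact_mod_cast this
  have hkey : δ1 / 2 * d * U0.card ≤ d * (U0.card : ℝ) ^ 2 / Fintype.card H + lam * d * U0.card := by
    have : δ1 / 2 * d * U0.card = δ1 / 2 * d * (2 * (U0.card : ℝ) - U0.card) := by ring
    rw [this]
    exact hedge.trans hb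
  have hkey2 : δ1 / 2 ≤ (U0.card : ℝ) / Fintype.card H + lam := by
    have h1 : (d * (U0.card : ℝ)) * (δ1 / 2) ≤ (d * (U0.card : ℝ)) *
        ((U0.card : ℝ) / Fintype.card H + lam) := by
      have e1 : (d * (U0.card : ℝ)) * (δ1 / 2) = δ1 / 2 * d * U0.card := by ring
      have e2 : (d * (U0.card : ℝ)) * ((U0.card : ℝ) / Fintype.card H + lam) =
        d * (U0.card : ℝ) ^ 2 / Fintype.card H + lam * d * U0.card := by ring
      rw [e1, e2]
      exact hkey
    exact le_of_mul_le_mul_left h1 (by positivity)
  have hkey3 : (U0.card : ℝ) / Fintype.card H < δ1 / 4 := by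
    rw [div_lt_iff₀ hN]
    nlinarith
  linarith

end Pool.Agent.Helper835_LTC.J_CLOS
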