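import Mathlib
import Pool.Agent.Helper835_LTC.Defs
/-!
Part of project LTC (three query locally testable codes with few short dual words).
-/

set_option autoImplicit false

open Finset
open scoped Classical

namespace Pool.Agent.Helper835_LTC.J_CNT

open Pool.Agent.Helper835_LTC

section A
variable {X : Type} [Fintype X]

/-- configurations for which no block of `S` vanishes entirely -/
noncomputable def AS (K : ℕ) (S : Finset (Finset X)) : Finset (X → Fin (K + 1)) :=
  univ.filter fun σ => ∀ B ∈ S, ∃ x ∈ B, σ x ≠ 0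

theorem card_le_bad (K : ℕ) (S : Finset (Finset X)) (B0 : Finset X)
    (hd : ∀ B ∈ S, Disjoint B0 B) (hc : B0.card ≤ 2) :
    (AS K S).card ≤ (K + 1) ^ 2 * ((AS K S).filter fun σ => ∀ x ∈ B0, σ x = 0).card := by
  refine Finset.card_le_mul_card_image_of_maps_to
    (f := fun (σ : X → Fin (K + 1)) (x : X) => if x ∈ B0 then (0 : Fin (K + 1)) else σ x) ?_ _ ?_
  · intro σ hσ
    rw [Finset.mem_filter]
    constructor
    · unfold AS at hσ ⊢
      rw [Finset.mem_filter] at hσ ⊢
      refine ⟨Finset.mem_univ _, ?_⟩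
      intro B hB
      obtain ⟨x, hx, hx0⟩ := hσ.2 B hB
      refine ⟨x, hx, ?_⟩
      have hxB : x ∉ B0 := fun h => (Finset.disjoint_left.mp (hd B hB)) h hx
      simp only [hxB, if_false]
      exact hx0
    · intro x hx
      simp only [hx, if_true]
  · intro τ _
    have h1 : ((AS K S).filter fun σ =>
        (fun (x : X) => if x ∈ B0 then (0 : Fin (K + 1)) else σ x) = τ).card ≤
        (Finset.univ : Finset (B0 → Fin (K + 1))).card := by
      refine Finset.card_le_card_of_injOn (fun σ => fun x : B0 => σ x) ?_ ?_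
      · intro σ _
        exact Finset.mem_coe.mpr (Finset.mem_univ _)
      · intro σ hσ σ' hσ' heq
        rw [Finset.mem_coe, Finset.mem_filter] at hσ hσ'
        funext x
        by_cases hx : x ∈ B0
        · exact congrFun heq ⟨x, hx⟩
        · have h2 := congrFun hσ.2 x
          have h3 := congrFun hσ'.2 x
          simp only [hx, if_false] at h2 h3
          rw [h2, h3]
    refine h1.trans ?_
    rw [Finset.card_univ, Fintype.card_fun, Fintype.card_fin, Fintype.card_coe]
    exact Nat.pow_le_pow_right (Nat.succ_pos K) hc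

theorem AS_insert (K : ℕ) (S : Finset (Finset X)) (B0 : Finset X)
    (hd : ∀ B ∈ S, Disjoint B0 B) (hc : B0.card ≤ 2) :
    (K + 1) ^ 2 * (AS K (insert B0 S)).card ≤ ((K + 1) ^ 2 - 1) * (AS K S).card := by
  have h1 := card_le_bad K S B0 hd hc
  have h2 : AS K (insert B0 S) = (AS K S).filter fun σ => ¬ ∀ x ∈ B0, σ x = 0 := by
    ext σ
    unfold AS
    simp only [Finset.mem_filter, Finset.mem_univ, true_and, Finset.mem_insert,
      forall_eq_or_imp]
    constructor
    · rintro ⟨⟨x, hx, hx0⟩, h⟩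
      exact ⟨h, fun h' => hx0 (h' x hx)⟩
    · rintro ⟨h, h'⟩
      push Not at h'
      exact ⟨h', h⟩
  have h3 : ((AS K S).filter fun σ => ∀ x ∈ B0, σ x = 0).card +
      (AS K (insert B0 S)).card = (AS K S).card := by
    rw [h2]
    exact Finset.card_filter_add_card_filter_not _
  have hQ : 1 ≤ (K + 1) ^ 2 := Nat.one_le_pow _ _ (Nat.succ_pos K)
  obtain ⟨Q, hQ'⟩ : ∃ Q, (K + 1) ^ 2 = Q + 1 := ⟨(K + 1) ^ 2 - 1, by omega⟩
  rw [hQ'] at h1 ⊢
  simp only [Nat.add_sub_cancel]
  nlinarith

theorem AS_card (K : ℕ) (S : Finset (Finset X)) :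
    (∀ B ∈ S, B.card ≤ 2) → (∀ B ∈ S, ∀ B' ∈ S, B ≠ B' → Disjoint B B') →
    ((K + 1) ^ 2) ^ S.card * (AS K S).card ≤
      ((K + 1) ^ 2 - 1) ^ S.card * (K + 1) ^ Fintype.card X := by
  refine Finset.induction_on S ?_ ?_
  · intro _ _
    simp only [Finset.card_empty, pow_zero, one_mul]
    refine (Finset.card_filter_le _ _).trans ?_
    rw [Finset.card_univ, Fintype.card_fun, Fintype.card_fin]
  · intro B0 S hB0 ih hc hd
    have ih' := ih (fun B hB => hc B (Finset.mem_insert_of_mem hB))
      (fun B hB B' hB' => hd B (Finset.mem_insert_of_mem hB) B' (Finset.mem_insert_of_mem hB'))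
    have h1 := AS_insert K S B0
      (fun B hB => hd B0 (Finset.mem_insert_self _ _) B (Finset.mem_insert_of_mem hB)
        (fun h => hB0 (h ▸ hB)))
      (hc B0 (Finset.mem_insert_self _ _))
    rw [Finset.card_insert_of_notMem hB0]
    calc ((K + 1) ^ 2) ^ (S.card + 1) * (AS K (insert B0 S)).card
        = ((K + 1) ^ 2) ^ S.card * ((K + 1) ^ 2 * (AS K (insert B0 S)).card) := by ring
      _ ≤ ((K + 1) ^ 2) ^ S.card * (((K + 1) ^ 2 - 1) * (AS K S).card) :=
          Nat.mul_le_mul_left _ h1
      _ = ((K + 1) ^ 2 - 1) * (((K + 1) ^ 2) ^ S.card * (AS K S).card) := by ring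
      _ ≤ ((K + 1) ^ 2 - 1) * (((K + 1) ^ 2 - 1) ^ S.card * (K + 1) ^ Fintype.card X) :=
          Nat.mul_le_mul_left _ ih'
      _ = ((K + 1) ^ 2 - 1) ^ (S.card + 1) * (K + 1) ^ Fintype.card X := by ring

variable {E : Type} [AddCommGroup E] [Module F2 E]

/-- the blocks `B` of `S` avoid `v` and span `f v` -/
def Blk (f : X → E) (v : X) (S : Finset (Finset X)) : Prop :=
  ∀ B ∈ S, v ∉ B ∧ B.card ≤ 2 ∧ f v ∈ Submodule.span F2 (f '' (B : Set X))

theorem gen_AS {K : ℕ} {c : ℝ} {f : X → E} {v : X} (hg : Gen K c f v) (S : Finset (Finset X))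
    (hS : Blk f v S) : c * (K + 1 : ℝ) ^ Fintype.card X ≤ ((AS K S).card : ℝ) := by
  unfold Gen at hg
  have h1 : ((univ : Finset (X → Fin (K + 1))).filter
      fun σ => ¬ (f v ∈ spn f {u | u ≠ v ∧ σ u = 0})) ⊆ AS K S := by
    intro σ hσ
    rw [Finset.mem_filter] at hσ
    unfold AS
    rw [Finset.mem_filter]
    refine ⟨Finset.mem_univ _, ?_⟩
    intro B hB
    by_contra hcon
    push Not at hcon
    apply hσ.2
    obtain ⟨hv, _, hsp⟩ := hS B hB
    unfold spn
    refine Submodule.span_mono (Set.image_mono ?_) hsp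
    intro x hx
    exact ⟨fun h => hv (h ▸ hx), hcon x hx⟩
  have h2 := Finset.card_le_card h1
  have h3 := Finset.card_filter_add_card_filter_not (s := (univ : Finset (X → Fin (K + 1))))
    (fun σ => f v ∈ spn f {u | u ≠ v ∧ σ u = 0})
  have h4 : ((univ : Finset (X → Fin (K + 1))).card : ℝ) = (K + 1 : ℝ) ^ Fintype.card X := by
    rw [Finset.card_univ, Fintype.card_fun, Fintype.card_fin]
    push_cast
    ring
  have h5 : (((univ : Finset (X → Fin (K + 1))).filter
      fun σ => f v ∈ spn f {u | u ≠ v ∧ σ u = 0}).card : ℝ) +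
      (((univ : Finset (X → Fin (K + 1))).filter
      fun σ => ¬ (f v ∈ spn f {u | u ≠ v ∧ σ u = 0})).card : ℝ) =
      (K + 1 : ℝ) ^ Fintype.card X := by
    rw [← h4, ← h3]
    push_cast
    ring
  have h6 : (((univ : Finset (X → Fin (K + 1))).filter
      fun σ => ¬ (f v ∈ spn f {u | u ≠ v ∧ σ u = 0})).card : ℝ) ≤ ((AS K S).card : ℝ) := by
    exact_mod_cast h2
  linarith

theorem gen_ne_zero {K : ℕ} {c : ℝ} (hc : 0 < c) {f : X → E} {v : X} (hg : Gen K c f v) :
    f v ≠ 0 := by
  intro h0
  have h1 := gen_AS hg {∅} (by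
    intro B hB
    rw [Finset.mem_singleton] at hB
    subst hB
    refine ⟨Finset.notMem_empty _, by simp, ?_⟩
    rw [h0]
    exact Submodule.zero_mem _)
  have h2 : AS K ({∅} : Finset (Finset X)) = ∅ := by
    unfold AS
    rw [Finset.filter_eq_empty_iff]
    intro σ _ h
    obtain ⟨x, hx, _⟩ := h ∅ (Finset.mem_singleton_self _)
    exact Finset.notMem_empty _ hx
  rw [h2, Finset.card_empty, Nat.cast_zero] at h1
  have h3 : (0 : ℝ) < c * (K + 1 : ℝ) ^ Fintype.card X := by positivity
  linarith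

/-- at most `T - 1` disjoint blocks -/
def BT (f : X → E) (v : X) (T : ℕ) : Prop :=
  ∀ S : Finset (Finset X), Blk f v S → (∀ B ∈ S, ∀ B' ∈ S, B ≠ B' → Disjoint B B') → S.card < T

end A

theorem exists_T (K : ℕ) (c : ℝ) (hc : 0 < c) : ∃ T : ℕ, ∀ (X : Type) [Fintype X] (E : Type)
    [AddCommGroup E] [Module F2 E] (f : X → E) (v : X), Gen K c f v → BT f v T := by
  have hQ : (0 : ℝ) < ((K : ℝ) + 1) ^ 2 := by positivity
  have hQ1 : (1 : ℝ) ≤ ((K : ℝ) + 1) ^ 2 := by
    have : (1 : ℝ) ≤ (K : ℝ) + 1 := by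
      have : (0 : ℝ) ≤ K := Nat.cast_nonneg K
      linarith
    nlinarith
  have hy : ((((K : ℝ) + 1) ^ 2 - 1) / ((K : ℝ) + 1) ^ 2) < 1 := by
    rw [div_lt_one hQ]
    linarith
  have hy0 : 0 ≤ ((((K : ℝ) + 1) ^ 2 - 1) / ((K : ℝ) + 1) ^ 2) :=
    div_nonneg (by linarith) hQ.le
  obtain ⟨T, hT⟩ := exists_pow_lt_of_lt_one hc hy
  refine ⟨T, ?_⟩
  intro X _ E _ _ f v hg S hS hd
  by_contra hcon
  rw [not_lt] at hcon
  have h1 := gen_AS hg S hS
  have h2 := AS_card K S (fun B hB => (hS B hB).2.1) hd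
  have hP : (0 : ℝ) < (K + 1 : ℝ) ^ Fintype.card X := by positivity
  have h3 : ((((K : ℝ) + 1) ^ 2) ^ S.card) * ((AS K S).card : ℝ) ≤
      ((((K : ℝ) + 1) ^ 2 - 1) ^ S.card) * ((K + 1 : ℝ) ^ Fintype.card X) := by
    have h4 : (((((K + 1) ^ 2) ^ S.card * (AS K S).card : ℕ)) : ℝ) ≤
        ((((K + 1) ^ 2 - 1) ^ S.card * (K + 1) ^ Fintype.card X : ℕ) : ℝ) := by
      exact_mod_cast h2
    rw [Nat.cast_mul, Nat.cast_mul, Nat.cast_pow, Nat.cast_pow, Nat.cast_pow,
      Nat.cast_sub (Nat.one_le_pow _ _ (Nat.succ_pos K))] at h4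
    push_cast at h4
    exact h4
  have h5 : c * ((((K : ℝ) + 1) ^ 2) ^ S.card) ≤ ((((K : ℝ) + 1) ^ 2 - 1) ^ S.card) := by
    have h6 : (c * ((((K : ℝ) + 1) ^ 2) ^ S.card)) * (K + 1 : ℝ) ^ Fintype.card X ≤
        ((((K : ℝ) + 1) ^ 2 - 1) ^ S.card) * ((K + 1 : ℝ) ^ Fintype.card X) := by
      refine le_trans ?_ h3
      have h7 := mul_le_mul_of_nonneg_left h1 (pow_pos hQ S.card).le
      linarith
    exact le_of_mul_le_mul_right h6 hP
  have h8 : c ≤ ((((K : ℝ) + 1) ^ 2 - 1) / ((K : ℝ) + 1) ^ 2) ^ S.card := by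
    rw [div_pow, le_div_iff₀ (pow_pos hQ _)]
    exact h5
  have h9 : ((((K : ℝ) + 1) ^ 2 - 1) / ((K : ℝ) + 1) ^ 2) ^ S.card ≤
      ((((K : ℝ) + 1) ^ 2 - 1) / ((K : ℝ) + 1) ^ 2) ^ T :=
    pow_le_pow_of_le_one hy0 hy.le hcon
  linarith

section B
variable {X : Type} [Fintype X] {E : Type} [AddCommGroup E] [Module F2 E]

theorem mult_le {f : X → E} {v : X} {T : ℕ} (hT : BT f v T) :
    (univ.filter fun x => f x = f v).card ≤ T := by
  have h1 := hT ((univ.filter fun x => x ≠ v ∧ f x = f v).image fun x => ({x} : Finset X)) (by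
    intro B hB
    rw [Finset.mem_image] at hB
    obtain ⟨x, hx, rfl⟩ := hB
    rw [Finset.mem_filter] at hx
    refine ⟨?_, by simp, ?_⟩
    · rw [Finset.mem_singleton]
      exact fun h => hx.2.1 h.symm
    · rw [← hx.2.2]
      exact Submodule.subset_span ⟨x, by simp, rfl⟩) (by
    intro B hB B' hB' hne
    rw [Finset.mem_image] at hB hB'
    obtain ⟨x, hx, rfl⟩ := hB
    obtain ⟨y, hy, rfl⟩ := hB'
    rw [Finset.disjoint_singleton]
    intro h
    exact hne (by rw [h]))
  rw [Finset.card_image_of_injective _ Finset.singleton_injective] at h1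
  have h2 : (univ.filter fun x => f x = f v) ⊆
      insert v (univ.filter fun x => x ≠ v ∧ f x = f v) := by
    intro x hx
    rw [Finset.mem_filter] at hx
    rw [Finset.mem_insert, Finset.mem_filter]
    by_cases hxv : x = v
    · exact Or.inl hxv
    · exact Or.inr ⟨Finset.mem_univ _, hxv, hx.2⟩
  have h3 := Finset.card_le_card h2
  have h4 := Finset.card_insert_le v (univ.filter fun x => x ≠ v ∧ f x = f v)
  omega

/-- the short representations of `f v` -/
noncomputable def RR (f : X → E) (v : X) : Finset (Finset X) :=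
  univ.filter fun P : Finset X => v ∉ P ∧ P.Nonempty ∧ P.card ≤ 2 ∧ ∑ x ∈ P, f x = f v

theorem RR_x {f : X → E} {v : X} {T : ℕ} (hm : ∀ e, (univ.filter fun x => f x = e).card ≤ T)
    (x : X) : ((RR f v).filter fun P => x ∈ P).card ≤ T + 1 := by
  have h1 : ((RR f v).filter fun P => x ∈ P).card ≤
      (insert (∅ : Finset X) ((univ.filter fun y => f y = f v - f x).image fun y => ({y} : Finset X))).card := by
    refine Finset.card_le_card_of_injOn (fun P => P.erase x) ?_ ?_
    · intro P hP
      rw [Finset.mem_coe, Finset.mem_filter] at hP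
      obtain ⟨hP, hx⟩ := hP
      unfold RR at hP
      rw [Finset.mem_filter] at hP
      obtain ⟨_, _, _, hc, hs⟩ := hP
      have h2 : (P.erase x).card ≤ 1 := by
        rw [Finset.card_erase_of_mem hx]
        omega
      rw [Finset.mem_coe]
      show P.erase x ∈ _
      rw [Finset.mem_insert]
      rcases Nat.lt_or_ge (P.erase x).card 1 with h3 | h3
      · left
        exact Finset.card_eq_zero.mp (by omega)
      · right
        obtain ⟨y, hy⟩ := Finset.card_eq_one.mp (le_antisymm h2 h3)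
        rw [Finset.mem_image]
        refine ⟨y, ?_, hy.symm⟩
        rw [Finset.mem_filter]
        refine ⟨Finset.mem_univ _, ?_⟩
        have h4 := Finset.add_sum_erase P f hx
        rw [hy, Finset.sum_singleton, hs] at h4
        rw [← h4]
        abel
    · intro P hP P' hP' heq
      rw [Finset.mem_coe, Finset.mem_filter] at hP hP'
      have h2 := Finset.insert_erase hP.2
      have h3 := Finset.insert_erase hP'.2
      have heq' : P.erase x = P'.erase x := heq
      rw [← h2, ← h3, heq']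
  refine h1.trans ((Finset.card_insert_le _ _).trans ?_)
  have h5 := Finset.card_image_le (s := univ.filter fun y => f y = f v - f x)
    (f := fun y => ({y} : Finset X))
  have h6 := hm (f v - f x)
  omega

theorem RR_card {f : X → E} {v : X} {T : ℕ} (hT : BT f v T)
    (hm : ∀ e, (univ.filter fun x => f x = e).card ≤ T) : (RR f v).card ≤ 2 * T * (T + 1) := by
  -- a maximal disjoint family
  obtain ⟨S, hS, hmax⟩ := Finset.exists_max_image
    ((RR f v).powerset.filter fun S => ∀ B ∈ S, ∀ B' ∈ S, B ≠ B' → Disjoint B B')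
    Finset.card ⟨∅, by simp⟩
  rw [Finset.mem_filter, Finset.mem_powerset] at hS
  obtain ⟨hSR, hSd⟩ := hS
  have hblk : Blk f v S := by
    intro B hB
    have hB' := hSR hB
    unfold RR at hB'
    rw [Finset.mem_filter] at hB'
    obtain ⟨_, hv, _, hc, hs⟩ := hB'
    refine ⟨hv, hc, ?_⟩
    rw [← hs]
    refine Submodule.sum_mem _ ?_
    intro x hx
    exact Submodule.subset_span ⟨x, hx, rfl⟩
  have hcard := hT S hblk hSd
  have hmeet : ∀ P ∈ RR f v, ∃ x ∈ S.biUnion id, x ∈ P := by
    intro P hP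
    by_contra hcon
    push Not at hcon
    have hne : P.Nonempty := by
      unfold RR at hP
      rw [Finset.mem_filter] at hP
      exact hP.2.2.1
    have hdis : ∀ B ∈ S, Disjoint P B := by
      intro B hB
      rw [Finset.disjoint_left]
      intro x hx hxB
      exact hcon x (Finset.mem_biUnion.mpr ⟨B, hB, hxB⟩) hx
    have hPS : P ∉ S := by
      intro h
      obtain ⟨x, hx⟩ := hne
      exact Finset.disjoint_left.mp (hdis P h) hx hx
    have h1 := hmax (insert P S) (by
      rw [Finset.mem_filter, Finset.mem_powerset]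
      refine ⟨Finset.insert_subset hP hSR, ?_⟩
      intro B hB B' hB' hBB
      rw [Finset.mem_insert] at hB hB'
      rcases hB with rfl | hB
      · rcases hB' with rfl | hB'
        · exact absurd rfl hBB
        · exact hdis B' hB'
      · rcases hB' with rfl | hB'
        · exact (hdis B hB).symm
        · exact hSd B hB B' hB' hBB)
    rw [Finset.card_insert_of_notMem hPS] at h1
    omega
  have hsub : RR f v ⊆ (S.biUnion id).biUnion fun x => (RR f v).filter fun P => x ∈ P := by
    intro P hP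
    obtain ⟨x, hx, hxP⟩ := hmeet P hP
    rw [Finset.mem_biUnion]
    exact ⟨x, hx, Finset.mem_filter.mpr ⟨hP, hxP⟩⟩
  have hU : (S.biUnion id).card ≤ 2 * S.card := by
    refine Finset.card_biUnion_le.trans ?_
    have : ∑ B ∈ S, (id B : Finset X).card ≤ ∑ _B ∈ S, 2 :=
      Finset.sum_le_sum fun B hB => (hblk B hB).2.1
    rw [Finset.sum_const, smul_eq_mul] at this
    linarith
  calc (RR f v).card ≤ _ := Finset.card_le_card hsub
    _ ≤ ∑ x ∈ S.biUnion id, ((RR f v).filter fun P => x ∈ P).card := Finset.card_biUnion_le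
    _ ≤ ∑ _x ∈ S.biUnion id, (T + 1) := Finset.sum_le_sum fun x _ => RR_x hm x
    _ = (S.biUnion id).card * (T + 1) := by rw [Finset.sum_const, smul_eq_mul]
    _ ≤ 2 * T * (T + 1) := Nat.mul_le_mul_right _ (by omega)

end B

theorem BT.mono {X : Type} [Fintype X] {E : Type} [AddCommGroup E] [Module F2 E] {f : X → E}
    {v : X} {T T' : ℕ} (h : BT f v T) (hT : T ≤ T') : BT f v T' :=
  fun S hS hd => lt_of_lt_of_le (h S hS hd) hT

theorem mult_iota {ι E : Type} [Fintype ι] [AddCommGroup E] [Module F2 E] {f : ι → E} {T : ℕ}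
    (h : ∀ i, BT f i T) (e : E) : (univ.filter fun x => f x = e).card ≤ T := by
  by_cases he : ∃ i, f i = e
  · obtain ⟨i, rfl⟩ := he
    exact mult_le (h i)
  · have : (univ.filter fun x => f x = e) = ∅ := by
      rw [Finset.filter_eq_empty_iff]
      intro x _ hx
      exact he ⟨x, hx⟩
    rw [this, Finset.card_empty]
    exact Nat.zero_le _

theorem mult_V {ι N E : Type} [Fintype ι] [Fintype N] [AddCommGroup E] [Module F2 E]
    {F : ι ⊕ N → E} {T : ℕ} (h1 : ∀ u : N, BT F (Sum.inr u) T)
    (h2 : ∀ i : ι, BT (fun i => F (Sum.inl i)) i T) (e : E) :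
    (univ.filter fun x => F x = e).card ≤ T := by
  by_cases he : ∃ u : N, F (Sum.inr u) = e
  · obtain ⟨u, rfl⟩ := he
    exact mult_le (h1 u)
  · have h3 : (univ.filter fun x => F x = e) ⊆
        (univ.filter fun i : ι => F (Sum.inl i) = e).image Sum.inl := by
      intro x hx
      rw [Finset.mem_filter] at hx
      rcases x with i | u
      · exact Finset.mem_image.mpr ⟨i, Finset.mem_filter.mpr ⟨Finset.mem_univ _, hx.2⟩, rfl⟩
      · exact absurd ⟨u, hx.2⟩ he
    refine (Finset.card_le_card h3).trans (Finset.card_image_le.trans ?_)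
    exact mult_iota h2 e

/-- supports of short relations -/
noncomputable def GS {V E : Type} [Fintype V] [AddCommGroup E] (F : V → E) : Finset (Finset V) :=
  univ.filter fun s : Finset V => s.Nonempty ∧ s.card ≤ 3 ∧ ∑ v ∈ s, F v = 0

theorem neg_eq_self {E : Type} [AddCommGroup E] [Module F2 E] (e : E) : -e = e := by
  have h : (2 : F2) • e = 0 := by
    have : (2 : F2) = 0 := by decide
    rw [this, zero_smul]
  have h2 : e + e = 0 := by
    have h3 : (2 : F2) • e = e + e := two_smul F2 e
    rw [← h3, h]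
  exact neg_eq_of_add_eq_zero_left h2

theorem erase_mem_RR {V E : Type} [Fintype V] [AddCommGroup E] [Module F2 E] {F : V → E}
    {s : Finset V} {v : V} (hs : s ∈ GS F) (hv : v ∈ s) (h0 : F v ≠ 0) :
    s.erase v ∈ RR F v := by
  unfold GS at hs
  rw [Finset.mem_filter] at hs
  obtain ⟨_, _, hc, hsum⟩ := hs
  unfold RR
  rw [Finset.mem_filter]
  have h1 := Finset.add_sum_erase s F hv
  rw [hsum] at h1
  have h2 : ∑ x ∈ s.erase v, F x = F v := by
    have h3 : ∑ x ∈ s.erase v, F x = - F v := by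
      rw [eq_neg_iff_add_eq_zero, add_comm]
      exact h1
    rw [h3, neg_eq_self]
  refine ⟨Finset.mem_univ _, Finset.notMem_erase _ _, ?_, ?_, h2⟩
  · rw [Finset.nonempty_iff_ne_empty]
    intro he
    rw [he, Finset.sum_empty] at h2
    exact h0 h2.symm
  · rw [Finset.card_erase_of_mem hv]
    omega

theorem GS_card {ι N E : Type} [Fintype ι] [Fintype N] [AddCommGroup E] [Module F2 E]
    {F : ι ⊕ N → E} {T : ℕ} (h1 : ∀ u : N, BT F (Sum.inr u) T)
    (h2 : ∀ i : ι, BT (fun i => F (Sum.inl i)) i T) (z1 : ∀ u : N, F (Sum.inr u) ≠ 0)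
    (z2 : ∀ i : ι, F (Sum.inl i) ≠ 0) :
    (GS F).card ≤ 2 * T * (T + 1) * Fintype.card (ι ⊕ N) := by
  have hsub : GS F ⊆
      ((univ : Finset N).biUnion fun u => (RR F (Sum.inr u)).image fun P => insert (Sum.inr u) P) ∪
      ((univ : Finset ι).biUnion fun i =>
        (RR (fun i => F (Sum.inl i)) i).image fun P => insert (Sum.inl i) (P.image Sum.inl)) := by
    intro s hs
    rw [Finset.mem_union]
    by_cases hu : ∃ u : N, (Sum.inr u : ι ⊕ N) ∈ s
    · left
      obtain ⟨u, hu⟩ := hu
      rw [Finset.mem_biUnion]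
      refine ⟨u, Finset.mem_univ _, ?_⟩
      rw [Finset.mem_image]
      exact ⟨s.erase (Sum.inr u), by convert erase_mem_RR hs hu (z1 u), Finset.insert_erase hu⟩
    · right
      push Not at hu
      -- pull back to iota
      have hs' : (univ.filter fun i : ι => (Sum.inl i : ι ⊕ N) ∈ s).image Sum.inl = s := by
        ext x
        rw [Finset.mem_image]
        constructor
        · rintro ⟨i, hi, rfl⟩
          exact (Finset.mem_filter.mp hi).2
        · intro hx
          rcases x with i | u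
          · exact ⟨i, Finset.mem_filter.mpr ⟨Finset.mem_univ _, hx⟩, rfl⟩
          · exact absurd hx (hu u)
      set s' := univ.filter fun i : ι => (Sum.inl i : ι ⊕ N) ∈ s with hs'def
      have hcard : s'.card = s.card := by
        rw [← hs', Finset.card_image_of_injective _ Sum.inl_injective]
      have hsum : ∑ i ∈ s', F (Sum.inl i) = ∑ v ∈ s, F v := by
        rw [← hs', Finset.sum_image (fun a _ b _ h => Sum.inl_injective h)]
      have hsG : s' ∈ GS (fun i => F (Sum.inl i)) := by
        unfold GS at hs ⊢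
        rw [Finset.mem_filter] at hs ⊢
        obtain ⟨_, hne, hc, hsm⟩ := hs
        refine ⟨Finset.mem_univ _, ?_, ?_, ?_⟩
        · rw [← Finset.card_pos, hcard, Finset.card_pos]
          exact hne
        · rw [hcard]; exact hc
        · rw [hsum]; exact hsm
      have hne : s'.Nonempty := by
        unfold GS at hsG
        rw [Finset.mem_filter] at hsG
        exact hsG.2.1
      obtain ⟨i, hi⟩ := hne
      rw [Finset.mem_biUnion]
      refine ⟨i, Finset.mem_univ _, ?_⟩
      rw [Finset.mem_image]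
      refine ⟨s'.erase i, erase_mem_RR hsG hi (z2 i), ?_⟩
      rw [← Finset.image_insert, Finset.insert_erase hi, hs']
  have hm1 : ∀ e, (univ.filter fun x => F x = e).card ≤ T := mult_V h1 h2
  have hm2 : ∀ e, (univ.filter fun i : ι => F (Sum.inl i) = e).card ≤ T := mult_iota h2
  refine (Finset.card_le_card hsub).trans ((Finset.card_union_le _ _).trans ?_)
  have c1 : ((univ : Finset N).biUnion fun u =>
      (RR F (Sum.inr u)).image fun P => insert (Sum.inr u) P).card ≤
      Fintype.card N * (2 * T * (T + 1)) := by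
    refine Finset.card_biUnion_le.trans ?_
    have : ∑ u : N, ((RR F (Sum.inr u)).image fun P => insert (Sum.inr u) P).card ≤
        ∑ _u : N, 2 * T * (T + 1) :=
      Finset.sum_le_sum fun u _ => Finset.card_image_le.trans (RR_card (h1 u) hm1)
    rw [Finset.sum_const, smul_eq_mul, Finset.card_univ] at this
    exact this
  have c2 : ((univ : Finset ι).biUnion fun i =>
        (RR (fun i => F (Sum.inl i)) i).image fun P =>
          insert (Sum.inl i : ι ⊕ N) (P.image (Sum.inl : ι → ι ⊕ N))).card ≤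
      Fintype.card ι * (2 * T * (T + 1)) := by
    refine Finset.card_biUnion_le.trans ?_
    have : ∑ i : ι, ((RR (fun i => F (Sum.inl i)) i).image fun P =>
          insert (Sum.inl i : ι ⊕ N) (P.image (Sum.inl : ι → ι ⊕ N))).card ≤
        ∑ _i : ι, 2 * T * (T + 1) :=
      Finset.sum_le_sum fun i _ => Finset.card_image_le.trans (RR_card (h2 i) hm2)
    rw [Finset.sum_const, smul_eq_mul, Finset.card_univ] at this
    exact this
  rw [Fintype.card_sum]
  calc _ ≤ Fintype.card N * (2 * T * (T + 1)) + Fintype.card ι * (2 * T * (T + 1)) :=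
        Nat.add_le_add c1 c2
    _ = 2 * T * (T + 1) * (Fintype.card ι + Fintype.card N) := by ring

theorem F2_eq_one {a : F2} (h : a ≠ 0) : a = 1 := by
  revert h
  revert a
  decide

theorem words_le {V E : Type} [Fintype V] [AddCommGroup E] [Module F2 E] (F : V → E) :
    (univ.filter fun u : V → F2 => ∑ v, u v • F v = 0 ∧ 0 < hammingNorm u ∧
      hammingNorm u ≤ 3).card ≤ (GS F).card := by
  refine Finset.card_le_card_of_injOn (fun u => univ.filter fun v => u v ≠ 0) ?_ ?_
  · intro u hu
    rw [Finset.mem_coe, Finset.mem_filter] at hu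
    obtain ⟨_, hsum, hpos, hle⟩ := hu
    rw [Finset.mem_coe]
    unfold GS
    rw [Finset.mem_filter]
    have hn : hammingNorm u = (univ.filter fun v => u v ≠ 0).card := by
      unfold hammingNorm
      congr
    refine ⟨Finset.mem_univ _, ?_, ?_, ?_⟩
    · rw [← Finset.card_pos, ← hn]
      exact hpos
    · rw [← hn]
      exact hle
    · rw [← hsum, Finset.sum_filter]
      refine Finset.sum_congr rfl ?_
      intro v _
      by_cases hv : u v = 0
      · rw [if_neg (not_not.mpr hv), hv, zero_smul]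
      · rw [if_pos hv, F2_eq_one hv, one_smul]
  · intro u _ u' _ heq
    funext v
    have h1 : v ∈ (univ.filter fun v => u v ≠ 0) ↔ v ∈ (univ.filter fun v => u' v ≠ 0) := by
      have heq' : (univ.filter fun v => u v ≠ 0) = (univ.filter fun v => u' v ≠ 0) := heq
      rw [heq']
    rw [Finset.mem_filter, Finset.mem_filter] at h1
    by_cases hv : u v = 0
    · by_cases hv' : u' v = 0
      · rw [hv, hv']
      · exact absurd hv (h1.mpr ⟨Finset.mem_univ _, hv'⟩).2
    · have hv' := (h1.mp ⟨Finset.mem_univ _, hv⟩).2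
      rw [F2_eq_one hv, F2_eq_one hv']

theorem job : S_CNT := by
  intro K K1 c hc
  obtain ⟨T1, hT1⟩ := exists_T K (1 / 2) (by norm_num)
  obtain ⟨T2, hT2⟩ := exists_T K1 c hc
  refine ⟨2 * (max T1 T2) * (max T1 T2 + 1), ?_⟩
  intro ι N E _ _ _ _ F h1 h2
  have hw := words_le F
  refine le_trans (le_of_eq ?_) (hw.trans ?_)
  · congr!
  refine GS_card ?_ ?_ ?_ ?_
  · intro u
    exact (hT1 _ E F (Sum.inr u) (h1 u)).mono (le_max_left _ _)
  · intro i
    exact (hT2 _ E (fun i => F (Sum.inl i)) i (h2 i)).mono (le_max_right _ _)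
  · intro u
    exact gen_ne_zero (by norm_num) (h1 u)
  · intro i
    exact gen_ne_zero (f := fun i => F (Sum.inl i)) hc (h2 i)

end Pool.Agent.Helper835_LTC.J_CNT
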