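import Mathlib
import Pool.Agent.Helper835_LTC.Defs

set_option autoImplicit false

open Finset
open scoped Classical

namespace Pool.Agent.Helper835_LTC.J_DEC

open Pool.Agent.Helper835_LTC

theorem job : S_DEC := by
  intro G _ _ I _ b C0 z hz hsum
  have hc : ∀ v, cost b z v (z v) = 0 := fun v =>
    (Finset.sum_eq_zero_iff.mp hsum) v (mem_univ v)
  have hA : ∀ v i, z v i = z (nbA b v i) i := by
    intro v i
    have h := hc v
    unfold cost at h
    have h1 := (Nat.add_eq_zero_iff.mp h).1
    rw [Finset.card_eq_zero, Finset.filter_eq_empty_iff] at h1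
    have h2 := h1 (mem_univ i)
    exact not_not.mp h2
  have hB : ∀ v j i, z v i j = z (nbB b v j) i j := by
    intro v j i
    have h := hc v
    unfold cost at h
    have h1 := (Nat.add_eq_zero_iff.mp h).2
    rw [Finset.card_eq_zero, Finset.filter_eq_empty_iff] at h1
    have h2 := not_not.mp (h1 (mem_univ j))
    exact congrFun h2 i
  have hv : ∀ v, view b (fun p : G × I × I => z (p.1, false, false) p.2.1 p.2.2) v = z v := by
    rintro ⟨g, a, c⟩
    funext i j
    cases a <;> cases c
    · simp [view, sq]
    · have h1 := hB (g, false, true) j i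
      simp only [nbB, if_true, Bool.not_true] at h1
      simp only [view, sq, if_true, one_mul, Bool.false_eq_true, if_false]
      exact h1.symm
    · have h1 := congrFun (hA (g, true, false) i) j
      simp only [nbA, if_true, Bool.not_true] at h1
      simp only [view, sq, if_true, mul_one, Bool.false_eq_true, if_false]
      exact h1.symm
    · have h1 := congrFun (hA (g, true, true) i) j
      have h2 := hB (nbA b (g, true, true) i) j i
      simp only [nbA, nbB, if_true, Bool.not_true] at h1 h2
      simp only [view, sq, if_true]
      rw [h1, h2]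
  refine ⟨fun p : G × I × I => z (p.1, false, false) p.2.1 p.2.2, ?_, hv⟩
  intro v
  rw [hv v]
  exact hz v

end Pool.Agent.Helper835_LTC.J_DEC
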