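-- job 8269 done by helper586; statement unchanged
import Mathlib
import Pool.Agent.Helper835_LTC.Defs2
/-!
Part of project LTC (three query locally testable codes with few short dual words).
-/

set_option autoImplicit false

open Finset
open scoped Classical

namespace Pool.Agent.Helper835_LTC.J_DIST3

open Pool.Agent.Helper835_LTC

section
variable {ι E : Type} [Fintype ι] {q : ℕ} (C : Submodule F2 (ι → F2))
  (Q : E → Fin (q + 1) → ι) (h : E → Fin (q + 1) → F2) (φ : ι → ι) (ω : VV ι → ι)

theorem enc_inl (m : Msg C) (i : ι) :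
    enc (FF C Q h φ ω) m (Sum.inl i) = m.1.1 i + m.2.1.1 (φ i) := rfl

theorem enc_false (m : Msg C) (i : ι) :
    enc (FF C Q h φ ω) m (Sum.inr (Sum.inl (false, i))) =
      m.2.1.1 i + enc (FF C Q h φ ω) m (Sum.inl (ω (false, i))) := by
  have h1 : FF C Q h φ ω (Sum.inr (Sum.inl (false, i))) =
      fy C i + FF C Q h φ ω (Sum.inl (ω (false, i))) := by
    change fb C Q h φ (Sum.inl (false, i)) +
      ∑ k ∈ kf Q h φ (Sum.inl (false, i)), fa C φ (ω k) = _
    have h2 : kf Q h φ (Sum.inl (false, i) : NN ι E q) = {(false, i)} := rfl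
    rw [h2, Finset.sum_singleton]
    rfl
  change FF C Q h φ ω (Sum.inr (Sum.inl (false, i))) m = _
  rw [h1]
  rfl

theorem enc_true (m : Msg C) (i : ι) :
    enc (FF C Q h φ ω) m (Sum.inr (Sum.inl (true, i))) =
      m.2.2.1 i + enc (FF C Q h φ ω) m (Sum.inl (ω (true, i))) := by
  have h1 : FF C Q h φ ω (Sum.inr (Sum.inl (true, i))) =
      fz C i + FF C Q h φ ω (Sum.inl (ω (true, i))) := by
    change fb C Q h φ (Sum.inl (true, i)) +
      ∑ k ∈ kf Q h φ (Sum.inl (true, i)), fa C φ (ω k) = _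
    have h2 : kf Q h φ (Sum.inl (true, i) : NN ι E q) = {(true, i)} := rfl
    rw [h2, Finset.sum_singleton]
    rfl
  change FF C Q h φ ω (Sum.inr (Sum.inl (true, i))) m = _
  rw [h1]
  rfl

end

/-- Fibres of bounded size. -/
theorem card_fib {X Y : Type} [Fintype X] [Fintype Y] (g : X → Y) (m : ℕ)
    (hg : ∀ j, (univ.filter fun i => g i = j).card ≤ m) (P : Y → Prop) :
    (univ.filter fun i => P (g i)).card ≤ m * (univ.filter fun j => P j).card := by
  apply Finset.card_le_mul_card_image_of_maps_to (f := g)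
  · intro a ha
    simpa using ha
  · intro b _
    refine le_trans (Finset.card_le_card ?_) (hg b)
    intro a ha
    rw [Finset.mem_filter] at ha
    rw [Finset.mem_filter]
    exact ⟨Finset.mem_univ _, ha.2⟩

/-- Masked words. -/
theorem norm_mask {X : Type} [Fintype X] (y u v : X → F2) (huv : ∀ i, u i = y i + v i) :
    hammingNorm y ≤ (univ.filter fun i => u i ≠ 0).card + (univ.filter fun i => v i ≠ 0).card := by
  unfold hammingNorm
  refine le_trans (Finset.card_le_card ?_) (Finset.card_union_le _ _)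
  intro i hi
  rw [Finset.mem_filter] at hi
  rw [Finset.mem_union, Finset.mem_filter, Finset.mem_filter]
  by_contra hcon
  push Not at hcon
  have h1 : u i = 0 := hcon.1 (Finset.mem_univ _)
  have h2 : v i = 0 := hcon.2 (Finset.mem_univ _)
  have h3 := huv i
  rw [h1, h2, add_zero] at h3
  exact hi.2 h3.symm

theorem norm_sub {X V : Type} [Fintype X] [Fintype V] (w : V → F2) (g : X → V)
    (hg : Function.Injective g) :
    (univ.filter fun i => w (g i) ≠ 0).card ≤ hammingNorm w := by
  unfold hammingNorm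
  apply Finset.card_le_card_of_injOn g
  · intro i hi
    have hi' : w (g i) ≠ 0 := by simpa using hi
    simpa using hi'
  · exact hg.injOn

theorem norm_msg {ι E : Type} [Fintype ι] [Fintype E] {q : ℕ} (C : Submodule F2 (ι → F2))
    (Q : E → Fin (q + 1) → ι) (h : E → Fin (q + 1) → F2) (φ : ι → ι) (ω : VV ι → ι) (m1 m2 : ℕ)
    (hφ : ∀ j, (univ.filter fun i => φ i = j).card ≤ m1)
    (hω : ∀ j, (univ.filter fun k => ω k = j).card ≤ m2) (m : Msg C) :
    hammingNorm m.1.1 ≤ (1 + m1) * (1 + m2) * hammingNorm (enc (FF C Q h φ ω) m) ∧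
    hammingNorm m.2.1.1 ≤ (1 + m1) * (1 + m2) * hammingNorm (enc (FF C Q h φ ω) m) ∧
    hammingNorm m.2.2.1 ≤ (1 + m1) * (1 + m2) * hammingNorm (enc (FF C Q h φ ω) m) := by
  set w := enc (FF C Q h φ ω) m with hw
  have hA : (univ.filter fun i : ι => w (Sum.inl i) ≠ 0).card ≤ hammingNorm w :=
    norm_sub w (fun i : ι => (Sum.inl i : ι ⊕ NN ι E q)) Sum.inl_injective
  have hBf : (univ.filter fun i : ι => w (Sum.inr (Sum.inl (false, i))) ≠ 0).card ≤ hammingNorm w :=
    norm_sub w (fun i : ι => (Sum.inr (Sum.inl (false, i)) : ι ⊕ NN ι E q))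
      (fun i j hij => by simpa using hij)
  have hBt : (univ.filter fun i : ι => w (Sum.inr (Sum.inl (true, i))) ≠ 0).card ≤ hammingNorm w :=
    norm_sub w (fun i : ι => (Sum.inr (Sum.inl (true, i)) : ι ⊕ NN ι E q))
      (fun i j hij => by simpa using hij)
  have hωb : ∀ b : Bool, ∀ j, (univ.filter fun i : ι => ω (b, i) = j).card ≤ m2 := by
    intro b j
    refine le_trans ?_ (hω j)
    apply Finset.card_le_card_of_injOn (fun i : ι => ((b, i) : VV ι))
    · intro i hi
      simpa using hi
    · intro i _ j _ hij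
      simpa using hij
  have hy : hammingNorm m.2.1.1 ≤ (1 + m2) * hammingNorm w := by
    have h1 := norm_mask m.2.1.1 (fun i => w (Sum.inr (Sum.inl (false, i))))
      (fun i => w (Sum.inl (ω (false, i)))) (fun i => enc_false C Q h φ ω m i)
    have h2 : (univ.filter fun i => w (Sum.inl (ω (false, i))) ≠ 0).card ≤
        m2 * (univ.filter fun i : ι => w (Sum.inl i) ≠ 0).card := by
      convert card_fib (fun i => ω (false, i)) m2 (hωb false) (fun j => w (Sum.inl j) ≠ 0)
    have h3 := Nat.mul_le_mul_left m2 hA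
    have h4 : (1 + m2) * hammingNorm w = hammingNorm w + m2 * hammingNorm w := by ring
    omega
  have hz : hammingNorm m.2.2.1 ≤ (1 + m2) * hammingNorm w := by
    have h1 := norm_mask m.2.2.1 (fun i => w (Sum.inr (Sum.inl (true, i))))
      (fun i => w (Sum.inl (ω (true, i)))) (fun i => enc_true C Q h φ ω m i)
    have h2 : (univ.filter fun i => w (Sum.inl (ω (true, i))) ≠ 0).card ≤
        m2 * (univ.filter fun i : ι => w (Sum.inl i) ≠ 0).card := by
      convert card_fib (fun i => ω (true, i)) m2 (hωb true) (fun j => w (Sum.inl j) ≠ 0)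
    have h3 := Nat.mul_le_mul_left m2 hA
    have h4 : (1 + m2) * hammingNorm w = hammingNorm w + m2 * hammingNorm w := by ring
    omega
  have hx : hammingNorm m.1.1 ≤ hammingNorm w + m1 * ((1 + m2) * hammingNorm w) := by
    have h1 := norm_mask m.1.1 (fun i => w (Sum.inl i))
      (fun i => m.2.1.1 (φ i)) (fun i => enc_inl C Q h φ ω m i)
    have h2 : (univ.filter fun i => m.2.1.1 (φ i) ≠ 0).card ≤ m1 * hammingNorm m.2.1.1 := by
      unfold hammingNorm
      convert card_fib φ m1 hφ (fun j => m.2.1.1 j ≠ 0)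
    have h3 := Nat.mul_le_mul_left m1 hy
    omega
  have e1 : (1 + m1) * (1 + m2) * hammingNorm w =
      hammingNorm w + m1 * ((1 + m2) * hammingNorm w) + m2 * hammingNorm w := by ring
  have e2 : (1 + m2) * hammingNorm w = hammingNorm w + m2 * hammingNorm w := by ring
  refine ⟨?_, ?_, ?_⟩ <;> omega

theorem card_size {q D : ℕ} {ρ δ κ : ℝ} {ι E : Type} [Fintype ι] [Fintype E]
    {Q : E → Fin (q + 1) → ι} {h : E → Fin (q + 1) → F2} (hL : IsLTC (q + 1) D ρ δ κ Q h) :
    Fintype.card (ι ⊕ NN ι E q) ≤ (3 + 9 * D) * Fintype.card ι := by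
  have h1 : Fintype.card E * (q + 1) ≤ D * Fintype.card ι := by
    have h2 : Fintype.card (E × Fin (q + 1)) ≤ D * (univ : Finset ι).card := by
      rw [← Finset.card_univ]
      apply Finset.card_le_mul_card_image_of_maps_to (f := fun p : E × Fin (q + 1) => Q p.1 p.2)
      · intro a _
        exact Finset.mem_univ _
      · intro b _
        exact hL.deg b
    rw [Fintype.card_prod, Fintype.card_fin, Finset.card_univ] at h2
    exact h2
  have h3 : Fintype.card (ι ⊕ NN ι E q) =
      3 * Fintype.card ι + 9 * (Fintype.card E * (q + 1)) := by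
    simp only [Fintype.card_sum, Fintype.card_prod, Fintype.card_bool, Fintype.card_fin]
    ring
  rw [h3, Nat.add_mul, mul_assoc]
  omega

theorem job : S_DIST3 := by
  intro q D m1 m2 ρ δ κ hρ hδ hκ
  have hL0 : (0 : ℝ) < 3 + 9 * D := by positivity
  have hK0 : (0 : ℝ) < (1 + m1) * (1 + m2) := by positivity
  refine ⟨ρ / (3 + 9 * D), δ / ((1 + m1) * (1 + m2) * (3 + 9 * D)), by positivity,
    by positivity, ?_⟩
  intro ι E _ _ _ Q h φ ω hLTC hφ hω
  set C := codeOf Q h with hC
  have hn : (0 : ℝ) < Fintype.card ι := by exact_mod_cast Fintype.card_pos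
  have hsz : (Fintype.card (ι ⊕ NN ι E q) : ℝ) ≤ (3 + 9 * D) * Fintype.card ι := by
    exact_mod_cast card_size hLTC
  -- weight of the encoding
  have hwt : ∀ m : Msg C, m ≠ 0 → δ * Fintype.card ι ≤
      (1 + m1) * (1 + m2) * (hammingNorm (enc (FF C Q h φ ω) m) : ℝ) := by
    intro m hm
    obtain ⟨h1, h2, h3⟩ := norm_msg C Q h φ ω m1 m2 hφ hω m
    have h1' : (hammingNorm m.1.1 : ℝ) ≤
        (1 + m1) * (1 + m2) * (hammingNorm (enc (FF C Q h φ ω) m) : ℝ) := by exact_mod_cast h1
    have h2' : (hammingNorm m.2.1.1 : ℝ) ≤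
        (1 + m1) * (1 + m2) * (hammingNorm (enc (FF C Q h φ ω) m) : ℝ) := by exact_mod_cast h2
    have h3' : (hammingNorm m.2.2.1 : ℝ) ≤
        (1 + m1) * (1 + m2) * (hammingNorm (enc (FF C Q h φ ω) m) : ℝ) := by exact_mod_cast h3
    by_cases hx : m.1.1 = 0
    · by_cases hy : m.2.1.1 = 0
      · by_cases hz : m.2.2.1 = 0
        · exfalso
          apply hm
          apply Prod.ext
          · exact Subtype.ext hx
          · apply Prod.ext
            · exact Subtype.ext hy
            · exact Subtype.ext hz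
        · exact (hLTC.dist _ m.2.2.2 hz).trans h3'
      · exact (hLTC.dist _ m.2.1.2 hy).trans h2'
    · exact (hLTC.dist _ m.1.2 hx).trans h1'
  have hinj : Function.Injective (enc (FF C Q h φ ω)) := by
    rw [← LinearMap.ker_eq_bot, LinearMap.ker_eq_bot']
    intro m hm
    by_contra hm0
    have h1 := hwt m hm0
    rw [hm, hammingNorm_zero, Nat.cast_zero, mul_zero] at h1
    have h2 : 0 < δ * Fintype.card ι := mul_pos hδ hn
    linarith
  refine ⟨?_, ?_⟩
  · have h1 : Module.finrank F2 (fin3 C Q h φ ω) = 3 * Module.finrank F2 C := by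
      unfold fin3
      rw [LinearMap.finrank_range_of_inj hinj, Module.finrank_prod, Module.finrank_prod]
      ring
    have h2 : ρ / (3 + 9 * D) * Fintype.card (ι ⊕ NN ι E q) ≤ ρ * Fintype.card ι := by
      calc ρ / (3 + 9 * D) * Fintype.card (ι ⊕ NN ι E q)
          ≤ ρ / (3 + 9 * D) * ((3 + 9 * D) * Fintype.card ι) :=
            mul_le_mul_of_nonneg_left hsz (by positivity)
        _ = ρ * Fintype.card ι := by field_simp
    rw [h1]
    push_cast
    have h3 := hLTC.rate
    have h4 : (0 : ℝ) ≤ (Module.finrank F2 C : ℝ) := Nat.cast_nonneg _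
    linarith
  · intro x hx hx0
    obtain ⟨m, rfl⟩ := hx
    have hm0 : m ≠ 0 := by
      rintro rfl
      exact hx0 (map_zero _)
    have h1 := hwt m hm0
    calc δ / ((1 + m1) * (1 + m2) * (3 + 9 * D)) * Fintype.card (ι ⊕ NN ι E q)
        ≤ δ / ((1 + m1) * (1 + m2) * (3 + 9 * D)) * ((3 + 9 * D) * Fintype.card ι) :=
          mul_le_mul_of_nonneg_left hsz (by positivity)
      _ = (δ * Fintype.card ι) / ((1 + m1) * (1 + m2)) := by field_simp
      _ ≤ (hammingNorm (enc (FF C Q h φ ω) m) : ℝ) := by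
          rw [div_le_iff₀ hK0]
          linarith

end Pool.Agent.Helper835_LTC.J_DIST3
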