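import Mathlib
import Pool.Agent.Helper835_LTC.Defs

set_option autoImplicit false

open Finset
open scoped Classical

namespace Pool.Agent.Helper835_LTC.J_EXT

open Pool.Agent.Helper835_LTC

/-- the word with the coordinates in `R` replaced by zero -/
noncomputable def res {I : Type} (R : Finset I) : (I → F2) →ₗ[F2] (I → F2) where
  toFun x := fun i => if i ∈ R then 0 else x i
  map_add' x y := by
    funext i
    by_cases h : i ∈ R <;> simp [h]
  map_smul' a x := by
    funext i
    by_cases h : i ∈ R <;> simp [h]

theorem res_apply {I : Type} (R : Finset I) (x : I → F2) (i : I) :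
    res R x i = if i ∈ R then 0 else x i := rfl

theorem res_inj {I : Type} [Fintype I] (C0 : Submodule F2 (I → F2)) (d : ℝ) (hd : MinD d C0)
    (R : Finset I) (hR : (R.card : ℝ) < d) :
    LinearMap.ker ((res R).comp C0.subtype) = ⊥ := by
  rw [LinearMap.ker_eq_bot']
  intro x hx
  by_contra hne
  have h1 : (x : I → F2) ≠ 0 := fun h => hne (Subtype.ext h)
  have h2 := hd x x.2 h1
  have h3 : hammingNorm (x : I → F2) ≤ R.card := by
    unfold hammingNorm
    apply Finset.card_le_card
    intro i hi
    rw [Finset.mem_filter] at hi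
    by_contra hiR
    apply hi.2
    have h4 := congrFun hx i
    have h5 : res R (x : I → F2) i = 0 := h4
    rw [res_apply, if_neg hiR] at h5
    exact h5
  have h4 : (hammingNorm (x : I → F2) : ℝ) ≤ R.card := by exact_mod_cast h3
  linarith

theorem coef {I : Type} [Fintype I] (C0 : Submodule F2 (I → F2)) (d : ℝ) (hd : MinD d C0)
    (R : Finset I) (hR : (R.card : ℝ) < d) :
    ∃ c : I → I → F2, (∀ i, ∀ r ∈ R, c i r = 0) ∧
      (∀ i, i ∉ R → ∀ r, c i r = if r = i then 1 else 0) ∧
      ∀ x ∈ C0, ∀ i, x i = ∑ r, c i r * x r := by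
  obtain ⟨g, hg⟩ := LinearMap.exists_leftInverse_of_injective ((res R).comp C0.subtype)
    (res_inj C0 d hd R hR)
  refine ⟨fun i r => if i ∈ R then (if r ∈ R then 0 else ((g (Pi.single r 1) : C0) : I → F2) i)
    else (if r = i then 1 else 0), ?_, ?_, ?_⟩
  · intro i r hr
    by_cases hi : i ∈ R
    · simp [hi, hr]
    · have : r ≠ i := fun h => hi (h ▸ hr)
      simp [hi, this]
  · intro i hi r
    simp [hi]
  · intro x hx i
    by_cases hi : i ∈ R
    · have h1 : g (res R x) = (⟨x, hx⟩ : C0) := by
        have := LinearMap.congr_fun hg (⟨x, hx⟩ : C0)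
        simpa using this
      have h2 : res R x = ∑ r, (res R x r) • (Pi.single r (1 : F2) : I → F2) := by
        funext j
        simp [Finset.sum_apply, Pi.single_apply]
      have h3 : x i = ((g (res R x) : C0) : I → F2) i := by rw [h1]
      rw [h3, h2, map_sum]
      simp only [map_smul, Submodule.coe_sum, Finset.sum_apply, Submodule.coe_smul, Pi.smul_apply,
        smul_eq_mul, hi, if_true]
      apply Finset.sum_congr rfl
      intro r _
      by_cases hr : r ∈ R
      · simp [hr, res_apply]
      · have h4 : (∑ r, (res R x r) • (Pi.single r (1 : F2) : I → F2)) r = res R x r := by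
          rw [← h2]
        simp only [hr, if_false]
        rw [res_apply, if_neg hr, mul_comm]
    · simp [hi]

theorem job : S_EXT := by
  intro I _ C0 d hd R V hR hV w1 w2 h1 h2 h12
  obtain ⟨c, hc0, hc1, hcx⟩ := coef C0 d hd R hR
  obtain ⟨c', hc0', hc1', hcx'⟩ := coef C0 d hd V hV
  have hrow : ∀ i, (fun j => ∑ r, c i r * w2 r j) ∈ C0 := by
    intro i
    have : (fun j => ∑ r, c i r * w2 r j) = ∑ r, c i r • w2 r := by
      funext j
      simp [Finset.sum_apply]
    rw [this]
    exact C0.sum_mem fun r _ => C0.smul_mem _ (h2 r)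
  have hcolV : ∀ j, j ∉ V → ∀ i, ∑ r, c i r * w2 r j = w1 i j := by
    intro j hj i
    rw [hcx _ (h1 j) i]
    apply Finset.sum_congr rfl
    intro r _
    by_cases hr : r ∈ R
    · rw [hc0 i r hr]; simp
    · rw [h12 r hr j hj]
  have hrowR : ∀ i, i ∉ R → ∀ j, ∑ r, c i r * w2 r j = w2 i j := by
    intro i hi j
    simp [hc1 i hi]
  refine ⟨fun i j => ∑ r, c i r * w2 r j, ⟨hrow, ?_⟩, ?_, ?_⟩
  · intro j
    by_cases hj : j ∈ V
    · have : (fun i => ∑ r, c i r * w2 r j) =
          ∑ s ∈ univ.filter (fun s => s ∉ V), c' j s • (fun i => w1 i s) := by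
        funext i
        have h3 := hcx' _ (hrow i) j
        rw [h3, Finset.sum_apply, Finset.sum_filter]
        apply Finset.sum_congr rfl
        intro s _
        by_cases hs : s ∈ V
        · rw [hc0' j s hs]; simp [hs]
        · rw [if_pos hs, hcolV s hs i]
          simp
      rw [this]
      exact C0.sum_mem fun s _ => C0.smul_mem _ (h1 s)
    · have : (fun i => ∑ r, c i r * w2 r j) = fun i => w1 i j := by
        funext i
        exact hcolV j hj i
      rw [this]
      exact h1 j
  · intro j hj i
    exact hcolV j hj i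
  · intro i hi
    funext j
    exact hrowR i hi j

end Pool.Agent.Helper835_LTC.J_EXT
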