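import Mathlib
import Pool.Agent.Helper835_LTC.Defs2
/-!
Part of project LTC (three query locally testable codes with few short dual words).
-/

set_option autoImplicit false

open Finset
open scoped Classical

namespace Pool.Agent.Helper835_LTC.J_FIN

open Pool.Agent.Helper835_LTC

theorem hnorm {V V' : Type} [Fintype V] [Fintype V'] (e : V ≃ V') (x : V' → F2) :
    hammingNorm (fun v => x (e v)) = hammingNorm x := by
  unfold hammingNorm
  refine Finset.card_bij (fun v _ => e v) ?_ ?_ ?_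
  · intro a ha
    simpa using ha
  · intro a _ b _ h
    exact e.injective h
  · intro b hb
    exact ⟨e.symm b, by simpa using hb, by simp⟩

theorem hdist {V V' : Type} [Fintype V] [Fintype V'] (e : V ≃ V') (x y : V' → F2) :
    hammingDist (fun v => x (e v)) (fun v => y (e v)) = hammingDist x y := by
  unfold hammingDist
  refine Finset.card_bij (fun v _ => e v) ?_ ?_ ?_
  · intro a ha
    simpa using ha
  · intro a _ b _ h
    exact e.injective h
  · intro b hb
    exact ⟨e.symm b, by simpa using hb, by simp⟩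

/-- the transported code -/
noncomputable def tr {V V' : Type} (e : V ≃ V') (C : Submodule F2 (V → F2)) :
    Submodule F2 (V' → F2) :=
  C.map (LinearEquiv.funCongrLeft F2 F2 e.symm).toLinearMap

theorem mem_tr {V V' : Type} (e : V ≃ V') (C : Submodule F2 (V → F2)) (y : V' → F2) :
    y ∈ tr e C ↔ (fun v => y (e v)) ∈ C := by
  unfold tr
  constructor
  · rintro ⟨x, hx, rfl⟩
    have : (fun v => (LinearEquiv.funCongrLeft F2 F2 e.symm).toLinearMap x (e v)) = x := by
      funext v
      show x (e.symm (e v)) = x v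
      rw [e.symm_apply_apply]
    rw [this]
    exact hx
  · intro h
    refine ⟨_, h, ?_⟩
    funext v
    show y (e (e.symm v)) = y v
    rw [e.apply_symm_apply]

theorem dualtr {V V' : Type} [Fintype V] [Fintype V'] (e : V ≃ V') (C : Submodule F2 (V → F2))
    (u : V' → F2) :
    (∀ c ∈ tr e C, ∑ i, u i * c i = 0) ↔ ∀ c ∈ C, ∑ i, u (e i) * c i = 0 := by
  constructor
  · intro h c hc
    have h1 := h (fun v => c (e.symm v)) (by
      rw [mem_tr]
      simpa using hc)
    rw [← h1]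
    refine Fintype.sum_equiv e _ _ fun x => ?_
    simp
  · intro h c hc
    have h1 := h _ ((mem_tr e C c).1 hc)
    rw [← h1]
    exact (Fintype.sum_equiv e _ _ fun x => rfl).symm

theorem mem_D3 {V : Type} [Fintype V] (C : Submodule F2 (V → F2)) (u : V → F2) :
    u ∈ D3 C ↔ (∀ c ∈ C, ∑ i, u i * c i = 0) ∧ 0 < hammingNorm u ∧ hammingNorm u ≤ 3 := by
  unfold D3
  simp

theorem mem_D3_tr {V V' : Type} [Fintype V] [Fintype V'] (e : V ≃ V') (C : Submodule F2 (V → F2))
    (u : V' → F2) : u ∈ D3 (tr e C) ↔ (fun v => u (e v)) ∈ D3 C := by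
  rw [mem_D3, mem_D3, dualtr, hnorm]

theorem card_tr {V V' : Type} [Fintype V] [Fintype V'] (e : V ≃ V') (C : Submodule F2 (V → F2)) :
    (D3 (tr e C)).card = (D3 C).card := by
  refine Finset.card_bij (fun u _ => fun v => u (e v)) ?_ ?_ ?_
  · intro u hu
    exact (mem_D3_tr e C u).1 hu
  · intro a _ b _ h
    funext v
    have := congrFun h (e.symm v)
    simpa using this
  · intro b hb
    refine ⟨fun v => b (e.symm v), ?_, ?_⟩
    · rw [mem_D3_tr]
      simpa using hb
    · funext v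
      simp

theorem cardw_tr {V V' : Type} [Fintype V] [Fintype V'] (e : V ≃ V') (C : Submodule F2 (V → F2))
    (w : V' → F2) :
    ((D3 (tr e C)).filter fun u => ∑ v, u v * w v ≠ 0).card =
      ((D3 C).filter fun u => ∑ v, u v * w (e v) ≠ 0).card := by
  refine Finset.card_bij (fun u _ => fun v => u (e v)) ?_ ?_ ?_
  · intro u hu
    rw [Finset.mem_filter] at hu ⊢
    refine ⟨(mem_D3_tr e C u).1 hu.1, ?_⟩
    intro h0
    apply hu.2
    rw [← h0]
    exact (Fintype.sum_equiv e _ _ fun x => rfl).symm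
  · intro a _ b _ h
    funext v
    have := congrFun h (e.symm v)
    simpa using this
  · intro b hb
    rw [Finset.mem_filter] at hb
    refine ⟨fun v => b (e.symm v), ?_, ?_⟩
    · rw [Finset.mem_filter, mem_D3_tr]
      refine ⟨by simpa using hb.1, ?_⟩
      intro h0
      apply hb.2
      rw [← h0]
      refine Fintype.sum_equiv e _ _ fun x => ?_
      simp
    · funext v
      simp

theorem good_tr {V V' : Type} [Fintype V] [Fintype V'] (e : V ≃ V') {r δ s M : ℝ}
    {C : Submodule F2 (V → F2)} (h : Good r δ s M C) : Good r δ s M (tr e C) := by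
  have hc : Fintype.card V' = Fintype.card V := (Fintype.card_congr e).symm
  refine ⟨?_, ?_, ?_, ?_, ?_⟩
  · have h1 : Module.finrank F2 (tr e C) = Module.finrank F2 C :=
      LinearEquiv.finrank_map_eq (LinearEquiv.funCongrLeft F2 F2 e.symm) C
    rw [h1, hc]
    exact h.rate
  · intro y hy hy0
    rw [hc, ← hnorm e y]
    refine h.dist _ ((mem_tr e C y).1 hy) ?_
    intro h0
    apply hy0
    funext v
    have := congrFun h0 (e.symm v)
    simpa using this
  · rw [card_tr]
    exact h.pos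
  · rw [card_tr, hc]
    exact h.cnt
  · intro w hw
    rw [card_tr, cardw_tr]
    refine h.hyp (fun v => w (e v)) ?_
    intro c hcc
    have h1 := hw (fun v => c (e.symm v)) (by
      rw [mem_tr]
      simpa using hcc)
    rw [hc, ← hdist e] at h1
    simpa using h1

theorem ncard1 {n : ℕ} (C : Submodule F2 (Fin n → F2)) :
    ({u : Fin n → ZMod 2 | (∀ c ∈ C, ∑ i, u i * c i = 0) ∧
              0 < hammingNorm u ∧ hammingNorm u ≤ 3}.ncard) = (D3 C).card := by
  rw [← Set.ncard_coe_finset]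
  congr 1
  ext u
  rw [Finset.mem_coe, mem_D3]
  rfl

theorem ncard2 {n : ℕ} (C : Submodule F2 (Fin n → F2)) (w : Fin n → F2) :
    ({u : Fin n → ZMod 2 | (∀ c ∈ C, ∑ i, u i * c i = 0) ∧
              0 < hammingNorm u ∧ hammingNorm u ≤ 3 ∧ ∑ i, u i * w i ≠ 0}.ncard) =
      ((D3 C).filter fun u => ∑ v, u v * w v ≠ 0).card := by
  rw [← Set.ncard_coe_finset]
  congr 1
  ext u
  rw [Finset.mem_coe, Finset.mem_filter, mem_D3]
  constructor
  · rintro ⟨h1, h2, h3, h4⟩
    exact ⟨⟨h1, h2, h3⟩, h4⟩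
  · rintro ⟨⟨h1, h2, h3⟩, h4⟩
    exact ⟨h1, h2, h3, h4⟩

theorem job : S_GOOD → S_FINAL := by
  rintro ⟨r, δ, s, M, hr, hδ, hs, hN⟩ hneg
  let S : Set ℕ := {n | 0 < n ∧ ∃ C : Submodule F2 (Fin n → F2), Good r δ s M C}
  have hS : S.Infinite := by
    refine Set.infinite_of_forall_exists_gt fun N => ?_
    obtain ⟨V, hV, C, hVN, hC⟩ := hN (N + 1)
    refine ⟨Fintype.card V, ⟨by omega, ?_⟩, by omega⟩
    exact ⟨tr (Fintype.equivFin V) C, good_tr _ hC⟩
  have hch : ∀ n : ℕ, ∃ C : Submodule F2 (Fin n → F2), n ∈ S → Good r δ s M C := by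
    intro n
    by_cases hn : n ∈ S
    · obtain ⟨-, C, hC⟩ := hn
      exact ⟨C, fun _ => hC⟩
    · exact ⟨⊥, fun h => absurd h hn⟩
  choose C hC using hch
  have a1 : ∀ n ∈ S, r * (n : ℝ) ≤ (Module.finrank (ZMod 2) (C n) : ℝ) := by
    intro n hn
    have := (hC n hn).rate
    rwa [Fintype.card_fin] at this
  have a2 : ∀ n ∈ S, ∀ c ∈ C n, c ≠ 0 → δ * (n : ℝ) ≤ (hammingNorm c : ℝ) := by
    intro n hn c hc hc0
    have := (hC n hn).dist c hc hc0
    rwa [Fintype.card_fin] at this
  have a3 : ∀ n ∈ S, ∀ w : Fin n → ZMod 2,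
      (∀ c ∈ C n, δ / 3 * (n : ℝ) ≤ (hammingDist w c : ℝ)) →
      s ≤ ({u : Fin n → ZMod 2 | (∀ c ∈ C n, ∑ i, u i * c i = 0) ∧
              0 < hammingNorm u ∧ hammingNorm u ≤ 3 ∧ ∑ i, u i * w i ≠ 0}.ncard : ℝ) /
          ({u : Fin n → ZMod 2 | (∀ c ∈ C n, ∑ i, u i * c i = 0) ∧
              0 < hammingNorm u ∧ hammingNorm u ≤ 3}.ncard : ℝ) := by
    intro n hn w hw
    rw [ncard1, ncard2]
    have hp : (0 : ℝ) < (D3 (C n)).card := by exact_mod_cast (hC n hn).pos
    rw [le_div_iff₀ hp]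
    refine (hC n hn).hyp w ?_
    rw [Fintype.card_fin]
    exact hw
  obtain ⟨N, hNN⟩ := hneg S hS C r δ s hr hδ hs a1 a2 a3 (M + 1)
  obtain ⟨n, hnS, hn⟩ := hS.exists_gt N
  have h1 := hNN n hnS hn.le
  rw [ncard1] at h1
  have h2 := (hC n hnS).cnt
  rw [Fintype.card_fin] at h2
  have h3 : (0 : ℝ) < n := by exact_mod_cast hnS.1
  nlinarith

end Pool.Agent.Helper835_LTC.J_FIN
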