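import Mathlib
import Pool.Agent.Helper835_LTC.DefsG

set_option autoImplicit false

open Finset
open scoped Classical

namespace Pool.Agent.Helper835_LTC.J_GAP

open Pool.Agent.Helper835_LTC

theorem gap_abs {E : Type} [NormedAddCommGroup E] [InnerProductSpace ℝ E]
    [FiniteDimensional ℝ E] (T : E →ₗ[ℝ] E) (hT : T.IsSymmetric) (m c : ℝ)
    (hc0 : 0 ≤ c)
    (hpos : ∀ x, 0 ≤ inner ℝ (T x) x) (hc : ∀ x, c * inner ℝ (T x) x ≤ ‖T x‖ ^ 2)
    (hA : ∀ x, inner ℝ (T x) x ≤ m * ‖x‖ ^ 2) (f : E)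
    (hf : ∀ x, T x = 0 → inner ℝ x f = 0) :
    ‖m • f - T f‖ ^ 2 ≤ (m - c) ^ 2 * ‖f‖ ^ 2 := by
  set b := hT.eigenvectorBasis rfl with hb
  set μ := hT.eigenvalues rfl with hμ
  have hTb : ∀ i, T (b i) = μ i • b i := fun i => by
    exact hT.apply_eigenvectorBasis rfl i
  have hnb : ∀ i, ‖b i‖ = 1 := fun i => b.orthonormal.1 i
  have hib : ∀ i, inner ℝ (b i) (b i) = (1 : ℝ) := fun i => by
    rw [real_inner_self_eq_norm_sq, hnb]; norm_num
  have hiT : ∀ i, inner ℝ (T (b i)) (b i) = μ i := fun i => by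
    rw [hTb, real_inner_smul_left, hib, mul_one]
  have h0 : ∀ i, 0 ≤ μ i := fun i => by rw [← hiT]; exact hpos _
  have h1 : ∀ i, μ i ≤ m := fun i => by
    have := hA (b i)
    rw [hiT, hnb] at this
    linarith
  have h2 : ∀ i, c * μ i ≤ μ i ^ 2 := fun i => by
    have := hc (b i)
    rw [hiT, hTb, norm_smul, hnb, mul_one, Real.norm_eq_abs, sq_abs] at this
    exact this
  have hco : ∀ i, inner ℝ (b i) (m • f - T f) = (m - μ i) * inner ℝ (b i) f := fun i => by
    rw [inner_sub_right, real_inner_smul_right, ← hT, hTb, real_inner_smul_left]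
    ring
  rw [← b.sum_sq_norm_inner_right (m • f - T f), ← b.sum_sq_norm_inner_right f, Finset.mul_sum]
  refine Finset.sum_le_sum fun i _ => ?_
  rw [hco, Real.norm_eq_abs, sq_abs, Real.norm_eq_abs, sq_abs, mul_pow]
  rcases eq_or_lt_of_le (h0 i) with h | h
  · have : inner ℝ (b i) f = (0 : ℝ) := hf _ (by rw [hTb, ← h, zero_smul])
    rw [this]; simp
  · have hci : c ≤ μ i := by
      have := h2 i
      nlinarith
    have := h1 i
    apply mul_le_mul_of_nonneg_right _ (sq_nonneg _)
    apply pow_le_pow_left₀ <;> linarith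

section
variable {G : Type} [Group G]

theorem mulRight_pow (a : G) (n : ℕ) (g : G) : ((Equiv.mulRight a) ^ n) g = g * a ^ n := by
  induction n with
  | zero => simp
  | succ n ih => rw [pow_succ', Equiv.Perm.mul_apply, ih, Equiv.coe_mulRight, pow_succ]; group

theorem cm_mulRight (a b : G) (g : G) :
    Helper418.cm (Equiv.mulRight a : Equiv.Perm G) (Equiv.mulRight b) g
      = g * (b⁻¹ * a⁻¹ * b * a) := by
  unfold Helper418.cm
  simp only [Equiv.Perm.mul_apply, Equiv.coe_mulRight]
  have h1 : ∀ (a x : G), (Equiv.mulRight a : Equiv.Perm G)⁻¹ x = x * a⁻¹ := by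
    intro a x
    rw [Equiv.Perm.inv_eq_iff_eq]
    simp
  rw [h1, h1]
  group

theorem central {a b : G} (h1 : Commute (Helper418.cm a b) a)
    (h2 : Commute (Helper418.cm b a) b) :
    Commute (b⁻¹ * a⁻¹ * b * a) a ∧ Commute (b⁻¹ * a⁻¹ * b * a) b := by
  have hinv : Helper418.cm b a = (Helper418.cm a b)⁻¹ := by
    unfold Helper418.cm; group
  rw [hinv] at h2
  have h3 : Commute (Helper418.cm a b) b := by
    have := h2.inv_left
    rwa [inv_inv] at this
  have hab : a * b = Helper418.cm a b * (b * a) := by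
    unfold Helper418.cm; group
  have hba : b * a = (Helper418.cm a b)⁻¹ * (a * b) := by
    rw [hab]; group
  have h4 : b⁻¹ * a⁻¹ * b * a = (Helper418.cm a b)⁻¹ := by
    have h5 : Commute ((Helper418.cm a b)⁻¹) (a * b) := h1.inv_left.mul_right h3.inv_left
    calc b⁻¹ * a⁻¹ * b * a = (a * b)⁻¹ * (b * a) := by group
      _ = (a * b)⁻¹ * ((Helper418.cm a b)⁻¹ * (a * b)) := by rw [hba]
      _ = (a * b)⁻¹ * ((a * b) * (Helper418.cm a b)⁻¹) := by rw [h5.eq]
      _ = _ := by group
  rw [h4]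
  exact ⟨h1.inv_left, h3.inv_left⟩

theorem isTAct [Fintype G] {ι : Type} [Fintype ι] {p D : ℕ} {s : ι → G}
    (h : Helper418.IsTSystem p D s) :
    Helper418.IsTAct p (fun i j => ¬ Commute (s i) (s j))
      (fun i => (Equiv.mulRight (s i) : Equiv.Perm G)) ∅ := by
  refine ⟨fun i => ?_, fun i j _ hij => ?_, fun i j _ => ?_⟩
  · ext g
    rw [mulRight_pow, h.pow]; simp
  · have hij' : Commute (s i) (s j) := not_not.1 hij
    refine ⟨univ, by simp, by simp, by simp, fun x _ => ?_⟩
    simp only [Equiv.coe_mulRight]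
    rw [mul_assoc, mul_assoc, hij'.eq]
  · obtain ⟨h1, h2⟩ := central (h.comm i j) (h.comm j i)
    refine ⟨univ, by simp, by simp, by simp, fun x _ => ?_, fun x _ => ?_⟩
    · rw [cm_mulRight, cm_mulRight]
      simp only [Equiv.coe_mulRight]
      rw [mul_assoc, mul_assoc x, h1.eq]
    · rw [cm_mulRight, cm_mulRight]
      simp only [Equiv.coe_mulRight]
      rw [mul_assoc, mul_assoc x, h2.eq]

end

section
variable {X : Type} {p : ℕ}

theorem lap_add (σ : Equiv.Perm X) (f g : X → ℝ) (x : X) :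
    Helper418.lap p σ (f + g) x = Helper418.lap p σ f x + Helper418.lap p σ g x := by
  unfold Helper418.lap Helper418.avg
  simp only [Pi.add_apply, Finset.sum_add_distrib]
  ring

theorem lap_smul (σ : Equiv.Perm X) (c : ℝ) (f : X → ℝ) (x : X) :
    Helper418.lap p σ (c • f) x = c * Helper418.lap p σ f x := by
  unfold Helper418.lap Helper418.avg
  simp only [Pi.smul_apply, smul_eq_mul, ← Finset.mul_sum]
  ring

/-- the Laplacian on Euclidean space -/
noncomputable def LapE [Fintype X] {ι : Type} [Fintype ι] (p : ℕ) (σ : ι → Equiv.Perm X) :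
    EuclideanSpace ℝ X →ₗ[ℝ] EuclideanSpace ℝ X where
  toFun f := WithLp.toLp 2 (fun x => ∑ i, Helper418.lap p (σ i) f.ofLp x)
  map_add' f g := by
    ext x
    simp only [WithLp.ofLp_add, PiLp.add_apply]
    rw [← Finset.sum_add_distrib]
    exact Finset.sum_congr rfl fun i _ => lap_add _ _ _ _
  map_smul' c f := by
    ext x
    simp only [WithLp.ofLp_smul, PiLp.smul_apply, RingHom.id_apply, smul_eq_mul]
    rw [Finset.mul_sum]
    exact Finset.sum_congr rfl fun i _ => lap_smul _ _ _ _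

theorem LapE_apply [Fintype X] {ι : Type} [Fintype ι] (σ : ι → Equiv.Perm X)
    (f : EuclideanSpace ℝ X) (x : X) :
    LapE p σ f x = ∑ i, Helper418.lap p (σ i) f.ofLp x := rfl

theorem inner_eq [Fintype X] (f g : EuclideanSpace ℝ X) :
    inner ℝ f g = ∑ x, f x * g x := by
  rw [PiLp.inner_apply]
  exact Finset.sum_congr rfl fun x _ => by simp [mul_comm]

theorem norm_sq_eq [Fintype X] (f : EuclideanSpace ℝ X) :
    ‖f‖ ^ 2 = ∑ x, f x ^ 2 := by
  rw [EuclideanSpace.norm_sq_eq]
  exact Finset.sum_congr rfl fun x _ => by rw [Real.norm_eq_abs, sq_abs]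

theorem inner_LapE [Fintype X] {ι : Type} [Fintype ι] (σ : ι → Equiv.Perm X)
    (f g : EuclideanSpace ℝ X) :
    inner ℝ (LapE p σ f) g = ∑ i, ∑ x, Helper418.lap p (σ i) f.ofLp x * g x := by
  rw [inner_eq, Finset.sum_comm]
  refine Finset.sum_congr rfl fun x _ => ?_
  rw [LapE_apply, Finset.sum_mul]

theorem LapE_symm [Fintype X] {ι : Type} [Fintype ι] (σ : ι → Equiv.Perm X)
    (hσ : ∀ i, σ i ^ p = 1) : (LapE p σ).IsSymmetric := by
  intro f g
  rw [inner_LapE, real_inner_comm, inner_LapE]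
  refine Finset.sum_congr rfl fun i _ => ?_
  have h := Helper418.PairComm.lap_adj (σ i) (hσ i) f.ofLp g.ofLp
  refine h.trans ?_
  exact Finset.sum_congr rfl fun x _ => mul_comm _ _

theorem inner_LapE_self [Fintype X] {ι : Type} [Fintype ι] (hp : p.Prime)
    (σ : ι → Equiv.Perm X)
    (hσ : ∀ i, σ i ^ p = 1) (f : EuclideanSpace ℝ X) :
    inner ℝ (LapE p σ f) f = ∑ i, ∑ x, Helper418.lap p (σ i) f.ofLp x ^ 2 := by
  rw [inner_LapE]
  refine Finset.sum_congr rfl fun i _ => ?_
  have h := Helper418.PairComm.lap_adj (σ i) (hσ i) (Helper418.lap p (σ i) f.ofLp) f.ofLp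
  rw [Helper418.PairComm.lap_lap hp (σ i) (hσ i)] at h
  refine h.trans ?_
  exact Finset.sum_congr rfl fun x _ => (pow_two _).symm

end

theorem const_of_inv {G : Type} [Group G] {ι : Type} {s : ι → G}
    (hs : Subgroup.closure (Set.range s) = ⊤) (f : G → ℝ)
    (h : ∀ i g, f (g * s i) = f g) (g : G) : f g = f 1 := by
  have hg : g ∈ Subgroup.closure (Set.range s) := by rw [hs]; trivial
  have key : ∀ g ∈ Subgroup.closure (Set.range s), ∀ x, f (x * g) = f x := by
    intro g hg
    induction hg using Subgroup.closure_induction with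
    | mem y hy =>
      obtain ⟨i, rfl⟩ := hy
      exact fun x => h i x
    | one => intro x; rw [mul_one]
    | mul a b _ _ ha hb => intro x; rw [← mul_assoc, hb, ha]
    | inv a _ ha =>
      intro x
      have := ha (x * a⁻¹)
      rw [inv_mul_cancel_right] at this
      exact this.symm
  have := key g hg 1
  rwa [one_mul] at this

theorem job : S_GAP := by
  intro G _ _ ι _ _ p D s hs hcl f hf
  have hp := hs.prime
  have hp0 : (0 : ℝ) < p := by exact_mod_cast hp.pos
  have hm0 : (0 : ℝ) < Fintype.card ι := by exact_mod_cast Fintype.card_pos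
  set σ : ι → Equiv.Perm G := fun i => Equiv.mulRight (s i) with hσdef
  have hact : Helper418.IsTAct p (fun i j => ¬ Commute (s i) (s j)) σ ∅ := isTAct hs
  have hσ := hact.pow
  set c : ℝ := 1 - D / Real.sqrt p with hcdef
  have hsq : (0 : ℝ) < Real.sqrt p := Real.sqrt_pos.2 hp0
  have hc0 : 0 ≤ c := by
    have h1 : (D : ℝ) ≤ Real.sqrt p := by
      apply Real.le_sqrt_of_sq_le
      exact_mod_cast hs.hD.le
    rw [hcdef, sub_nonneg, div_le_one hsq]
    exact h1
  have hlap0 : ∀ x : EuclideanSpace ℝ G, LapE p σ x = 0 → inner ℝ x (WithLp.toLp 2 f) = (0:ℝ) := by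
    intro x hx
    have h1 := inner_LapE_self hp σ hσ x
    rw [hx, inner_zero_left] at h1
    have h2 : ∀ i g, Helper418.lap p (σ i) x.ofLp g = 0 := by
      intro i g
      have h3 := (Finset.sum_eq_zero_iff_of_nonneg
        (fun i _ => Finset.sum_nonneg fun g _ => sq_nonneg _)).1 h1.symm i (Finset.mem_univ _)
      have h4 := (Finset.sum_eq_zero_iff_of_nonneg (fun g _ => sq_nonneg _)).1 h3 g
        (Finset.mem_univ _)
      exact pow_eq_zero_iff (two_ne_zero) |>.1 h4
    have h3 : ∀ i g, x.ofLp (g * s i) = x.ofLp g := by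
      intro i g
      have h4 := h2 i g
      have h5 := h2 i (g * s i)
      unfold Helper418.lap at h4 h5
      have h6 := Helper418.PairComm.avg_apply (σ i) (hσ i) x.ofLp g
      have h7 : σ i g = g * s i := rfl
      rw [h7] at h6
      linarith
    have h4 := const_of_inv hcl x.ofLp h3
    rw [inner_eq]
    calc ∑ g, x g * f g = ∑ g, x 1 * f g := Finset.sum_congr rfl fun g _ => by rw [h4 g]
      _ = 0 := by rw [← Finset.mul_sum, hf, mul_zero]
  have hmain := gap_abs (LapE p σ) (LapE_symm σ hσ) (Fintype.card ι) c hc0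
    (fun x => by
      rw [inner_LapE_self hp σ hσ]
      exact Finset.sum_nonneg fun i _ => Finset.sum_nonneg fun g _ => sq_nonneg _)
    (fun x => by
      rw [inner_LapE_self hp σ hσ, norm_sq_eq]
      have hdeg : ∀ i, (univ.filter fun j => ¬ Commute (s i) (s j)).card ≤ D := fun i => by
        convert hs.deg i
      have h := Helper418.T_ineq (D := D) hp (nc := fun i j => ¬ Commute (s i) (s j))
        (fun i j hij hji => hij hji.symm) (fun i hi => hi (Commute.refl _))
        (fun i => by convert hdeg i) hact x.ofLp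
      rw [Finset.sum_empty, mul_zero, sub_zero] at h
      exact h)
    (fun x => by
      rw [inner_LapE_self hp σ hσ, norm_sq_eq]
      calc ∑ i, ∑ g, Helper418.lap p (σ i) x.ofLp g ^ 2 ≤ ∑ _i : ι, ∑ g, x g ^ 2 :=
            Finset.sum_le_sum fun i _ => Helper418.TIneq.sum_lap_sq_le hp.pos (σ i) (hσ i) _
        _ = _ := by rw [Finset.sum_const, Finset.card_univ, nsmul_eq_mul])
    (WithLp.toLp 2 f) hlap0
  rw [norm_sq_eq, norm_sq_eq] at hmain
  have hL : ∀ g, ∑ i, ∑ k ∈ Finset.range p, f (g * s i ^ k)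
      = p * (((Fintype.card ι : ℝ) • (WithLp.toLp 2 f : EuclideanSpace ℝ G)
        - LapE p σ (WithLp.toLp 2 f)) g) := by
    intro g
    have h1 : (((Fintype.card ι : ℝ) • (WithLp.toLp 2 f : EuclideanSpace ℝ G)
        - LapE p σ (WithLp.toLp 2 f)) g) = ∑ i, Helper418.avg p (σ i) f g := by
      rw [PiLp.sub_apply, PiLp.smul_apply, LapE_apply]
      unfold Helper418.lap
      rw [Finset.sum_sub_distrib, Finset.sum_const, Finset.card_univ, nsmul_eq_mul, smul_eq_mul]
      simp
    rw [h1, Finset.mul_sum]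
    refine Finset.sum_congr rfl fun i _ => ?_
    unfold Helper418.avg
    rw [mul_div_cancel₀ _ hp0.ne']
    refine Finset.sum_congr rfl fun k _ => ?_
    rw [hσdef, mulRight_pow]
  calc ∑ g, (∑ i, ∑ k ∈ Finset.range p, f (g * s i ^ k)) ^ 2
      = (p : ℝ) ^ 2 * ∑ g, (((Fintype.card ι : ℝ) • (WithLp.toLp 2 f : EuclideanSpace ℝ G)
        - LapE p σ (WithLp.toLp 2 f)) g) ^ 2 := by
        rw [Finset.mul_sum]
        exact Finset.sum_congr rfl fun g _ => by rw [hL g, mul_pow]
    _ ≤ (p : ℝ) ^ 2 * ((Fintype.card ι - c) ^ 2 * ∑ g, f g ^ 2) :=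
        mul_le_mul_of_nonneg_left hmain (by positivity)
    _ = _ := by
        have : (1 - c / Fintype.card ι) * (Fintype.card ι * (p : ℝ)) = (Fintype.card ι - c) * p := by
          field_simp
        rw [this]; ring

end Pool.Agent.Helper835_LTC.J_GAP
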