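import Mathlib
import Pool.Agent.Helper835_LTC.Defs
/-!
Part of project LTC (three query locally testable codes with few short dual words).
-/

set_option autoImplicit false

open Finset
open scoped Classical

namespace Pool.Agent.Helper835_LTC.J_GREEDY

open Pool.Agent.Helper835_LTC

/-- number of `i` with `π i m ≠ π i (z (nb v i))` -/
noncomputable def nd {V M X I : Type} [Fintype I] (nb : V → I → V) (π : I → M → X) (z : V → M)
    (v : V) (m : M) : ℕ := (univ.filter fun i : I => π i m ≠ π i (z (nb v i))).card

theorem inv_key {V M X : Type} [Fintype V] [DecidableEq V] (τ : V → V) (h1 : ∀ v, τ (τ v) = v)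
    (h2 : ∀ v, τ v ≠ v) (π : M → X) (z : V → M) (v : V) (m : M) :
    (∑ u, (if π (Function.update z v m u) ≠ π (Function.update z v m (τ u)) then (1 : ℤ) else 0))
      = (∑ u, (if π (z u) ≠ π (z (τ u)) then (1 : ℤ) else 0)) +
        2 * ((if π m ≠ π (z (τ v)) then (1 : ℤ) else 0) -
          (if π (z v) ≠ π (z (τ v)) then (1 : ℤ) else 0)) := by
  have h2' : v ≠ τ v := fun h => h2 v h.symm
  have hz : ∀ u, u ≠ v → Function.update z v m u = z u := fun u hu => Function.update_of_ne hu _ _
  have hv : Function.update z v m v = m := Function.update_self _ _ _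
  rw [← sub_eq_iff_eq_add', ← Finset.sum_sub_distrib]
  have hsub : ∑ u ∈ ({v, τ v} : Finset V),
      ((if π (Function.update z v m u) ≠ π (Function.update z v m (τ u)) then (1 : ℤ) else 0) -
        (if π (z u) ≠ π (z (τ u)) then (1 : ℤ) else 0)) =
      ∑ u, ((if π (Function.update z v m u) ≠ π (Function.update z v m (τ u)) then (1 : ℤ) else 0) -
        (if π (z u) ≠ π (z (τ u)) then (1 : ℤ) else 0)) := by
    refine Finset.sum_subset (Finset.subset_univ _) ?_
    intro u _ hu
    rw [Finset.mem_insert, Finset.mem_singleton, not_or] at hu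
    have hu2 : τ u ≠ v := by
      intro h
      apply hu.2
      rw [← h, h1]
    rw [hz u hu.1, hz (τ u) hu2, sub_self]
  rw [← hsub, Finset.sum_pair h2', hv, hz (τ v) (h2 v), h1, hv]
  by_cases e1 : π m = π (z (τ v)) <;> by_cases e2 : π (z v) = π (z (τ v))
  · simp [e1, e2]
  · have e3 : π (z (τ v)) ≠ π (z v) := fun h => e2 h.symm
    simp [e1, e2, e3]
  · have e3 : π (z (τ v)) ≠ π m := fun h => e1 h.symm
    simp [e1, e2, e3]
  · have e3 : π (z (τ v)) ≠ π m := fun h => e1 h.symm
    have e4 : π (z (τ v)) ≠ π (z v) := fun h => e2 h.symm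
    simp [e1, e2, e3, e4]

theorem nd_cast {V M X I : Type} [Fintype I] (nb : V → I → V) (π : I → M → X) (z : V → M)
    (v : V) (m : M) :
    ((nd nb π z v m : ℕ) : ℤ) = ∑ i, (if π i m ≠ π i (z (nb v i)) then (1 : ℤ) else 0) := by
  unfold nd
  rw [Finset.card_filter]
  push_cast
  rfl

theorem nd_update {V M X I : Type} [Fintype V] [DecidableEq V] [Fintype I] (nb : V → I → V) (π : I → M → X)
    (h1 : ∀ v i, nb (nb v i) i = v) (h2 : ∀ v i, nb v i ≠ v) (z : V → M) (v : V) (m : M) :
    ∑ u, nd nb π (Function.update z v m) u (Function.update z v m u) + 2 * nd nb π z v (z v) =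
      ∑ u, nd nb π z u (z u) + 2 * nd nb π z v m := by
  have key : ((∑ u, nd nb π (Function.update z v m) u (Function.update z v m u)
      + 2 * nd nb π z v (z v) : ℕ) : ℤ) =
      ((∑ u, nd nb π z u (z u) + 2 * nd nb π z v m : ℕ) : ℤ) := by
    push_cast
    simp only [nd_cast]
    rw [Finset.sum_comm, Finset.sum_comm (f := fun u i =>
      (if π i (z u) ≠ π i (z (nb u i)) then (1 : ℤ) else 0))]
    have h3 : ∀ i : I, (∑ u, (if π i (Function.update z v m u) ≠
        π i (Function.update z v m (nb u i)) then (1 : ℤ) else 0)) = _ :=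
      fun i => inv_key (fun u => nb u i) (fun u => h1 u i) (fun u => h2 u i) (π i) z v m
    rw [Finset.sum_congr rfl (fun i _ => h3 i), Finset.sum_add_distrib, ← Finset.mul_sum,
      Finset.sum_sub_distrib]
    ring
  exact_mod_cast key

theorem cost_eq {G : Type} [Group G] {I : Type} [Fintype I] (b : I → G)
    (z : Vx G → I → I → F2) (v : Vx G) (m : I → I → F2) :
    cost b z v m = nd (nbA b) (fun i (m : I → I → F2) => m i) z v m +
      nd (nbB b) (fun j (m : I → I → F2) => fun i => m i j) z v m := by
  unfold cost nd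
  congr 1
  · congr 1
    ext i
    simp only [Finset.mem_filter]
  · congr 1
    ext i
    simp only [Finset.mem_filter]

theorem nbA_nbA {G : Type} [Group G] {I : Type} (b : I → G) (v : Vx G) (i : I) :
    nbA b (nbA b v i) i = v := by
  obtain ⟨g, p, q⟩ := v
  cases p <;> simp [nbA]

theorem nbA_ne {G : Type} [Group G] {I : Type} (b : I → G) (v : Vx G) (i : I) :
    nbA b v i ≠ v := by
  obtain ⟨g, p, q⟩ := v
  intro h
  have h' : (!p) = p := congrArg (fun w : Vx G => w.2.1) h
  cases p <;> simp at h'

theorem nbB_nbB {G : Type} [Group G] {I : Type} (b : I → G) (v : Vx G) (i : I) :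
    nbB b (nbB b v i) i = v := by
  obtain ⟨g, p, q⟩ := v
  cases q <;> simp [nbB]

theorem nbB_ne {G : Type} [Group G] {I : Type} (b : I → G) (v : Vx G) (i : I) :
    nbB b v i ≠ v := by
  obtain ⟨g, p, q⟩ := v
  intro h
  have h' : (!q) = q := congrArg (fun w : Vx G => w.2.2) h
  cases q <;> simp at h'

theorem cost_update {G : Type} [Group G] [Fintype G] {I : Type} [Fintype I] (b : I → G)
    (z : Vx G → I → I → F2) (v : Vx G) (m : I → I → F2) :
    ∑ u, cost b (Function.update z v m) u (Function.update z v m u) + 2 * cost b z v (z v) =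
      ∑ u, cost b z u (z u) + 2 * cost b z v m := by
  have hA := nd_update (nbA b) (fun i (m : I → I → F2) => m i) (nbA_nbA b) (nbA_ne b) z v m
  have hB := nd_update (nbB b) (fun j (m : I → I → F2) => fun i => m i j) (nbB_nbB b) (nbB_ne b)
    z v m
  simp only [cost_eq, Finset.sum_add_distrib]
  omega

theorem greedy_aux (G : Type) [Group G] [Fintype G] (I : Type) [Fintype I] (b : I → G)
    (C0 : Submodule F2 (I → F2)) : ∀ (N : ℕ) (z0 : Vx G → I → I → F2),
    (∀ v, InLoc C0 (z0 v)) → ∑ v, cost b z0 v (z0 v) = N →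
    ∃ z : Vx G → I → I → F2, (∀ v, InLoc C0 (z v)) ∧
      (∀ v m, InLoc C0 m → cost b z v (z v) ≤ cost b z v m) ∧
      ∑ v, cost b z v (z v) ≤ N ∧ (univ.filter fun v => z v ≠ z0 v).card ≤ N := by
  intro N
  induction N using Nat.strong_induction_on with
  | _ N ih =>
    intro z0 hz0 hN
    by_cases hmin : ∀ v m, InLoc C0 m → cost b z0 v (z0 v) ≤ cost b z0 v m
    · refine ⟨z0, hz0, hmin, hN.le, ?_⟩
      have : (univ.filter fun v => z0 v ≠ z0 v) = ∅ := by
        rw [Finset.filter_eq_empty_iff]
        intro v _ h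
        exact h rfl
      rw [this, Finset.card_empty]
      exact Nat.zero_le _
    · push Not at hmin
      obtain ⟨v, m, hm, hlt⟩ := hmin
      have hup := cost_update b z0 v m
      have hloc1 : ∀ u, InLoc C0 (Function.update z0 v m u) := by
        intro u
        by_cases hu : u = v
        · subst hu
          rw [Function.update_self]
          exact hm
        · rw [Function.update_of_ne hu]
          exact hz0 u
      obtain ⟨z, hz, hzmin, hzle, hzc⟩ := ih _ (by omega) (Function.update z0 v m) hloc1 rfl
      refine ⟨z, hz, hzmin, by omega, ?_⟩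
      have hsub : (univ.filter fun u => z u ≠ z0 u) ⊆
          insert v (univ.filter fun u => z u ≠ Function.update z0 v m u) := by
        intro u hu
        rw [Finset.mem_filter] at hu
        rw [Finset.mem_insert, Finset.mem_filter]
        by_cases huv : u = v
        · exact Or.inl huv
        · refine Or.inr ⟨Finset.mem_univ _, ?_⟩
          rw [Function.update_of_ne huv]
          exact hu.2
      have h1 := (Finset.card_le_card hsub).trans (Finset.card_insert_le _ _)
      omega

theorem job : S_GREEDY := by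
  intro G _ _ I _ b C0 z0 hz0
  exact greedy_aux G I b C0 _ z0 hz0 rfl

end Pool.Agent.Helper835_LTC.J_GREEDY

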