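import Mathlib
import Pool.Agent.Helper835_LTC.DefsG
import Pool.Agent.Helper418_Sofic.Alg

set_option autoImplicit false

open Finset
open scoped Classical

namespace Pool.Agent.Helper835_LTC.J_GRP

open Pool.Agent.Helper835_LTC Helper418

section
variable {K : Type} [Field K]

/-- elementary matrices as units -/
noncomputable def E (i j : Fin 3) (r : K) : (Matrix (Fin 3) (Fin 3) K)ˣ :=
  tr (Matrix.single i j r)

theorem sg_mul (i j l : Fin 3) (r r' : K) :
    (Matrix.single i j r : Matrix (Fin 3) (Fin 3) K) * Matrix.single j l r' =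
      Matrix.single i l (r * r') := by
  simp

theorem sg_zero {i j k l : Fin 3} (h : j ≠ k) (r r' : K) :
    (Matrix.single i j r : Matrix (Fin 3) (Fin 3) K) * Matrix.single k l r' = 0 :=
  Matrix.single_mul_single_of_ne _ i j k h _

theorem E_cm {i j l : Fin 3} (hij : i ≠ j) (hjl : j ≠ l) (hil : i ≠ l) (r r' : K) :
    cm (E i j r) (E j l r') = E i l (r * r') := by
  unfold E
  rw [cm_tr (sg_zero hij.symm r r) (sg_zero hjl.symm r' r') (sg_zero hil.symm r' r), sg_mul]

theorem E_comm {i j k l : Fin 3} (hij : i ≠ j) (hkl : k ≠ l) (hjk : j ≠ k) (hli : l ≠ i)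
    (r r' : K) : Commute (E i j r) (E k l r') := by
  unfold E
  exact tr_commute (sg_zero hij.symm r r) (sg_zero hkl.symm r' r') (sg_zero hjk r r')
    (sg_zero hli r' r)

theorem E_pow {p : ℕ} [CharP K p] {i j : Fin 3} (hij : i ≠ j) (r : K) : E i j r ^ p = 1 := by
  unfold E
  rw [tr_pow (sg_zero hij.symm r r)]
  have : (p : Matrix (Fin 3) (Fin 3) K) * Matrix.single i j r = 0 := by
    have h : (p : Matrix (Fin 3) (Fin 3) K) = 0 := by
      have : (p : Matrix (Fin 3) (Fin 3) K) = Matrix.diagonal (fun _ => (p : K)) := by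
        ext a b
        simp [Matrix.diagonal, Matrix.natCast_apply]
      rw [this, CharP.cast_eq_zero]
      simp
    rw [h, zero_mul]
  rw [this, tr_zero]

theorem E_inj {i j : Fin 3} (hij : i ≠ j) {r r' : K} (h : E i j r = E i j r') : r = r' := by
  have h1 := congrArg (fun u : (Matrix (Fin 3) (Fin 3) K)ˣ => (u : Matrix (Fin 3) (Fin 3) K) i j) h
  simp only [E] at h1
  rw [tr_val (sg_zero hij.symm r r), tr_val (sg_zero hij.symm r' r')] at h1
  simpa [Matrix.add_apply] using h1

/-- row of the k-th generator -/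
def row : Fin 6 → Fin 3 := ![0, 0, 1, 1, 2, 2]

/-- entry of the k-th generator -/
def ent (α : K) : Fin 6 → K := ![1, α, 1, α, 1, α]

/-- generators -/
noncomputable def s0 (α : K) (k : Fin 6) : (Matrix (Fin 3) (Fin 3) K)ˣ :=
  E (row k) (row k + 1) (ent α k)

theorem ne1 (i : Fin 3) : i ≠ i + 1 := by decide +revert
theorem ne2 (i : Fin 3) : i ≠ i + 2 := by decide +revert
theorem ne3 (i : Fin 3) : i + 1 ≠ i + 2 := by decide +revert

theorem two_eq (i : Fin 3) : i + 2 = i + 1 + 1 := by decide +revert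

theorem row_cases (i j : Fin 3) : j = i ∨ j = i + 1 ∨ i = j + 1 := by decide +revert

theorem cm_comm_aux (i j : Fin 3) (r r' : K) :
    Commute (cm (E i (i + 1) r) (E j (j + 1) r')) (E i (i + 1) r) := by
  rcases row_cases i j with h | h | h
  · subst h
    have : Commute (E j (j + 1) r) (E j (j + 1) r') :=
      E_comm (ne1 j) (ne1 j) (ne1 j).symm (ne1 j).symm r r'
    have h2 : cm (E j (j + 1) r) (E j (j + 1) r') = 1 := by
      unfold cm
      rw [this.eq]
      group
    rw [h2]
    exact Commute.one_left _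
  · subst h
    have e : i + 1 + 1 = i + 2 := by decide +revert
    rw [e, E_cm (ne1 i) (ne3 i) (ne2 i)]
    exact E_comm (ne2 i) (ne1 i) (ne2 i).symm (ne1 i).symm _ _
  · subst h
    have e : j + 1 + 1 = j + 2 := by decide +revert
    rw [e]
    have h1 : cm (E (j + 1) (j + 2) r) (E j (j + 1) r') =
        (cm (E j (j + 1) r') (E (j + 1) (j + 2) r))⁻¹ := by
      unfold cm; group
    rw [h1, E_cm (ne1 j) (ne3 j) (ne2 j)]
    exact (E_comm (ne2 j) (ne3 j) (ne3 j).symm (ne2 j).symm _ _).inv_left

theorem comm_of_row {α : K} {k l : Fin 6} (h : row k = row l) : Commute (s0 α k) (s0 α l) := by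
  unfold s0
  rw [h]
  exact E_comm (ne1 _) (ne1 _) (ne1 _).symm (ne1 _).symm _ _

/-- the generated group -/
noncomputable def G0 (α : K) : Subgroup (Matrix (Fin 3) (Fin 3) K)ˣ :=
  Subgroup.closure (Set.range (s0 α))

theorem cm_mem {G : Type} [Group G] {H : Subgroup G} {a b : G} (ha : a ∈ H) (hb : b ∈ H) :
    cm a b ∈ H := by
  unfold cm
  exact H.mul_mem (H.mul_mem (H.mul_mem ha hb) (H.inv_mem ha)) (H.inv_mem hb)

theorem E1_mem (α : K) (i : Fin 3) : E i (i + 1) (1 : K) ∈ G0 α := by
  apply Subgroup.subset_closure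
  fin_cases i
  · exact ⟨0, rfl⟩
  · exact ⟨2, rfl⟩
  · exact ⟨4, rfl⟩

theorem Ea_mem (α : K) (i : Fin 3) : E i (i + 1) α ∈ G0 α := by
  apply Subgroup.subset_closure
  fin_cases i
  · exact ⟨1, rfl⟩
  · exact ⟨3, rfl⟩
  · exact ⟨5, rfl⟩

theorem E1_mem' (α : K) {i j : Fin 3} (h : i ≠ j) : E i j (1 : K) ∈ G0 α := by
  rcases row_cases i j with h1 | h1 | h1
  · exact absurd h1.symm h
  · subst h1; exact E1_mem α i
  · have e : j = i + 2 := by subst h1; decide +revert
    have := E_cm (ne1 i) (ne3 i) (ne2 i) (1 : K) 1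
    rw [mul_one] at this
    rw [e, ← this]
    have e2 : i + 2 = i + 1 + 1 := two_eq i
    rw [e2]
    exact cm_mem (E1_mem α i) (E1_mem α (i + 1))

theorem Ea_mem' (α : K) {i j : Fin 3} (h : i ≠ j) : E i j α ∈ G0 α := by
  rcases row_cases i j with h1 | h1 | h1
  · exact absurd h1.symm h
  · subst h1; exact Ea_mem α i
  · have e : j = i + 2 := by subst h1; decide +revert
    have := E_cm (ne1 i) (ne3 i) (ne2 i) (1 : K) α
    rw [one_mul] at this
    rw [e, ← this]
    have e2 : i + 2 = i + 1 + 1 := two_eq i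
    rw [e2]
    exact cm_mem (E1_mem α i) (Ea_mem α (i + 1))

theorem third {i l : Fin 3} (h : i ≠ l) : ∃ j : Fin 3, i ≠ j ∧ j ≠ l := by
  decide +revert

theorem Ek_mem (α : K) (k : ℕ) : ∀ {i j : Fin 3}, i ≠ j → E i j (α ^ k) ∈ G0 α := by
  induction k with
  | zero => intro i j h; rw [pow_zero]; exact E1_mem' α h
  | succ k ih =>
    intro i l h
    obtain ⟨j, h1, h2⟩ := third h
    rw [pow_succ, ← E_cm h1 h2 h]
    exact cm_mem (ih h1) (Ea_mem' α h2)

end

theorem job : S_GRP := by
  intro N
  haveI : Fact (Nat.Prime 17) := ⟨by norm_num⟩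
  let K := GaloisField 17 (N + 1)
  haveI : Finite K := inferInstance
  haveI : Fintype K := Fintype.ofFinite K
  have hcard : Fintype.card K = 17 ^ (N + 1) := by
    rw [← Nat.card_eq_fintype_card]
    exact GaloisField.card 17 (N + 1) (by omega)
  obtain ⟨g, hg⟩ := IsCyclic.exists_generator (α := Kˣ)
  have hord : orderOf g = Fintype.card Kˣ := by
    rw [← Nat.card_eq_fintype_card]
    exact orderOf_eq_card_of_forall_mem_zpowers hg
  have hN : N ≤ orderOf g := by
    rw [hord, Fintype.card_units, hcard]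
    have : N + 1 < 17 ^ (N + 1) := Nat.lt_pow_self (by norm_num)
    omega
  let α : K := g
  haveI : Finite (Matrix (Fin 3) (Fin 3) K) := inferInstance
  haveI : Finite (Matrix (Fin 3) (Fin 3) K)ˣ := inferInstance
  haveI : Finite (G0 α) := inferInstance
  letI : Fintype (G0 α) := Fintype.ofFinite _
  refine ⟨G0 α, inferInstance, inferInstance,
    fun k => ⟨s0 α k, Subgroup.subset_closure ⟨k, rfl⟩⟩, ?_, ?_, ?_⟩
  · have hinj : Function.Injective (fun k : Fin N =>
        (⟨E 0 1 (α ^ (k : ℕ)), Ek_mem α k (by decide)⟩ : G0 α)) := by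
      intro a b hab
      have h1 : E (0 : Fin 3) 1 (α ^ (a : ℕ)) = E 0 1 (α ^ (b : ℕ)) := by
        simpa using congrArg Subtype.val hab
      have h2 := E_inj (by decide) h1
      have h3 : g ^ (a : ℕ) = g ^ (b : ℕ) := by
        ext
        simpa [α] using h2
      have := pow_injOn_Iio_orderOf (x := g) (Set.mem_Iio.mpr (lt_of_lt_of_le a.2 hN))
        (Set.mem_Iio.mpr (lt_of_lt_of_le b.2 hN)) h3
      exact Fin.ext this
    simpa using Fintype.card_le_of_injective _ hinj
  · refine ⟨by norm_num, by norm_num, ?_, ?_, ?_⟩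
    · intro i
      apply Subtype.ext
      haveI : CharP K 17 := inferInstance
      simpa [s0] using E_pow (p := 17) (ne1 (row i)) (ent α i)
    · intro i j
      apply Subtype.ext
      exact (cm_comm_aux (row i) (row j) (ent α i) (ent α j)).eq
    · intro i
      refine le_trans (card_le_card (t := univ.filter fun j => row i ≠ row j) ?_) ?_
      · intro j
        simp only [mem_filter, mem_univ, true_and]
        intro h hrow
        exact h (Subtype.ext (comm_of_row (α := α) hrow).eq)
      · have : ∀ i : Fin 6, #{j | row i ≠ row j} ≤ 4 := by decide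
        convert this i
  · have := Subgroup.closure_closure_coe_preimage (k := Set.range (s0 α))
    refine Eq.trans (congrArg Subgroup.closure ?_) this
    ext x
    constructor
    · rintro ⟨k, rfl⟩
      exact ⟨k, rfl⟩
    · rintro ⟨k, hk⟩
      exact ⟨k, Subtype.ext hk⟩

end Pool.Agent.Helper835_LTC.J_GRP
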