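import Mathlib
import Pool.Agent.Helper835_LTC.Defs

set_option autoImplicit false

open Finset
open scoped Classical

namespace Pool.Agent.Helper835_LTC.J_GV

open Pool.Agent.Helper835_LTC

/-- generating function of the weights -/
lemma sum_weights (d : ℕ) (t : ℝ) :
    ∑ x : Fin d → F2, t ^ hammingNorm x = (1 + t) ^ d := by
  have h1 : ∀ x : Fin d → F2, t ^ hammingNorm x = ∏ i, (if x i ≠ 0 then t else 1) := by
    intro x
    rw [Finset.prod_ite, Finset.prod_const, Finset.prod_const_one, mul_one]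
    congr 1
  simp_rw [h1]
  have h2 := Finset.prod_univ_sum (fun _ : Fin d => (univ : Finset F2))
    (fun (_ : Fin d) (a : F2) => (if a ≠ 0 then t else (1 : ℝ)))
  rw [Fintype.piFinset_univ] at h2
  rw [← h2]
  have h3 : ∑ a : F2, (if a ≠ 0 then t else (1 : ℝ)) = 1 + t := by
    have : (univ : Finset F2) = {0, 1} := by decide
    rw [this, Finset.sum_pair (by decide)]
    simp
  rw [Finset.prod_congr rfl (fun i _ => h3)]
  simp

/-- volume of the ball -/
lemma ball (d : ℕ) :
    ((univ.filter fun x : Fin d → F2 => 400 * hammingNorm x < d).card : ℝ) ^ 400 ≤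
      (2 : ℝ) ^ (25 * d) := by
  set B := univ.filter fun x : Fin d → F2 => 400 * hammingNorm x < d with hB
  rcases Nat.eq_zero_or_pos B.card with h0 | h0
  · rw [h0]
    simp
  · obtain ⟨k, hk⟩ : ∃ k : ℕ, k = (d - 1) / 400 := ⟨_, rfl⟩
    have hd : 0 < d := by
      obtain ⟨x, hx⟩ := Finset.card_pos.mp h0
      have := (Finset.mem_filter.mp hx).2
      omega
    have h1 : (B.card : ℝ) * (1 / 64) ^ k ≤ (65 / 64) ^ d := by
      have h2 := sum_weights d (1 / 64)
      have h3 : ∑ x ∈ B, ((1 : ℝ) / 64) ^ hammingNorm x ≤ ∑ x : Fin d → F2, (1 / 64 : ℝ) ^ hammingNorm x :=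
        Finset.sum_le_sum_of_subset_of_nonneg (Finset.subset_univ _)
          (fun x _ _ => by positivity)
      have h4 : ∑ x ∈ B, ((1 : ℝ) / 64) ^ k ≤ ∑ x ∈ B, ((1 : ℝ) / 64) ^ hammingNorm x := by
        refine Finset.sum_le_sum fun x hx => ?_
        have := (Finset.mem_filter.mp hx).2
        exact pow_le_pow_of_le_one (by norm_num) (by norm_num) (by omega)
      rw [Finset.sum_const, nsmul_eq_mul] at h4
      calc (B.card : ℝ) * (1 / 64) ^ k ≤ _ := h4
        _ ≤ _ := h3
        _ = (1 + 1 / 64) ^ d := h2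
        _ = (65 / 64) ^ d := by norm_num
    have h5 : (B.card : ℝ) ≤ 64 ^ k * (65 / 64) ^ d := by
      have h6 : (B.card : ℝ) = 64 ^ k * ((B.card : ℝ) * (1 / 64) ^ k) := by
        have : (64 : ℝ) ^ k * (1 / 64) ^ k = 1 := by
          rw [← mul_pow]; norm_num
        calc (B.card : ℝ) = (B.card : ℝ) * ((64 : ℝ) ^ k * (1 / 64) ^ k) := by rw [this, mul_one]
          _ = _ := by ring
      rw [h6]
      exact mul_le_mul_of_nonneg_left h1 (by positivity)
    calc (B.card : ℝ) ^ 400 ≤ (64 ^ k * (65 / 64) ^ d) ^ 400 :=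
          pow_le_pow_left₀ (by positivity) h5 400
      _ = 64 ^ (400 * k) * ((65 / 64) ^ 400) ^ d := by
          rw [mul_pow, ← pow_mul, ← pow_mul, ← pow_mul]
          congr 1
          · congr 1; ring
          · congr 1; ring
      _ ≤ 64 ^ d * (2 ^ 19) ^ d := by
          have h7 : (64 : ℝ) ^ (400 * k) ≤ 64 ^ d :=
            pow_le_pow_right₀ (by norm_num) (by omega)
          have h8 : ((65 / 64 : ℝ) ^ 400) ^ d ≤ (2 ^ 19) ^ d := by
            refine pow_le_pow_left₀ (by positivity) ?_ d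
            have h9 : (65 / 64 : ℝ) ^ 40 ≤ 3 / 2 + 1 / 2 := by norm_num
            calc (65 / 64 : ℝ) ^ 400 = ((65 / 64) ^ 40) ^ 10 := by rw [← pow_mul]
              _ ≤ (3 / 2 + 1 / 2) ^ 10 := pow_le_pow_left₀ (by positivity) h9 10
              _ ≤ 2 ^ 19 := by norm_num
          exact mul_le_mul h7 h8 (by positivity) (by positivity)
      _ = (2 : ℝ) ^ (25 * d) := by
          rw [← mul_pow, pow_mul]
          norm_num

/-- adding a word far away from a code -/
lemma extend (d : ℕ) (δ : ℝ) (C : Submodule F2 (Fin d → F2)) (hC : MinD δ C) (y : Fin d → F2)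
    (hy : ∀ c ∈ C, δ ≤ hammingNorm (y - c)) : MinD δ (C ⊔ Submodule.span F2 {y}) := by
  intro x hx hx0
  obtain ⟨c, hc, z, hz, rfl⟩ := Submodule.mem_sup.mp hx
  obtain ⟨a, rfl⟩ := Submodule.mem_span_singleton.mp hz
  have ha : a = 0 ∨ a = 1 := (by decide : ∀ a : F2, a = 0 ∨ a = 1) a
  rcases ha with rfl | rfl
  · rw [zero_smul, add_zero] at hx0 ⊢
    exact hC c hc hx0
  · rw [one_smul]
    have := hy (-c) (C.neg_mem hc)
    rw [sub_neg_eq_add, add_comm] at this
    exact this

theorem job : S_GV := by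
  refine ⟨1, fun d hd => ?_⟩
  -- a code of maximal dimension
  have hex : ∃ n : ℕ, ∃ C : Submodule F2 (Fin d → F2), MinD ((1 / 400 : ℝ) * d) C ∧
      Module.finrank F2 C = n := by
    refine ⟨_, ⊥, ?_, rfl⟩
    intro x hx hx0
    exact absurd ((Submodule.mem_bot _).mp hx) hx0
  have hbd : ∀ n : ℕ, (∃ C : Submodule F2 (Fin d → F2), MinD ((1 / 400 : ℝ) * d) C ∧
      Module.finrank F2 C = n) → n ≤ d := by
    rintro n ⟨C, -, rfl⟩
    have := Submodule.finrank_le C
    rwa [Module.finrank_fintype_fun_eq_card, Fintype.card_fin] at this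
  obtain ⟨C, hC, hmax⟩ : ∃ C : Submodule F2 (Fin d → F2), MinD ((1 / 400 : ℝ) * d) C ∧
      ∀ C' : Submodule F2 (Fin d → F2), MinD ((1 / 400 : ℝ) * d) C' →
        Module.finrank F2 C' ≤ Module.finrank F2 C := by
    obtain ⟨n, hn⟩ := hex
    have hP := Nat.findGreatest_spec (P := fun n => ∃ C : Submodule F2 (Fin d → F2),
      MinD ((1 / 400 : ℝ) * d) C ∧ Module.finrank F2 C = n) (hbd n hn) hn
    obtain ⟨C, hC, hCn⟩ := hP
    refine ⟨C, hC, fun C' hC' => ?_⟩
    rw [hCn]
    exact Nat.le_findGreatest (hbd _ ⟨C', hC', rfl⟩) ⟨C', hC', rfl⟩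
  refine ⟨C, ?_, hC⟩
  set B := univ.filter fun x : Fin d → F2 => 400 * hammingNorm x < d with hB
  -- the balls cover
  have hcov : ∀ y : Fin d → F2, ∃ c ∈ C, y - c ∈ B := by
    intro y
    by_contra hcon
    push Not at hcon
    have hy : ∀ c ∈ C, (1 / 400 : ℝ) * d ≤ hammingNorm (y - c) := by
      intro c hc
      have h1 := hcon c hc
      rw [hB, Finset.mem_filter] at h1
      have h2 : d ≤ 400 * hammingNorm (y - c) := by
        by_contra h3
        exact h1 ⟨Finset.mem_univ _, by omega⟩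
      have h3 : (d : ℝ) ≤ 400 * (hammingNorm (y - c) : ℝ) := by exact_mod_cast h2
      linarith
    have hyC : y ∉ C := by
      intro hyC
      have := hy y hyC
      rw [sub_self, hammingNorm_zero] at this
      have hd' : (1 : ℝ) ≤ d := by exact_mod_cast hd
      push_cast at this
      linarith
    have h4 := hmax _ (extend d _ C hC y hy)
    have h5 : C < C ⊔ Submodule.span F2 {y} := by
      refine lt_of_le_of_ne le_sup_left ?_
      intro heq
      apply hyC
      rw [heq]
      exact Submodule.mem_sup_right (Submodule.mem_span_singleton_self y)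
    have h6 := Submodule.finrank_lt_finrank_of_lt h5
    omega
  -- counting
  have hcount : 2 ^ d ≤ 2 ^ Module.finrank F2 C * B.card := by
    have h1 : Fintype.card C = 2 ^ Module.finrank F2 C := by
      have := Module.card_eq_pow_finrank (K := F2) (V := C)
      rwa [ZMod.card] at this
    have h2 : Fintype.card (Fin d → F2) = 2 ^ d := by
      rw [Fintype.card_fun, ZMod.card, Fintype.card_fin]
    have h3 : (univ : Finset (Fin d → F2)) ⊆
        ((univ : Finset C) ×ˢ B).image (fun p => (p.1 : Fin d → F2) + p.2) := by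
      intro y _
      obtain ⟨c, hc, hyc⟩ := hcov y
      refine Finset.mem_image.mpr ⟨(⟨c, hc⟩, y - c), ?_, ?_⟩
      · exact Finset.mem_product.mpr ⟨Finset.mem_univ _, hyc⟩
      · simp
    have h4 := (Finset.card_le_card h3).trans Finset.card_image_le
    rw [Finset.card_product, Finset.card_univ, Finset.card_univ, h1, h2] at h4
    exact h4
  have hcount' : (2 : ℝ) ^ d ≤ 2 ^ Module.finrank F2 C * (B.card : ℝ) := by exact_mod_cast hcount
  have h1 : ((2 : ℝ) ^ d) ^ 400 ≤ (2 ^ Module.finrank F2 C) ^ 400 * (2 : ℝ) ^ (25 * d) := by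
    calc ((2 : ℝ) ^ d) ^ 400 ≤ (2 ^ Module.finrank F2 C * (B.card : ℝ)) ^ 400 :=
          pow_le_pow_left₀ (by positivity) hcount' 400
      _ = (2 ^ Module.finrank F2 C) ^ 400 * (B.card : ℝ) ^ 400 := mul_pow _ _ _
      _ ≤ _ := mul_le_mul_of_nonneg_left (ball d) (by positivity)
  rw [← pow_mul, ← pow_mul, ← pow_add] at h1
  have h2 : d * 400 ≤ Module.finrank F2 C * 400 + 25 * d :=
    (pow_le_pow_iff_right₀ (by norm_num : (1 : ℝ) < 2)).mp h1
  have h3 : (d : ℝ) * 400 ≤ (Module.finrank F2 C : ℝ) * 400 + 25 * d := by exact_mod_cast h2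
  linarith

end Pool.Agent.Helper835_LTC.J_GV
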