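import Mathlib
import Pool.Agent.Helper835_LTC.Defs2

set_option autoImplicit false

open Finset
open scoped Classical

namespace Pool.Agent.Helper835_LTC.J_HYP

open Pool.Agent.Helper835_LTC

/-- evaluation of the functionals of `W` at the messages `(0, y, 0)` -/
def ev {ι : Type} (C : Submodule F2 (ι → F2)) (W : Submodule F2 (Module.Dual F2 (Msg C))) :
    C →ₗ[F2] Module.Dual F2 W where
  toFun y :=
    { toFun := fun f => f.1 (0, (y, 0))
      map_add' := fun f g => rfl
      map_smul' := fun a f => rfl }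
  map_add' := by
    intro y z
    ext f
    show f.1 (0, (y + z, 0)) = f.1 (0, (y, 0)) + f.1 (0, (z, 0))
    rw [← map_add]
    simp
  map_smul' := by
    intro a y
    ext f
    show f.1 (0, (a • y, 0)) = a • f.1 (0, (y, 0))
    rw [← map_smul]
    simp

theorem ev_apply {ι : Type} (C : Submodule F2 (ι → F2))
    (W : Submodule F2 (Module.Dual F2 (Msg C))) (y : C) (f : W) :
    ev C W y f = f.1 (0, (y, 0)) := rfl

theorem exists_y {ι : Type} [Fintype ι] (C : Submodule F2 (ι → F2))
    (W : Submodule F2 (Module.Dual F2 (Msg C)))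
    (hW : Module.finrank F2 W < Module.finrank F2 C) :
    ∃ y : C, y ≠ 0 ∧ ∀ f ∈ W, f (0, (y, 0)) = 0 := by
  have h1 : Module.finrank F2 (Module.Dual F2 W) < Module.finrank F2 C := by
    rw [Subspace.dual_finrank_eq]
    exact hW
  have h2 := LinearMap.ker_ne_bot_of_finrank_lt (f := ev C W) h1
  obtain ⟨y, hy, hy0⟩ := Submodule.exists_mem_ne_zero_of_ne_bot h2
  refine ⟨y, hy0, fun f hf => ?_⟩
  have h3 := LinearMap.congr_fun (LinearMap.mem_ker.1 hy) ⟨f, hf⟩
  exact h3

theorem job : S_HYP := by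
  intro ι _ C δ hC W hW i
  obtain ⟨y, hy0, hy⟩ := exists_y C W hW
  have h1 : δ * Fintype.card ι ≤ hammingNorm (y : ι → F2) :=
    hC y.1 y.2 (fun h => hy0 (Subtype.ext h))
  refine h1.trans ?_
  unfold hammingNorm
  refine Nat.cast_le.2 (Finset.card_le_card ?_)
  intro j hj
  simp only [Finset.mem_filter, Finset.mem_univ, true_and] at hj ⊢
  intro h
  apply hj
  have h2 := hy _ h
  have h3 : (fx C i + fy C j) (0, (y, 0)) = (0 : ι → F2) i + y.1 j := rfl
  rw [h3] at h2
  simpa using h2

end Pool.Agent.Helper835_LTC.J_HYP
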