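import Mathlib
import Pool.Agent.Helper835_LTC.Defs

set_option autoImplicit false

open Finset
open scoped Classical

namespace Pool.Agent.Helper835_LTC.J_LMIN

open Pool.Agent.Helper835_LTC

section Core
variable {G : Type} [Group G] [Fintype G] {I : Type} [Fintype I]

lemma core (lam μ : ℝ) (s : I → G) (hE : ∀ f : G → ℝ, ∑ g, f g = 0 →
    ∑ g, (∑ j, f (g * s j)) ^ 2 ≤ (lam * Fintype.card I) ^ 2 * ∑ g, f g ^ 2)
    (h : G → ℝ) (h0 : ∀ g, 0 ≤ h g) (h1 : ∀ g, h g ≤ h g ^ 2)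
    (hμ : ∑ g, h g ≤ μ * Fintype.card G) :
    ∑ g, (∑ j, h (g * s j)) ^ 2 ≤
      (Fintype.card I : ℝ) ^ 2 * (lam ^ 2 + μ) * ∑ g, h g ^ 2 := by
  set N : ℝ := ((Fintype.card G : ℕ) : ℝ) with hN
  have hNpos : 0 < N := by
    rw [hN]; exact_mod_cast Fintype.card_pos
  set n : ℝ := ((Fintype.card I : ℕ) : ℝ) with hn
  set m : ℝ := (∑ g, h g) / N with hm
  have hmN : m * N = ∑ g, h g := by rw [hm]; field_simp
  have hf0 : ∑ g, (h g - m) = 0 := by
    simp only [Finset.sum_sub_distrib, Finset.sum_const, Finset.card_univ, nsmul_eq_mul]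
    rw [← hN, mul_comm N m, hmN, sub_self]
  have key := hE (fun g => h g - m) hf0
  have e1 : ∀ g, ∑ j, h (g * s j) = ∑ j, (h (g * s j) - m) + n * m := by
    intro g
    simp only [Finset.sum_sub_distrib, Finset.sum_const, Finset.card_univ, nsmul_eq_mul]
    rw [← hn]; ring
  have e2 : ∑ g, ∑ j, (h (g * s j) - m) = 0 := by
    rw [Finset.sum_comm]
    apply Finset.sum_eq_zero
    intro j _
    rw [← hf0]
    exact Equiv.sum_comp (Equiv.mulRight (s j)) (fun g => h g - m)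
  have e3 : ∑ g, (∑ j, h (g * s j)) ^ 2 =
      ∑ g, (∑ j, (h (g * s j) - m)) ^ 2 + n ^ 2 * m ^ 2 * N := by
    have : ∀ g, (∑ j, h (g * s j)) ^ 2 = (∑ j, (h (g * s j) - m)) ^ 2 +
        2 * n * m * (∑ j, (h (g * s j) - m)) + n ^ 2 * m ^ 2 := by
      intro g; rw [e1 g]; ring
    rw [Finset.sum_congr rfl fun g _ => this g]
    rw [Finset.sum_add_distrib, Finset.sum_add_distrib, ← Finset.mul_sum, e2]
    simp only [Finset.sum_const, Finset.card_univ, nsmul_eq_mul]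
    rw [← hN]; ring
  have e4 : ∑ g, (h g - m) ^ 2 = ∑ g, h g ^ 2 - m ^ 2 * N := by
    have : ∀ g, (h g - m) ^ 2 = h g ^ 2 - 2 * m * h g + m ^ 2 := by intro g; ring
    rw [Finset.sum_congr rfl fun g _ => this g]
    rw [Finset.sum_add_distrib, Finset.sum_sub_distrib, ← Finset.mul_sum, ← hmN]
    simp only [Finset.sum_const, Finset.card_univ, nsmul_eq_mul]
    rw [← hN]; ring
  have hS : ∑ g, h g ≤ ∑ g, h g ^ 2 := Finset.sum_le_sum fun g _ => h1 g
  have hS0 : 0 ≤ ∑ g, h g := Finset.sum_nonneg fun g _ => h0 g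
  have hm0 : 0 ≤ m := div_nonneg hS0 hNpos.le
  have hmμ : m ≤ μ := by rw [hm, div_le_iff₀ hNpos]; exact hμ
  have e5 : m ^ 2 * N ≤ μ * ∑ g, h g ^ 2 := by
    calc m ^ 2 * N = m * (m * N) := by ring
      _ = m * ∑ g, h g := by rw [hmN]
      _ ≤ μ * ∑ g, h g ^ 2 := mul_le_mul hmμ hS hS0 (hm0.trans hmμ)
  have e6 : 0 ≤ m ^ 2 * N := by positivity
  rw [e3]
  have e7 : (lam * n) ^ 2 * ∑ g, (h g - m) ^ 2 ≤ (lam * n) ^ 2 * ∑ g, h g ^ 2 := by
    apply mul_le_mul_of_nonneg_left _ (sq_nonneg _)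
    rw [e4]; linarith
  have e8 : n ^ 2 * (m ^ 2 * N) ≤ n ^ 2 * (μ * ∑ g, h g ^ 2) :=
    mul_le_mul_of_nonneg_left e5 (sq_nonneg n)
  calc ∑ g, (∑ j, (h (g * s j) - m)) ^ 2 + n ^ 2 * m ^ 2 * N
      ≤ (lam * n) ^ 2 * ∑ g, h g ^ 2 + n ^ 2 * (μ * ∑ g, h g ^ 2) := by
        have := key.trans e7
        have h9 : n ^ 2 * m ^ 2 * N = n ^ 2 * (m ^ 2 * N) := by ring
        rw [h9]
        exact add_le_add this e8
    _ = n ^ 2 * (lam ^ 2 + μ) * ∑ g, h g ^ 2 := by ring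

lemma coreR (lam μ : ℝ) (b : I → G) (hE : Exp lam b) (q : Bool)
    (h : G → ℝ) (h0 : ∀ g, 0 ≤ h g) (h1 : ∀ g, h g ≤ h g ^ 2)
    (hμ : ∑ g, h g ≤ μ * Fintype.card G) :
    ∑ g, (∑ j, h (g * (if q then (b j)⁻¹ else b j))) ^ 2 ≤
      (Fintype.card I : ℝ) ^ 2 * (lam ^ 2 + μ) * ∑ g, h g ^ 2 := by
  cases q with
  | false =>
    simpa using core lam μ b (fun f hf => (hE f hf).1) h h0 h1 hμ
  | true =>
    simpa using core lam μ (fun j => (b j)⁻¹) (fun f hf => (hE f hf).2) h h0 h1 hμ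

lemma coreL (lam μ : ℝ) (b : I → G) (hE : Exp lam b) (p : Bool)
    (h : G → ℝ) (h0 : ∀ g, 0 ≤ h g) (h1 : ∀ g, h g ≤ h g ^ 2)
    (hμ : ∑ g, h g ≤ μ * Fintype.card G) :
    ∑ g, (∑ j, h ((if p then (b j)⁻¹ else b j) * g)) ^ 2 ≤
      (Fintype.card I : ℝ) ^ 2 * (lam ^ 2 + μ) * ∑ g, h g ^ 2 := by
  have hs : ∀ φ : G → ℝ, ∑ g, φ g⁻¹ = ∑ g, φ g := fun φ => Equiv.sum_comp (Equiv.inv G) φ
  have := coreR lam μ b hE (!p) (fun g => h g⁻¹) (fun g => h0 _) (fun g => h1 _)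
    (by rw [hs h]; exact hμ)
  rw [hs (fun g => h g ^ 2)] at this
  refine le_trans (le_of_eq ?_) this
  rw [← hs (fun g => (∑ j, h ((if p then (b j)⁻¹ else b j) * g)) ^ 2)]
  refine Finset.sum_congr rfl fun g _ => ?_
  congr 1
  refine Finset.sum_congr rfl fun j _ => ?_
  congr 1
  cases p <;> simp

omit [Group G] in
/-- sum over the vertices of a function, copy by copy -/
lemma sumVx (φ : Vx G → ℝ) : ∑ v, φ v =
    (∑ g, φ (g, false, false)) + (∑ g, φ (g, false, true)) + (∑ g, φ (g, true, false)) +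
      ∑ g, φ (g, true, true) := by
  rw [Fintype.sum_prod_type_right]
  simp only [Fintype.sum_prod_type, Fintype.sum_bool]
  ring

omit [Group G] in
lemma part_le (F : Vx G → ℝ) (F0 : ∀ v, 0 ≤ F v) (r : Bool × Bool) :
    ∑ g, F (g, r) ≤ ∑ v, F v := by
  rw [Fintype.sum_prod_type_right]
  exact Finset.single_le_sum (f := fun r => ∑ g, F (g, r))
    (fun r _ => Finset.sum_nonneg fun g _ => F0 _) (Finset.mem_univ r)

lemma opB (lam μ : ℝ) (b : I → G) (hE : Exp lam b) (F : Vx G → ℝ) (F0 : ∀ v, 0 ≤ F v)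
    (F1 : ∀ v, F v ≤ F v ^ 2) (hμ : ∑ v, F v ≤ μ * Fintype.card G) :
    ∑ v, (∑ j, F (nbB b v j)) ^ 2 ≤
      (Fintype.card I : ℝ) ^ 2 * (lam ^ 2 + μ) * ∑ v, F v ^ 2 := by
  have key : ∀ p q : Bool, ∑ g, (∑ j, F (nbB b (g, p, q) j)) ^ 2 ≤
      (Fintype.card I : ℝ) ^ 2 * (lam ^ 2 + μ) * ∑ g, F (g, p, !q) ^ 2 := by
    intro p q
    exact coreR lam μ b hE q (fun g => F (g, p, !q)) (fun g => F0 _) (fun g => F1 _)
      ((part_le F F0 (p, !q)).trans hμ)
  rw [sumVx, sumVx]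
  have k1 := key false false
  have k2 := key false true
  have k3 := key true false
  have k4 := key true true
  simp only [Bool.not_false, Bool.not_true] at k1 k2 k3 k4
  linarith

lemma opA (lam μ : ℝ) (b : I → G) (hE : Exp lam b) (F : Vx G → ℝ) (F0 : ∀ v, 0 ≤ F v)
    (F1 : ∀ v, F v ≤ F v ^ 2) (hμ : ∑ v, F v ≤ μ * Fintype.card G) :
    ∑ v, (∑ j, F (nbA b v j)) ^ 2 ≤
      (Fintype.card I : ℝ) ^ 2 * (lam ^ 2 + μ) * ∑ v, F v ^ 2 := by
  have key : ∀ p q : Bool, ∑ g, (∑ j, F (nbA b (g, p, q) j)) ^ 2 ≤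
      (Fintype.card I : ℝ) ^ 2 * (lam ^ 2 + μ) * ∑ g, F (g, !p, q) ^ 2 := by
    intro p q
    exact coreL lam μ b hE p (fun g => F (g, !p, q)) (fun g => F0 _) (fun g => F1 _)
      ((part_le F F0 (!p, q)).trans hμ)
  rw [sumVx, sumVx]
  have k1 := key false false
  have k2 := key false true
  have k3 := key true false
  have k4 := key true true
  simp only [Bool.not_false, Bool.not_true] at k1 k2 k3 k4
  linarith

end Core

section Count
variable {G : Type} [Group G] {I : Type} [Fintype I]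

/-- disagreements of the first kind -/
noncomputable def fA (b : I → G) (z : Vx G → I → I → F2) (v : Vx G) : ℕ :=
  (univ.filter fun i : I => z v i ≠ z (nbA b v i) i).card

/-- disagreements of the second kind -/
noncomputable def fB (b : I → G) (z : Vx G → I → I → F2) (v : Vx G) : ℕ :=
  (univ.filter fun j : I => (fun i => z v i j) ≠ fun i => z (nbB b v j) i j).card

lemma cost_self (b : I → G) (z : Vx G → I → I → F2) (v : Vx G) :
    cost b z v (z v) = fA b z v + fB b z v := rfl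

omit [Fintype I] in
lemma nb_comm (b : I → G) (v : Vx G) (i j : I) :
    nbB b (nbA b v i) j = nbA b (nbB b v j) i := by
  simp [nbA, nbB, mul_assoc]

lemma ent_le (b : I → G) (z : Vx G → I → I → F2) (v : Vx G) :
    entD (fun i j => z (nbB b v j) i j) (fun i => z (nbA b v i) i) ≤
      (∑ i, fB b z (nbA b v i)) + ∑ j, fA b z (nbB b v j) := by
  have hsub : (univ.filter fun p : I × I =>
      (fun i j => z (nbB b v j) i j) p.1 p.2 ≠ (fun i => z (nbA b v i) i) p.1 p.2) ⊆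
      (univ.filter fun p : I × I => (fun i => z (nbA b v p.1) i p.2) ≠
        fun i => z (nbB b (nbA b v p.1) p.2) i p.2) ∪
      (univ.filter fun p : I × I => z (nbB b v p.2) p.1 ≠ z (nbA b (nbB b v p.2) p.1) p.1) := by
    intro p hp
    rw [Finset.mem_filter] at hp
    rw [Finset.mem_union, Finset.mem_filter, Finset.mem_filter]
    by_contra hcon
    rw [not_or] at hcon
    obtain ⟨h1, h2⟩ := hcon
    have h1' : (fun i => z (nbA b v p.1) i p.2) = fun i => z (nbB b (nbA b v p.1) p.2) i p.2 := by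
      by_contra h; exact h1 ⟨Finset.mem_univ _, h⟩
    have h2' : z (nbB b v p.2) p.1 = z (nbA b (nbB b v p.2) p.1) p.1 := by
      by_contra h; exact h2 ⟨Finset.mem_univ _, h⟩
    apply hp.2
    have a1 := congrFun h1' p.1
    have a2 := congrFun h2' p.2
    simp only at a1 a2 ⊢
    rw [a2, a1, nb_comm]
  refine (Finset.card_le_card hsub).trans ((Finset.card_union_le _ _).trans ?_)
  apply Nat.add_le_add
  · rw [Finset.card_filter, Fintype.sum_prod_type]
    refine Finset.sum_le_sum fun i _ => ?_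
    rw [fB, Finset.card_filter]
  · rw [Finset.card_filter, Fintype.sum_prod_type_right]
    refine Finset.sum_le_sum fun j _ => ?_
    rw [fA, Finset.card_filter]

lemma star (κ : ℝ) (C0 : Submodule F2 (I → F2)) (hκ : 0 < κ) (hAT : AT κ C0) (b : I → G)
    (z : Vx G → I → I → F2) (hz : ∀ v, InLoc C0 (z v))
    (hmin : ∀ v m, InLoc C0 m → cost b z v (z v) ≤ cost b z v m) (v : Vx G) :
    κ * Fintype.card I * ((fA b z v : ℝ) + fB b z v) ≤
      (∑ i, (fB b z (nbA b v i) : ℝ)) + ∑ j, (fA b z (nbB b v j) : ℝ) := by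
  obtain ⟨w, hw, hle⟩ := hAT (fun i j => z (nbB b v j) i j) (fun i => z (nbA b v i) i)
    (fun j => (hz (nbB b v j)).2 j) (fun i => (hz (nbA b v i)).1 i)
  have hc : cost b z v w = rowD (fun i => z (nbA b v i) i) w +
      colD (fun i j => z (nbB b v j) i j) w := by
    unfold cost rowD colD
    congr 1
    · congr 1
      apply Finset.filter_congr
      intro i _
      exact ne_comm
    · congr 1
      apply Finset.filter_congr
      intro j _
      exact ne_comm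
  have h1 := hmin v w hw
  rw [hc, cost_self] at h1
  have h2 : ((fA b z v : ℝ) + fB b z v) ≤
      (colD (fun i j => z (nbB b v j) i j) w : ℝ) + rowD (fun i => z (nbA b v i) i) w := by
    have : ((fA b z v + fB b z v : ℕ) : ℝ) ≤ ((rowD (fun i => z (nbA b v i) i) w +
      colD (fun i j => z (nbB b v j) i j) w : ℕ) : ℝ) := by exact_mod_cast h1
    push_cast at this
    linarith
  have h3 : (entD (fun i j => z (nbB b v j) i j) (fun i => z (nbA b v i) i) : ℝ) ≤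
      (∑ i, (fB b z (nbA b v i) : ℝ)) + ∑ j, (fA b z (nbB b v j) : ℝ) := by
    exact_mod_cast ent_le b z v
  refine le_trans ?_ (hle.trans h3)
  exact mul_le_mul_of_nonneg_left h2 (by positivity)

end Count

theorem job : S_LMIN := by
  intro G _ _ I _ b lam κ C0 hlam hκ hlk hE hAT z hz hmin
  by_contra hcon
  rw [not_or, not_le] at hcon
  obtain ⟨hne, hlt⟩ := hcon
  -- real valued functions
  set n : ℝ := ((Fintype.card I : ℕ) : ℝ) with hn
  set A : Vx G → ℝ := fun v => (fA b z v : ℝ) with hA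
  set B : Vx G → ℝ := fun v => (fB b z v : ℝ) with hB
  have A0 : ∀ v, 0 ≤ A v := fun v => Nat.cast_nonneg _
  have B0 : ∀ v, 0 ≤ B v := fun v => Nat.cast_nonneg _
  have hint : ∀ k : ℕ, (k : ℝ) ≤ (k : ℝ) ^ 2 := by
    intro k
    exact_mod_cast Nat.le_self_pow (by norm_num) k
  have A1 : ∀ v, A v ≤ A v ^ 2 := fun v => hint _
  have B1 : ∀ v, B v ≤ B v ^ 2 := fun v => hint _
  have hcost : ((∑ v, cost b z v (z v) : ℕ) : ℝ) = ∑ v, A v + ∑ v, B v := by
    rw [← Finset.sum_add_distrib]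
    push_cast
    refine Finset.sum_congr rfl fun v _ => ?_
    rw [cost_self]
    push_cast
    rfl
  have hSA : 0 ≤ ∑ v, A v := Finset.sum_nonneg fun v _ => A0 v
  have hSB : 0 ≤ ∑ v, B v := Finset.sum_nonneg fun v _ => B0 v
  rw [hcost] at hlt
  have hAm : ∑ v, A v ≤ (κ / 8) ^ 2 * Fintype.card G := by linarith
  have hBm : ∑ v, B v ≤ (κ / 8) ^ 2 * Fintype.card G := by linarith
  have oB := opB lam ((κ / 8) ^ 2) b hE A A0 A1 hAm
  have oA := opA lam ((κ / 8) ^ 2) b hE B B0 B1 hBm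
  rw [← hn] at oB oA
  have hst : ∀ v, κ * n * (A v + B v) ≤ (∑ i, B (nbA b v i)) + ∑ j, A (nbB b v j) :=
    fun v => star κ C0 hκ hAT b z hz hmin v
  have hn0 : 0 ≤ n := Nat.cast_nonneg _
  have hsq : ∀ v, (κ * n) ^ 2 * (A v + B v) ^ 2 ≤
      2 * (∑ i, B (nbA b v i)) ^ 2 + 2 * (∑ j, A (nbB b v j)) ^ 2 := by
    intro v
    have h1 := hst v
    have h2 : 0 ≤ κ * n * (A v + B v) := by
      have := A0 v
      have := B0 v
      positivity
    have h3 := pow_le_pow_left₀ h2 h1 2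
    calc (κ * n) ^ 2 * (A v + B v) ^ 2 = (κ * n * (A v + B v)) ^ 2 := by ring
      _ ≤ ((∑ i, B (nbA b v i)) + ∑ j, A (nbB b v j)) ^ 2 := h3
      _ ≤ _ := by nlinarith [sq_nonneg ((∑ i, B (nbA b v i)) - ∑ j, A (nbB b v j))]
  have hsum : (κ * n) ^ 2 * ∑ v, (A v + B v) ^ 2 ≤
      2 * ∑ v, (∑ i, B (nbA b v i)) ^ 2 + 2 * ∑ v, (∑ j, A (nbB b v j)) ^ 2 := by
    rw [Finset.mul_sum, Finset.mul_sum, Finset.mul_sum, ← Finset.sum_add_distrib]
    exact Finset.sum_le_sum fun v _ => hsq v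
  have hl2 : lam ^ 2 ≤ (κ / 8) ^ 2 := pow_le_pow_left₀ hlam.le hlk 2
  have hSA2 : 0 ≤ ∑ v, A v ^ 2 := Finset.sum_nonneg fun v _ => sq_nonneg _
  have hSB2 : 0 ≤ ∑ v, B v ^ 2 := Finset.sum_nonneg fun v _ => sq_nonneg _
  have hAB : ∑ v, A v ^ 2 + ∑ v, B v ^ 2 ≤ ∑ v, (A v + B v) ^ 2 := by
    rw [← Finset.sum_add_distrib]
    refine Finset.sum_le_sum fun v _ => ?_
    nlinarith [mul_nonneg (A0 v) (B0 v)]
  have hcoef : n ^ 2 * (lam ^ 2 + (κ / 8) ^ 2) ≤ n ^ 2 * (κ ^ 2 / 32) := by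
    apply mul_le_mul_of_nonneg_left _ (sq_nonneg n)
    nlinarith
  have hT : (κ * n) ^ 2 * ∑ v, (A v + B v) ^ 2 ≤
      (κ * n) ^ 2 / 16 * ∑ v, (A v + B v) ^ 2 := by
    have o1 := oA.trans (mul_le_mul_of_nonneg_right hcoef hSB2)
    have o2 := oB.trans (mul_le_mul_of_nonneg_right hcoef hSA2)
    have o3 : n ^ 2 * (κ ^ 2 / 32) * (∑ v, A v ^ 2 + ∑ v, B v ^ 2) ≤
        n ^ 2 * (κ ^ 2 / 32) * ∑ v, (A v + B v) ^ 2 :=
      mul_le_mul_of_nonneg_left hAB (by positivity)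
    nlinarith
  have hF0 : 0 ≤ ∑ v, (A v + B v) ^ 2 := Finset.sum_nonneg fun v _ => sq_nonneg _
  have hzero : (κ * n) ^ 2 * ∑ v, (A v + B v) ^ 2 = 0 := by
    have h1 : 0 ≤ (κ * n) ^ 2 * ∑ v, (A v + B v) ^ 2 := by positivity
    nlinarith
  -- conclusion
  apply hne
  rcases mul_eq_zero.1 hzero with h | h
  · have hn' : n = 0 := by
      have := pow_eq_zero_iff (two_ne_zero) |>.1 h
      rcases mul_eq_zero.1 this with h | h
      · exact absurd h hκ.ne'
      · exact h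
    have hcard : Fintype.card I = 0 := by
      rw [hn] at hn'
      exact_mod_cast hn'
    have : IsEmpty I := Fintype.card_eq_zero_iff.1 hcard
    apply Finset.sum_eq_zero
    intro v _
    simp [cost]
  · have h0 : ∀ v, (A v + B v) ^ 2 = 0 := by
      intro v
      exact (Finset.sum_eq_zero_iff_of_nonneg (fun v _ => sq_nonneg _)).1 h v (Finset.mem_univ v)
    apply Finset.sum_eq_zero
    intro v _
    have h1 := pow_eq_zero_iff (two_ne_zero) |>.1 (h0 v)
    rw [cost_self]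
    have h2 : ((fA b z v + fB b z v : ℕ) : ℝ) = 0 := by
      push_cast
      exact h1
    exact_mod_cast h2

end Pool.Agent.Helper835_LTC.J_LMIN
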