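import Mathlib
import Pool.Agent.Helper835_LTC.Defs

/-! PROJECT LTC, job LTC: existence of good locally testable codes from the base statements. -/

set_option autoImplicit false

open Finset
open scoped Classical

namespace Pool.Agent.Helper835_LTC.J_LTC

open Pool.Agent.Helper835_LTC

/-- duality -/
lemma dual_aux {q : ℕ} (L : Submodule F2 (Fin q → F2)) (x : Fin q → F2) (hx : x ∉ L) :
    ∃ y : Fin q → F2, (∀ m ∈ L, ∑ l, y l * m l = 0) ∧ ∑ l, y l * x l ≠ 0 := by
  obtain ⟨f, hf, hL⟩ := Submodule.exists_le_ker_of_notMem hx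
  have key : ∀ m : Fin q → F2, f m = ∑ l, f (Pi.single l 1) * m l := by
    intro m
    rw [LinearMap.pi_apply_eq_sum_univ f m]
    refine Finset.sum_congr rfl fun l _ => ?_
    rw [smul_eq_mul, mul_comm]
    congr 2
    funext j
    rw [Pi.single_apply]
    by_cases h : l = j
    · rw [if_pos h, if_pos h.symm]
    · rw [if_neg h, if_neg (fun h' => h h'.symm)]
  refine ⟨fun l => f (Pi.single l 1), ?_, ?_⟩
  · intro m hm
    rw [← key m]
    exact LinearMap.mem_ker.mp (hL hm)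
  · rw [← key x]
    exact hf

/-- the subspace of the local views -/
def LL {I : Type} {q : ℕ} (C0 : Submodule F2 (I → F2)) (e : Fin q ≃ I × I) :
    Submodule F2 (Fin q → F2) where
  carrier := {x | InLoc C0 fun i j => x (e.symm (i, j))}
  add_mem' := by
    intro x y hx hy
    exact ⟨fun i => C0.add_mem (hx.1 i) (hy.1 i), fun j => C0.add_mem (hx.2 j) (hy.2 j)⟩
  zero_mem' := ⟨fun i => C0.zero_mem, fun j => C0.zero_mem⟩
  smul_mem' := by
    intro c x hx
    exact ⟨fun i => C0.smul_mem c (hx.1 i), fun j => C0.smul_mem c (hx.2 j)⟩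

lemma mem_LL {I : Type} {q : ℕ} {C0 : Submodule F2 (I → F2)} {e : Fin q ≃ I × I}
    {x : Fin q → F2} : x ∈ LL C0 e ↔ InLoc C0 fun i j => x (e.symm (i, j)) := Iff.rfl

lemma toLL {I : Type} {q : ℕ} {C0 : Submodule F2 (I → F2)} {e : Fin q ≃ I × I}
    {m : I → I → F2} : (fun l => m (e l).1 (e l).2) ∈ LL C0 e ↔ InLoc C0 m := by
  rw [mem_LL]
  have : (fun i j => (fun l => m (e l).1 (e l).2) (e.symm (i, j))) = m := by
    funext i j
    simp
  rw [this]

/-- a matrix that is not in the code is detected by a test -/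
lemma detect {I : Type} {q : ℕ} (C0 : Submodule F2 (I → F2)) (e : Fin q ≃ I × I)
    (m0 : I → I → F2) (h : ¬ InLoc C0 m0) : ∃ y : Fin q → F2,
      (∀ m, InLoc C0 m → ∑ l, y l * m (e l).1 (e l).2 = 0) ∧
      ∑ l, y l * m0 (e l).1 (e l).2 ≠ 0 := by
  obtain ⟨y, hy, hy0⟩ := dual_aux (LL C0 e) (fun l => m0 (e l).1 (e l).2)
    (fun hm => h (toLL.mp hm))
  exact ⟨y, fun m hm => hy _ (toLL.mpr hm), hy0⟩

section tests
variable {G : Type} [Group G] {I : Type} {q : ℕ}

/-- the tests -/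
abbrev TT (G : Type) [Group G] {I : Type} {q : ℕ} (C0 : Submodule F2 (I → F2))
    (e : Fin q ≃ I × I) : Type :=
  {p : Vx G × (Fin q → F2) // ∀ m, InLoc C0 m → ∑ l, p.2 l * m (e l).1 (e l).2 = 0}

/-- positions -/
def QQ (b : I → G) (C0 : Submodule F2 (I → F2)) (e : Fin q ≃ I × I) (p : TT G C0 e) (l : Fin q) :
    G × I × I := sq b p.1.1 (e l).1 (e l).2

/-- coefficients -/
def HH (C0 : Submodule F2 (I → F2)) (e : Fin q ≃ I × I) (p : TT G C0 e) (l : Fin q) : F2 :=
  p.1.2 l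

lemma codeOf_eq (b : I → G) (C0 : Submodule F2 (I → F2)) (e : Fin q ≃ I × I) :
    codeOf (QQ b C0 e) (HH C0 e) = CC b C0 := by
  ext x
  constructor
  · intro hx v
    by_contra hcon
    obtain ⟨y, hy, hy0⟩ := detect C0 e (view b x v) hcon
    exact hy0 (hx ⟨(v, y), hy⟩)
  · intro hx p
    exact p.2 _ (hx p.1.1)

lemma deg_le [Fintype G] [Fintype I] (b : I → G) (C0 : Submodule F2 (I → F2)) (e : Fin q ≃ I × I)
    (i : G × I × I) :
    (univ.filter fun p : TT G C0 e × Fin q => QQ b C0 e p.1 p.2 = i).card ≤ 4 * 2 ^ q := by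
  have hcard : (univ : Finset ((Bool × Bool) × (Fin q → F2))).card = 4 * 2 ^ q := by
    rw [Finset.card_univ, Fintype.card_prod, Fintype.card_prod, Fintype.card_bool,
      Fintype.card_fun, Fintype.card_fin, ZMod.card]
  rw [← hcard]
  refine Finset.card_le_card_of_injOn
    (fun p : TT G C0 e × Fin q => ((p.1.1.1.2, p.1.1.2) : (Bool × Bool) × (Fin q → F2)))
    (fun _ _ => Finset.mem_coe.mpr (Finset.mem_univ _)) ?_
  rintro ⟨⟨⟨⟨g, s⟩, y⟩, hy⟩, l⟩ hp ⟨⟨⟨⟨g', s'⟩, y'⟩, hy'⟩, l'⟩ hp' heq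
  simp only [Finset.coe_filter, Finset.mem_univ, true_and, Set.mem_ofPred_eq] at hp hp'
  simp only [Prod.mk.injEq] at heq
  obtain ⟨rfl, rfl⟩ := heq
  have h1 : QQ b C0 e ⟨((g, s), y), hy⟩ l = QQ b C0 e ⟨((g', s), y), hy'⟩ l' := hp.trans hp'.symm
  unfold QQ sq at h1
  simp only [Prod.mk.injEq] at h1
  obtain ⟨hg, hi, hj⟩ := h1
  have hl : l = l' := e.injective (Prod.ext hi hj)
  subst hl
  have hg' : g = g' := by
    have h2 := mul_right_cancel hg
    exact mul_left_cancel h2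
  subst hg'
  rfl

lemma sound_le [Fintype G] [Fintype I] (b : I → G) (C0 : Submodule F2 (I → F2))
    (e : Fin q ≃ I × I) (w : G × I × I → F2) :
    (univ.filter fun v => ¬ InLoc C0 (view b w v)).card ≤
      (univ.filter fun p : TT G C0 e => ∑ l, HH C0 e p l * w (QQ b C0 e p l) ≠ 0).card := by
  have hch : ∀ v : Vx G, ¬ InLoc C0 (view b w v) → ∃ y : Fin q → F2,
      (∀ m, InLoc C0 m → ∑ l, y l * m (e l).1 (e l).2 = 0) ∧
      ∑ l, y l * (view b w v) (e l).1 (e l).2 ≠ 0 := fun v hv => detect C0 e _ hv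
  choose y hy hy0 using hch
  let F : Vx G → TT G C0 e := fun v =>
    if h : InLoc C0 (view b w v) then ⟨(v, 0), fun m _ => by simp⟩ else ⟨(v, y v h), hy v h⟩
  have hF1 : ∀ v, (F v).1.1 = v := by
    intro v
    by_cases h : InLoc C0 (view b w v)
    · simp only [F, dif_pos h]
    · simp only [F, dif_neg h]
  refine Finset.card_le_card_of_injOn F ?_ ?_
  · intro v hv
    simp only [Finset.coe_filter, Finset.mem_univ, true_and, Set.mem_ofPred_eq] at hv ⊢
    have : F v = ⟨(v, y v hv), hy v hv⟩ := by simp only [F, dif_neg hv]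
    rw [this]
    exact hy0 v hv
  · intro v _ v' _ h
    rw [← hF1 v, ← hF1 v', h]

end tests

theorem job : S_BASE → S_EXP → S_SOUND → S_RATE → S_CDIST → S_LTC := by
  intro hB hE hS hR hC
  obtain ⟨δ, κ, hδ, hκ, hB⟩ := hB
  set lam : ℝ := min (κ / 8) (δ / 2) with hlam
  have hlam0 : 0 < lam := lt_min (by positivity) (by positivity)
  have hl1 : lam ≤ κ / 8 := min_le_left _ _
  have hl2 : lam ≤ δ / 2 := min_le_right _ _
  obtain ⟨D0, hE⟩ := hE lam hlam0
  obtain ⟨I, hIf, hI, C0, hrate, hdist, hAT⟩ := hB (D0 + 1)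
  obtain ⟨κ', hκ', hS⟩ := hS (Fintype.card I) κ hκ
  have hcI : 0 < Fintype.card I := by omega
  let e : Fin (Fintype.card (I × I)) ≃ I × I := (Fintype.equivFin (I × I)).symm
  refine ⟨Fintype.card (I × I), 4 * 2 ^ Fintype.card (I × I), 1 / 2, δ ^ 3 / 2, κ', ?_,
    by norm_num, by positivity, hκ', ?_⟩
  · rw [Fintype.card_prod]
    exact Nat.mul_pos hcI hcI
  intro N
  obtain ⟨G, hG, hGf, b, hN, hexp⟩ := hE I (by omega) N
  refine ⟨G × I × I, TT G C0 e, inferInstance, inferInstance, QQ b C0 e, HH C0 e, ?_, ?_⟩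
  · rw [Fintype.card_prod, Fintype.card_prod]
    calc N ≤ Fintype.card G * 1 := by rw [mul_one]; exact hN
      _ ≤ Fintype.card G * (Fintype.card I * Fintype.card I) :=
        Nat.mul_le_mul_left _ (Nat.mul_pos hcI hcI)
  · refine ⟨?_, ?_, ?_, ?_⟩
    · intro i
      convert deg_le b C0 e i
    · rw [codeOf_eq]
      exact hR G I b C0 hrate
    · rw [codeOf_eq]
      exact hC G I b lam δ C0 hlam0 hδ hl2 hexp hdist
    · intro w
      obtain ⟨c, hc, hcs⟩ := hS G I b lam C0 rfl hlam0 hl1 hexp hAT w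
      refine ⟨c, by rw [codeOf_eq]; exact hc, hcs.trans ?_⟩
      have := sound_le b C0 e w
      exact_mod_cast this

end Pool.Agent.Helper835_LTC.J_LTC
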