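import Mathlib
import Pool.Agent.Helper835_LTC.Defs

set_option autoImplicit false

open Finset
open scoped Classical

namespace Pool.Agent.Helper835_LTC.J_MIX

open Pool.Agent.Helper835_LTC

theorem count_eq {G : Type} [Group G] [Fintype G] {J : Type} [Fintype J] (b : J → G)
    (S T : Finset G) (t : ℝ) :
    ((univ.filter fun p : G × J => p.1 ∈ S ∧ p.1 * b p.2 ∈ T).card : ℝ) =
      ∑ g ∈ S, ∑ j, ((if g * b j ∈ T then (1 : ℝ) else 0) - t) + S.card * Fintype.card J * t := by
  have h1 : ((univ.filter fun p : G × J => p.1 ∈ S ∧ p.1 * b p.2 ∈ T).card : ℝ) =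
      ∑ g, ∑ j, (if g ∈ S ∧ g * b j ∈ T then (1 : ℝ) else 0) := by
    rw [Finset.card_filter, Nat.cast_sum]
    rw [← Finset.univ_product_univ, Finset.sum_product]
    refine Finset.sum_congr rfl fun g _ => Finset.sum_congr rfl fun j _ => ?_
    simp only [Nat.cast_ite, Nat.cast_one, Nat.cast_zero]
  have h2 : ∑ g, ∑ j, (if g ∈ S ∧ g * b j ∈ T then (1 : ℝ) else 0) =
      ∑ g ∈ S, ∑ j, (if g * b j ∈ T then (1 : ℝ) else 0) := by
    rw [← Finset.sum_subset (Finset.subset_univ S)]
    · refine Finset.sum_congr rfl fun g hg => Finset.sum_congr rfl fun j _ => ?_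
      simp only [hg, true_and]
    · intro g _ hg
      refine Finset.sum_eq_zero fun j _ => ?_
      rw [if_neg (fun h => hg h.1)]
  rw [h1, h2]
  simp only [Finset.sum_sub_distrib, Finset.sum_const, Finset.card_univ, nsmul_eq_mul]
  ring

theorem job : S_MIX := by
  intro G _ _ J _ lam b hlam hE S T
  have hn : (0 : ℝ) < Fintype.card G := by
    exact_mod_cast Fintype.card_pos
  set n : ℝ := (Fintype.card G : ℝ) with hndef
  set t : ℝ := (T.card : ℝ) / n with ht
  set f : G → ℝ := fun g => (if g ∈ T then (1 : ℝ) else 0) - t with hf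
  have hT1 : ∑ g : G, (if g ∈ T then (1 : ℝ) else 0) = T.card := by
    simp
  have hnt : n * t = T.card := by
    rw [ht]
    field_simp
  have hsum : ∑ g, f g = 0 := by
    simp only [hf, Finset.sum_sub_distrib, hT1, Finset.sum_const, Finset.card_univ, nsmul_eq_mul]
    rw [← hndef, hnt, sub_self]
  have hsq : ∑ g, f g ^ 2 ≤ T.card := by
    have h1 : ∀ g, f g ^ 2 = (1 - 2 * t) * (if g ∈ T then (1 : ℝ) else 0) + t ^ 2 := by
      intro g
      simp only [hf]
      split_ifs <;> ring
    simp only [h1, Finset.sum_add_distrib, ← Finset.mul_sum, hT1, Finset.sum_const,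
      Finset.card_univ, nsmul_eq_mul]
    rw [← hndef]
    have h2 : n * t ^ 2 = t * T.card := by rw [← hnt]; ring
    rw [h2]
    have h3 : 0 ≤ t * T.card := by positivity
    linarith
  have hX := (hE f hsum).1
  set X : G → ℝ := fun g => ∑ j, f (g * b j) with hXd
  have h1 : (∑ g ∈ S, X g) ^ 2 ≤ (lam * Fintype.card J) ^ 2 * (S.card * T.card) := by
    calc (∑ g ∈ S, X g) ^ 2 ≤ S.card * ∑ g ∈ S, X g ^ 2 := sq_sum_le_card_mul_sum_sq
      _ ≤ S.card * ∑ g, X g ^ 2 := by
          refine mul_le_mul_of_nonneg_left ?_ (Nat.cast_nonneg _)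
          exact Finset.sum_le_sum_of_subset_of_nonneg (Finset.subset_univ S)
            fun g _ _ => sq_nonneg _
      _ ≤ S.card * ((lam * Fintype.card J) ^ 2 * T.card) := by
          refine mul_le_mul_of_nonneg_left ?_ (Nat.cast_nonneg _)
          exact hX.trans (mul_le_mul_of_nonneg_left hsq (sq_nonneg _))
      _ = _ := by ring
  have h2 : ∑ g ∈ S, X g ≤ lam * Fintype.card J * Real.sqrt (S.card * T.card) := by
    have h3 := Real.abs_le_sqrt h1
    have h4 : 0 ≤ lam * Fintype.card J := mul_nonneg hlam (Nat.cast_nonneg _)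
    rw [Real.sqrt_mul (sq_nonneg _), Real.sqrt_sq h4] at h3
    exact (le_abs_self _).trans h3
  rw [count_eq b S T t]
  have h5 : (S.card : ℝ) * Fintype.card J * t = Fintype.card J * (S.card * T.card) / n := by
    rw [ht]
    ring
  rw [h5, add_comm]
  exact add_le_add le_rfl h2

end Pool.Agent.Helper835_LTC.J_MIX
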