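import Mathlib
import Pool.Agent.Helper835_LTC.Defs2
/-!
Part of project LTC (three query locally testable codes with few short dual words).
-/

set_option autoImplicit false

open Finset
open scoped Classical

namespace Pool.Agent.Helper835_LTC.J_OCC

open Pool.Agent.Helper835_LTC

theorem card_cols {ι E : Type} [Fintype ι] [Fintype E] {q D : ℕ} (Q : E → Fin (q + 1) → ι)
    (hdeg : ∀ i, (univ.filter fun p : E × Fin (q + 1) => Q p.1 p.2 = i).card ≤ D) (i : ι) :
    (univ.filter fun e : E => Q e 0 = i).card ≤ D := by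
  refine le_trans ?_ (hdeg i)
  refine Finset.card_le_card_of_injOn (fun e => (e, 0)) ?_ ?_
  · intro e he
    simp only [Finset.coe_filter, Finset.mem_univ, true_and, Set.mem_ofPred_eq] at he ⊢
    exact he
  · intro e _ e' _ h
    exact (Prod.mk.inj h).1

theorem card_phi {ι E : Type} [Fintype ι] [Fintype E] {q D m1 : ℕ} (Q : E → Fin (q + 1) → ι)
    (φ : ι → ι)
    (hdeg : ∀ i, (univ.filter fun p : E × Fin (q + 1) => Q p.1 p.2 = i).card ≤ D)
    (hφ : ∀ j, (univ.filter fun i => φ i = j).card ≤ m1) (j : ι) :
    (univ.filter fun p : E × Fin (q + 1) => φ (Q p.1 p.2) = j).card ≤ m1 * D := by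
  have hsub : (univ.filter fun p : E × Fin (q + 1) => φ (Q p.1 p.2) = j) ⊆
      (univ.filter fun i => φ i = j).biUnion
        (fun i => univ.filter fun p : E × Fin (q + 1) => Q p.1 p.2 = i) := by
    intro p hp
    simp only [Finset.mem_filter, Finset.mem_univ, true_and, Finset.mem_biUnion] at hp ⊢
    exact ⟨Q p.1 p.2, hp, rfl⟩
  calc _ ≤ _ := Finset.card_le_card hsub
    _ ≤ ∑ i ∈ univ.filter (fun i => φ i = j),
          (univ.filter fun p : E × Fin (q + 1) => Q p.1 p.2 = i).card := Finset.card_biUnion_le
    _ ≤ ∑ _i ∈ univ.filter (fun i => φ i = j), D := Finset.sum_le_sum fun i _ => hdeg i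
    _ = (univ.filter fun i => φ i = j).card * D := by rw [Finset.sum_const, smul_eq_mul]
    _ ≤ m1 * D := Nat.mul_le_mul_right _ (hφ j)

theorem job : S_OCC := by
  intro q D m1 ρ δ κ ι E _ _ Q h φ hL hφ k
  have hdeg := hL.deg
  let P1 : Finset (E × Fin (q + 1)) := univ.filter fun p => Q p.1 p.2 = k.2
  let P2 : Finset (E × Fin (q + 1)) := univ.filter fun p => φ (Q p.1 p.2) = k.2
  let E0 : Finset E := univ.filter fun e => Q e 0 = k.2
  let S1 : Finset (NN ι E q) := {Sum.inl k}
  let S2 : Finset (NN ι E q) :=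
    (((univ : Finset (Fin 3)) ×ˢ (univ : Finset (Fin 3))) ×ˢ (E0 ×ˢ (univ : Finset (Fin (q + 1))))).image
      (fun x => Sum.inr (x.1.1, x.2.1, x.2.2, x.1.2))
  let S3 : Finset (NN ι E q) :=
    ((univ : Finset (Fin 3)) ×ˢ (P1 ∪ P2)).image
      (fun x => Sum.inr (x.1, x.2.1, x.2.2, if x.1 = 0 then 1 else 0))
  have hsub : (univ.filter fun u => k ∈ kf Q h φ u) ⊆ (S1 ∪ S2) ∪ S3 := by
    intro u hu
    rw [Finset.mem_filter] at hu
    obtain ⟨-, hu⟩ := hu
    rw [Finset.mem_union, Finset.mem_union]
    rcases u with p | ⟨t, e, l, s⟩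
    · left; left
      simp only [kf, Finset.mem_singleton] at hu
      rw [Finset.mem_singleton, hu]
    · simp only [kf, Finset.mem_union, Finset.mem_singleton] at hu
      rcases hu with hu | hu
      · left; right
        refine Finset.mem_image.2 ⟨((t, s), (e, l)), ?_, rfl⟩
        refine Finset.mk_mem_product (Finset.mk_mem_product (Finset.mem_univ _) (Finset.mem_univ _))
          (Finset.mk_mem_product ?_ (Finset.mem_univ _))
        refine Finset.mem_filter.2 ⟨Finset.mem_univ _, ?_⟩
        rw [hu]
      · right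
        split_ifs at hu with hc
        · rw [Finset.mem_singleton] at hu
          refine Finset.mem_image.2 ⟨(t, (e, l)), ?_, ?_⟩
          · refine Finset.mk_mem_product (Finset.mem_univ _) ?_
            rw [Finset.mem_union]
            by_cases ht : t = 0
            · right
              refine Finset.mem_filter.2 ⟨Finset.mem_univ _, ?_⟩
              rw [hu]
              simp [kv, ht]
            · left
              refine Finset.mem_filter.2 ⟨Finset.mem_univ _, ?_⟩
              rw [hu]
              simp only [kv, if_neg ht]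
              split_ifs <;> rfl
          · rcases hc.2 with ⟨h1, h2⟩ | ⟨h1, h2⟩
            · simp [h1, h2]
            · simp [h1, h2]
        · exact absurd hu (Finset.notMem_empty _)
  have hS1 : S1.card = 1 := Finset.card_singleton _
  have hS2 : S2.card ≤ 9 * (q + 1) * D := by
    refine Finset.card_image_le.trans ?_
    rw [Finset.card_product, Finset.card_product, Finset.card_product, Finset.card_univ,
      Finset.card_univ, Fintype.card_fin, Fintype.card_fin]
    have hE0 : E0.card ≤ D := card_cols Q hdeg k.2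
    calc 3 * 3 * (E0.card * (q + 1)) ≤ 3 * 3 * (D * (q + 1)) :=
          Nat.mul_le_mul_left _ (Nat.mul_le_mul_right _ hE0)
      _ = 9 * (q + 1) * D := by ring
  have hS3 : S3.card ≤ 3 * D + 3 * m1 * D := by
    refine Finset.card_image_le.trans ?_
    rw [Finset.card_product, Finset.card_univ, Fintype.card_fin]
    have h1 : (P1 ∪ P2).card ≤ D + m1 * D :=
      (Finset.card_union_le _ _).trans (Nat.add_le_add (hdeg k.2) (card_phi Q φ hdeg hφ k.2))
    calc 3 * (P1 ∪ P2).card ≤ 3 * (D + m1 * D) := Nat.mul_le_mul_left _ h1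
      _ = 3 * D + 3 * m1 * D := by ring
  calc _ ≤ ((S1 ∪ S2) ∪ S3).card := Finset.card_le_card hsub
    _ ≤ (S1.card + S2.card) + S3.card :=
      (Finset.card_union_le _ _).trans (Nat.add_le_add_right (Finset.card_union_le _ _) _)
    _ ≤ 1 + 9 * (q + 1) * D + 3 * D + 3 * m1 * D := by omega

end Pool.Agent.Helper835_LTC.J_OCC
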