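import Mathlib
import Pool.Agent.Helper835_LTC.Defs

set_option autoImplicit false
set_option linter.unusedSectionVars false

open Finset
open scoped Classical

namespace Pool.Agent.Helper835_LTC.J_POT

open Pool.Agent.Helper835_LTC

/-! ### counting -/

theorem cnt_indep {V : Type} [Fintype V] (K : ℕ) (u : V) (P : (V → Fin (K + 1)) → Prop)
    [DecidablePred P]
    (hP : ∀ σ i, P (Function.update σ u i) ↔ P σ) :
    (K + 1) * (univ.filter fun σ : V → Fin (K + 1) => σ u = 0 ∧ P σ).card =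
      (univ.filter fun σ : V → Fin (K + 1) => P σ).card := by
  have h := Finset.card_nbij'
    (s := (univ : Finset (Fin (K + 1))) ×ˢ (univ.filter fun σ : V → Fin (K + 1) => σ u = 0 ∧ P σ))
    (t := univ.filter fun σ : V → Fin (K + 1) => P σ)
    (fun x => Function.update x.2 u x.1) (fun σ => (σ u, Function.update σ u 0)) ?_ ?_ ?_ ?_
  · rw [Finset.card_product] at h
    simpa using h
  · intro x hx
    simp only [coe_product, coe_univ, coe_filter, mem_univ, true_and, Set.mem_prod, Set.mem_univ,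
      Set.mem_ofPred_eq] at hx
    simp only [coe_filter, mem_univ, true_and, Set.mem_ofPred_eq]
    exact (hP _ _).2 hx.2
  · intro σ hσ
    simp only [coe_filter, mem_univ, true_and, Set.mem_ofPred_eq] at hσ
    simp only [coe_product, coe_univ, coe_filter, mem_univ, true_and, Set.mem_prod, Set.mem_univ,
      Set.mem_ofPred_eq, Function.update_self]
    exact (hP _ _).2 hσ
  · rintro ⟨i, σ⟩ hx
    simp only [coe_product, coe_univ, coe_filter, mem_univ, true_and, Set.mem_prod, Set.mem_univ,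
      Set.mem_ofPred_eq] at hx
    simp only [Function.update_self, Function.update_idem, Prod.mk.injEq, true_and]
    rw [← hx.1, Function.update_eq_self]
  · intro σ _
    simp only [Function.update_idem, Function.update_eq_self]

theorem cnt_one {V : Type} [Fintype V] (K : ℕ) (u : V) :
    (K + 1) * (univ.filter fun σ : V → Fin (K + 1) => σ u = 0).card =
      (K + 1) ^ Fintype.card V := by
  have h := cnt_indep K u (fun _ => True) (fun _ _ => Iff.rfl)
  simp only [and_true, filter_true, card_univ, Fintype.card_fun, Fintype.card_fin] at h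
  exact h

theorem cnt_two {V : Type} [Fintype V] (K : ℕ) (u v : V) (huv : u ≠ v) :
    (K + 1) * ((K + 1) * (univ.filter fun σ : V → Fin (K + 1) => σ u = 0 ∧ σ v = 0).card) =
      (K + 1) ^ Fintype.card V := by
  have h := cnt_indep K u (fun σ => σ v = 0) (fun σ i => by rw [Function.update_of_ne huv.symm])
  rw [h, cnt_one]

/-- number of `σ` with a property -/
noncomputable def cS {V : Type} [Fintype V] (K : ℕ) (P : (V → Fin (K + 1)) → Prop) : ℕ :=
  (univ.filter fun σ : V → Fin (K + 1) => P σ).card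

/-! ### ranks -/

section Rk
variable {V E : Type} [Fintype V] [AddCommGroup E] [Module F2 E] [Module.Finite F2 E]

/-- span of the functionals outside of `D` -/
def SS (F : V → E) (D : Finset V) {K : ℕ} (σ : V → Fin (K + 1)) : Submodule F2 E :=
  spn F {v | v ∉ D ∧ σ v = 0}

theorem SS_congr {F F' : V → E} {D : Finset V} (h : ∀ v ∉ D, F v = F' v) {K : ℕ}
    (σ : V → Fin (K + 1)) : SS F D σ = SS F' D σ := by
  unfold SS spn
  congr 1
  refine Set.image_congr ?_
  rintro v ⟨hv, _⟩
  exact h v hv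

theorem SS_update (F : V → E) (D : Finset V) {K : ℕ} (σ : V → Fin (K + 1)) {u : V} (hu : u ∈ D)
    (i : Fin (K + 1)) : SS F D (Function.update σ u i) = SS F D σ := by
  unfold SS
  congr 1
  ext v
  simp only [Set.mem_ofPred_eq]
  constructor
  · rintro ⟨h1, h2⟩
    have : v ≠ u := fun h => h1 (h ▸ hu)
    rw [Function.update_of_ne this] at h2
    exact ⟨h1, h2⟩
  · rintro ⟨h1, h2⟩
    have : v ≠ u := fun h => h1 (h ▸ hu)
    rw [Function.update_of_ne this]
    exact ⟨h1, h2⟩

theorem spn_mono {F : V → E} {J J' : Set V} (h : J ⊆ J') : spn F J ≤ spn F J' :=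
  Submodule.span_mono (Set.image_mono h)

theorem mem_spn {F : V → E} {J : Set V} {v : V} (h : v ∈ J) : F v ∈ spn F J :=
  Submodule.subset_span ⟨v, h, rfl⟩

theorem rkA (F : V → E) (D : Finset V) {K : ℕ} (σ : V → Fin (K + 1)) :
    Module.finrank F2 (spn F {v | σ v = 0}) ≤ Module.finrank F2 (SS F D σ) +
      (D.filter fun u => σ u = 0 ∧ F u ∉ SS F D σ).card := by
  set A := D.filter fun u => σ u = 0 ∧ F u ∉ SS F D σ with hA
  have h1 : spn F {v | σ v = 0} ≤ SS F D σ ⊔ Submodule.span F2 ((A.image F : Finset E) : Set E) := by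
    refine Submodule.span_le.2 ?_
    rintro _ ⟨v, hv, rfl⟩
    by_cases hvD : v ∈ D
    · by_cases hS : F v ∈ SS F D σ
      · exact Submodule.mem_sup_left hS
      · refine Submodule.mem_sup_right (Submodule.subset_span ?_)
        rw [Finset.mem_coe, Finset.mem_image]
        exact ⟨v, by rw [hA, Finset.mem_filter]; exact ⟨hvD, hv, hS⟩, rfl⟩
    · exact Submodule.mem_sup_left (mem_spn ⟨hvD, hv⟩)
  refine (Submodule.finrank_mono h1).trans ?_
  refine (Submodule.finrank_add_le_finrank_add_finrank _ _).trans ?_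
  refine Nat.add_le_add_left ?_ _
  exact (finrank_span_finset_le_card _).trans Finset.card_image_le

theorem rkB {F F' : V → E} {D : Finset V} (h : ∀ v ∉ D, F v = F' v) {K : ℕ}
    (σ : V → Fin (K + 1)) :
    Module.finrank F2 (SS F D σ) + (D.filter fun u => σ u = 0 ∧ F' u ∉ SS F D σ).card ≤
      Module.finrank F2 (spn F' {v | σ v = 0}) +
        (D.offDiag.filter fun p => σ p.1 = 0 ∧ σ p.2 = 0).card := by
  have hle : SS F D σ ≤ spn F' {v | σ v = 0} := by
    rw [SS_congr h]
    exact spn_mono (fun v hv => hv.2)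
  set A := D.filter fun u => σ u = 0 ∧ F' u ∉ SS F D σ with hA
  rcases A.eq_empty_or_nonempty with h0 | ⟨u, hu⟩
  · rw [h0, Finset.card_empty]
    have := Submodule.finrank_mono hle
    omega
  · have hu' := hu
    rw [hA, Finset.mem_filter] at hu'
    have hlt : SS F D σ < spn F' {v | σ v = 0} := by
      refine lt_of_le_of_ne hle ?_
      intro heq
      apply hu'.2.2
      rw [heq]
      exact mem_spn hu'.2.1
    have h1 := Submodule.finrank_lt_finrank_of_lt hlt
    set B := D.filter fun u => σ u = 0 with hB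
    have h2 : D.offDiag.filter (fun p => σ p.1 = 0 ∧ σ p.2 = 0) = B.offDiag := by
      ext p
      simp only [Finset.mem_filter, Finset.mem_offDiag, hB]
      tauto
    have h3 : A ⊆ B := by
      intro x hx
      rw [hA, Finset.mem_filter] at hx
      rw [hB, Finset.mem_filter]
      exact ⟨hx.1, hx.2.1⟩
    have h4 := Finset.card_le_card h3
    have h5 : 0 < B.card := Finset.card_pos.2 ⟨u, h3 hu⟩
    rw [h2, Finset.offDiag_card]
    have h6 : B.card ≤ 1 + (B.card * B.card - B.card) := by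
      obtain ⟨t, ht⟩ : ∃ t, B.card = t + 1 := ⟨B.card - 1, by omega⟩
      rw [ht]
      have : (t + 1) * (t + 1) - (t + 1) = t * t + t := by
        have : (t + 1) * (t + 1) = t * t + t + (t + 1) := by ring
        omega
      rw [this]
      nlinarith
    omega

/-- the potential -/
noncomputable def Phi (K : ℕ) (F : V → E) : ℕ :=
  ∑ σ : V → Fin (K + 1), Module.finrank F2 (spn F {v | σ v = 0})

theorem swap_cnt {A B : Type} (s : Finset A) (t : Finset B) (R : A → B → Prop)
    [∀ x y, Decidable (R x y)] :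
    ∑ x ∈ s, (t.filter fun y => R x y).card = ∑ y ∈ t, (s.filter fun x => R x y).card := by
  simp_rw [Finset.card_filter]
  rw [Finset.sum_comm]

theorem pot_step {F F' : V → E} {D : Finset V} (h : ∀ v ∉ D, F v = F' v) (K : ℕ)
    (hΦ : Phi K F' ≤ Phi K F) :
    (K + 1) * ∑ u ∈ D, cS K (fun σ => F u ∈ SS F D σ) ≤
      (K + 1) * ∑ u ∈ D, cS K (fun σ => F' u ∈ SS F D σ) +
        D.card ^ 2 * (K + 1) ^ Fintype.card V := by
  unfold cS
  have h1 : ∑ σ : V → Fin (K + 1), (Module.finrank F2 (SS F D σ) +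
      (D.filter fun u => σ u = 0 ∧ F' u ∉ SS F D σ).card) ≤ Phi K F' +
      ∑ σ : V → Fin (K + 1), (D.offDiag.filter fun p => σ p.1 = 0 ∧ σ p.2 = 0).card := by
    unfold Phi
    rw [← Finset.sum_add_distrib]
    exact Finset.sum_le_sum fun σ _ => rkB h σ
  have h2 : Phi K F ≤ ∑ σ : V → Fin (K + 1), (Module.finrank F2 (SS F D σ) +
      (D.filter fun u => σ u = 0 ∧ F u ∉ SS F D σ).card) :=
    Finset.sum_le_sum fun σ _ => rkA F D σ
  rw [Finset.sum_add_distrib] at h1 h2
  have h3 : ∑ σ : V → Fin (K + 1), (D.filter fun u => σ u = 0 ∧ F' u ∉ SS F D σ).card ≤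
      ∑ σ : V → Fin (K + 1), (D.filter fun u => σ u = 0 ∧ F u ∉ SS F D σ).card +
      ∑ σ : V → Fin (K + 1), (D.offDiag.filter fun p => σ p.1 = 0 ∧ σ p.2 = 0).card := by
    omega
  rw [swap_cnt univ D, swap_cnt univ D, swap_cnt univ D.offDiag] at h3
  have h4 : ∀ F'' : V → E, (K + 1) * ∑ u ∈ D,
      (univ.filter fun σ : V → Fin (K + 1) => σ u = 0 ∧ F'' u ∉ SS F D σ).card +
      ∑ u ∈ D, (univ.filter fun σ : V → Fin (K + 1) => F'' u ∈ SS F D σ).card =
      D.card * (K + 1) ^ Fintype.card V := by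
    intro F''
    rw [Finset.mul_sum, ← Finset.sum_add_distrib, ← smul_eq_mul, ← Finset.sum_const]
    refine Finset.sum_congr rfl fun u hu => ?_
    rw [cnt_indep K u (fun σ => F'' u ∉ SS F D σ) (fun σ i => by rw [SS_update F D σ hu])]
    rw [add_comm, Finset.card_filter_add_card_filter_not]
    rw [Finset.card_univ, Fintype.card_fun, Fintype.card_fin]
  have h5 : (K + 1) * ((K + 1) * ∑ p ∈ D.offDiag,
      (univ.filter fun σ : V → Fin (K + 1) => σ p.1 = 0 ∧ σ p.2 = 0).card) ≤
      D.card ^ 2 * (K + 1) ^ Fintype.card V := by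
    rw [Finset.mul_sum, Finset.mul_sum]
    have : ∑ p ∈ D.offDiag, (K + 1) * ((K + 1) *
        (univ.filter fun σ : V → Fin (K + 1) => σ p.1 = 0 ∧ σ p.2 = 0).card) =
        D.offDiag.card * (K + 1) ^ Fintype.card V := by
      rw [← smul_eq_mul, ← Finset.sum_const]
      refine Finset.sum_congr rfl fun p hp => ?_
      rw [Finset.mem_offDiag] at hp
      exact cnt_two K p.1 p.2 hp.2.2
    rw [this, Finset.offDiag_card]
    refine Nat.mul_le_mul_right _ ?_
    rw [pow_two]
    exact Nat.sub_le _ _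
  have e1 := h4 F
  have e2 := h4 F'
  have h6 := Nat.mul_le_mul_left ((K + 1) * (K + 1)) h3
  nlinarith

theorem finrank_SS_le (F : V → E) (D : Finset V) {K : ℕ} (σ : V → Fin (K + 1)) :
    Module.finrank F2 (SS F D σ) ≤ (univ.filter fun v : V => σ v = 0).card := by
  have h1 : SS F D σ ≤
      Submodule.span F2 (((univ.filter fun v : V => σ v = 0).image F : Finset E) : Set E) := by
    refine Submodule.span_le.2 ?_
    rintro _ ⟨v, hv, rfl⟩
    refine Submodule.subset_span ?_
    rw [Finset.mem_coe, Finset.mem_image]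
    exact ⟨v, by simpa using hv.2, rfl⟩
  exact (Submodule.finrank_mono h1).trans
    ((finrank_span_finset_le_card _).trans Finset.card_image_le)

theorem sum_z (V : Type) [Fintype V] (K : ℕ) :
    (K + 1) * ∑ σ : V → Fin (K + 1), (univ.filter fun v : V => σ v = 0).card =
      Fintype.card V * (K + 1) ^ Fintype.card V := by
  rw [swap_cnt univ univ, Finset.mul_sum]
  rw [Finset.sum_congr rfl (fun u _ => cnt_one K u), Finset.sum_const, Finset.card_univ,
    smul_eq_mul]

theorem few_coset {ι : Type} [Fintype ι] {a : ι → E} {c1 : ℕ}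
    (h : ∀ W : Submodule F2 E, (univ.filter fun i => a i ∈ W).card ≤ c1 * Module.finrank F2 W)
    (U : Finset ι) (W : Submodule F2 E) (b : E) :
    (U.filter fun j => b + a j ∈ W).card ≤ c1 * (Module.finrank F2 W + 1) := by
  have h1 : (U.filter fun j => b + a j ∈ W) ⊆
      univ.filter fun i => a i ∈ W ⊔ Submodule.span F2 (({b} : Finset E) : Set E) := by
    intro j hj
    rw [Finset.mem_filter] at hj ⊢
    refine ⟨Finset.mem_univ _, ?_⟩
    have h2 : a j = (b + a j) + (-b) := by abel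
    rw [h2]
    refine Submodule.add_mem_sup hj.2 (Submodule.neg_mem _ (Submodule.subset_span ?_))
    simp
  refine (Finset.card_le_card h1).trans ((h _).trans (Nat.mul_le_mul_left _ ?_))
  refine (Submodule.finrank_add_le_finrank_add_finrank _ _).trans ?_
  refine Nat.add_le_add_left ?_ _
  refine (finrank_span_finset_le_card _).trans ?_
  simp

theorem avg_bound {ι : Type} [Fintype ι] {a : ι → E} {c1 : ℕ}
    (h : ∀ W : Submodule F2 E, (univ.filter fun i => a i ∈ W).card ≤ c1 * Module.finrank F2 W)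
    (U : Finset ι) (F : V → E) (D : Finset V) (K : ℕ) (b : E) :
    (K + 1) * ∑ j ∈ U, cS K (fun σ => b + a j ∈ SS F D σ) ≤
      c1 * (Fintype.card V + (K + 1)) * (K + 1) ^ Fintype.card V := by
  unfold cS
  rw [swap_cnt U univ]
  have h1 : ∑ σ : V → Fin (K + 1), (U.filter fun j => b + a j ∈ SS F D σ).card ≤
      ∑ σ : V → Fin (K + 1), c1 * ((univ.filter fun v : V => σ v = 0).card + 1) := by
    refine Finset.sum_le_sum fun σ _ => ?_
    exact (few_coset h U _ b).trans (Nat.mul_le_mul_left _ (Nat.add_le_add_right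
      (finrank_SS_le F D σ) 1))
  refine (Nat.mul_le_mul_left _ h1).trans (le_of_eq ?_)
  rw [← Finset.mul_sum, Finset.sum_add_distrib, Finset.sum_const, Finset.card_univ,
    Fintype.card_fun, Fintype.card_fin, smul_eq_mul, mul_one]
  have := sum_z V K
  calc (K + 1) * (c1 * (∑ σ : V → Fin (K + 1), (univ.filter fun v : V => σ v = 0).card +
          (K + 1) ^ Fintype.card V))
      = c1 * ((K + 1) * ∑ σ : V → Fin (K + 1), (univ.filter fun v : V => σ v = 0).card +
          (K + 1) * (K + 1) ^ Fintype.card V) := by ring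
    _ = _ := by rw [this]; ring

theorem fin_bound (F : V → E) (D : Finset V) (K : ℕ) {v0 : V} :
    (K + 1) * cS K (fun σ => F v0 ∈ spn F {v | v ≠ v0 ∧ σ v = 0}) ≤
      (K + 1) * cS K (fun σ => F v0 ∈ SS F D σ) + D.card * (K + 1) ^ Fintype.card V := by
  unfold cS
  have hyx : (univ.filter fun σ : V → Fin (K + 1) =>
      F v0 ∈ spn F {v | v ≠ v0 ∧ σ v = 0}).card ≤
      (univ.filter fun σ : V → Fin (K + 1) => F v0 ∈ SS F D σ).card + ∑ v ∈ D.erase v0,
      (univ.filter fun σ : V → Fin (K + 1) => σ v = 0).card := by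
    have h1 : (univ.filter fun σ : V → Fin (K + 1) => F v0 ∈ spn F {v | v ≠ v0 ∧ σ v = 0}) ⊆
        (univ.filter fun σ : V → Fin (K + 1) => F v0 ∈ SS F D σ) ∪
        (D.erase v0).biUnion fun v => univ.filter fun σ : V → Fin (K + 1) => σ v = 0 := by
      intro σ hσ
      rw [Finset.mem_filter] at hσ
      rw [Finset.mem_union]
      by_cases hb : ∃ v ∈ D.erase v0, σ v = 0
      · right
        obtain ⟨v, hv, hv0⟩ := hb
        rw [Finset.mem_biUnion]
        exact ⟨v, hv, by rw [Finset.mem_filter]; exact ⟨Finset.mem_univ _, hv0⟩⟩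
      · left
        push Not at hb
        rw [Finset.mem_filter]
        refine ⟨Finset.mem_univ _, spn_mono ?_ hσ.2⟩
        rintro v ⟨hv1, hv2⟩
        refine ⟨fun hvD => hb v (Finset.mem_erase.2 ⟨hv1, hvD⟩) hv2, hv2⟩
    refine (Finset.card_le_card h1).trans ((Finset.card_union_le _ _).trans ?_)
    exact Nat.add_le_add_left Finset.card_biUnion_le _
  have hz : (K + 1) * ∑ v ∈ D.erase v0,
      (univ.filter fun σ : V → Fin (K + 1) => σ v = 0).card ≤
        D.card * (K + 1) ^ Fintype.card V := by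
    rw [Finset.mul_sum, Finset.sum_congr rfl (fun v _ => cnt_one K v), Finset.sum_const,
      smul_eq_mul]
    exact Nat.mul_le_mul_right _ (Finset.card_le_card (Finset.erase_subset _ _))
  refine (Nat.mul_le_mul_left (K + 1) hyx).trans ?_
  rw [Nat.mul_add]
  exact Nat.add_le_add_left hz _

end Rk

theorem numbers (c1 D0 C2 K n L w d x y T : ℕ)
    (hK : K = 32 * (c1 + 1) * (D0 + 1) ^ 2 * (C2 + 1)) (hn : 32 * (c1 + 1) * (D0 + 1) ≤ n)
    (hw : n ≤ 2 * w) (hL : L ≤ (C2 + 1) * n) (hd : d ≤ D0)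
    (hsum : w * ((K + 1) * x) ≤ d * (c1 * (L + (K + 1)) * T) + w * (d ^ 2 * T))
    (hy : (K + 1) * y ≤ (K + 1) * x + d * T) : 2 * y ≤ T := by
  have hL' : L ≤ 2 * (C2 + 1) * w := by
    calc L ≤ (C2 + 1) * n := hL
      _ ≤ (C2 + 1) * (2 * w) := Nat.mul_le_mul_left _ hw
      _ = _ := by ring
  have hbig : 32 * ((c1 + 1) * (D0 + 1)) ≤ 2 * w := by
    calc 32 * ((c1 + 1) * (D0 + 1)) = 32 * (c1 + 1) * (D0 + 1) := by ring
      _ ≤ _ := hn.trans hw
  have hpos0 : 0 < (c1 + 1) * (D0 + 1) := Nat.mul_pos (Nat.succ_pos _) (Nat.succ_pos _)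
  have hw0 : 0 < w := by omega
  have hdc : d * c1 ≤ (c1 + 1) * (D0 + 1) := by
    rw [mul_comm]
    exact Nat.mul_le_mul (Nat.le_succ _) (by omega)
  have hDD : D0 + 1 ≤ (D0 + 1) ^ 2 := by
    rw [pow_two]
    exact Nat.le_mul_of_pos_left _ (Nat.succ_pos _)
  have A1 : 16 * (d * c1 * L) ≤ w * (K + 1) := by
    calc 16 * (d * c1 * L)
        ≤ 16 * (((c1 + 1) * (D0 + 1) ^ 2) * (2 * (C2 + 1) * w)) := by
          refine Nat.mul_le_mul_left _ (Nat.mul_le_mul ?_ hL')
          exact hdc.trans (Nat.mul_le_mul_left _ hDD)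
      _ = w * K := by rw [hK]; ring
      _ ≤ w * (K + 1) := Nat.mul_le_mul_left _ (Nat.le_succ _)
  have A2 : 16 * (d * c1 * (K + 1)) ≤ w * (K + 1) := by
    calc 16 * (d * c1 * (K + 1)) = 16 * (d * c1) * (K + 1) := by ring
      _ ≤ _ := Nat.mul_le_mul_right _ (by omega)
  have hK8 : 32 * (D0 + 1) ^ 2 ≤ K := by
    rw [hK]
    have : 1 ≤ (c1 + 1) * (C2 + 1) := Nat.mul_pos (Nat.succ_pos _) (Nat.succ_pos _)
    calc 32 * (D0 + 1) ^ 2 = 32 * (D0 + 1) ^ 2 * 1 := by ring
      _ ≤ 32 * (D0 + 1) ^ 2 * ((c1 + 1) * (C2 + 1)) := Nat.mul_le_mul_left _ this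
      _ = _ := by ring
  have hd2 : d ^ 2 ≤ (D0 + 1) ^ 2 := Nat.pow_le_pow_left (by omega) 2
  have A3 : 8 * (w * d ^ 2) ≤ w * (K + 1) := by
    calc 8 * (w * d ^ 2) = w * (8 * d ^ 2) := by ring
      _ ≤ w * (K + 1) := Nat.mul_le_mul_left _ (by omega)
  have hx4 : 4 * x ≤ T := by
    have h1 : (w * (K + 1)) * (4 * x) ≤ (w * (K + 1)) * T := by
      calc (w * (K + 1)) * (4 * x) = 4 * (w * ((K + 1) * x)) := by ring
        _ ≤ 4 * (d * (c1 * (L + (K + 1)) * T) + w * (d ^ 2 * T)) := Nat.mul_le_mul_left _ hsum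
        _ = (4 * (d * c1 * L + d * c1 * (K + 1) + w * d ^ 2)) * T := by ring
        _ ≤ (w * (K + 1)) * T := Nat.mul_le_mul_right _ (by omega)
    exact Nat.le_of_mul_le_mul_left h1 (Nat.mul_pos hw0 (Nat.succ_pos _))
  have h8d : 8 * d ≤ K + 1 := by omega
  have h1 : (K + 1) * (8 * y) ≤ (K + 1) * (8 * x + T) := by
    calc (K + 1) * (8 * y) = 8 * ((K + 1) * y) := by ring
      _ ≤ 8 * ((K + 1) * x + d * T) := Nat.mul_le_mul_left _ hy
      _ = (K + 1) * (8 * x) + (8 * d) * T := by ring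
      _ ≤ (K + 1) * (8 * x) + (K + 1) * T := Nat.add_le_add_left (Nat.mul_le_mul_right _ h8d) _
      _ = _ := by ring
  have h2 := Nat.le_of_mul_le_mul_left h1 (Nat.succ_pos _)
  omega

/-! ### the stored functionals -/

section St
variable {ι N Var E : Type} [Fintype ι] [Fintype N] [Fintype Var] [AddCommGroup E]

/-- the functionals which contain the variable `k` -/
noncomputable def DD (Kf : N → Finset Var) (k : Var) : Finset (ι ⊕ N) :=
  (univ.filter fun u : N => k ∈ Kf u).map Function.Embedding.inr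

theorem mem_DD {Kf : N → Finset Var} {k : Var} {v : ι ⊕ N} :
    v ∈ DD (ι := ι) Kf k ↔ ∃ u, v = Sum.inr u ∧ k ∈ Kf u := by
  unfold DD
  simp only [Finset.mem_map, Finset.mem_filter, Finset.mem_univ, true_and,
    Function.Embedding.inr_apply]
  constructor
  · rintro ⟨u, h1, h2⟩
    exact ⟨u, h2.symm, h1⟩
  · rintro ⟨u, h1, h2⟩
    exact ⟨u, h2, h1.symm⟩

theorem stF_off (a : ι → E) (β : N → E) (Kf : N → Finset Var) (ω : Var → ι) (k : Var) (j : ι)
    (v : ι ⊕ N) (hv : v ∉ DD (ι := ι) Kf k) :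
    stF a β Kf ω v = stF a β Kf (Function.update ω k j) v := by
  rcases v with i | u
  · rfl
  · have hk : k ∉ Kf u := fun h => hv (mem_DD.2 ⟨u, rfl, h⟩)
    simp only [stF]
    congr 1
    refine Finset.sum_congr rfl fun k' hk' => ?_
    have : k' ≠ k := fun h => hk (h ▸ hk')
    rw [Function.update_of_ne this]

/-- the part that does not depend on `ω k` -/
noncomputable def bb (a : ι → E) (β : N → E) (Kf : N → Finset Var) (ω : Var → ι) (k : Var) :
    ι ⊕ N → E
  | Sum.inl i => a i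
  | Sum.inr u => β u + ∑ k' ∈ (Kf u).erase k, a (ω k')

theorem stF_on (a : ι → E) (β : N → E) (Kf : N → Finset Var) (ω : Var → ι) (k : Var) (j : ι)
    (v : ι ⊕ N) (hv : v ∈ DD (ι := ι) Kf k) :
    stF a β Kf (Function.update ω k j) v = bb a β Kf ω k v + a j := by
  obtain ⟨u, rfl, hk⟩ := mem_DD.1 hv
  simp only [stF, bb]
  rw [← Finset.add_sum_erase _ _ hk, Function.update_self, add_assoc, add_comm (a j)]
  congr 2
  refine Finset.sum_congr rfl fun k' hk' => ?_
  rw [Function.update_of_ne (Finset.ne_of_mem_erase hk')]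

/-- allowed choices -/
def Al (m : ℕ) (ω : Var → ι) : Prop := ∀ j, (univ.filter fun k => ω k = j).card ≤ 2 * m

theorem exists_Al {m : ℕ} (h : Fintype.card Var ≤ m * Fintype.card ι) :
    ∃ ω : Var → ι, Al m ω := by
  have h1 : Fintype.card Var ≤ Fintype.card (ι × Fin m) := by
    rw [Fintype.card_prod, Fintype.card_fin, mul_comm]
    exact h
  obtain ⟨e⟩ := Function.Embedding.nonempty_of_card_le h1
  refine ⟨fun k => (e k).1, fun j => ?_⟩
  have h2 : (univ.filter fun k => (e k).1 = j).card ≤ (univ : Finset (Fin m)).card := by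
    refine Finset.card_le_card_of_injOn (fun k => (e k).2) (fun _ _ => Finset.mem_coe.2 (Finset.mem_univ _)) ?_
    intro x hx y hy hxy
    simp only [coe_filter, mem_univ, true_and, Set.mem_ofPred_eq] at hx hy
    exact e.injective (Prod.ext (hx.trans hy.symm) hxy)
  rw [Finset.card_univ, Fintype.card_fin] at h2
  exact h2.trans (by omega)

/-- indices with room -/
noncomputable def UU (m : ℕ) (ω : Var → ι) (k : Var) : Finset ι :=
  univ.filter fun j => (univ.filter fun k' => k' ≠ k ∧ ω k' = j).card < 2 * m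

theorem Al_update {m : ℕ} {ω : Var → ι} (h : Al m ω) (k : Var) {j : ι} (hj : j ∈ UU m ω k) :
    Al m (Function.update ω k j) := by
  intro i
  by_cases hi : i = j
  · subst hi
    have h1 : (univ.filter fun k' => Function.update ω k i k' = i) ⊆
        insert k (univ.filter fun k' => k' ≠ k ∧ ω k' = i) := by
      intro k' hk'
      rw [Finset.mem_filter] at hk'
      rw [Finset.mem_insert, Finset.mem_filter]
      by_cases hkk : k' = k
      · exact Or.inl hkk
      · rw [Function.update_of_ne hkk] at hk'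
        exact Or.inr ⟨Finset.mem_univ _, hkk, hk'.2⟩
    have h2 := Finset.card_le_card h1
    have h3 := Finset.card_insert_le k (univ.filter fun k' => k' ≠ k ∧ ω k' = i)
    have h4 := (Finset.mem_filter.1 hj).2
    omega
  · refine (Finset.card_le_card ?_).trans (h i)
    intro k' hk'
    rw [Finset.mem_filter] at hk' ⊢
    by_cases hkk : k' = k
    · rw [hkk, Function.update_self] at hk'
      exact absurd hk'.2.symm hi
    · rw [Function.update_of_ne hkk] at hk'
      exact hk'

theorem card_UU {m : ℕ} (h : Fintype.card Var ≤ m * Fintype.card ι) (ω : Var → ι) (k : Var) :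
    Fintype.card ι ≤ 2 * (UU m ω k).card := by
  have hm : 0 < m := by
    rcases Nat.eq_zero_or_pos m with h0 | h0
    · rw [h0, zero_mul] at h
      have := Fintype.card_pos_iff.2 ⟨k⟩
      omega
    · exact h0
  set B := univ.filter fun j : ι => ¬ (univ.filter fun k' => k' ≠ k ∧ ω k' = j).card < 2 * m
    with hB
  have h1 : (UU m ω k).card + B.card = Fintype.card ι := by
    unfold UU
    rw [hB, Finset.card_filter_add_card_filter_not, Finset.card_univ]
  have h2 : B.card * (2 * m) ≤ ∑ j ∈ B, (univ.filter fun k' => ω k' = j).card := by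
    rw [← smul_eq_mul]
    refine Finset.card_nsmul_le_sum _ _ _ fun j hj => ?_
    have h3 := (Finset.mem_filter.1 hj).2
    have h4 : (univ.filter fun k' => k' ≠ k ∧ ω k' = j).card ≤
        (univ.filter fun k' => ω k' = j).card := by
      refine Finset.card_le_card fun x hx => ?_
      rw [Finset.mem_filter] at hx ⊢
      exact ⟨hx.1, hx.2.2⟩
    omega
  have h5 : ∑ j ∈ B, (univ.filter fun k' => ω k' = j).card ≤ Fintype.card Var := by
    refine (Finset.sum_le_sum_of_subset (Finset.subset_univ B)).trans ?_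
    rw [← Finset.card_eq_sum_card_fiberwise (f := ω) (s := univ) (t := univ)
      (fun _ _ => Finset.mem_coe.2 (Finset.mem_univ _)), Finset.card_univ]
  have h6 : B.card * 2 ≤ Fintype.card ι := by
    have h7 : m * (B.card * 2) ≤ m * Fintype.card ι := by
      calc m * (B.card * 2) = B.card * (2 * m) := by ring
        _ ≤ _ := (h2.trans h5).trans h
    exact Nat.le_of_mul_le_mul_left h7 hm
  omega

end St

theorem job : S_POT := by
  intro c1 m D0 C2
  refine ⟨32 * (c1 + 1) * (D0 + 1) ^ 2 * (C2 + 1), 32 * (c1 + 1) * (D0 + 1), ?_⟩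
  generalize hK : 32 * (c1 + 1) * (D0 + 1) ^ 2 * (C2 + 1) = K
  intro ι N Var E _ _ _ _ _ _ a β Kf hn hN hVar hW hKf hD
  obtain ⟨ω1, hω1⟩ := exists_Al (ι := ι) hVar
  obtain ⟨ω, hωm, hmax⟩ := Finset.exists_max_image (univ.filter fun ω : Var → ι => Al m ω)
    (fun ω => Phi K (stF a β Kf ω)) ⟨ω1, by rw [Finset.mem_filter]; exact ⟨Finset.mem_univ _, hω1⟩⟩
  have hω : Al m ω := (Finset.mem_filter.1 hωm).2
  refine ⟨ω, hω, fun u0 => ?_⟩
  obtain ⟨k, hk⟩ := hKf u0
  have hDcard : (DD (ι := ι) Kf k).card ≤ D0 := by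
    unfold DD
    rw [Finset.card_map]
    exact hD k
  have hUc : Fintype.card ι ≤ 2 * (UU m ω k).card := card_UU hVar ω k
  have hu0 : (Sum.inr u0 : ι ⊕ N) ∈ DD (ι := ι) Kf k := mem_DD.2 ⟨u0, rfl, hk⟩
  have hstep : ∀ j ∈ UU m ω k,
      (K + 1) * cS K (fun σ => stF a β Kf ω (Sum.inr u0) ∈ SS (stF a β Kf ω) (DD (ι := ι) Kf k) σ) ≤
      (K + 1) * ∑ v ∈ DD (ι := ι) Kf k,
        cS K (fun σ => bb a β Kf ω k v + a j ∈ SS (stF a β Kf ω) (DD (ι := ι) Kf k) σ) +
        (DD (ι := ι) Kf k).card ^ 2 * (K + 1) ^ Fintype.card (ι ⊕ N) := by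
    intro j hj
    have h1 := pot_step (F := stF a β Kf ω) (F' := stF a β Kf (Function.update ω k j))
      (D := DD (ι := ι) Kf k) (fun v hv => stF_off a β Kf ω k j v hv) K
      (hmax _ (by rw [Finset.mem_filter]; exact ⟨Finset.mem_univ _, Al_update hω k hj⟩))
    have h2 : cS K (fun σ => stF a β Kf ω (Sum.inr u0) ∈ SS (stF a β Kf ω) (DD (ι := ι) Kf k) σ) ≤
        ∑ u ∈ DD (ι := ι) Kf k,
          cS K (fun σ => stF a β Kf ω u ∈ SS (stF a β Kf ω) (DD (ι := ι) Kf k) σ) :=
      Finset.single_le_sum (f := fun u =>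
          cS K (fun σ => stF a β Kf ω u ∈ SS (stF a β Kf ω) (DD (ι := ι) Kf k) σ))
        (fun _ _ => Nat.zero_le _) hu0
    have h3 : ∑ u ∈ DD (ι := ι) Kf k, cS K (fun σ =>
        stF a β Kf (Function.update ω k j) u ∈ SS (stF a β Kf ω) (DD (ι := ι) Kf k) σ) =
        ∑ v ∈ DD (ι := ι) Kf k, cS K (fun σ =>
          bb a β Kf ω k v + a j ∈ SS (stF a β Kf ω) (DD (ι := ι) Kf k) σ) := by
      refine Finset.sum_congr rfl fun v hv => ?_
      rw [stF_on a β Kf ω k j v hv]
    rw [h3] at h1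
    exact (Nat.mul_le_mul_left _ h2).trans h1
  have hsum : (UU m ω k).card * ((K + 1) *
      cS K (fun σ => stF a β Kf ω (Sum.inr u0) ∈ SS (stF a β Kf ω) (DD (ι := ι) Kf k) σ)) ≤
      (DD (ι := ι) Kf k).card * (c1 * (Fintype.card (ι ⊕ N) + (K + 1)) *
        (K + 1) ^ Fintype.card (ι ⊕ N)) +
      (UU m ω k).card * ((DD (ι := ι) Kf k).card ^ 2 * (K + 1) ^ Fintype.card (ι ⊕ N)) := by
    have h1 := Finset.sum_le_sum hstep
    rw [Finset.sum_const, smul_eq_mul, Finset.sum_add_distrib, Finset.sum_const, smul_eq_mul,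
      ← Finset.mul_sum, Finset.sum_comm, Finset.mul_sum] at h1
    refine h1.trans (Nat.add_le_add_right ?_ _)
    rw [← smul_eq_mul ((DD (ι := ι) Kf k).card)]
    exact Finset.sum_le_card_nsmul _ _ _ fun v _ =>
      avg_bound hW (UU m ω k) (stF a β Kf ω) (DD (ι := ι) Kf k) K _
  have hL : Fintype.card (ι ⊕ N) ≤ (C2 + 1) * Fintype.card ι := by
    rw [Fintype.card_sum, Nat.add_mul, Nat.one_mul, Nat.add_comm]
    exact Nat.add_le_add_right hN _
  have hfin := numbers c1 D0 C2 K _ _ _ _ _ _ _ hK.symm hn hUc hL hDcard hsum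
    (fin_bound (stF a β Kf ω) (DD (ι := ι) Kf k) K (v0 := Sum.inr u0))
  have h9 : ((2 * cS K (fun σ => stF a β Kf ω (Sum.inr u0) ∈
      spn (stF a β Kf ω) {v | v ≠ Sum.inr u0 ∧ σ v = 0}) : ℕ) : ℝ) ≤
      (((K + 1) ^ Fintype.card (ι ⊕ N) : ℕ) : ℝ) := by exact_mod_cast hfin
  push_cast at h9
  have h10 : ((cS K (fun σ => stF a β Kf ω (Sum.inr u0) ∈
      spn (stF a β Kf ω) {v | v ≠ Sum.inr u0 ∧ σ v = 0}) : ℕ) : ℝ) ≤
      (1 - 1 / 2) * ((K : ℝ) + 1) ^ Fintype.card (ι ⊕ N) := by linarith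
  exact h10

end Pool.Agent.Helper835_LTC.J_POT
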