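import Mathlib
import Pool.Agent.Helper835_LTC.Defs

set_option autoImplicit false

open Finset
open scoped Classical

namespace Pool.Agent.Helper835_LTC.J_POWPAD

open Pool.Agent.Helper835_LTC

/-- bound for the operator of the family `c` on functions of sum zero -/
private def Bd {G : Type} [Group G] [Fintype G] {J : Type} [Fintype J] (L : ℝ) (c : J → G) : Prop :=
  0 ≤ L ∧ ∀ f : G → ℝ, ∑ g, f g = 0 →
    ∑ g, (∑ j, f (g * c j)) ^ 2 ≤ L ^ 2 * ∑ g, f g ^ 2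

private lemma sum_zero {G : Type} [Group G] [Fintype G] {J : Type} [Fintype J] (c : J → G)
    (f : G → ℝ) (hf : ∑ g, f g = 0) : ∑ g, (∑ j, f (g * c j)) = 0 := by
  rw [Finset.sum_comm]
  refine Finset.sum_eq_zero fun j _ => ?_
  rw [← hf]
  exact Equiv.sum_comp (Equiv.mulRight (c j)) f

private lemma bd_sum {G : Type} [Group G] [Fintype G] {J1 J2 : Type} [Fintype J1] [Fintype J2]
    {L1 L2 : ℝ} {c1 : J1 → G} {c2 : J2 → G} (h1 : Bd L1 c1) (h2 : Bd L2 c2) :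
    Bd (L1 + L2) (Sum.elim c1 c2) := by
  refine ⟨add_nonneg h1.1 h2.1, fun f hf => ?_⟩
  have e : ∀ g, ∑ j : J1 ⊕ J2, f (g * Sum.elim c1 c2 j) =
      (∑ j, f (g * c1 j)) + ∑ j, f (g * c2 j) := by
    intro g
    rw [Fintype.sum_sum_type]
    rfl
  have a1 := h1.2 f hf
  have a2 := h2.2 f hf
  have hS : 0 ≤ ∑ g, f g ^ 2 := Finset.sum_nonneg fun g _ => sq_nonneg _
  have hc := Finset.sum_mul_sq_le_sq_mul_sq univ (fun g => ∑ j, f (g * c1 j))
    (fun g => ∑ j, f (g * c2 j))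
  have hp1 : 0 ≤ ∑ g, (∑ j, f (g * c1 j)) ^ 2 := Finset.sum_nonneg fun g _ => sq_nonneg _
  have hp2 : 0 ≤ ∑ g, (∑ j, f (g * c2 j)) ^ 2 := Finset.sum_nonneg fun g _ => sq_nonneg _
  have hc2 : (∑ g, (∑ j, f (g * c1 j)) * ∑ j, f (g * c2 j)) ^ 2 ≤
      (L1 * L2 * ∑ g, f g ^ 2) ^ 2 := by
    refine hc.trans ?_
    calc (∑ g, (∑ j, f (g * c1 j)) ^ 2) * ∑ g, (∑ j, f (g * c2 j)) ^ 2
        ≤ (L1 ^ 2 * ∑ g, f g ^ 2) * (L2 ^ 2 * ∑ g, f g ^ 2) :=
          mul_le_mul a1 a2 hp2 (by positivity)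
      _ = (L1 * L2 * ∑ g, f g ^ 2) ^ 2 := by ring
  have hLL : 0 ≤ L1 * L2 * ∑ g, f g ^ 2 := mul_nonneg (mul_nonneg h1.1 h2.1) hS
  have hc3 : ∑ g, (∑ j, f (g * c1 j)) * ∑ j, f (g * c2 j) ≤ L1 * L2 * ∑ g, f g ^ 2 :=
    abs_le_of_sq_le_sq' hc2 hLL |>.2
  have e2 : ∑ g, (∑ j : J1 ⊕ J2, f (g * Sum.elim c1 c2 j)) ^ 2 =
      (∑ g, (∑ j, f (g * c1 j)) ^ 2) + 2 * (∑ g, (∑ j, f (g * c1 j)) * ∑ j, f (g * c2 j)) +
        ∑ g, (∑ j, f (g * c2 j)) ^ 2 := by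
    rw [Finset.mul_sum, ← Finset.sum_add_distrib, ← Finset.sum_add_distrib]
    refine Finset.sum_congr rfl fun g _ => ?_
    rw [e]
    ring
  rw [e2]
  nlinarith

private lemma bd_prod {G : Type} [Group G] [Fintype G] {J1 J2 : Type} [Fintype J1] [Fintype J2]
    {L1 L2 : ℝ} {c1 : J1 → G} {c2 : J2 → G} (h1 : Bd L1 c1) (h2 : Bd L2 c2) :
    Bd (L1 * L2) (fun p : J1 × J2 => c1 p.1 * c2 p.2) := by
  refine ⟨mul_nonneg h1.1 h2.1, fun f hf => ?_⟩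
  have e : ∀ g, ∑ p : J1 × J2, f (g * (c1 p.1 * c2 p.2)) =
      ∑ j, (fun g' => ∑ i, f (g' * c2 i)) (g * c1 j) := by
    intro g
    rw [Fintype.sum_prod_type]
    refine Finset.sum_congr rfl fun j _ => Finset.sum_congr rfl fun i _ => ?_
    rw [mul_assoc]
  have a1 := h1.2 (fun g' => ∑ i, f (g' * c2 i)) (sum_zero c2 f hf)
  have a2 := h2.2 f hf
  calc ∑ g, (∑ p : J1 × J2, f (g * (c1 p.1 * c2 p.2))) ^ 2
      = ∑ g, (∑ j, (fun g' => ∑ i, f (g' * c2 i)) (g * c1 j)) ^ 2 :=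
        Finset.sum_congr rfl fun g _ => by rw [e g]
    _ ≤ L1 ^ 2 * ∑ g, (∑ i, f (g * c2 i)) ^ 2 := a1
    _ ≤ L1 ^ 2 * (L2 ^ 2 * ∑ g, f g ^ 2) := mul_le_mul_of_nonneg_left a2 (sq_nonneg _)
    _ = (L1 * L2) ^ 2 * ∑ g, f g ^ 2 := by ring

private lemma bd_equiv {G : Type} [Group G] [Fintype G] {J1 J2 : Type} [Fintype J1] [Fintype J2]
    {L : ℝ} {c : J1 → G} (e : J2 ≃ J1) (h : Bd L c) : Bd L (fun j => c (e j)) := by
  refine ⟨h.1, fun f hf => ?_⟩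
  have h2 := h.2 f hf
  have e2 : ∀ g, ∑ j, f (g * c (e j)) = ∑ j, f (g * c j) := fun g =>
    e.sum_comp (fun j => f (g * c j))
  calc ∑ g, (∑ j, f (g * c (e j))) ^ 2 = ∑ g, (∑ j, f (g * c j)) ^ 2 :=
        Finset.sum_congr rfl fun g _ => by rw [e2 g]
    _ ≤ _ := h2

private lemma bd_mono {G : Type} [Group G] [Fintype G] {J : Type} [Fintype J] {L L' : ℝ}
    {c : J → G} (h : Bd L c) (hL : L ≤ L') : Bd L' c := by
  refine ⟨h.1.trans hL, fun f hf => (h.2 f hf).trans ?_⟩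
  exact mul_le_mul_of_nonneg_right (pow_le_pow_left₀ h.1 hL 2)
    (Finset.sum_nonneg fun g _ => sq_nonneg _)

private lemma bd_adj {G : Type} [Group G] [Fintype G] {J : Type} [Fintype J] {L : ℝ}
    {c : J → G} (h : Bd L c) : Bd L (fun j => (c j)⁻¹) := by
  refine ⟨h.1, fun f hf => ?_⟩
  set u : G → ℝ := fun g => ∑ j, f (g * (c j)⁻¹) with hu
  have hu0 : ∑ g, u g = 0 := sum_zero (fun j => (c j)⁻¹) f hf
  have a := h.2 u hu0
  have e : ∑ g, u g ^ 2 = ∑ g, (∑ j, u (g * c j)) * f g := by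
    calc ∑ g, u g ^ 2 = ∑ g, ∑ j, u g * f (g * (c j)⁻¹) := by
          refine Finset.sum_congr rfl fun g _ => ?_
          rw [pow_two]
          conv_lhs => rhs; rw [hu]
          rw [Finset.mul_sum]
      _ = ∑ j, ∑ g, u g * f (g * (c j)⁻¹) := Finset.sum_comm
      _ = ∑ j, ∑ g, u (g * c j) * f g := by
          refine Finset.sum_congr rfl fun j _ => ?_
          rw [← Equiv.sum_comp (Equiv.mulRight (c j)) (fun g => u g * f (g * (c j)⁻¹))]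
          refine Finset.sum_congr rfl fun g _ => ?_
          rw [Equiv.coe_mulRight, mul_inv_cancel_right]
      _ = ∑ g, ∑ j, u (g * c j) * f g := Finset.sum_comm
      _ = ∑ g, (∑ j, u (g * c j)) * f g := by
          refine Finset.sum_congr rfl fun g _ => ?_
          rw [Finset.sum_mul]
  have hX : 0 ≤ ∑ g, u g ^ 2 := Finset.sum_nonneg fun g _ => sq_nonneg _
  have hF : 0 ≤ ∑ g, f g ^ 2 := Finset.sum_nonneg fun g _ => sq_nonneg _
  have hc := Finset.sum_mul_sq_le_sq_mul_sq univ (fun g => ∑ j, u (g * c j)) f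
  rw [← e] at hc
  have hc2 : (∑ g, u g ^ 2) ^ 2 ≤ (L ^ 2 * ∑ g, f g ^ 2) * ∑ g, u g ^ 2 := by
    refine hc.trans ((mul_le_mul_of_nonneg_right a hF).trans (le_of_eq ?_))
    ring
  show ∑ g, u g ^ 2 ≤ L ^ 2 * ∑ g, f g ^ 2
  rcases hX.eq_or_lt with h0 | h0
  · rw [← h0]; positivity
  · rw [pow_two] at hc2
    exact le_of_mul_le_mul_right hc2 h0

/-- existence of a family with a bound -/
private def HB (G : Type) [Group G] [Fintype G] (n : ℕ) (L : ℝ) : Prop := ∃ c : Fin n → G, Bd L c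

private lemma hb_add {G : Type} [Group G] [Fintype G] {n1 n2 : ℕ} {L1 L2 : ℝ} (h1 : HB G n1 L1)
    (h2 : HB G n2 L2) : HB G (n1 + n2) (L1 + L2) := by
  obtain ⟨c1, h1⟩ := h1
  obtain ⟨c2, h2⟩ := h2
  exact ⟨_, bd_equiv finSumFinEquiv.symm (bd_sum h1 h2)⟩

private lemma hb_mul {G : Type} [Group G] [Fintype G] {n1 n2 : ℕ} {L1 L2 : ℝ} (h1 : HB G n1 L1)
    (h2 : HB G n2 L2) : HB G (n1 * n2) (L1 * L2) := by
  obtain ⟨c1, h1⟩ := h1
  obtain ⟨c2, h2⟩ := h2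
  exact ⟨_, bd_equiv finProdFinEquiv.symm (bd_prod h1 h2)⟩

private lemma hb_zero (G : Type) [Group G] [Fintype G] : HB G 0 0 := by
  refine ⟨Fin.elim0, le_rfl, fun f _ => ?_⟩
  simp

private lemma hb_one (G : Type) [Group G] [Fintype G] : HB G 1 1 := by
  refine ⟨fun _ => 1, zero_le_one, fun f _ => ?_⟩
  simp

private lemma hb_pow {G : Type} [Group G] [Fintype G] {n : ℕ} {L : ℝ} (h : HB G n L) (m : ℕ) :
    HB G (n ^ m) (L ^ m) := by
  induction m with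
  | zero => simpa using hb_one G
  | succ m ih => rw [pow_succ, pow_succ]; exact hb_mul ih h

private lemma hb_nsmul {G : Type} [Group G] [Fintype G] {n : ℕ} {L : ℝ} (h : HB G n L) (q : ℕ) :
    HB G (q * n) (q * L) := by
  induction q with
  | zero => simpa using hb_zero G
  | succ q ih =>
    have h2 := hb_add ih h
    have e1 : q * n + n = (q + 1) * n := by ring
    have e2 : (q : ℝ) * L + L = ((q + 1 : ℕ) : ℝ) * L := by push_cast; ring
    rwa [e1, e2] at h2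

theorem job : S_G0 → S_EXP := by
  rintro ⟨k, lam, hk, hlam0, hlam1, H⟩ lam' hlam'
  obtain ⟨m, hm⟩ := exists_pow_lt_of_lt_one (show (0 : ℝ) < lam' / 2 by positivity) hlam1
  refine ⟨⌈2 * (k : ℝ) ^ m / lam'⌉₊, fun J _ hJ N => ?_⟩
  obtain ⟨G, iG, iF, b, hN, hb⟩ := H N
  have hkpos : (0 : ℝ) < k := by exact_mod_cast hk
  have h0 : HB G k (lam * k) := by
    refine ⟨b, by positivity, fun f hf => ?_⟩
    have := hb f hf
    rwa [Fintype.card_fin] at this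
  set n := Fintype.card J with hn
  have h1 : HB G (n / k ^ m * k ^ m + n % k ^ m * 1)
      ((n / k ^ m : ℕ) * (lam * k) ^ m + (n % k ^ m : ℕ) * 1) :=
    hb_add (hb_nsmul (hb_pow h0 m) _) (hb_nsmul (hb_one G) _)
  have e1 : n / k ^ m * k ^ m + n % k ^ m * 1 = n := by
    rw [mul_one]; exact Nat.div_add_mod' n (k ^ m)
  rw [e1] at h1
  obtain ⟨c, hc⟩ := h1
  have hle : ((n / k ^ m : ℕ) : ℝ) * (lam * k) ^ m + (n % k ^ m : ℕ) * 1 ≤ lam' * n := by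
    have b1 : ((n / k ^ m : ℕ) : ℝ) * (k : ℝ) ^ m ≤ n := by
      exact_mod_cast Nat.div_mul_le_self n (k ^ m)
    have b2 : ((n % k ^ m : ℕ) : ℝ) ≤ (k : ℝ) ^ m := by
      exact_mod_cast (Nat.mod_lt n (pow_pos hk m)).le
    have b3 : 2 * (k : ℝ) ^ m / lam' ≤ n := (Nat.le_ceil _).trans (by exact_mod_cast hJ)
    rw [div_le_iff₀ hlam'] at b3
    have b4 : ((n / k ^ m : ℕ) : ℝ) * (lam * k) ^ m ≤ n * (lam' / 2) := by
      calc ((n / k ^ m : ℕ) : ℝ) * (lam * k) ^ m =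
            ((n / k ^ m : ℕ) : ℝ) * (k : ℝ) ^ m * lam ^ m := by rw [mul_pow]; ring
        _ ≤ n * (lam' / 2) := mul_le_mul b1 hm.le (by positivity) (by positivity)
    linarith
  have hc2 : Bd (lam' * n) (fun j => c (Fintype.equivFin J j)) :=
    bd_equiv (Fintype.equivFin J) (bd_mono hc hle)
  have hc3 := bd_adj hc2
  exact ⟨G, iG, iF, fun j => c (Fintype.equivFin J j), hN, fun f hf => ⟨hc2.2 f hf, hc3.2 f hf⟩⟩

end Pool.Agent.Helper835_LTC.J_POWPAD
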