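import Mathlib
import Pool.Agent.Helper835_LTC.Defs

set_option autoImplicit false

open Finset
open scoped Classical

namespace Pool.Agent.Helper835_LTC.J_RATE

open Pool.Agent.Helper835_LTC

/-- the positions of a constraint -/
def pos {G : Type} [Group G] {I : Type} (b : I → G) : (G × Bool × I) ⊕ (G × Bool × I) → I → G × I × I
  | Sum.inl c => fun j => sq b (c.1, false, c.2.1) c.2.2 j
  | Sum.inr c => fun i => sq b (c.1, c.2.1, false) i c.2.2

/-- the constraints -/
noncomputable def Phi {G : Type} [Group G] {I : Type} (b : I → G) (C0 : Submodule F2 (I → F2)) :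
    (G × I × I → F2) →ₗ[F2] ((G × Bool × I) ⊕ (G × Bool × I) → (I → F2) ⧸ C0) :=
  LinearMap.pi (fun c => C0.mkQ ∘ₗ LinearMap.funLeft F2 F2 (pos b c))

theorem ker_le {G : Type} [Group G] {I : Type} (b : I → G) (C0 : Submodule F2 (I → F2)) :
    LinearMap.ker (Phi b C0) ≤ CC b C0 := by
  intro x hx
  have h : ∀ c, (fun j => x (pos b c j)) ∈ C0 := by
    intro c
    have h1 := congrFun (LinearMap.mem_ker.1 hx) c
    have h2 : C0.mkQ (LinearMap.funLeft F2 F2 (pos b c) x) = 0 := h1
    rw [Submodule.mkQ_apply, Submodule.Quotient.mk_eq_zero] at h2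
    exact h2
  show ∀ v, InLoc C0 (view b x v)
  rintro ⟨g, q1, q2⟩
  constructor
  · intro i
    cases q1
    · exact h (Sum.inl (g, q2, i))
    · have h1 := h (Sum.inl ((b i)⁻¹ * g, q2, i))
      have e : (fun j => x (pos b (Sum.inl ((b i)⁻¹ * g, q2, i)) j)) = view b x (g, true, q2) i := by
        funext j
        simp [pos, view, sq]
      rw [← e]
      exact h1
  · intro j
    cases q2
    · exact h (Sum.inr (g, q1, j))
    · have h1 := h (Sum.inr (g * (b j)⁻¹, q1, j))
      have e : (fun i => x (pos b (Sum.inr (g * (b j)⁻¹, q1, j)) i)) =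
          fun i => view b x (g, q1, true) i j := by
        funext i
        simp [pos, view, sq, mul_assoc]
      rw [← e]
      exact h1

theorem job : S_RATE := by
  intro G _ _ I _ b C0 hC
  have h1 := LinearMap.finrank_range_add_finrank_ker (Phi b C0)
  have h2 : Module.finrank F2 (LinearMap.range (Phi b C0)) ≤
      Fintype.card ((G × Bool × I) ⊕ (G × Bool × I)) * Module.finrank F2 ((I → F2) ⧸ C0) := by
    refine (Submodule.finrank_le _).trans (le_of_eq ?_)
    rw [Module.finrank_pi_fintype, sum_const, card_univ, smul_eq_mul]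
  have h3 : Module.finrank F2 ((I → F2) ⧸ C0) + Module.finrank F2 C0 = Fintype.card I := by
    rw [Submodule.finrank_quotient_add_finrank, Module.finrank_fintype_fun_eq_card]
  have h4 : Module.finrank F2 (LinearMap.ker (Phi b C0)) ≤ Module.finrank F2 (CC b C0) :=
    Submodule.finrank_mono (ker_le b C0)
  rw [Module.finrank_fintype_fun_eq_card] at h1
  have hcard : (Fintype.card ((G × Bool × I) ⊕ (G × Bool × I)) : ℝ) =
      4 * (Fintype.card G * Fintype.card I) := by
    rw [Fintype.card_sum, Fintype.card_prod, Fintype.card_prod, Fintype.card_bool]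
    push_cast
    ring
  have hcard2 : (Fintype.card (G × I × I) : ℝ) = Fintype.card G * (Fintype.card I * Fintype.card I) := by
    rw [Fintype.card_prod, Fintype.card_prod]
    push_cast
    ring
  have h1' : (Module.finrank F2 (LinearMap.range (Phi b C0)) : ℝ) +
      Module.finrank F2 (LinearMap.ker (Phi b C0)) = Fintype.card (G × I × I) := by exact_mod_cast h1
  have h2' : (Module.finrank F2 (LinearMap.range (Phi b C0)) : ℝ) ≤
      (Fintype.card ((G × Bool × I) ⊕ (G × Bool × I)) : ℝ) *
        Module.finrank F2 ((I → F2) ⧸ C0) := by exact_mod_cast h2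
  have h3' : (Module.finrank F2 ((I → F2) ⧸ C0) : ℝ) + Module.finrank F2 C0 = Fintype.card I := by
    exact_mod_cast h3
  have h4' : (Module.finrank F2 (LinearMap.ker (Phi b C0)) : ℝ) ≤ Module.finrank F2 (CC b C0) := by
    exact_mod_cast h4
  rw [hcard] at h2'
  rw [hcard2] at h1' ⊢
  set nG : ℝ := (Fintype.card G : ℝ)
  set nI : ℝ := (Fintype.card I : ℝ)
  have hG0 : 0 ≤ nG := Nat.cast_nonneg _
  have hI0 : 0 ≤ nI := Nat.cast_nonneg _
  have h5 : (Module.finrank F2 ((I → F2) ⧸ C0) : ℝ) ≤ nI / 8 := by linarith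
  have h6 : 4 * (nG * nI) * (Module.finrank F2 ((I → F2) ⧸ C0) : ℝ) ≤ 4 * (nG * nI) * (nI / 8) :=
    mul_le_mul_of_nonneg_left h5 (by positivity)
  nlinarith

end Pool.Agent.Helper835_LTC.J_RATE
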