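import Mathlib
import Pool.Agent.Helper835_LTC.Defs2

set_option autoImplicit false

open Finset
open scoped Classical

namespace Pool.Agent.Helper835_LTC.J_SIZE

open Pool.Agent.Helper835_LTC

theorem fib_le {q D : ℕ} {ι E : Type} [Fintype ι] [Fintype E] (Q : E → Fin (q + 1) → ι)
    (hd : ∀ i, (univ.filter fun p : E × Fin (q + 1) => Q p.1 p.2 = i).card ≤ D) (i : ι) :
    (univ.filter fun e : E => Q e 0 = i).card ≤ D := by
  refine le_trans ?_ (hd i)
  refine Finset.card_le_card_of_injOn (fun e => (e, (0 : Fin (q + 1)))) ?_ ?_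
  · intro e he
    simp only [Finset.coe_filter, Finset.mem_univ, true_and, Set.mem_ofPred_eq] at he ⊢
    exact he
  · intro e _ e' _ h
    exact (Prod.mk.inj h).1

theorem card_E {q D : ℕ} {ι E : Type} [Fintype ι] [Fintype E] (Q : E → Fin (q + 1) → ι)
    (hd : ∀ i, (univ.filter fun p : E × Fin (q + 1) => Q p.1 p.2 = i).card ≤ D) :
    Fintype.card E ≤ D * Fintype.card ι := by
  have := Finset.card_le_mul_card_image_of_maps_to (s := (univ : Finset E)) (t := (univ : Finset ι))
    (f := fun e => Q e 0) (fun _ _ => Finset.mem_univ _) D (fun i _ => fib_le Q hd i)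
  simpa [Finset.card_univ] using this

theorem job : S_SIZE := by
  intro q D ρ δ κ ι E _ _ Q h H
  have h1 := card_E Q H.deg
  refine ⟨h1, ?_⟩
  have h2 : Fintype.card (NN ι E q) = 2 * Fintype.card ι + 9 * (q + 1) * Fintype.card E := by
    unfold NN
    rw [Fintype.card_sum, Fintype.card_prod, Fintype.card_prod, Fintype.card_prod,
      Fintype.card_prod, Fintype.card_bool, Fintype.card_fin, Fintype.card_fin]
    ring
  rw [h2]
  calc 2 * Fintype.card ι + 9 * (q + 1) * Fintype.card E
      ≤ 2 * Fintype.card ι + 9 * (q + 1) * (D * Fintype.card ι) :=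
        Nat.add_le_add_left (Nat.mul_le_mul_left _ h1) _
    _ = (2 + 9 * (q + 1) * D) * Fintype.card ι := by ring

end Pool.Agent.Helper835_LTC.J_SIZE
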