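import Mathlib
import Pool.Agent.Helper835_LTC.Defs2

set_option autoImplicit false

open Finset
open scoped Classical

namespace Pool.Agent.Helper835_LTC.J_SND3

open Pool.Agent.Helper835_LTC

/-! ### Indices of the stored bits -/

section Idx
variable {ι E : Type} {q : ℕ}

/-- sums along the chain -/
def ip (t : Fin 3) (e : E) (l : Fin (q + 1)) (s : Fin 3) : ι ⊕ NN ι E q :=
  Sum.inr (Sum.inr (t, e, l, s))

def ia (i : ι) : ι ⊕ NN ι E q := Sum.inl i

def ib (i : ι) : ι ⊕ NN ι E q := Sum.inr (Sum.inl (false, i))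

def ig (i : ι) : ι ⊕ NN ι E q := Sum.inr (Sum.inl (true, i))

/-- the mask of the chain `(t, e)` -/
def ir (Q : E → Fin (q + 1) → ι) (t : Fin 3) (e : E) : ι ⊕ NN ι E q :=
  if t = 2 then ib (Q e 0) else ig (Q e 0)

/-- masked coordinate `i` of the codeword number `t` -/
def it (t : Fin 3) (i : ι) : ι ⊕ NN ι E q := if t = 0 then ia i else if t = 1 then ib i else ig i

/-- the index used in the first unmasking step -/
def ij (φ : ι → ι) (ω : VV ι → ι) (t : Fin 3) (i : ι) : ι ⊕ NN ι E q :=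
  if t = 0 then ib (φ i) else if t = 1 then ia (ω (false, i)) else ia (ω (true, i))

/-- the chain relations: `x a = x b + γ * x c` -/
inductive Rel (Q : E → Fin (q + 1) → ι) (h : E → Fin (q + 1) → F2) (φ : ι → ι) (ω : VV ι → ι)
    (t : Fin 3) (e : E) : (ι ⊕ NN ι E q) → (ι ⊕ NN ι E q) → (ι ⊕ NN ι E q) → F2 → Prop
  | start : Rel Q h φ ω t e (ip t e 0 0) (ir Q t e) (it t (Q e 0)) (h e 0)
  | next (l l' : Fin (q + 1)) (hl : (l' : ℕ) = (l : ℕ) + 1) :
      Rel Q h φ ω t e (ip t e l' 0) (ip t e l 2) (it t (Q e l')) (h e l')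
  | s1 (l : Fin (q + 1)) : Rel Q h φ ω t e (ip t e l 1) (ip t e l 0) (ij φ ω t (Q e l)) (h e l)
  | s2 (l : Fin (q + 1)) : Rel Q h φ ω t e (ip t e l 2) (ip t e l 1) (ia (ω (false, φ (Q e l))))
      (if t = 0 then h e l else 0)
  | fin : Rel Q h φ ω t e (ip t e (Fin.last q) 2) (ir Q t e) (ir Q t e) 0

/-- the chain `(t, e)` is satisfied by `x` -/
def OK (Q : E → Fin (q + 1) → ι) (h : E → Fin (q + 1) → F2) (φ : ι → ι) (ω : VV ι → ι)
    (x : (ι ⊕ NN ι E q) → F2) (t : Fin 3) (e : E) : Prop :=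
  ∀ a b c γ, Rel Q h φ ω t e a b c γ → x a = x b + γ * x c

theorem t3 : ∀ t : Fin 3, t = 0 ∨ t = 1 ∨ t = 2 := by decide

theorem f2 : ∀ a : F2, a = 0 ∨ a = 1 := by decide

theorem f2add (a : F2) : a + a = 0 := CharTwo.add_self_eq_zero a

theorem ir_ne (Q : E → Fin (q + 1) → ι) (t : Fin 3) (e : E) (t' : Fin 3) (e' : E)
    (l : Fin (q + 1)) (s : Fin 3) : ir Q t e ≠ ip t' e' l s := by
  unfold ir ip ib ig
  split_ifs <;> simp

theorem it_ne (t : Fin 3) (i : ι) (t' : Fin 3) (e' : E) (l : Fin (q + 1)) (s : Fin 3) :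
    (it t i : ι ⊕ NN ι E q) ≠ ip t' e' l s := by
  unfold it ip ia ib ig
  split_ifs <;> simp

theorem ij_ne (φ : ι → ι) (ω : VV ι → ι) (t : Fin 3) (i : ι) (t' : Fin 3) (e' : E)
    (l : Fin (q + 1)) (s : Fin 3) : (ij φ ω t i : ι ⊕ NN ι E q) ≠ ip t' e' l s := by
  unfold ij ip ia ib
  split_ifs <;> simp

theorem ia_ne (i : ι) (t' : Fin 3) (e' : E) (l : Fin (q + 1)) (s : Fin 3) :
    (ia i : ι ⊕ NN ι E q) ≠ ip t' e' l s := by
  unfold ip ia
  simp

theorem ip_inj {t t' : Fin 3} {e e' : E} {l l' : Fin (q + 1)} {s s' : Fin 3}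
    (h : (ip t e l s : ι ⊕ NN ι E q) = ip t' e' l' s') : t = t' ∧ e = e' ∧ l = l' ∧ s = s' := by
  unfold ip at h
  simpa using h

variable {Q : E → Fin (q + 1) → ι} {h : E → Fin (q + 1) → F2} {φ : ι → ι} {ω : VV ι → ι}

/-- combinatorial shape of the relations -/
theorem rel_shape {t : Fin 3} {e : E} {a b c : ι ⊕ NN ι E q} {γ : F2}
    (hr : Rel Q h φ ω t e a b c γ) :
    (∃ l s, a = ip t e l s) ∧ a ≠ b ∧ a ≠ c ∧
      (∀ t' e' l s, b = ip t' e' l s → t' = t ∧ e' = e) ∧ (∀ t' e' l s, c ≠ ip t' e' l s) := by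
  cases hr with
  | start =>
    exact ⟨⟨_, _, rfl⟩, (ir_ne _ _ _ _ _ _ _).symm, (it_ne _ _ _ _ _ _).symm,
      fun _ _ _ _ hb => absurd hb (ir_ne _ _ _ _ _ _ _), fun _ _ _ _ => it_ne _ _ _ _ _ _⟩
  | next l l' hl =>
    refine ⟨⟨_, _, rfl⟩, ?_, (it_ne _ _ _ _ _ _).symm, ?_, fun _ _ _ _ => it_ne _ _ _ _ _ _⟩
    · intro hc
      have := (ip_inj hc).2.2.1
      rw [this] at hl
      omega
    · intro t' e' l s hb
      obtain ⟨h1, h2, _, _⟩ := ip_inj hb
      exact ⟨h1.symm, h2.symm⟩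
  | s1 l =>
    refine ⟨⟨_, _, rfl⟩, ?_, (ij_ne _ _ _ _ _ _ _ _).symm, ?_, fun _ _ _ _ => ij_ne _ _ _ _ _ _ _ _⟩
    · intro hc
      exact absurd (ip_inj hc).2.2.2 (by decide)
    · intro t' e' l s hb
      obtain ⟨h1, h2, _, _⟩ := ip_inj hb
      exact ⟨h1.symm, h2.symm⟩
  | s2 l =>
    refine ⟨⟨_, _, rfl⟩, ?_, (ia_ne _ _ _ _ _).symm, ?_, fun _ _ _ _ => ia_ne _ _ _ _ _⟩
    · intro hc
      exact absurd (ip_inj hc).2.2.2 (by decide)
    · intro t' e' l s hb
      obtain ⟨h1, h2, _, _⟩ := ip_inj hb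
      exact ⟨h1.symm, h2.symm⟩
  | fin =>
    exact ⟨⟨_, _, rfl⟩, (ir_ne _ _ _ _ _ _ _).symm, (ir_ne _ _ _ _ _ _ _).symm,
      fun _ _ _ _ hb => absurd hb (ir_ne _ _ _ _ _ _ _), fun _ _ _ _ => ir_ne _ _ _ _ _ _ _⟩

end Idx

/-! ### The functionals satisfy the relations -/

section Fun
variable {ι E : Type} [Fintype ι] {q : ℕ} (Q : E → Fin (q + 1) → ι)
  (h : E → Fin (q + 1) → F2) (φ : ι → ι) (ω : VV ι → ι) (C : Submodule F2 (ι → F2))

theorem FF_ia (i : ι) : FF C Q h φ ω (ia i) = fa C φ i := rfl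

theorem FF_ib (i : ι) : FF C Q h φ ω (ib i) = fy C i + fa C φ (ω (false, i)) := by
  show fb C Q h φ (Sum.inl (false, i)) + ∑ k ∈ kf Q h φ (Sum.inl (false, i)), fa C φ (ω k) = _
  simp [fb, kf]

theorem FF_ig (i : ι) : FF C Q h φ ω (ig i) = fz C i + fa C φ (ω (true, i)) := by
  show fb C Q h φ (Sum.inl (true, i)) + ∑ k ∈ kf Q h φ (Sum.inl (true, i)), fa C φ (ω k) = _
  simp [fb, kf]

/-- the last contribution to a sum along the chain -/
noncomputable def Gs (t s : Fin 3) (i : ι) : Module.Dual F2 (Msg C) :=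
  if t = 0 then (if s = 0 then fa C φ i else if s = 1 then fx C i + fa C φ (ω (false, φ i))
    else fx C i)
  else if t = 1 then (if s = 0 then fy C i + fa C φ (ω (false, i)) else fy C i)
  else (if s = 0 then fz C i + fa C φ (ω (true, i)) else fz C i)

/-- the sum of the earlier contributions -/
noncomputable def Ss (t : Fin 3) (e : E) (l : Fin (q + 1)) : Module.Dual F2 (Msg C) :=
  ∑ l' ∈ univ.filter (fun l' => l' < l), h e l' • fw C t (Q e l')

theorem FF_ip (t : Fin 3) (e : E) (l : Fin (q + 1)) (s : Fin 3) :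
    FF C Q h φ ω (ip t e l s) =
      FF C Q h φ ω (ir Q t e) + Ss Q h C t e l + h e l • Gs φ ω C t s (Q e l) := by
  show fb C Q h φ (Sum.inr (t, e, l, s)) +
    ∑ k ∈ kf Q h φ (Sum.inr (t, e, l, s)), fa C φ (ω k) = _
  unfold Ss
  rcases t3 t with rfl | rfl | rfl
  · rw [ir, if_neg (by decide), FF_ig]
    rcases f2 (h e l) with h0 | h1
    · simp [fb, kf, h0]
      abel
    · rcases t3 s with rfl | rfl | rfl
      · simp [fb, kf, h1, Gs]
        abel
      · simp [fb, kf, h1, Gs, kv, fw]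
        abel
      · simp [fb, kf, h1, Gs, fw]
        abel
  · rw [ir, if_neg (by decide), FF_ig]
    rcases f2 (h e l) with h0 | h1
    · simp [fb, kf, h0]
      abel
    · rcases t3 s with rfl | rfl | rfl
      · simp [fb, kf, h1, Gs, kv, fw]
        abel
      · simp [fb, kf, h1, Gs, kv, fw]
        abel
      · simp [fb, kf, h1, Gs, fw]
        abel
  · rw [ir, if_pos rfl, FF_ib]
    rcases f2 (h e l) with h0 | h1
    · simp [fb, kf, h0]
      abel
    · rcases t3 s with rfl | rfl | rfl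
      · simp [fb, kf, h1, Gs, kv, fw]
        abel
      · simp [fb, kf, h1, Gs, kv, fw]
        abel
      · simp [fb, kf, h1, Gs, fw]
        abel


omit [Fintype ι] in
theorem dadd (v : Module.Dual F2 (Msg C)) : v + v = 0 := by
  refine LinearMap.ext fun m => ?_
  rw [LinearMap.add_apply, f2add]
  rfl

theorem Gs_zero (t : Fin 3) (i : ι) :
    Gs φ ω C t 0 i = FF C Q h φ ω (it t i) := by
  rcases t3 t with rfl | rfl | rfl
  · rw [it, if_pos rfl, FF_ia]
    simp [Gs]
  · rw [it, if_neg (by decide), if_pos rfl, FF_ib]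
    simp [Gs]
  · rw [it, if_neg (by decide), if_neg (by decide), FF_ig]
    simp [Gs]

theorem Gs_one (t : Fin 3) (i : ι) :
    Gs φ ω C t 1 i = Gs φ ω C t 0 i + FF C Q h φ ω (ij φ ω t i) := by
  rcases t3 t with rfl | rfl | rfl
  · rw [ij, if_pos rfl, FF_ib]
    simp only [Gs, if_true, one_ne_zero, if_false]
    unfold fa
    have := dadd C (fy C (φ i))
    calc fx C i + (fx C (ω (false, φ i)) + fy C (φ (ω (false, φ i))))
        = fx C i + (fx C (ω (false, φ i)) + fy C (φ (ω (false, φ i)))) + 0 := by abel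
      _ = _ := by rw [← this]; abel
  · rw [ij, if_neg (by decide), if_pos rfl, FF_ia]
    simp only [Gs, one_ne_zero, if_false, if_true]
    have := dadd C (fa C φ (ω (false, i)))
    rw [add_assoc, this, add_zero]
  · rw [ij, if_neg (by decide), if_neg (by decide), FF_ia]
    simp only [Gs, if_true]
    have := dadd C (fa C φ (ω (true, i)))
    simp [add_assoc, this]

theorem Gs_two (t : Fin 3) (i : ι) :
    Gs φ ω C t 2 i = Gs φ ω C t 1 i +
      (if t = 0 then (1 : F2) else 0) • FF C Q h φ ω (ia (ω (false, φ i))) := by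
  rcases t3 t with rfl | rfl | rfl
  · rw [FF_ia]
    have := dadd C (fa C φ (ω (false, φ i)))
    simp [Gs, add_assoc, this]
  · simp [Gs]
  · simp [Gs]

omit [Fintype ι] in
theorem Gs_two' (t : Fin 3) (i : ι) : Gs φ ω C t 2 i = fw C t i := by
  rcases t3 t with rfl | rfl | rfl <;> simp [Gs, fw]

omit [Fintype ι] in
theorem Ss_zero (t : Fin 3) (e : E) : Ss Q h C t e 0 = 0 := by
  unfold Ss
  rw [Finset.filter_false_of_mem (by intro l _; exact not_lt.2 (Fin.zero_le l)), Finset.sum_empty]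

omit [Fintype ι] in
theorem Ss_succ (t : Fin 3) (e : E) (l l' : Fin (q + 1)) (hl : (l' : ℕ) = (l : ℕ) + 1) :
    Ss Q h C t e l' = Ss Q h C t e l + h e l • fw C t (Q e l) := by
  unfold Ss
  have : univ.filter (fun k : Fin (q + 1) => k < l') = insert l (univ.filter (fun k => k < l)) := by
    ext k
    simp only [mem_filter, mem_univ, true_and, mem_insert, Fin.lt_def, Fin.ext_iff]
    omega
  rw [this, Finset.sum_insert (by simp), add_comm]

omit [Fintype ι] in
theorem fw_apply (t : Fin 3) (i : ι) (m : Msg C) :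
    fw C t i m = if t = 0 then m.1.1 i else if t = 1 then m.2.1.1 i else m.2.2.1 i := by
  rcases t3 t with rfl | rfl | rfl <;> simp [fw, fx_apply, fy_apply, fz_apply]

end Fun

section Rl
variable {ι E : Type} [Fintype ι] {q : ℕ} (Q : E → Fin (q + 1) → ι)
  (h : E → Fin (q + 1) → F2) (φ : ι → ι) (ω : VV ι → ι)

omit [Fintype ι] in
theorem sum_lt_last {M : Type} [AddCommMonoid M] {q : ℕ} (f : Fin (q + 1) → M) :
    ∑ l ∈ univ.filter (fun k => k < Fin.last q), f l + f (Fin.last q) = ∑ l, f l := by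
  have : (univ : Finset (Fin (q + 1))) =
      insert (Fin.last q) (univ.filter (fun k => k < Fin.last q)) := by
    ext k
    simp only [mem_filter, mem_univ, true_and, mem_insert, true_iff]
    exact (Fin.le_last k).eq_or_lt
  calc _ = ∑ l ∈ insert (Fin.last q) (univ.filter (fun k => k < Fin.last q)), f l := by
        rw [Finset.sum_insert (by simp), add_comm]
    _ = _ := by rw [← this]

omit [Fintype ι] in
theorem Ss_last (t : Fin 3) (e : E) :
    Ss Q h (codeOf Q h) t e (Fin.last q) +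
      h e (Fin.last q) • fw (codeOf Q h) t (Q e (Fin.last q)) = 0 := by
  have h1 : Ss Q h (codeOf Q h) t e (Fin.last q) +
      h e (Fin.last q) • fw (codeOf Q h) t (Q e (Fin.last q)) =
      ∑ l, h e l • fw (codeOf Q h) t (Q e l) :=
    sum_lt_last (fun l => h e l • fw (codeOf Q h) t (Q e l))
  rw [h1]
  refine LinearMap.ext fun m => ?_
  rw [LinearMap.sum_apply]
  simp only [LinearMap.smul_apply, fw_apply, smul_eq_mul, LinearMap.zero_apply]
  rcases t3 t with rfl | rfl | rfl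
  · simpa using m.1.2 e
  · simpa using m.2.1.2 e
  · simpa using m.2.2.2 e

variable {Q h φ ω}

theorem rel_FF {t : Fin 3} {e : E} {a b c : ι ⊕ NN ι E q} {γ : F2}
    (hr : Rel Q h φ ω t e a b c γ) :
    FF (codeOf Q h) Q h φ ω a = FF (codeOf Q h) Q h φ ω b + γ • FF (codeOf Q h) Q h φ ω c := by
  cases hr with
  | start => rw [FF_ip, Ss_zero, add_zero, Gs_zero]
  | next l l' hl =>
    rw [FF_ip, FF_ip, Ss_succ Q h _ t e l l' hl, Gs_zero, Gs_two']
    abel
  | s1 l =>
    rw [FF_ip, FF_ip, Gs_one, smul_add]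
    abel
  | s2 l =>
    rw [FF_ip, FF_ip, Gs_two, smul_add]
    split_ifs
    · rw [one_smul]
      abel
    · simp
  | fin =>
    rw [FF_ip, Gs_two', add_assoc, Ss_last]
    simp

/-- codewords satisfy all chain relations -/
theorem enc_OK (m : Msg (codeOf Q h)) (t : Fin 3) (e : E) :
    OK Q h φ ω (enc (FF (codeOf Q h) Q h φ ω) m) t e := by
  intro a b c γ hr
  show FF (codeOf Q h) Q h φ ω a m = FF (codeOf Q h) Q h φ ω b m +
    γ * FF (codeOf Q h) Q h φ ω c m
  rw [rel_FF hr]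
  simp

end Rl

/-! ### Violated chains give violated dual words -/

section Tw
variable {V : Type}

/-- the test word of a relation -/
noncomputable def tw (a b c : V) (γ : F2) : V → F2 :=
  Pi.single a 1 + Pi.single b 1 + Pi.single c γ

theorem tw_sum [Fintype V] (a b c : V) (γ : F2) (x : V → F2) :
    ∑ v, tw a b c γ v * x v = x a + x b + γ * x c := by
  simp [tw, add_mul, Finset.sum_add_distrib, Pi.single_apply]

theorem tw_a {a b c : V} {γ : F2} (h1 : a ≠ b) (h2 : a ≠ c) : tw a b c γ a = 1 := by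
  simp [tw, Pi.single_apply, h1, h2]

theorem tw_supp {a b c v : V} {γ : F2} (h : tw a b c γ v ≠ 0) : v = a ∨ v = b ∨ v = c := by
  by_contra hc
  push Not at hc
  exact h (by simp [tw, Pi.single_apply, hc.1, hc.2.1, hc.2.2])

theorem mem_D3 [Fintype V] (C : Submodule F2 (V → F2)) (u : V → F2) :
    u ∈ D3 C ↔ (∀ c ∈ C, ∑ i, u i * c i = 0) ∧ 0 < hammingNorm u ∧ hammingNorm u ≤ 3 := by
  unfold D3
  simp

end Tw

section Viol
variable {ι E : Type} [Fintype ι] [Fintype E] {q : ℕ} {Q : E → Fin (q + 1) → ι}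
  {h : E → Fin (q + 1) → F2} {φ : ι → ι} {ω : VV ι → ι}

theorem viol_word (w : (ι ⊕ NN ι E q) → F2) (t : Fin 3) (e : E) (hv : ¬ OK Q h φ ω w t e) :
    ∃ u : (ι ⊕ NN ι E q) → F2,
      u ∈ (D3 (fin3 (codeOf Q h) Q h φ ω)).filter (fun u => ∑ v, u v * w v ≠ 0) ∧
      (∃ l s, u (ip t e l s) ≠ 0) ∧ ∀ t' e' l s, u (ip t' e' l s) ≠ 0 → t' = t ∧ e' = e := by
  unfold OK at hv
  push Not at hv
  obtain ⟨a, b, c, γ, hr, hne⟩ := hv
  obtain ⟨⟨l, s, ha⟩, hab, hac, hb, hc⟩ := rel_shape hr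
  refine ⟨tw a b c γ, ?_, ⟨l, s, ?_⟩, ?_⟩
  · rw [mem_filter]
    refine ⟨?_, ?_⟩
    · rw [mem_D3]
      refine ⟨?_, ?_, ?_⟩
      · rintro x ⟨m, rfl⟩
        rw [tw_sum, enc_OK m t e a b c γ hr]
        have := f2add (enc (FF (codeOf Q h) Q h φ ω) m b + γ * enc (FF (codeOf Q h) Q h φ ω) m c)
        rw [add_assoc, this]
      · rw [hammingNorm_pos_iff]
        intro h0
        have := tw_a (γ := γ) hab hac
        rw [h0] at this
        exact zero_ne_one this
      · calc hammingNorm (tw a b c γ) ≤ ({a, b, c} : Finset (ι ⊕ NN ι E q)).card := by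
              unfold hammingNorm
              apply Finset.card_le_card
              intro v hv
              rw [mem_filter] at hv
              simpa using tw_supp hv.2
          _ ≤ 3 := Finset.card_le_three
    · rw [tw_sum]
      intro h0
      apply hne
      have := f2add (w b + γ * w c)
      calc w a = w a + ((w b + γ * w c) + (w b + γ * w c)) := by rw [this, add_zero]
        _ = (w a + w b + γ * w c) + (w b + γ * w c) := by ring
        _ = _ := by rw [h0, zero_add]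
  · rw [← ha, tw_a hab hac]
    exact one_ne_zero
  · intro t' e' l' s' h0
    rcases tw_supp h0 with h1 | h1 | h1
    · rw [ha] at h1
      obtain ⟨h2, h3, _⟩ := ip_inj h1
      exact ⟨h2, h3⟩
    · exact hb t' e' l' s' h1.symm
    · exact absurd h1.symm (hc _ _ _ _)

/-- the violated chains -/
noncomputable def Vi (Q : E → Fin (q + 1) → ι) (h : E → Fin (q + 1) → F2) (φ : ι → ι)
    (ω : VV ι → ι) (w : (ι ⊕ NN ι E q) → F2) : Finset (Fin 3 × E) :=
  univ.filter fun p => ¬ OK Q h φ ω w p.1 p.2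

theorem card_Vi (w : (ι ⊕ NN ι E q) → F2) : (Vi Q h φ ω w).card ≤
    ((D3 (fin3 (codeOf Q h) Q h φ ω)).filter (fun u => ∑ v, u v * w v ≠ 0)).card := by
  have hex : ∀ p ∈ Vi Q h φ ω w, ∃ u : (ι ⊕ NN ι E q) → F2,
      u ∈ (D3 (fin3 (codeOf Q h) Q h φ ω)).filter (fun u => ∑ v, u v * w v ≠ 0) ∧
      (∃ l s, u (ip p.1 p.2 l s) ≠ 0) ∧
      ∀ t' e' l s, u (ip t' e' l s) ≠ 0 → t' = p.1 ∧ e' = p.2 := by
    intro p hp
    exact viol_word w p.1 p.2 (mem_filter.1 hp).2
  choose! f hf using hex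
  apply Finset.card_le_card_of_injOn f
  · intro p hp
    exact (hf p hp).1
  · intro p hp p' hp' he
    obtain ⟨l, s, h1⟩ := (hf p hp).2.1
    rw [he] at h1
    obtain ⟨h2, h3⟩ := (hf p' hp').2.2 _ _ _ _ h1
    exact Prod.ext h2 h3

end Viol

/-! ### Decoding -/

section Dec
variable {ι E : Type} {q : ℕ} {Q : E → Fin (q + 1) → ι}
  {h : E → Fin (q + 1) → F2} {φ : ι → ι} {ω : VV ι → ι}

/-- the decoded word number `t` -/
def vd (φ : ι → ι) (ω : VV ι → ι) (w : (ι ⊕ NN ι E q) → F2) (t : Fin 3) (i : ι) : F2 :=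
  w (it t i) + w (ij φ ω t i) + (if t = 0 then 1 else 0) * w (ia (ω (false, φ i)))

theorem OK_step {w : (ι ⊕ NN ι E q) → F2} {t : Fin 3} {e : E} (ho : OK Q h φ ω w t e)
    (l : Fin (q + 1)) (r : F2) (hr : w (ip t e l 0) = r + h e l * w (it t (Q e l))) :
    w (ip t e l 2) = r + h e l * vd φ ω w t (Q e l) := by
  have h1 := ho _ _ _ _ (Rel.s1 l)
  have h2 := ho _ _ _ _ (Rel.s2 l)
  rw [h2, h1, hr]
  unfold vd
  split_ifs <;> ring

theorem OK_chain {w : (ι ⊕ NN ι E q) → F2} {t : Fin 3} {e : E} (ho : OK Q h φ ω w t e) :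
    ∀ (n : ℕ) (hn : n < q + 1), w (ip t e ⟨n, hn⟩ 2) = w (ir Q t e) +
      ∑ l' ∈ univ.filter (fun l' : Fin (q + 1) => l' < ⟨n, hn⟩), h e l' * vd φ ω w t (Q e l') +
      h e ⟨n, hn⟩ * vd φ ω w t (Q e ⟨n, hn⟩) := by
  intro n
  induction n with
  | zero =>
    intro hn
    have h0 := ho _ _ _ _ Rel.start
    rw [Finset.filter_false_of_mem (by intro l _; exact not_lt.2 (Fin.zero_le l)),
      Finset.sum_empty, add_zero]
    exact OK_step ho _ _ h0
  | succ n ih =>
    intro hn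
    have h0 := ho _ _ _ _ (Rel.next (⟨n, by omega⟩ : Fin (q + 1)) ⟨n + 1, hn⟩ rfl)
    have h1 := OK_step ho _ _ h0
    rw [h1, ih (by omega)]
    have : univ.filter (fun k : Fin (q + 1) => k < ⟨n + 1, hn⟩) =
        insert ⟨n, by omega⟩ (univ.filter (fun k : Fin (q + 1) => k < ⟨n, by omega⟩)) := by
      ext k
      simp only [mem_filter, mem_univ, true_and, mem_insert, Fin.lt_def, Fin.ext_iff]
      omega
    rw [this, Finset.sum_insert (by simp)]
    ring

theorem OK_sum {w : (ι ⊕ NN ι E q) → F2} {t : Fin 3} {e : E} (ho : OK Q h φ ω w t e) :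
    ∑ l, h e l * vd φ ω w t (Q e l) = 0 := by
  have h1 := OK_chain ho q (Nat.lt_succ_self q)
  have h2 := ho _ _ _ _ Rel.fin
  rw [← sum_lt_last]
  have h3 : w (ip t e ⟨q, Nat.lt_succ_self q⟩ 2) = w (ip t e (Fin.last q) 2) := rfl
  rw [h3, h2, zero_mul, add_zero, add_assoc] at h1
  exact (left_eq_add.1 h1)

theorem OK_agree {w c : (ι ⊕ NN ι E q) → F2} {t : Fin 3} {e : E} (ho : OK Q h φ ω w t e)
    (hc : OK Q h φ ω c t e) (h1 : w (ir Q t e) = c (ir Q t e))
    (h2 : ∀ l, w (it t (Q e l)) = c (it t (Q e l)))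
    (h3 : ∀ l, w (ij φ ω t (Q e l)) = c (ij φ ω t (Q e l)))
    (h4 : ∀ l, w (ia (ω (false, φ (Q e l)))) = c (ia (ω (false, φ (Q e l))))) (l : Fin (q + 1))
    (s : Fin 3) : w (ip t e l s) = c (ip t e l s) := by
  have step : ∀ l : Fin (q + 1), w (ip t e l 0) = c (ip t e l 0) →
      w (ip t e l 1) = c (ip t e l 1) ∧ w (ip t e l 2) = c (ip t e l 2) := by
    intro l h0
    have e1 : w (ip t e l 1) = c (ip t e l 1) := by
      rw [ho _ _ _ _ (Rel.s1 l), hc _ _ _ _ (Rel.s1 l), h0, h3]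
    refine ⟨e1, ?_⟩
    rw [ho _ _ _ _ (Rel.s2 l), hc _ _ _ _ (Rel.s2 l), e1, h4]
  have main : ∀ (n : ℕ) (hn : n < q + 1), w (ip t e ⟨n, hn⟩ 0) = c (ip t e ⟨n, hn⟩ 0) := by
    intro n
    induction n with
    | zero =>
      intro hn
      have a1 := ho _ _ _ _ Rel.start
      have a2 := hc _ _ _ _ Rel.start
      show w (ip t e 0 0) = c (ip t e 0 0)
      rw [a1, a2, h1, h2]
    | succ n ih =>
      intro hn
      have a1 := ho _ _ _ _ (Rel.next (⟨n, by omega⟩ : Fin (q + 1)) ⟨n + 1, hn⟩ rfl)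
      have a2 := hc _ _ _ _ (Rel.next (⟨n, by omega⟩ : Fin (q + 1)) ⟨n + 1, hn⟩ rfl)
      rw [a1, a2, (step _ (ih (by omega))).2, h2]
  have h0 := main l.1 l.2
  rcases t3 s with rfl | rfl | rfl
  · exact h0
  · exact (step l h0).1
  · exact (step l h0).2

end Dec

/-! ### Counting -/

theorem fib {α β : Type} [Fintype α] (f : α → β) (k : ℕ)
    (hf : ∀ b, (univ.filter fun a => f a = b).card ≤ k) (S : Finset β) :
    (univ.filter fun a => f a ∈ S).card ≤ k * S.card := by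
  refine Finset.card_le_mul_card_image_of_maps_to (f := f) ?_ k ?_
  · intro a ha
    exact (mem_filter.1 ha).2
  · intro b _
    exact (Finset.card_le_card (Finset.filter_subset_filter _ (Finset.filter_subset _ _))).trans
      (hf b)

theorem fib2 {α β : Type} (f : α → β) (k : ℕ)
    (hf : ∀ b, ∀ s : Finset α, (∀ a ∈ s, f a = b) → s.card ≤ k) (S : Finset β) (P : Finset α)
    (hP : ∀ a ∈ P, f a ∈ S) : P.card ≤ k * S.card :=
  Finset.card_le_mul_card_image_of_maps_to hP k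
    (fun b _ => hf b _ (fun _ ha => (mem_filter.1 ha).2))

section Cnt
variable {ι E : Type} [Fintype ι] [Fintype E] {q : ℕ} {Q : E → Fin (q + 1) → ι}
  {h : E → Fin (q + 1) → F2} {φ : ι → ι} {ω : VV ι → ι}

/-- soundness for the decoded word number `t` -/
theorem decode {D : ℕ} {ρ δ κ : ℝ} (hL : IsLTC (q + 1) D ρ δ κ Q h)
    (w : (ι ⊕ NN ι E q) → F2) (t : Fin 3) : ∃ x ∈ codeOf Q h,
      κ * ((univ.filter fun i => vd φ ω w t i ≠ x i).card : ℝ) ≤ ((Vi Q h φ ω w).card : ℝ) := by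
  obtain ⟨x, hx, hs⟩ := hL.sound (vd φ ω w t)
  refine ⟨x, hx, ?_⟩
  have h1 : (univ.filter fun e => ∑ l, h e l * vd φ ω w t (Q e l) ≠ 0).card ≤
      (Vi Q h φ ω w).card := by
    apply Finset.card_le_card_of_injOn (fun e => (t, e))
    · intro e he
      have he2 := (mem_filter.1 he).2
      show _ ∈ Vi Q h φ ω w
      unfold Vi
      rw [mem_filter]
      exact ⟨mem_univ _, fun ho => he2 (OK_sum ho)⟩
    · intro e _ e' _ hee
      exact (Prod.ext_iff.1 hee).2
  have h2 : ((univ.filter fun e => ∑ l, h e l * vd φ ω w t (Q e l) ≠ 0).card : ℝ) ≤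
      ((Vi Q h φ ω w).card : ℝ) := by exact_mod_cast h1
  exact hs.trans h2

/-- indices of type `a` which are wrong -/
noncomputable def SA (w c : (ι ⊕ NN ι E q) → F2) : Finset ι :=
  univ.filter fun i => w (ia i) ≠ c (ia i)

noncomputable def SB (w c : (ι ⊕ NN ι E q) → F2) : Finset ι :=
  univ.filter fun i => w (ib i) ≠ c (ib i)

noncomputable def SG (w c : (ι ⊕ NN ι E q) → F2) : Finset ι :=
  univ.filter fun i => w (ig i) ≠ c (ig i)

omit [Fintype E] in
theorem enc_ia (m : Msg (codeOf Q h)) (i : ι) :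
    enc (FF (codeOf Q h) Q h φ ω) m (ia i) = m.1.1 i + m.2.1.1 (φ i) := by
  show FF (codeOf Q h) Q h φ ω (ia i) m = _
  rw [FF_ia]
  rfl

omit [Fintype E] in
theorem enc_ib (m : Msg (codeOf Q h)) (i : ι) :
    enc (FF (codeOf Q h) Q h φ ω) m (ib i) =
      m.2.1.1 i + enc (FF (codeOf Q h) Q h φ ω) m (ia (ω (false, i))) := by
  show FF (codeOf Q h) Q h φ ω (ib i) m = _ + FF (codeOf Q h) Q h φ ω (ia _) m
  rw [FF_ib, FF_ia]
  rfl

omit [Fintype E] in
theorem enc_ig (m : Msg (codeOf Q h)) (i : ι) :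
    enc (FF (codeOf Q h) Q h φ ω) m (ig i) =
      m.2.2.1 i + enc (FF (codeOf Q h) Q h φ ω) m (ia (ω (true, i))) := by
  show FF (codeOf Q h) Q h φ ω (ig i) m = _ + FF (codeOf Q h) Q h φ ω (ia _) m
  rw [FF_ig, FF_ia]
  rfl

omit [Fintype ι] [Fintype E] in
theorem vd0 (w : (ι ⊕ NN ι E q) → F2) (i : ι) :
    vd φ ω w 0 i = w (ia i) + w (ib (φ i)) + w (ia (ω (false, φ i))) := by
  simp [vd, it, ij]

omit [Fintype ι] [Fintype E] in
theorem vd1 (w : (ι ⊕ NN ι E q) → F2) (i : ι) :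
    vd φ ω w 1 i = w (ib i) + w (ia (ω (false, i))) := by
  simp [vd, it, ij]

omit [Fintype ι] [Fintype E] in
theorem vd2 (w : (ι ⊕ NN ι E q) → F2) (i : ι) :
    vd φ ω w 2 i = w (ig i) + w (ia (ω (true, i))) := by
  simp [vd, it, ij]

omit [Fintype E] in
theorem card_SA (w : (ι ⊕ NN ι E q) → F2) (m : Msg (codeOf Q h)) (m1 : ℕ)
    (hφ : ∀ j, (univ.filter fun i => φ i = j).card ≤ m1) :
    (SA w (enc (FF (codeOf Q h) Q h φ ω) m)).card ≤
      (univ.filter fun i => vd φ ω w 0 i ≠ m.1.1 i).card +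
        m1 * (univ.filter fun i => vd φ ω w 1 i ≠ m.2.1.1 i).card := by
  refine le_trans (Finset.card_le_card (?_ : _ ⊆ (univ.filter fun i => vd φ ω w 0 i ≠ m.1.1 i) ∪
    (univ.filter fun i => φ i ∈ (univ.filter fun i => vd φ ω w 1 i ≠ m.2.1.1 i)))) ?_
  · intro i hi
    unfold SA at hi
    rw [mem_filter, enc_ia] at hi
    by_contra hc
    rw [mem_union, not_or, mem_filter, mem_filter, mem_filter] at hc
    push Not at hc
    have e0 := hc.1 (mem_univ _)
    have e1 := hc.2 (mem_univ _) (mem_univ _)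
    apply hi.2
    rw [← e0, ← e1, vd0, vd1]
    have := f2add (w (ib (φ i)) + w (ia (ω (false, φ i))))
    calc w (ia i) = w (ia i) + ((w (ib (φ i)) + w (ia (ω (false, φ i)))) +
          (w (ib (φ i)) + w (ia (ω (false, φ i))))) := by rw [this, add_zero]
      _ = _ := by ring
  · exact (Finset.card_union_le _ _).trans (Nat.add_le_add_left (fib φ m1 hφ _) _)

theorem om_fib {m2 : ℕ} (hω : ∀ j, (univ.filter fun k => ω k = j).card ≤ m2) (s : Bool) (j : ι) :
    (univ.filter fun i => ω (s, i) = j).card ≤ m2 := by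
  refine le_trans ?_ (hω j)
  apply Finset.card_le_card_of_injOn (fun i => (s, i))
  · intro i hi
    have := (mem_filter.1 hi).2
    show _ ∈ univ.filter fun k => ω k = j
    rw [mem_filter]
    exact ⟨mem_univ _, this⟩
  · intro i _ i' _ hii
    exact (Prod.ext_iff.1 hii).2

omit [Fintype E] in
theorem card_SB (w : (ι ⊕ NN ι E q) → F2) (m : Msg (codeOf Q h)) (m2 : ℕ)
    (hω : ∀ j, (univ.filter fun k => ω k = j).card ≤ m2) :
    (SB w (enc (FF (codeOf Q h) Q h φ ω) m)).card ≤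
      (univ.filter fun i => vd φ ω w 1 i ≠ m.2.1.1 i).card +
        m2 * (SA w (enc (FF (codeOf Q h) Q h φ ω) m)).card := by
  refine le_trans (Finset.card_le_card (?_ : _ ⊆ (univ.filter fun i => vd φ ω w 1 i ≠ m.2.1.1 i) ∪
    (univ.filter fun i => ω (false, i) ∈ SA w (enc (FF (codeOf Q h) Q h φ ω) m)))) ?_
  · intro i hi
    unfold SB at hi
    rw [mem_filter, enc_ib] at hi
    by_contra hc
    unfold SA at hc
    rw [mem_union, not_or, mem_filter, mem_filter, mem_filter] at hc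
    push Not at hc
    have e0 := hc.1 (mem_univ _)
    have e1 := hc.2 (mem_univ _) (mem_univ _)
    apply hi.2
    rw [← e0, ← e1, vd1, add_assoc, f2add, add_zero]
  · exact (Finset.card_union_le _ _).trans
      (Nat.add_le_add_left (fib (fun i => ω (false, i)) m2 (om_fib hω false) _) _)

omit [Fintype E] in
theorem card_SG (w : (ι ⊕ NN ι E q) → F2) (m : Msg (codeOf Q h)) (m2 : ℕ)
    (hω : ∀ j, (univ.filter fun k => ω k = j).card ≤ m2) :
    (SG w (enc (FF (codeOf Q h) Q h φ ω) m)).card ≤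
      (univ.filter fun i => vd φ ω w 2 i ≠ m.2.2.1 i).card +
        m2 * (SA w (enc (FF (codeOf Q h) Q h φ ω) m)).card := by
  refine le_trans (Finset.card_le_card (?_ : _ ⊆ (univ.filter fun i => vd φ ω w 2 i ≠ m.2.2.1 i) ∪
    (univ.filter fun i => ω (true, i) ∈ SA w (enc (FF (codeOf Q h) Q h φ ω) m)))) ?_
  · intro i hi
    unfold SG at hi
    rw [mem_filter, enc_ig] at hi
    by_contra hc
    unfold SA at hc
    rw [mem_union, not_or, mem_filter, mem_filter, mem_filter] at hc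
    push Not at hc
    have e0 := hc.1 (mem_univ _)
    have e1 := hc.2 (mem_univ _) (mem_univ _)
    apply hi.2
    rw [← e0, ← e1, vd2, add_assoc, f2add, add_zero]
  · exact (Finset.card_union_le _ _).trans
      (Nat.add_le_add_left (fib (fun i => ω (true, i)) m2 (om_fib hω true) _) _)

/-- the positions at which something relevant for a chain is wrong -/
noncomputable def WW (φ : ι → ι) (ω : VV ι → ι) (w c : (ι ⊕ NN ι E q) → F2) : Finset ι :=
  SA w c ∪ SB w c ∪ SG w c ∪ (univ.filter fun i => φ i ∈ SB w c) ∪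
    (univ.filter fun i => φ i ∈ (univ.filter fun j => ω (false, j) ∈ SA w c)) ∪
    (univ.filter fun i => ω (false, i) ∈ SA w c) ∪ (univ.filter fun i => ω (true, i) ∈ SA w c)

omit [Fintype E] in
theorem card_WW (w c : (ι ⊕ NN ι E q) → F2) (m1 m2 : ℕ)
    (hφ : ∀ j, (univ.filter fun i => φ i = j).card ≤ m1)
    (hω : ∀ j, (univ.filter fun k => ω k = j).card ≤ m2) :
    (WW φ ω w c).card ≤ (SA w c).card + (SB w c).card + (SG w c).card + m1 * (SB w c).card +
      m1 * (m2 * (SA w c).card) + m2 * (SA w c).card + m2 * (SA w c).card := by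
  unfold WW
  refine (Finset.card_union_le _ _).trans (Nat.add_le_add ?_ (fib _ m2 (om_fib hω true) _))
  refine (Finset.card_union_le _ _).trans (Nat.add_le_add ?_ (fib _ m2 (om_fib hω false) _))
  refine (Finset.card_union_le _ _).trans (Nat.add_le_add ?_ ((fib φ m1 hφ _).trans
    (Nat.mul_le_mul_left _ (fib _ m2 (om_fib hω false) _))))
  refine (Finset.card_union_le _ _).trans (Nat.add_le_add ?_ (fib φ m1 hφ _))
  refine (Finset.card_union_le _ _).trans (Nat.add_le_add ?_ le_rfl)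
  exact Finset.card_union_le _ _

/-- the tests which use a wrong position -/
noncomputable def To (Q : E → Fin (q + 1) → ι) (W : Finset ι) : Finset E :=
  univ.filter fun e => ∃ l, Q e l ∈ W

omit [Fintype ι] in
theorem card_To {D : ℕ} (hD : ∀ i, (univ.filter fun p : E × Fin (q + 1) => Q p.1 p.2 = i).card ≤ D)
    (W : Finset ι) : (To Q W).card ≤ D * W.card := by
  have h1 : To Q W ⊆ (univ.filter fun p : E × Fin (q + 1) => Q p.1 p.2 ∈ W).image Prod.fst := by
    intro e he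
    unfold To at he
    obtain ⟨l, hl⟩ := (mem_filter.1 he).2
    rw [mem_image]
    refine ⟨(e, l), ?_, rfl⟩
    rw [mem_filter]
    exact ⟨mem_univ _, hl⟩
  exact (Finset.card_le_card h1).trans (Finset.card_image_le.trans
    (fib (fun p : E × Fin (q + 1) => Q p.1 p.2) D hD W))

/-- the wrong sums along the chains -/
noncomputable def PB (w c : (ι ⊕ NN ι E q) → F2) : Finset (Fin 3 × E × Fin (q + 1) × Fin 3) :=
  univ.filter fun p => w (ip p.1 p.2.1 p.2.2.1 p.2.2.2) ≠ c (ip p.1 p.2.1 p.2.2.1 p.2.2.2)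

theorem card_PB (w : (ι ⊕ NN ι E q) → F2) (m : Msg (codeOf Q h)) :
    (PB w (enc (FF (codeOf Q h) Q h φ ω) m)).card ≤ ((q + 1) * 3) * ((Vi Q h φ ω w).card +
      3 * (To Q (WW φ ω w (enc (FF (codeOf Q h) Q h φ ω) m))).card) := by
  set c := enc (FF (codeOf Q h) Q h φ ω) m with hc
  have h1 : ∀ p ∈ PB w c, ((p.1, p.2.1) : Fin 3 × E) ∈
      Vi Q h φ ω w ∪ (univ ×ˢ To Q (WW φ ω w c)) := by
    rintro ⟨t, e, l, s⟩ hp
    unfold PB at hp
    have hne := (mem_filter.1 hp).2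
    by_contra hcon
    rw [mem_union, not_or] at hcon
    obtain ⟨hv, ht⟩ := hcon
    have ho : OK Q h φ ω w t e := by
      by_contra ho
      apply hv
      unfold Vi
      rw [mem_filter]
      exact ⟨mem_univ _, ho⟩
    have hall : ∀ l, Q e l ∉ WW φ ω w c := by
      intro l hl
      apply ht
      rw [mem_product]
      refine ⟨mem_univ _, ?_⟩
      unfold To
      rw [mem_filter]
      exact ⟨mem_univ _, l, hl⟩
    have hA : ∀ l, w (ia (Q e l)) = c (ia (Q e l)) := by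
      intro l
      by_contra hx
      apply hall l
      simp only [WW, SA, mem_union, mem_filter, mem_univ, true_and]
      tauto
    have hB : ∀ l, w (ib (Q e l)) = c (ib (Q e l)) := by
      intro l
      by_contra hx
      apply hall l
      simp only [WW, SB, mem_union, mem_filter, mem_univ, true_and]
      tauto
    have hG : ∀ l, w (ig (Q e l)) = c (ig (Q e l)) := by
      intro l
      by_contra hx
      apply hall l
      simp only [WW, SG, mem_union, mem_filter, mem_univ, true_and]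
      tauto
    have hB2 : ∀ l, w (ib (φ (Q e l))) = c (ib (φ (Q e l))) := by
      intro l
      by_contra hx
      apply hall l
      simp only [WW, SB, mem_union, mem_filter, mem_univ, true_and]
      tauto
    have hA2 : ∀ l, w (ia (ω (false, φ (Q e l)))) = c (ia (ω (false, φ (Q e l)))) := by
      intro l
      by_contra hx
      apply hall l
      simp only [WW, SA, mem_union, mem_filter, mem_univ, true_and]
      tauto
    have hA3 : ∀ l, w (ia (ω (false, Q e l))) = c (ia (ω (false, Q e l))) := by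
      intro l
      by_contra hx
      apply hall l
      simp only [WW, SA, mem_union, mem_filter, mem_univ, true_and]
      tauto
    have hA4 : ∀ l, w (ia (ω (true, Q e l))) = c (ia (ω (true, Q e l))) := by
      intro l
      by_contra hx
      apply hall l
      simp only [WW, SA, mem_union, mem_filter, mem_univ, true_and]
      tauto
    apply hne
    refine OK_agree ho (enc_OK m t e) ?_ ?_ ?_ hA2 l s
    · unfold ir
      split_ifs
      · exact hB 0
      · exact hG 0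
    · intro l
      unfold it
      split_ifs
      · exact hA l
      · exact hB l
      · exact hG l
    · intro l
      unfold ij
      split_ifs
      · exact hB2 l
      · exact hA3 l
      · exact hA4 l
  refine (fib2 (fun p : Fin 3 × E × Fin (q + 1) × Fin 3 =>
    ((p.1, p.2.1) : Fin 3 × E)) ((q + 1) * 3) ?_ _ _ h1).trans (Nat.mul_le_mul_left _ ?_)
  · rintro ⟨t, e⟩ s hs
    calc s.card ≤ (univ : Finset (Fin (q + 1) × Fin 3)).card := by
          apply Finset.card_le_card_of_injOn (fun p => p.2.2)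
          · intro p _
            exact mem_coe.2 (mem_univ _)
          · rintro ⟨t1, e1, p1⟩ hp1 ⟨t2, e2, p2⟩ hp2 hpp
            have a1 := hs _ (mem_coe.1 hp1)
            have a2 := hs _ (mem_coe.1 hp2)
            simp only [Prod.mk.injEq] at a1 a2 hpp ⊢
            exact ⟨a1.1.trans a2.1.symm, a1.2.trans a2.2.symm, hpp⟩
      _ = (q + 1) * 3 := by simp
  · refine (Finset.card_union_le _ _).trans (Nat.add_le_add_left ?_ _)
    rw [Finset.card_product]
    simp

theorem hd_le (w c : (ι ⊕ NN ι E q) → F2) :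
    hammingDist w c ≤ (SA w c).card + (SB w c).card + (SG w c).card + (PB w c).card := by
  have h1 : (univ.filter fun v => w v ≠ c v) ⊆ (SA w c).image ia ∪ (SB w c).image ib ∪
      (SG w c).image ig ∪ (PB w c).image (fun p => ip p.1 p.2.1 p.2.2.1 p.2.2.2) := by
    intro v hv
    have hv2 := (mem_filter.1 hv).2
    simp only [mem_union, mem_image]
    match v, hv2 with
    | Sum.inl i, hv2 =>
      left; left; left
      exact ⟨i, mem_filter.2 ⟨mem_univ _, hv2⟩, rfl⟩
    | Sum.inr (Sum.inl (false, i)), hv2 =>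
      left; left; right
      exact ⟨i, mem_filter.2 ⟨mem_univ _, hv2⟩, rfl⟩
    | Sum.inr (Sum.inl (true, i)), hv2 =>
      left; right
      exact ⟨i, mem_filter.2 ⟨mem_univ _, hv2⟩, rfl⟩
    | Sum.inr (Sum.inr (t, e, l, s)), hv2 =>
      right
      exact ⟨(t, e, l, s), mem_filter.2 ⟨mem_univ _, hv2⟩, rfl⟩
  calc hammingDist w c = (univ.filter fun v => w v ≠ c v).card := rfl
    _ ≤ _ := Finset.card_le_card h1
    _ ≤ _ := by
      refine (Finset.card_union_le _ _).trans (Nat.add_le_add ?_ Finset.card_image_le)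
      refine (Finset.card_union_le _ _).trans (Nat.add_le_add ?_ Finset.card_image_le)
      exact (Finset.card_union_le _ _).trans (Nat.add_le_add Finset.card_image_le
        Finset.card_image_le)

end Cnt

theorem final_ineq {m1 m2 D q : ℝ} {κ Z N0 N1 N2 A B G W T P H : ℝ} (hκ : 0 < κ) (hm1 : 0 ≤ m1)
    (hm2 : 0 ≤ m2) (hD : 0 ≤ D) (hq : 0 ≤ q)
    (h0 : κ * N0 ≤ Z) (h1 : κ * N1 ≤ Z) (h2 : κ * N2 ≤ Z) (hA : A ≤ N0 + m1 * N1)
    (hB : B ≤ N1 + m2 * A) (hG : G ≤ N2 + m2 * A)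
    (hW : W ≤ A + B + G + m1 * B + m1 * (m2 * A) + m2 * A + m2 * A) (hT : T ≤ D * W)
    (hP : P ≤ (q + 1) * 3 * (Z + 3 * T)) (hH : H ≤ A + B + G + P) :
    H ≤ ((1 + m1) / κ + 2 * ((1 + m2 * (1 + m1)) / κ) + (q + 1) * 3 * (1 + 3 * (D *
      ((1 + m1) / κ + 2 * ((1 + m2 * (1 + m1)) / κ) + m1 * ((1 + m2 * (1 + m1)) / κ) +
        m1 * (m2 * ((1 + m1) / κ)) + m2 * ((1 + m1) / κ) + m2 * ((1 + m1) / κ))))) * Z := by
  have e0 : N0 ≤ Z / κ := by rw [le_div_iff₀ hκ]; linarith
  have e1 : N1 ≤ Z / κ := by rw [le_div_iff₀ hκ]; linarith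
  have e2 : N2 ≤ Z / κ := by rw [le_div_iff₀ hκ]; linarith
  have a : A ≤ (1 + m1) / κ * Z := by
    have := mul_le_mul_of_nonneg_left e1 hm1
    calc A ≤ Z / κ + m1 * (Z / κ) := by linarith
      _ = _ := by ring
  have b : B ≤ (1 + m2 * (1 + m1)) / κ * Z := by
    have := mul_le_mul_of_nonneg_left a hm2
    calc B ≤ Z / κ + m2 * ((1 + m1) / κ * Z) := by linarith
      _ = _ := by ring
  have g : G ≤ (1 + m2 * (1 + m1)) / κ * Z := by
    have := mul_le_mul_of_nonneg_left a hm2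
    calc G ≤ Z / κ + m2 * ((1 + m1) / κ * Z) := by linarith
      _ = _ := by ring
  have hw : W ≤ ((1 + m1) / κ + 2 * ((1 + m2 * (1 + m1)) / κ) + m1 * ((1 + m2 * (1 + m1)) / κ) +
        m1 * (m2 * ((1 + m1) / κ)) + m2 * ((1 + m1) / κ) + m2 * ((1 + m1) / κ)) * Z := by
    have i1 := mul_le_mul_of_nonneg_left b hm1
    have i2 := mul_le_mul_of_nonneg_left a hm2
    have i3 := mul_le_mul_of_nonneg_left i2 hm1
    calc W ≤ _ := hW
      _ ≤ (1 + m1) / κ * Z + (1 + m2 * (1 + m1)) / κ * Z + (1 + m2 * (1 + m1)) / κ * Z +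
          m1 * ((1 + m2 * (1 + m1)) / κ * Z) + m1 * (m2 * ((1 + m1) / κ * Z)) +
          m2 * ((1 + m1) / κ * Z) + m2 * ((1 + m1) / κ * Z) := by linarith
      _ = _ := by ring
  have ht := hT.trans (mul_le_mul_of_nonneg_left hw hD)
  have hp : P ≤ _ := hP.trans (mul_le_mul_of_nonneg_left
    (add_le_add_right (mul_le_mul_of_nonneg_left ht (by norm_num : (0 : ℝ) ≤ 3)) Z) (by positivity))
  calc H ≤ _ := hH
    _ ≤ (1 + m1) / κ * Z + (1 + m2 * (1 + m1)) / κ * Z + (1 + m2 * (1 + m1)) / κ * Z + _ :=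
        add_le_add (add_le_add (add_le_add a b) g) hp
    _ = _ := by ring

theorem job : S_SND3 := by
  intro q D m1 m2 ρ δ κ _ _ hκ
  have hKpos : 0 < ((1 + (m1 : ℝ)) / κ + 2 * ((1 + m2 * (1 + m1)) / κ) + ((q : ℝ) + 1) * 3 *
      (1 + 3 * (D * ((1 + m1) / κ + 2 * ((1 + m2 * (1 + m1)) / κ) +
        m1 * ((1 + m2 * (1 + m1)) / κ) + m1 * (m2 * ((1 + m1) / κ)) + m2 * ((1 + m1) / κ) +
        m2 * ((1 + m1) / κ))))) := by
    positivity
  refine ⟨((1 + (m1 : ℝ)) / κ + 2 * ((1 + m2 * (1 + m1)) / κ) + ((q : ℝ) + 1) * 3 *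
      (1 + 3 * (D * ((1 + m1) / κ + 2 * ((1 + m2 * (1 + m1)) / κ) +
        m1 * ((1 + m2 * (1 + m1)) / κ) + m1 * (m2 * ((1 + m1) / κ)) + m2 * ((1 + m1) / κ) +
        m2 * ((1 + m1) / κ)))))⁻¹, inv_pos.2 hKpos, ?_⟩
  intro ι E _ _ Q h φ ω hL hφ hω w
  obtain ⟨x, hx, h0⟩ := decode (φ := φ) (ω := ω) hL w 0
  obtain ⟨y, hy, h1⟩ := decode (φ := φ) (ω := ω) hL w 1
  obtain ⟨z, hz, h2⟩ := decode (φ := φ) (ω := ω) hL w 2
  let m : Msg (codeOf Q h) := (⟨x, hx⟩, ⟨y, hy⟩, ⟨z, hz⟩)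
  refine ⟨enc (FF (codeOf Q h) Q h φ ω) m, ⟨m, rfl⟩, ?_⟩
  have cV := card_Vi (Q := Q) (h := h) (φ := φ) (ω := ω) w
  have cA : (SA w (enc (FF (codeOf Q h) Q h φ ω) m)).card ≤
      (univ.filter fun i => vd φ ω w 0 i ≠ x i).card +
        m1 * (univ.filter fun i => vd φ ω w 1 i ≠ y i).card := card_SA w m m1 hφ
  have cB : (SB w (enc (FF (codeOf Q h) Q h φ ω) m)).card ≤
      (univ.filter fun i => vd φ ω w 1 i ≠ y i).card +
        m2 * (SA w (enc (FF (codeOf Q h) Q h φ ω) m)).card := card_SB w m m2 hω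
  have cG : (SG w (enc (FF (codeOf Q h) Q h φ ω) m)).card ≤
      (univ.filter fun i => vd φ ω w 2 i ≠ z i).card +
        m2 * (SA w (enc (FF (codeOf Q h) Q h φ ω) m)).card := card_SG w m m2 hω
  have cW := card_WW (φ := φ) (ω := ω) w (enc (FF (codeOf Q h) Q h φ ω) m) m1 m2 hφ hω
  have cT := card_To hL.deg (WW φ ω w (enc (FF (codeOf Q h) Q h φ ω) m))
  have cP := card_PB (φ := φ) (ω := ω) w m
  have cH := hd_le w (enc (FF (codeOf Q h) Q h φ ω) m)
  clear_value m
  generalize enc (FF (codeOf Q h) Q h φ ω) m = c at *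
  generalize ((D3 (fin3 (codeOf Q h) Q h φ ω)).filter fun u => ∑ v, u v * w v ≠ 0).card = nD at *
  generalize (univ.filter fun i => vd φ ω w 0 i ≠ x i).card = n0 at *
  generalize (univ.filter fun i => vd φ ω w 1 i ≠ y i).card = n1 at *
  generalize (univ.filter fun i => vd φ ω w 2 i ≠ z i).card = n2 at *
  generalize (To Q (WW φ ω w c)).card = nT at *
  generalize (WW φ ω w c).card = nW at *
  generalize (SA w c).card = nA at *
  generalize (SB w c).card = nB at *
  generalize (SG w c).card = nG at *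
  generalize (PB w c).card = nP at *
  generalize (Vi Q h φ ω w).card = nV at *
  generalize hammingDist w c = nH at *
  have rA : (nA : ℝ) ≤ n0 + m1 * n1 := by exact_mod_cast cA
  have rB : (nB : ℝ) ≤ n1 + m2 * nA := by exact_mod_cast cB
  have rG : (nG : ℝ) ≤ n2 + m2 * nA := by exact_mod_cast cG
  have rW : (nW : ℝ) ≤ nA + nB + nG + m1 * nB + m1 * (m2 * nA) + m2 * nA + m2 * nA := by
    exact_mod_cast cW
  have rT : (nT : ℝ) ≤ D * nW := by exact_mod_cast cT
  have rP : (nP : ℝ) ≤ ((q : ℝ) + 1) * 3 * (nV + 3 * nT) := by exact_mod_cast cP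
  have rH : (nH : ℝ) ≤ nA + nB + nG + nP := by exact_mod_cast cH
  have key := final_ineq (m1 := m1) (m2 := m2) (D := D) (q := q) hκ (Nat.cast_nonneg _)
    (Nat.cast_nonneg _) (Nat.cast_nonneg _) (Nat.cast_nonneg _) h0 h1 h2 rA rB rG rW rT rP rH
  rw [inv_mul_le_iff₀ hKpos]
  refine key.trans (mul_le_mul_of_nonneg_left ?_ hKpos.le)
  exact_mod_cast cV

end Pool.Agent.Helper835_LTC.J_SND3
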