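import Mathlib
import Pool.Agent.Helper835_LTC.Defs

set_option autoImplicit false

open Finset
open scoped Classical

namespace Pool.Agent.Helper835_LTC.J_SOUND

open Pool.Agent.Helper835_LTC

section
variable {G : Type} [Group G] {I : Type}

lemma sq_nbA (b : I → G) (v : Vx G) (i j : I) : sq b (nbA b v i) i j = sq b v i j := by
  obtain ⟨g, s, t⟩ := v
  cases s <;> simp [sq, nbA]

lemma sq_nbB (b : I → G) (v : Vx G) (i j : I) : sq b (nbB b v j) i j = sq b v i j := by
  obtain ⟨g, s, t⟩ := v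
  cases t <;> simp [sq, nbB, mul_assoc]

lemma nbA_nbA (b : I → G) (v : Vx G) (i : I) : nbA b (nbA b v i) i = v := by
  obtain ⟨g, s, t⟩ := v
  cases s <;> simp [nbA]

lemma nbB_nbB (b : I → G) (v : Vx G) (j : I) : nbB b (nbB b v j) j = v := by
  obtain ⟨g, s, t⟩ := v
  cases t <;> simp [nbB, mul_assoc]

lemma InLoc_zero (C0 : Submodule F2 (I → F2)) : InLoc C0 (0 : I → I → F2) :=
  ⟨fun _ => C0.zero_mem, fun _ => C0.zero_mem⟩

/-- the starting point -/
noncomputable def z0 (b : I → G) (C0 : Submodule F2 (I → F2)) (w : G × I × I → F2) (v : Vx G) :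
    I → I → F2 := if InLoc C0 (view b w v) then view b w v else 0

lemma z0_good (b : I → G) (C0 : Submodule F2 (I → F2)) (w : G × I × I → F2) (v : Vx G)
    (h : InLoc C0 (view b w v)) : z0 b C0 w v = view b w v := if_pos h

lemma z0_InLoc (b : I → G) (C0 : Submodule F2 (I → F2)) (w : G × I × I → F2) (v : Vx G) :
    InLoc C0 (z0 b C0 w v) := by
  unfold z0
  split_ifs with h
  · exact h
  · exact InLoc_zero C0

omit [Group G] in
/-- counting of the pairs with a bad end -/
lemma count_pairs [Fintype G] [Fintype I] (Bad : Finset (Vx G)) (nb : Vx G → I → Vx G)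
    (hnb : ∀ v i, nb (nb v i) i = v) (P : Vx G → I → Prop)
    (hP : ∀ v i, P v i → v ∈ Bad ∨ nb v i ∈ Bad) :
    ∑ v, (univ.filter fun i : I => P v i).card ≤ 2 * (Fintype.card I * Bad.card) := by
  have h1 : ∀ v, (univ.filter fun i : I => P v i).card ≤
      ∑ i : I, ((if v ∈ Bad then 1 else 0) + (if nb v i ∈ Bad then 1 else 0)) := by
    intro v
    rw [card_filter]
    refine sum_le_sum fun i _ => ?_
    by_cases h : P v i
    · rcases hP v i h with h2 | h2
      · simp [h, h2]
      · simp [h, h2]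
    · simp [h]
  refine (sum_le_sum fun v _ => h1 v).trans ?_
  rw [sum_comm]
  have h2 : ∀ i : I, ∑ v : Vx G, ((if v ∈ Bad then 1 else 0) + (if nb v i ∈ Bad then 1 else 0)) =
      2 * Bad.card := by
    intro i
    rw [sum_add_distrib]
    have e1 : ∑ v : Vx G, (if v ∈ Bad then 1 else 0) = Bad.card := by simp
    have e2 : ∑ v : Vx G, (if nb v i ∈ Bad then 1 else 0) = ∑ v : Vx G, (if v ∈ Bad then 1 else 0) := by
      apply Finset.sum_nbij' (fun v => nb v i) (fun v => nb v i)
      · intro v _; exact mem_univ _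
      · intro v _; exact mem_univ _
      · intro v _; exact hnb v i
      · intro v _; exact hnb v i
      · intro v _; rfl
    rw [e2, e1]
    ring
  rw [sum_congr rfl fun i _ => h2 i, sum_const, card_univ, smul_eq_mul]
  apply le_of_eq
  ring

lemma cost_z0 [Fintype G] [Fintype I] (b : I → G) (C0 : Submodule F2 (I → F2)) (w : G × I × I → F2) :
    ∑ v, cost b (z0 b C0 w) v (z0 b C0 w v) ≤
      4 * (Fintype.card I * (univ.filter fun v => ¬ InLoc C0 (view b w v)).card) := by
  unfold cost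
  rw [sum_add_distrib]
  have h1 := count_pairs (univ.filter fun v => ¬ InLoc C0 (view b w v)) (nbA b)
    (nbA_nbA b) (fun v i => z0 b C0 w v i ≠ z0 b C0 w (nbA b v i) i) (by
      intro v i h
      by_contra hcon
      push Not at hcon
      obtain ⟨h2, h3⟩ := hcon
      rw [mem_filter, not_and, not_not] at h2 h3
      apply h
      rw [z0_good b C0 w v (h2 (mem_univ _)), z0_good b C0 w _ (h3 (mem_univ _))]
      funext j
      unfold view
      rw [sq_nbA])
  have h2 := count_pairs (univ.filter fun v => ¬ InLoc C0 (view b w v)) (nbB b)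
    (nbB_nbB b) (fun v j => (fun i => z0 b C0 w v i j) ≠ fun i => z0 b C0 w (nbB b v j) i j) (by
      intro v j h
      by_contra hcon
      push Not at hcon
      obtain ⟨h2, h3⟩ := hcon
      rw [mem_filter, not_and, not_not] at h2 h3
      apply h
      rw [z0_good b C0 w v (h2 (mem_univ _)), z0_good b C0 w _ (h3 (mem_univ _))]
      funext i
      unfold view
      rw [sq_nbB])
  refine le_trans (le_of_eq ?_) ((add_le_add h1 h2).trans (le_of_eq (by ring)))
  congr!

end

lemma dist_le {G : Type} [Group G] [Fintype G] {I : Type} [Fintype I] (b : I → G)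
    (C0 : Submodule F2 (I → F2)) (w x : G × I × I → F2) (z : Vx G → I → I → F2)
    (hz : ∀ v, view b x v = z v) :
    hammingDist w x ≤ Fintype.card I ^ 2 *
      ((univ.filter fun v => ¬ InLoc C0 (view b w v)).card +
        (univ.filter fun v => z v ≠ z0 b C0 w v).card) := by
  have hsub : (univ.filter fun p : G × I × I => w p ≠ x p) ⊆
      ((univ.filter fun v => ¬ InLoc C0 (view b w v)) ∪ (univ.filter fun v => z v ≠ z0 b C0 w v)).biUnion
        (fun v : Vx G => (univ : Finset (I × I)).image (fun q => (v.1, q.1, q.2))) := by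
    rintro ⟨g, i, j⟩ hp
    rw [mem_filter] at hp
    rw [mem_biUnion]
    refine ⟨(g, false, false), ?_, mem_image.2 ⟨(i, j), mem_univ _, rfl⟩⟩
    rw [mem_union, mem_filter, mem_filter]
    by_cases h : InLoc C0 (view b w (g, false, false))
    · right
      refine ⟨mem_univ _, fun h2 => hp.2 ?_⟩
      rw [z0_good b C0 w _ h, ← hz] at h2
      have h3 := congrFun (congrFun h2 i) j
      have e : sq b (g, false, false) i j = (g, i, j) := by simp [sq]
      unfold view at h3
      rw [e] at h3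
      exact h3.symm
    · left
      exact ⟨mem_univ _, h⟩
  have h1 : hammingDist w x = (univ.filter fun p : G × I × I => w p ≠ x p).card := rfl
  rw [h1]
  refine (card_le_card hsub).trans (card_biUnion_le.trans ?_)
  have h2 : ∀ v : Vx G, ((univ : Finset (I × I)).image (fun q => (v.1, q.1, q.2))).card ≤
      Fintype.card I ^ 2 := by
    intro v
    refine card_image_le.trans ?_
    rw [card_univ, Fintype.card_prod, pow_two]
  refine (sum_le_sum fun v _ => h2 v).trans ?_
  rw [sum_const, smul_eq_mul, mul_comm]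
  exact Nat.mul_le_mul_left _ (card_union_le _ _)

theorem job : S_LMIN → S_GREEDY → S_DEC → S_SOUND := by
  intro hL hG hD n κ hκ
  obtain ⟨M, hM⟩ : ∃ M : ℝ, M = (n : ℝ) ^ 2 * (1 + 4 * n) + 4 * n ^ 3 * (8 / κ) ^ 2 + 1 := ⟨_, rfl⟩
  have hM0 : 0 < M := by rw [hM]; positivity
  refine ⟨1 / M, by positivity, ?_⟩
  intro G _ _ I _ b lam C0 hI hlam hlk hE hAT w
  obtain ⟨B, hB⟩ : ∃ B, B = (univ.filter fun v => ¬ InLoc C0 (view b w v)).card := ⟨_, rfl⟩
  have hcost := cost_z0 b C0 w
  rw [hI, ← hB] at hcost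
  obtain ⟨z, hz1, hz2, hz3, hz4⟩ := hG G I b C0 (z0 b C0 w) (z0_InLoc b C0 w)
  have key : ∀ c : G × I × I → F2, (hammingDist w c : ℝ) ≤ M * B →
      1 / M * (hammingDist w c : ℝ) ≤ ((univ.filter fun v => ¬ InLoc C0 (view b w v)).card : ℝ) := by
    intro c hc
    rw [← hB, one_div, inv_mul_le_iff₀ hM0]
    exact hc
  have hBnn : (0 : ℝ) ≤ B := Nat.cast_nonneg _
  have hnn : (0 : ℝ) ≤ n := Nat.cast_nonneg _
  rcases hL G I b lam κ C0 hlam hκ hlk hE hAT z hz1 hz2 with h0 | h0
  · obtain ⟨x, hx, hxz⟩ := hD G I b C0 z hz1 h0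
    refine ⟨x, hx, key x ?_⟩
    have h1 := dist_le b C0 w x z hxz
    rw [hI, ← hB] at h1
    have h2 : hammingDist w x ≤ n ^ 2 * (B + 4 * (n * B)) :=
      h1.trans (Nat.mul_le_mul_left _ (Nat.add_le_add_left (hz4.trans hcost) _))
    have h3 : (hammingDist w x : ℝ) ≤ (n : ℝ) ^ 2 * (B + 4 * (n * B)) := by exact_mod_cast h2
    refine h3.trans ?_
    rw [hM]
    have h4 : (0 : ℝ) ≤ (4 * n ^ 3 * (8 / κ) ^ 2 + 1) * B := by positivity
    nlinarith
  · refine ⟨0, (CC b C0).zero_mem, key 0 ?_⟩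
    have h1 : hammingDist w (0 : G × I × I → F2) ≤ Fintype.card (G × I × I) := hammingDist_le_card_fintype
    rw [Fintype.card_prod, Fintype.card_prod, hI] at h1
    have h2 : (hammingDist w (0 : G × I × I → F2) : ℝ) ≤ Fintype.card G * (n * n) := by exact_mod_cast h1
    have h3 : ((∑ v, cost b z v (z v) : ℕ) : ℝ) ≤ 4 * (n * B) := by
      exact_mod_cast hz3.trans hcost
    have h4 : (κ / 8) ^ 2 * (Fintype.card G : ℝ) ≤ 4 * (n * B) := h0.trans h3
    have h5 : (Fintype.card G : ℝ) ≤ (8 / κ) ^ 2 * (4 * (n * B)) := by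
      have h6 : (8 / κ) ^ 2 * ((κ / 8) ^ 2 * (Fintype.card G : ℝ)) = Fintype.card G := by
        field_simp
      rw [← h6]
      exact mul_le_mul_of_nonneg_left h4 (by positivity)
    calc (hammingDist w (0 : G × I × I → F2) : ℝ) ≤ Fintype.card G * (n * n) := h2
      _ ≤ (8 / κ) ^ 2 * (4 * (n * B)) * (n * n) := mul_le_mul_of_nonneg_right h5 (by positivity)
      _ = 4 * n ^ 3 * (8 / κ) ^ 2 * B := by ring
      _ ≤ M * B := by
          apply mul_le_mul_of_nonneg_right _ hBnn
          rw [hM]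
          have : (0 : ℝ) ≤ (n : ℝ) ^ 2 * (1 + 4 * n) := by positivity
          linarith

end Pool.Agent.Helper835_LTC.J_SOUND
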