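import Mathlib
import Pool.Agent.Helper835_LTC.Defs
/-!
Part of project LTC (three query locally testable codes with few short dual words).
-/

set_option autoImplicit false

open Finset
open scoped Classical

namespace Pool.Agent.Helper835_LTC.J_SPR

open Pool.Agent.Helper835_LTC

variable {E : Type} [AddCommGroup E] [Module F2 E]

theorem spr_li {ι : Type} [Fintype ι] [Module.Finite F2 E] (K : ℕ) (a : ι → E)
    (W : Submodule F2 E) (σ : ι → Fin (K + 1)) :
    (univ.filter fun i => a i ∈ W ∧ (σ i = 0 ∧ a i ∉ spn a {u | u ≠ i ∧ σ u = 0})).card ≤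
      Module.finrank F2 W := by
  set L := univ.filter fun i => a i ∈ W ∧ (σ i = 0 ∧ a i ∉ spn a {u | u ≠ i ∧ σ u = 0}) with hL
  have hmem : ∀ i : L, a i ∈ W ∧ (σ i = 0 ∧ a i ∉ spn a {u | u ≠ i ∧ σ u = 0}) := by
    intro i
    exact (Finset.mem_filter.1 i.2).2
  have hli : LinearIndependent F2 (fun i : L => a i) := by
    rw [linearIndependent_iff_notMem_span]
    intro i hi
    refine (hmem i).2.2 (Submodule.span_mono ?_ hi)
    rintro _ ⟨j, hj, rfl⟩
    refine ⟨j, ⟨fun h => hj.2 (Subtype.ext h), (hmem j).2.1⟩, rfl⟩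
  have hli' : LinearIndependent F2 (fun i : L => (⟨a i, (hmem i).1⟩ : W)) :=
    LinearIndependent.of_comp W.subtype hli
  have := hli'.fintype_card_le_finrank
  simpa using this

theorem spr_cnt {ι : Type} [Fintype ι] (K : ℕ) (i : ι) (P : (ι → Fin (K + 1)) → Prop)
    (hP : ∀ σ t, P σ → P (Function.update σ i t)) :
    (univ.filter fun σ => P σ).card ≤
      (K + 1) * (univ.filter fun σ : ι → Fin (K + 1) => σ i = 0 ∧ P σ).card := by
  refine Finset.card_le_mul_card_image_of_maps_to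
    (f := fun σ : ι → Fin (K + 1) => Function.update σ i 0) ?_ (K + 1) ?_
  · intro σ hσ
    rw [Finset.mem_filter] at hσ ⊢
    exact ⟨mem_univ _, by simp, hP _ _ hσ.2⟩
  · intro τ _
    have h : Set.InjOn (fun σ : ι → Fin (K + 1) => σ i)
        ({σ ∈ univ.filter fun σ => P σ | Function.update σ i 0 = τ} : Finset _) := by
      intro σ hσ σ' hσ' he
      simp only [Finset.coe_filter, Finset.mem_filter] at hσ hσ'
      funext u
      by_cases hu : u = i
      · rw [hu]; exact he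
      · have := congrFun (hσ.2.trans hσ'.2.symm) u
        simpa [Function.update_of_ne hu] using this
    have := Finset.card_le_card_of_injOn (s := {σ ∈ univ.filter fun σ => P σ | Function.update σ i 0 = τ})
      (t := (univ : Finset (Fin (K + 1)))) (fun σ : ι → Fin (K + 1) => σ i)
      (fun _ _ => mem_univ _) h
    simpa using this

theorem spr_gen {ι : Type} [Fintype ι] (K : ℕ) (c : ℝ) (a : ι → E) (i : ι) (h : Gen K c a i) :
    c * (K + 1 : ℝ) ^ Fintype.card ι ≤ (K + 1 : ℝ) * (univ.filter fun σ : ι → Fin (K + 1) =>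
      σ i = 0 ∧ a i ∉ spn a {u | u ≠ i ∧ σ u = 0}).card := by
  have h1 := spr_cnt K i (fun σ => a i ∉ spn a {u | u ≠ i ∧ σ u = 0}) (by
    intro σ t hσ
    have e : {u | u ≠ i ∧ Function.update σ i t u = 0} = {u | u ≠ i ∧ σ u = 0} := by
      ext u
      constructor
      · rintro ⟨hu, hu'⟩
        refine ⟨hu, ?_⟩
        rwa [Function.update_of_ne hu] at hu'
      · rintro ⟨hu, hu'⟩
        refine ⟨hu, ?_⟩
        rwa [Function.update_of_ne hu]
    rw [e]
    exact hσ)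
  have h2 : ((univ.filter fun σ : ι → Fin (K + 1) =>
      a i ∉ spn a {u | u ≠ i ∧ σ u = 0}).card : ℝ) ≤
      (K + 1 : ℝ) * (univ.filter fun σ : ι → Fin (K + 1) =>
      σ i = 0 ∧ a i ∉ spn a {u | u ≠ i ∧ σ u = 0}).card := by exact_mod_cast h1
  have h3 : ((univ.filter fun σ : ι → Fin (K + 1) =>
      a i ∈ spn a {u | u ≠ i ∧ σ u = 0}).card : ℝ) +
      ((univ.filter fun σ : ι → Fin (K + 1) =>
      a i ∉ spn a {u | u ≠ i ∧ σ u = 0}).card : ℝ) = (K + 1 : ℝ) ^ Fintype.card ι := by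
    have := Finset.card_filter_add_card_filter_not (s := (univ : Finset (ι → Fin (K + 1))))
      (fun σ : ι → Fin (K + 1) => a i ∈ spn a {u | u ≠ i ∧ σ u = 0})
    rw [Finset.card_univ, Fintype.card_fun, Fintype.card_fin] at this
    exact_mod_cast this
  unfold Gen at h
  linarith

theorem job : S_SPR := by
  intro K c hc
  refine ⟨⌈((K : ℝ) + 1) / c⌉₊, ?_⟩
  intro ι _ E _ _ _ a ha W
  set T := univ.filter fun i => a i ∈ W with hT
  have hsum : ∑ σ : ι → Fin (K + 1), (univ.filter fun i => a i ∈ W ∧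
      (σ i = 0 ∧ a i ∉ spn a {u | u ≠ i ∧ σ u = 0})).card =
      ∑ i ∈ T, (univ.filter fun σ : ι → Fin (K + 1) =>
        σ i = 0 ∧ a i ∉ spn a {u | u ≠ i ∧ σ u = 0}).card := by
    have e : ∀ σ : ι → Fin (K + 1), (univ.filter fun i => a i ∈ W ∧
        (σ i = 0 ∧ a i ∉ spn a {u | u ≠ i ∧ σ u = 0})) =
        T.filter fun i => σ i = 0 ∧ a i ∉ spn a {u | u ≠ i ∧ σ u = 0} := by
      intro σ
      rw [hT, Finset.filter_filter]
    simp only [e, Finset.card_filter]
    rw [Finset.sum_comm]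
  have h1 : (∑ σ : ι → Fin (K + 1), (univ.filter fun i => a i ∈ W ∧
      (σ i = 0 ∧ a i ∉ spn a {u | u ≠ i ∧ σ u = 0})).card) ≤
      (K + 1) ^ Fintype.card ι * Module.finrank F2 W := by
    refine (Finset.sum_le_sum fun σ _ => spr_li K a W σ).trans ?_
    rw [Finset.sum_const, Finset.card_univ, Fintype.card_fun, Fintype.card_fin, smul_eq_mul]
  rw [hsum] at h1
  have h2 : (∑ i ∈ T, ((univ.filter fun σ : ι → Fin (K + 1) =>
        σ i = 0 ∧ a i ∉ spn a {u | u ≠ i ∧ σ u = 0}).card : ℝ)) ≤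
      ((K : ℝ) + 1) ^ Fintype.card ι * Module.finrank F2 W := by exact_mod_cast h1
  have h3 : (T.card : ℝ) * (c * (K + 1 : ℝ) ^ Fintype.card ι) ≤
      (K + 1 : ℝ) * ∑ i ∈ T, ((univ.filter fun σ : ι → Fin (K + 1) =>
        σ i = 0 ∧ a i ∉ spn a {u | u ≠ i ∧ σ u = 0}).card : ℝ) := by
    rw [Finset.mul_sum, ← nsmul_eq_mul, ← Finset.sum_const]
    exact Finset.sum_le_sum fun i _ => spr_gen K c a i (ha i)
  have hK : (0 : ℝ) < (K + 1 : ℝ) := by positivity
  have hp : (0 : ℝ) < (K + 1 : ℝ) ^ Fintype.card ι := by positivity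
  have h4 : (T.card : ℝ) * c ≤ (K + 1 : ℝ) * Module.finrank F2 W := by
    have : (K + 1 : ℝ) ^ Fintype.card ι * ((T.card : ℝ) * c) ≤
        (K + 1 : ℝ) ^ Fintype.card ι * ((K + 1 : ℝ) * Module.finrank F2 W) := by
      calc (K + 1 : ℝ) ^ Fintype.card ι * ((T.card : ℝ) * c)
          = (T.card : ℝ) * (c * (K + 1 : ℝ) ^ Fintype.card ι) := by ring
        _ ≤ (K + 1 : ℝ) * ∑ i ∈ T, ((univ.filter fun σ : ι → Fin (K + 1) =>
              σ i = 0 ∧ a i ∉ spn a {u | u ≠ i ∧ σ u = 0}).card : ℝ) := h3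
        _ ≤ (K + 1 : ℝ) * (((K : ℝ) + 1) ^ Fintype.card ι * Module.finrank F2 W) :=
          mul_le_mul_of_nonneg_left h2 hK.le
        _ = _ := by ring
    exact le_of_mul_le_mul_left this hp
  have h5 : (T.card : ℝ) ≤ ((K : ℝ) + 1) / c * Module.finrank F2 W := by
    rw [div_mul_eq_mul_div, le_div_iff₀ hc]
    exact h4
  have h6 : (T.card : ℝ) ≤ (⌈((K : ℝ) + 1) / c⌉₊ : ℝ) * Module.finrank F2 W :=
    h5.trans (mul_le_mul_of_nonneg_right (Nat.le_ceil _) (Nat.cast_nonneg _))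
  exact_mod_cast h6

end Pool.Agent.Helper835_LTC.J_SPR
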