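import Mathlib
import Pool.Agent.Helper835_LTC.Defs

set_option autoImplicit false

open Finset
open scoped Classical

namespace Pool.Agent.Helper835_LTC.J_ST1

open Pool.Agent.Helper835_LTC

/-- an event not depending on the coordinate `i` is independent of `σ i = 0` -/
lemma indep {ι : Type} [Fintype ι] (K : ℕ) (i : ι) (R : (ι → Fin (K + 1)) → Prop)
    (hR : ∀ σ x, R (Function.update σ i x) ↔ R σ) :
    (K + 1) * (univ.filter fun σ : ι → Fin (K + 1) => σ i = 0 ∧ R σ).card =
      (univ.filter fun σ : ι → Fin (K + 1) => R σ).card := by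
  have h1 : (univ.filter fun σ : ι → Fin (K + 1) => R σ).card =
      ∑ x : Fin (K + 1), ((univ.filter fun σ : ι → Fin (K + 1) => R σ).filter
        (fun σ => σ i = x)).card :=
    Finset.card_eq_sum_card_fiberwise (fun σ _ => Finset.mem_coe.2 (Finset.mem_univ (σ i)))
  have h2 : ∀ x : Fin (K + 1), ((univ.filter fun σ : ι → Fin (K + 1) => R σ).filter
        (fun σ => σ i = x)).card =
      (univ.filter fun σ : ι → Fin (K + 1) => σ i = 0 ∧ R σ).card := by
    intro x
    refine Finset.card_bij' (fun σ _ => Function.update σ i 0) (fun σ _ => Function.update σ i x)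
      ?_ ?_ ?_ ?_
    · intro σ hσ
      simp only [mem_filter, mem_univ, true_and] at hσ ⊢
      exact ⟨Function.update_self _ _ _, (hR σ 0).2 hσ.1⟩
    · intro σ hσ
      simp only [mem_filter, mem_univ, true_and] at hσ ⊢
      exact ⟨(hR σ x).2 hσ.2, Function.update_self _ _ _⟩
    · intro σ hσ
      simp only [mem_filter, mem_univ, true_and] at hσ
      rw [Function.update_idem, ← hσ.2, Function.update_eq_self]
    · intro σ hσ
      simp only [mem_filter, mem_univ, true_and] at hσ
      rw [Function.update_idem, ← hσ.1, Function.update_eq_self]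
  rw [h1, Finset.sum_congr rfl (fun x _ => h2 x), Finset.sum_const, Finset.card_univ,
    Fintype.card_fin, smul_eq_mul]

/-- the same for finsets given by their members -/
lemma indep' {ι : Type} [Fintype ι] (K : ℕ) (i : ι) (R : (ι → Fin (K + 1)) → Prop)
    (hR : ∀ σ x, R (Function.update σ i x) ↔ R σ) (A B : Finset (ι → Fin (K + 1)))
    (hA : ∀ σ, σ ∈ A ↔ σ i = 0 ∧ R σ) (hB : ∀ σ, σ ∈ B ↔ R σ) :
    (K + 1) * A.card = B.card := by
  have h := indep K i R hR
  have h1 : (univ.filter fun σ : ι → Fin (K + 1) => σ i = 0 ∧ R σ) = A := by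
    ext σ; rw [hA]; simp
  have h2 : (univ.filter fun σ : ι → Fin (K + 1) => R σ) = B := by
    ext σ; rw [hB]; simp
  rw [h1, h2] at h
  exact h

section
variable {E : Type} [AddCommGroup E] [Module F2 E] [Module.Finite F2 E]

lemma fr_insert {V : Type} (F : V → E) (J : Set V) (i : V) :
    Module.finrank F2 (spn F (insert i J)) =
      Module.finrank F2 (spn F J) + if F i ∉ spn F J then 1 else 0 := by
  have h1 : spn F (insert i J) = spn F J ⊔ Submodule.span F2 {F i} := by
    unfold spn
    rw [Set.image_insert_eq, Submodule.span_insert, sup_comm]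
  by_cases h : F i ∈ spn F J
  · have h2 : spn F J ⊔ Submodule.span F2 {F i} = spn F J := by
      rw [sup_eq_left, Submodule.span_singleton_le_iff_mem]
      exact h
    rw [h1, h2, if_neg (not_not.2 h), add_zero]
  · rw [h1, Submodule.finrank_sup_span_singleton h, if_pos h]

/-- the index set of the others -/
def Jp {ι : Type} {K : ℕ} (σ : ι → Fin (K + 1)) (i : ι) : Set ι := {u | u ≠ i ∧ σ u = 0}

lemma spn_update {ι : Type} (a : ι → E) (J : Set ι) (i : ι) (hi : i ∉ J) (x : E) :
    spn (Function.update a i x) J = spn a J := by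
  unfold spn
  congr 1
  apply Set.image_congr
  intro j hj
  have : j ≠ i := by rintro rfl; exact hi hj
  rw [Function.update_of_ne this]

/-- the potential -/
noncomputable def Phi {ι : Type} [Fintype ι] (K : ℕ) (a : ι → E) : ℕ :=
  ∑ σ : ι → Fin (K + 1), Module.finrank F2 (spn a {j | σ j = 0})

lemma Phi_eq {ι : Type} [Fintype ι] (K : ℕ) (a : ι → E) (i : ι) :
    Phi K a = ∑ σ : ι → Fin (K + 1), Module.finrank F2 (spn a (Jp σ i)) +
      (univ.filter fun σ : ι → Fin (K + 1) => σ i = 0 ∧ a i ∉ spn a (Jp σ i)).card := by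
  unfold Phi
  rw [Finset.card_filter, ← Finset.sum_add_distrib]
  refine Finset.sum_congr rfl ?_
  intro σ _
  by_cases h : σ i = 0
  · have h1 : {j | σ j = 0} = insert i (Jp σ i) := by
      ext u
      simp only [Set.mem_ofPred_eq, Set.mem_insert_iff, Jp]
      by_cases hu : u = i
      · subst hu; simp [h]
      · simp [hu]
    rw [h1, fr_insert]
    simp only [h, true_and]
  · have h1 : {j | σ j = 0} = Jp σ i := by
      ext u
      simp only [Set.mem_ofPred_eq, Jp]
      by_cases hu : u = i
      · subst hu; simp [h]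
      · simp [hu]
    rw [h1]
    simp only [h, false_and, if_false, add_zero]

lemma Phi_update {ι : Type} [Fintype ι] (K : ℕ) (a : ι → E) (i : ι) (x : E) :
    Phi K (Function.update a i x) = ∑ σ : ι → Fin (K + 1), Module.finrank F2 (spn a (Jp σ i)) +
      (univ.filter fun σ : ι → Fin (K + 1) => σ i = 0 ∧ x ∉ spn a (Jp σ i)).card := by
  rw [Phi_eq K _ i]
  have h1 : ∀ σ : ι → Fin (K + 1), spn (Function.update a i x) (Jp σ i) = spn a (Jp σ i) := by
    intro σ
    apply spn_update
    simp [Jp]
  have h2 : ∑ σ : ι → Fin (K + 1), Module.finrank F2 (spn (Function.update a i x) (Jp σ i)) =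
      ∑ σ : ι → Fin (K + 1), Module.finrank F2 (spn a (Jp σ i)) :=
    Finset.sum_congr rfl (fun σ _ => by rw [h1 σ])
  rw [h2]
  simp only [h1, Function.update_self]

lemma Jp_update {ι : Type} {K : ℕ} (σ : ι → Fin (K + 1)) (i : ι) (x : Fin (K + 1)) :
    Jp (Function.update σ i x) i = Jp σ i := by
  ext u
  simp only [Jp, Set.mem_ofPred_eq]
  by_cases hu : u = i
  · simp [hu]
  · simp [hu]

lemma finrank_spn_le {ι : Type} [Fintype ι] (a : ι → E) (J : Set ι) :
    Module.finrank F2 (spn a J) ≤ (univ.filter fun u => u ∈ J).card := by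
  have h1 : a '' J = (((univ.filter fun u => u ∈ J).image a : Finset E) : Set E) := by
    ext x
    simp
  unfold spn
  rw [h1]
  exact (finrank_span_finset_le_card _).trans Finset.card_image_le

end

/-- Markov -/
lemma markov {ι : Type} [Fintype ι] (K : ℕ) (i : ι) (k : ℕ) :
    k * (univ.filter fun σ : ι → Fin (K + 1) => k ≤ (univ.filter fun u => u ∈ Jp σ i).card).card
      * (K + 1) ≤ Fintype.card ι * (K + 1) ^ Fintype.card ι := by
  have h1 : k * (univ.filter fun σ : ι → Fin (K + 1) =>
      k ≤ (univ.filter fun u => u ∈ Jp σ i).card).card ≤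
      ∑ σ : ι → Fin (K + 1), (univ.filter fun u => u ∈ Jp σ i).card := by
    rw [mul_comm, ← smul_eq_mul, ← Finset.sum_const]
    refine (Finset.sum_le_sum ?_).trans
      (Finset.sum_le_sum_of_subset (Finset.filter_subset _ _))
    intro σ hσ
    exact (mem_filter.1 hσ).2
  have h2 : ∑ σ : ι → Fin (K + 1), (univ.filter fun u => u ∈ Jp σ i).card =
      ∑ u : ι, (univ.filter fun σ : ι → Fin (K + 1) => u ∈ Jp σ i).card := by
    simp only [Finset.card_filter]
    exact Finset.sum_comm
  have h3 : ∀ u : ι, (univ.filter fun σ : ι → Fin (K + 1) => u ∈ Jp σ i).card * (K + 1) ≤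
      (K + 1) ^ Fintype.card ι := by
    intro u
    have h4 : (K + 1) * (univ.filter fun σ : ι → Fin (K + 1) => σ u = 0).card =
        (K + 1) ^ Fintype.card ι := by
      refine (indep' K u (fun _ => True) (fun _ _ => Iff.rfl) _ univ (fun σ => by simp)
        (fun σ => by simp)).trans ?_
      rw [Finset.card_univ, Fintype.card_fun, Fintype.card_fin]
    have h5 : (univ.filter fun σ : ι → Fin (K + 1) => u ∈ Jp σ i).card ≤
        (univ.filter fun σ : ι → Fin (K + 1) => σ u = 0).card := by
      apply Finset.card_le_card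
      intro σ hσ
      rw [mem_filter] at hσ ⊢
      exact ⟨mem_univ _, hσ.2.2⟩
    rw [← h4, mul_comm]
    exact Nat.mul_le_mul_left _ h5
  calc k * (univ.filter fun σ : ι → Fin (K + 1) =>
      k ≤ (univ.filter fun u => u ∈ Jp σ i).card).card * (K + 1)
      ≤ (∑ u : ι, (univ.filter fun σ : ι → Fin (K + 1) => u ∈ Jp σ i).card) * (K + 1) := by
        rw [← h2]; exact Nat.mul_le_mul_right _ h1
    _ = ∑ u : ι, (univ.filter fun σ : ι → Fin (K + 1) => u ∈ Jp σ i).card * (K + 1) :=
        Finset.sum_mul _ _ _
    _ ≤ ∑ _u : ι, (K + 1) ^ Fintype.card ι := Finset.sum_le_sum (fun u _ => h3 u)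
    _ = Fintype.card ι * (K + 1) ^ Fintype.card ι := by
        rw [Finset.sum_const, Finset.card_univ, smul_eq_mul]

theorem job : S_ST1 := by
  intro δ ρ hδ hρ
  refine ⟨⌈2 / δ⌉₊, ⌈2 / ρ⌉₊, δ / 4, by positivity, ?_⟩
  intro ι _ _ E _ _ _ α β k hk hW
  set m1 := ⌈2 / δ⌉₊ with hm1
  set K := ⌈2 / ρ⌉₊ with hK
  have hm1' : 2 / δ ≤ m1 := Nat.le_ceil _
  have hK' : 2 / ρ ≤ K := Nat.le_ceil _
  have hm1pos : 1 ≤ m1 := Nat.ceil_pos.2 (by positivity)
  have hn : 0 < Fintype.card ι := Fintype.card_pos
  have hn' : (0 : ℝ) < Fintype.card ι := by exact_mod_cast hn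
  -- choose a maximiser
  let adm : Finset (ι → ι) := univ.filter fun φ => ∀ j, (univ.filter fun i => φ i = j).card ≤ m1
  have hne : adm.Nonempty := by
    refine ⟨id, ?_⟩
    simp only [adm, mem_filter, mem_univ, true_and, id]
    intro j
    refine (Finset.card_le_one.2 ?_).trans hm1pos
    intro x hx y hy
    rw [(mem_filter.1 hx).2, (mem_filter.1 hy).2]
  obtain ⟨φ, hφ, hmax⟩ := Finset.exists_max_image adm
    (fun φ => Phi K (fun i => α i + β (φ i))) hne
  have hφ' : ∀ j, (univ.filter fun i => φ i = j).card ≤ m1 := (mem_filter.1 hφ).2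
  refine ⟨φ, hφ', ?_⟩
  intro i
  set a : ι → E := fun i => α i + β (φ i) with ha
  -- the places where one more value is allowed
  let U : Finset ι := univ.filter fun j => (univ.filter fun i' => i' ≠ i ∧ φ i' = j).card < m1
  let P : ℕ := (univ.filter fun σ : ι → Fin (K + 1) => σ i = 0 ∧ a i ∉ spn a (Jp σ i)).card
  have hP : ∀ j ∈ U, (univ.filter fun σ : ι → Fin (K + 1) =>
      σ i = 0 ∧ α i + β j ∉ spn a (Jp σ i)).card ≤ P := by
    intro j hj
    have hj' : (univ.filter fun i' => i' ≠ i ∧ φ i' = j).card < m1 := (mem_filter.1 hj).2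
    have hadm : Function.update φ i j ∈ adm := by
      simp only [adm, mem_filter, mem_univ, true_and]
      intro j'
      by_cases hjj : j' = j
      · subst hjj
        have h1 : (univ.filter fun i' => Function.update φ i j' i' = j') ⊆
            insert i (univ.filter fun i' => i' ≠ i ∧ φ i' = j') := by
          intro u hu
          simp only [mem_filter, mem_univ, true_and, mem_insert] at hu ⊢
          by_cases hui : u = i
          · exact Or.inl hui
          · rw [Function.update_of_ne hui] at hu
            exact Or.inr ⟨hui, hu⟩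
        have h2 := Finset.card_le_card h1
        have h3 := Finset.card_insert_le i (univ.filter fun i' => i' ≠ i ∧ φ i' = j')
        omega
      · refine le_trans (Finset.card_le_card ?_) (hφ' j')
        intro u hu
        simp only [mem_filter, mem_univ, true_and] at hu ⊢
        by_cases hui : u = i
        · subst hui
          rw [Function.update_self] at hu
          exact absurd hu.symm hjj
        · rwa [Function.update_of_ne hui] at hu
    have h1 := hmax _ hadm
    have h2 : (fun i' => α i' + β (Function.update φ i j i')) = Function.update a i (α i + β j) := by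
      funext u
      by_cases hui : u = i
      · subst hui
        simp only [Function.update_self]
      · simp only [Function.update_of_ne hui, ha]
    simp only [h2] at h1
    rw [Phi_update, Phi_eq K a i] at h1
    omega
  -- most places are allowed
  have hU : ((univ \ U).card : ℝ) ≤ δ * Fintype.card ι / 2 := by
    have h1 : (univ \ U).card * m1 ≤ Fintype.card ι := by
      calc (univ \ U).card * m1 ≤ ∑ j ∈ univ \ U, (univ.filter fun i' => i' ≠ i ∧ φ i' = j).card := by
            rw [← smul_eq_mul, ← Finset.sum_const]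
            apply Finset.sum_le_sum
            intro j hj
            simp only [mem_sdiff, mem_univ, true_and, U, mem_filter, not_lt] at hj
            exact hj
        _ ≤ ∑ j : ι, (univ.filter fun i' => i' ≠ i ∧ φ i' = j).card :=
            Finset.sum_le_sum_of_subset (Finset.subset_univ _)
        _ ≤ ∑ j : ι, (univ.filter fun i' => φ i' = j).card := by
            apply Finset.sum_le_sum
            intro j _
            apply Finset.card_le_card
            intro u hu
            simp only [mem_filter, mem_univ, true_and] at hu ⊢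
            exact hu.2
        _ = Fintype.card ι := by
            rw [← Finset.card_univ]
            exact (Finset.card_eq_sum_card_fiberwise
              (fun σ _ => Finset.mem_coe.2 (Finset.mem_univ (φ σ)))).symm
    have h2 : ((univ \ U).card : ℝ) * m1 ≤ Fintype.card ι := by exact_mod_cast h1
    have h3 : ((univ \ U).card : ℝ) * (2 / δ) ≤ Fintype.card ι :=
      (mul_le_mul_of_nonneg_left hm1' (Nat.cast_nonneg _)).trans h2
    have h4 : ((univ \ U).card : ℝ) * (2 / δ) * (δ / 2) ≤ Fintype.card ι * (δ / 2) :=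
      mul_le_mul_of_nonneg_right h3 (by positivity)
    have h5 : ((univ \ U).card : ℝ) * (2 / δ) * (δ / 2) = ((univ \ U).card : ℝ) := by
      field_simp
    rw [h5] at h4
    linarith
  -- the good `σ`
  let G : Finset (ι → Fin (K + 1)) := univ.filter fun σ =>
    σ i = 0 ∧ ¬ k ≤ (univ.filter fun u => u ∈ Jp σ i).card
  have hG : ∀ σ ∈ G, δ * Fintype.card ι / 2 ≤
      ((U.filter fun j => α i + β j ∉ spn a (Jp σ i)).card : ℝ) := by
    intro σ hσ
    have hσ' : ¬ k ≤ (univ.filter fun u => u ∈ Jp σ i).card := (mem_filter.1 hσ).2.2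
    have h1 : Module.finrank F2 (spn a (Jp σ i)) < k := by
      have := finrank_spn_le a (Jp σ i)
      omega
    have h2 := hW _ h1 i
    have h3 : (univ.filter fun j => α i + β j ∉ spn a (Jp σ i)) ⊆
        (U.filter fun j => α i + β j ∉ spn a (Jp σ i)) ∪ (univ \ U) := by
      intro j hj
      simp only [mem_union, mem_filter, mem_sdiff, mem_univ, true_and] at hj ⊢
      by_cases hjU : j ∈ U
      · exact Or.inl ⟨hjU, hj⟩
      · exact Or.inr hjU
    have h4 := (Finset.card_le_card h3).trans (Finset.card_union_le _ _)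
    have h5 : ((univ.filter fun j => α i + β j ∉ spn a (Jp σ i)).card : ℝ) ≤
        ((U.filter fun j => α i + β j ∉ spn a (Jp σ i)).card : ℝ) + ((univ \ U).card : ℝ) := by
      exact_mod_cast h4
    linarith
  -- double counting
  have hdc : (G.card : ℝ) * (δ * Fintype.card ι / 2) ≤ Fintype.card ι * P := by
    have h1 : (G.card : ℝ) * (δ * Fintype.card ι / 2) ≤
        ∑ σ ∈ G, ((U.filter fun j => α i + β j ∉ spn a (Jp σ i)).card : ℝ) := by
      rw [← nsmul_eq_mul, ← Finset.sum_const]
      exact Finset.sum_le_sum hG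
    have h2 : ∑ σ ∈ G, (U.filter fun j => α i + β j ∉ spn a (Jp σ i)).card ≤
        Fintype.card ι * P := by
      calc ∑ σ ∈ G, (U.filter fun j => α i + β j ∉ spn a (Jp σ i)).card
          = ∑ j ∈ U, (G.filter fun σ => α i + β j ∉ spn a (Jp σ i)).card := by
            simp only [Finset.card_filter]
            exact Finset.sum_comm
        _ ≤ ∑ j ∈ U, P := by
            apply Finset.sum_le_sum
            intro j hj
            refine le_trans (Finset.card_le_card ?_) (hP j hj)
            intro σ hσ
            rw [mem_filter] at hσ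
            have h3 := (mem_filter.1 hσ.1).2.1
            simp only [mem_filter, mem_univ, true_and]
            exact ⟨h3, hσ.2⟩
        _ = U.card * P := by rw [Finset.sum_const, smul_eq_mul]
        _ ≤ Fintype.card ι * P := Nat.mul_le_mul_right _ (Finset.card_le_univ _)
    have h3 : ((∑ σ ∈ G, (U.filter fun j => α i + β j ∉ spn a (Jp σ i)).card : ℕ) : ℝ) ≤
        ((Fintype.card ι * P : ℕ) : ℝ) := by exact_mod_cast h2
    push_cast at h3
    linarith
  have hPG : (G.card : ℝ) * (δ / 2) ≤ P := by
    have h1 : (Fintype.card ι : ℝ) * ((G.card : ℝ) * (δ / 2)) ≤ Fintype.card ι * P := by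
      calc (Fintype.card ι : ℝ) * ((G.card : ℝ) * (δ / 2))
          = (G.card : ℝ) * (δ * Fintype.card ι / 2) := by ring
        _ ≤ _ := hdc
    exact le_of_mul_le_mul_left h1 hn'
  -- independence
  set q : ℝ := (K : ℝ) + 1 with hq
  have hqpos : 0 < q := by positivity
  set T : ℝ := q ^ Fintype.card ι with hT
  have hTpos : 0 < T := by positivity
  have hcardT : ((univ : Finset (ι → Fin (K + 1))).card : ℝ) = T := by
    rw [Finset.card_univ, Fintype.card_fun, Fintype.card_fin, hT, hq]
    push_cast
    rfl
  have hGi := indep' K i (fun σ => ¬ k ≤ (univ.filter fun u => u ∈ Jp σ i).card)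
    (fun σ x => by rw [Jp_update]) G (univ.filter fun σ : ι → Fin (K + 1) =>
      ¬ k ≤ (univ.filter fun u => u ∈ Jp σ i).card) (fun σ => by simp [G]) (fun σ => by simp)
  have hPi := indep' K i (fun σ => a i ∉ spn a (Jp σ i)) (fun σ x => by rw [Jp_update])
    (univ.filter fun σ : ι → Fin (K + 1) => σ i = 0 ∧ a i ∉ spn a (Jp σ i))
    (univ.filter fun σ : ι → Fin (K + 1) => a i ∉ spn a (Jp σ i))
    (fun σ => by simp) (fun σ => by simp)
  have hGi' : q * (G.card : ℝ) = ((univ.filter fun σ : ι → Fin (K + 1) =>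
      ¬ k ≤ (univ.filter fun u => u ∈ Jp σ i).card).card : ℝ) := by
    rw [← hGi]; push_cast; rfl
  have hPi' : q * (P : ℝ) = ((univ.filter fun σ : ι → Fin (K + 1) =>
      a i ∉ spn a (Jp σ i)).card : ℝ) := by
    rw [← hPi]; push_cast; rfl
  -- Markov
  have hmk := markov (ι := ι) K i k
  set B : ℕ := (univ.filter fun σ : ι → Fin (K + 1) =>
    k ≤ (univ.filter fun u => u ∈ Jp σ i).card).card with hB
  have hmk' : (k : ℝ) * B * q ≤ Fintype.card ι * T := by
    have : ((k * B * (K + 1) : ℕ) : ℝ) ≤ ((Fintype.card ι * (K + 1) ^ Fintype.card ι : ℕ) : ℝ) := by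
      exact_mod_cast hmk
    push_cast at this
    exact this
  have hB2 : (B : ℝ) ≤ T / 2 := by
    have h1 : (Fintype.card ι : ℝ) * (ρ * q * B) ≤ Fintype.card ι * T := by
      calc (Fintype.card ι : ℝ) * (ρ * q * B) = (ρ * Fintype.card ι) * (B * q) := by ring
        _ ≤ (k : ℝ) * (B * q) := mul_le_mul_of_nonneg_right hk (by positivity)
        _ = (k : ℝ) * B * q := by ring
        _ ≤ _ := hmk'
    have h2 : ρ * q * B ≤ T := le_of_mul_le_mul_left h1 hn'
    have h3 : 2 ≤ ρ * q := by
      have h4 : 2 / ρ ≤ q := by linarith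
      have h5 := mul_le_mul_of_nonneg_left h4 hρ.le
      have h6 : ρ * (2 / ρ) = 2 := by field_simp
      linarith
    have h7 : 2 * (B : ℝ) ≤ ρ * q * B := mul_le_mul_of_nonneg_right h3 (Nat.cast_nonneg _)
    linarith
  have hBG : (B : ℝ) + q * G.card = T := by
    rw [hGi', ← hcardT, hB]
    exact_mod_cast Finset.card_filter_add_card_filter_not (s := (univ : Finset (ι → Fin (K + 1))))
      (fun σ => k ≤ (univ.filter fun u => u ∈ Jp σ i).card)
  have hPfin : δ / 4 * T ≤ q * P := by
    have h1 : q * ((G.card : ℝ) * (δ / 2)) ≤ q * P := mul_le_mul_of_nonneg_left hPG hqpos.le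
    have h2 : T / 2 ≤ q * G.card := by linarith
    have h3 : T / 2 * (δ / 2) ≤ q * G.card * (δ / 2) :=
      mul_le_mul_of_nonneg_right h2 (by positivity)
    have h4 : q * ((G.card : ℝ) * (δ / 2)) = q * G.card * (δ / 2) := by ring
    linarith
  have hfin : ((univ.filter fun σ : ι → Fin (K + 1) => a i ∈ spn a (Jp σ i)).card : ℝ) +
      q * P = T := by
    rw [hPi', ← hcardT]
    exact_mod_cast Finset.card_filter_add_card_filter_not (s := (univ : Finset (ι → Fin (K + 1))))
      (fun σ => a i ∈ spn a (Jp σ i))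
  have hgoal : ((univ.filter fun σ : ι → Fin (K + 1) => a i ∈ spn a (Jp σ i)).card : ℝ) ≤
      (1 - δ / 4) * T := by
    have : (1 - δ / 4) * T = T - δ / 4 * T := by ring
    linarith
  unfold Gen
  exact hgoal

end Pool.Agent.Helper835_LTC.J_ST1
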