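import Mathlib
import Pool.Agent.Helper835_LTC.Defs
/-!
Part of project LTC (three query locally testable codes with few short dual words).
-/

set_option autoImplicit false

open Finset
open scoped Classical

namespace Pool.Agent.Helper835_LTC.J_TDIM

open Pool.Agent.Helper835_LTC

/-- the view as a linear map -/
noncomputable def vwL {H : Type} [Group H] {d : ℕ} (b : Fin d → H) (u : H × Bool) :
    (H × Fin d → F2) →ₗ[F2] (Fin d → F2) := LinearMap.funLeft F2 F2 (edg b u)

/-- the classes of the views -/
noncomputable def cls {H : Type} [Group H] {d : ℕ} (b : Fin d → H)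
    (C1 : Submodule F2 (Fin d → F2)) :
    (H × Fin d → F2) →ₗ[F2] (H × Bool → (Fin d → F2) ⧸ C1) :=
  LinearMap.pi fun u => (Submodule.mkQ C1).comp (vwL b u)

theorem ker_cls {H : Type} [Group H] {d : ℕ} (b : Fin d → H) (C1 : Submodule F2 (Fin d → F2)) :
    LinearMap.ker (cls b C1) = Tan b C1 := by
  ext x
  rw [LinearMap.mem_ker]
  constructor
  · intro h u
    have h1 := congrFun h u
    have h2 : Submodule.Quotient.mk (p := C1) (vw b x u) = 0 := h1
    exact (Submodule.Quotient.mk_eq_zero C1).mp h2
  · intro h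
    funext u
    exact (Submodule.Quotient.mk_eq_zero C1).mpr (h u)

theorem job : S_TDIM := by
  intro H _ _ d b C1 h
  have h1 := LinearMap.finrank_range_add_finrank_ker (cls b C1)
  rw [ker_cls] at h1
  have h2 : Module.finrank F2 (LinearMap.range (cls b C1)) ≤
      Module.finrank F2 (H × Bool → (Fin d → F2) ⧸ C1) := Submodule.finrank_le _
  rw [Module.finrank_pi_fintype, Finset.sum_const, Finset.card_univ, smul_eq_mul,
    Fintype.card_prod, Fintype.card_bool] at h2
  have h3 := Submodule.finrank_quotient_add_finrank C1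
  rw [Module.finrank_fintype_fun_eq_card] at h1 h3
  rw [Fintype.card_fin] at h3
  have e1 : ((Module.finrank F2 (LinearMap.range (cls b C1)) : ℕ) : ℝ) +
      Module.finrank F2 (Tan b C1) = Fintype.card (H × Fin d) := by exact_mod_cast h1
  have e2 : ((Module.finrank F2 (LinearMap.range (cls b C1)) : ℕ) : ℝ) ≤
      (Fintype.card H * 2) * Module.finrank F2 ((Fin d → F2) ⧸ C1) := by exact_mod_cast h2
  have e3 : (Module.finrank F2 ((Fin d → F2) ⧸ C1) : ℝ) + Module.finrank F2 C1 = d := by
    exact_mod_cast h3
  have e4 : (Fintype.card (H × Fin d) : ℝ) = Fintype.card H * d := by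
    rw [Fintype.card_prod, Fintype.card_fin]
    push_cast
    ring
  rw [e4] at e1 ⊢
  have e5 : (Module.finrank F2 ((Fin d → F2) ⧸ C1) : ℝ) ≤ d / 16 := by linarith
  have e6 : ((Fintype.card H : ℝ) * 2) * Module.finrank F2 ((Fin d → F2) ⧸ C1) ≤
      ((Fintype.card H : ℝ) * 2) * (d / 16) := mul_le_mul_of_nonneg_left e5 (by positivity)
  linarith

end Pool.Agent.Helper835_LTC.J_TDIM
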