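import Mathlib
import Pool.Agent.Helper835_LTC.Defs
/-!
Part of project LTC (three query locally testable codes with few short dual words).
-/

set_option autoImplicit false

open Finset
open scoped Classical

namespace Pool.Agent.Helper835_LTC.J_TDIST

open Pool.Agent.Helper835_LTC


theorem hn_eq {ι : Type} [Fintype ι] (x : ι → F2) :
    hammingNorm x = (univ.filter fun i => x i ≠ 0).card := by
  unfold hammingNorm
  congr

theorem card_left {H : Type} [Group H] [Fintype H] {d : ℕ} (x : H × Fin d → F2) :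
    hammingNorm x = ∑ g : H, (univ.filter fun k : Fin d => x (g, k) ≠ 0).card := by
  rw [hn_eq, Finset.card_filter, Fintype.sum_prod_type]
  refine Finset.sum_congr rfl fun g _ => ?_
  rw [Finset.card_filter]

theorem card_right {H : Type} [Group H] [Fintype H] {d : ℕ} (b : Fin d → H)
    (x : H × Fin d → F2) :
    hammingNorm x = ∑ h : H, (univ.filter fun k : Fin d => x (h * (b k)⁻¹, k) ≠ 0).card := by
  rw [hn_eq, Finset.card_filter, Fintype.sum_prod_type]
  have h1 : ∀ h : H, (univ.filter fun k : Fin d => x (h * (b k)⁻¹, k) ≠ 0).card =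
      ∑ k : Fin d, if x (h * (b k)⁻¹, k) ≠ 0 then 1 else 0 := by
    intro h
    rw [Finset.card_filter]
  simp only [h1]
  rw [Finset.sum_comm]
  conv_rhs => rw [Finset.sum_comm]
  refine Finset.sum_congr rfl fun k _ => ?_
  exact (Equiv.sum_comp (Equiv.mulRight (b k)⁻¹) (fun g : H => if x (g, k) ≠ 0 then 1 else 0)).symm

/-- the sum of numbers which are zero or at least `t` -/
theorem sum_lower {H : Type} [Fintype H] (c : H → ℕ) (t : ℝ) (S : Finset H)
    (hS : ∀ g ∈ S, t ≤ (c g : ℝ)) : (S.card : ℝ) * t ≤ ((∑ g, c g : ℕ) : ℝ) := by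
  have h1 : ∑ g ∈ S, c g ≤ ∑ g, c g :=
    Finset.sum_le_sum_of_subset (Finset.subset_univ S)
  have h2 : (S.card : ℝ) * t ≤ ∑ g ∈ S, (c g : ℝ) := by
    rw [← nsmul_eq_mul, ← Finset.sum_const]
    exact Finset.sum_le_sum hS
  have h3 : ((∑ g ∈ S, c g : ℕ) : ℝ) ≤ ((∑ g, c g : ℕ) : ℝ) := by exact_mod_cast h1
  refine h2.trans (le_trans (le_of_eq ?_) h3)
  push_cast
  rfl

theorem final (L R N d δ1 lam e : ℝ) (hL : 0 < L) (hR : 0 < R) (hN : 0 < N) (hd : 0 < d)
    (hδ : 0 < δ1) (hlam : 0 < lam) (hl8 : lam ≤ δ1 / 8) (h1 : L * (δ1 * d) ≤ e)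
    (h2 : R * (δ1 * d) ≤ e) (h3 : e ≤ d * (L * R) / N + lam * d * Real.sqrt (L * R)) :
    δ1 ^ 2 / 2 * (N * d) ≤ e := by
  have key : δ1 ≤ L / N + lam := by
    rcases le_total L R with h | h
    · have hs : Real.sqrt (L * R) ≤ R := by
        rw [Real.sqrt_le_left hR.le]
        nlinarith
      have h4 : R * (δ1 * d) ≤ d * (L * R) / N + lam * d * R :=
        (h2.trans h3).trans (by
          have := mul_le_mul_of_nonneg_left hs (mul_pos hlam hd).le
          linarith)
      have h5 : (R * d) * δ1 ≤ (R * d) * (L / N + lam) := by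
        have e1 : (R * d) * (L / N + lam) = d * (L * R) / N + lam * d * R := by ring
        rw [e1]; linarith
      exact le_of_mul_le_mul_left h5 (mul_pos hR hd)
    · have hs : Real.sqrt (L * R) ≤ L := by
        rw [Real.sqrt_le_left hL.le]
        nlinarith
      have h4 : L * (δ1 * d) ≤ d * (L * R) / N + lam * d * L :=
        (h1.trans h3).trans (by
          have := mul_le_mul_of_nonneg_left hs (mul_pos hlam hd).le
          linarith)
      have h5 : (L * d) * δ1 ≤ (L * d) * (R / N + lam) := by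
        have e1 : (L * d) * (R / N + lam) = d * (L * R) / N + lam * d * L := by ring
        rw [e1]; linarith
      have h6 := le_of_mul_le_mul_left h5 (mul_pos hL hd)
      have h7 : R / N ≤ L / N := div_le_div_of_nonneg_right h hN.le
      linarith
  have h8 : (7 / 8) * δ1 ≤ L / N := by linarith
  have h9 : (7 / 8) * δ1 * N ≤ L := by
    rwa [le_div_iff₀ hN] at h8
  have h10 : (7 / 8) * δ1 * N * (δ1 * d) ≤ L * (δ1 * d) :=
    mul_le_mul_of_nonneg_right h9 (mul_pos hδ hd).le
  have h11 : 0 ≤ δ1 ^ 2 * (N * d) := by positivity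
  nlinarith

theorem job : S_MIX → S_TDIST := by
  intro hmix H _ _ d b lam δ1 C1 hδ hlam hl8 hexp hC x hx hx0
  obtain ⟨⟨g0, k0⟩, he0⟩ : ∃ e, x e ≠ 0 := by
    by_contra hno
    push Not at hno
    exact hx0 (funext hno)
  have hd : 0 < d := lt_of_le_of_lt (Nat.zero_le _) k0.isLt
  have hvL : ∀ g : H, vw b x (g, false) = fun k => x (g, k) := by
    intro g; funext k; simp [vw, edg]
  have hvR : ∀ h : H, vw b x (h, true) = fun k => x (h * (b k)⁻¹, k) := by
    intro h; funext k; simp [vw, edg]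
  let SL : Finset H := univ.filter fun g : H => ∃ k, x (g, k) ≠ 0
  let SR : Finset H := univ.filter fun h : H => ∃ k, x (h * (b k)⁻¹, k) ≠ 0
  have hcL : ∀ g ∈ SL, δ1 * d ≤ ((univ.filter fun k : Fin d => x (g, k) ≠ 0).card : ℝ) := by
    intro g hg
    obtain ⟨k, hk⟩ := (Finset.mem_filter.mp hg).2
    have h1 := hx (g, false)
    rw [hvL] at h1
    have h2 := hC _ h1 (fun h => hk (congrFun h k))
    rw [hn_eq] at h2
    exact h2
  have hcR : ∀ h ∈ SR, δ1 * d ≤
      ((univ.filter fun k : Fin d => x (h * (b k)⁻¹, k) ≠ 0).card : ℝ) := by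
    intro g hg
    obtain ⟨k, hk⟩ := (Finset.mem_filter.mp hg).2
    have h1 := hx (g, true)
    rw [hvR] at h1
    have h2 := hC _ h1 (fun h => hk (congrFun h k))
    rw [hn_eq] at h2
    exact h2
  have hL := sum_lower (fun g => (univ.filter fun k : Fin d => x (g, k) ≠ 0).card) _ SL hcL
  have hR := sum_lower (fun h => (univ.filter fun k : Fin d => x (h * (b k)⁻¹, k) ≠ 0).card) _ SR hcR
  rw [← card_left x] at hL
  rw [← card_right b x] at hR
  have hLpos : 0 < SL.card := Finset.card_pos.mpr ⟨g0,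
    Finset.mem_filter.mpr ⟨Finset.mem_univ _, k0, he0⟩⟩
  have hRpos : 0 < SR.card := Finset.card_pos.mpr ⟨g0 * b k0,
    Finset.mem_filter.mpr ⟨Finset.mem_univ _, k0, by rwa [mul_inv_cancel_right]⟩⟩
  have hNpos : 0 < Fintype.card H := Fintype.card_pos_iff.mpr ⟨g0⟩
  have hm := hmix H (Fin d) lam b hlam.le hexp SL SR
  have hsub : (hammingNorm x : ℝ) ≤
      ((univ.filter fun p : H × Fin d => p.1 ∈ SL ∧ p.1 * b p.2 ∈ SR).card : ℝ) := by
    rw [hn_eq]
    have : (univ.filter fun e : H × Fin d => x e ≠ 0) ⊆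
        univ.filter fun p : H × Fin d => p.1 ∈ SL ∧ p.1 * b p.2 ∈ SR := by
      rintro ⟨g, k⟩ hgk
      have hgk' := (Finset.mem_filter.mp hgk).2
      refine Finset.mem_filter.mpr ⟨Finset.mem_univ _, ?_, ?_⟩
      · exact Finset.mem_filter.mpr ⟨Finset.mem_univ _, k, hgk'⟩
      · exact Finset.mem_filter.mpr ⟨Finset.mem_univ _, k, by
          show x (g * b k * (b k)⁻¹, k) ≠ 0
          rwa [mul_inv_cancel_right]⟩
    exact_mod_cast Finset.card_le_card this
  rw [Fintype.card_fin] at hm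
  have hf := final SL.card SR.card (Fintype.card H) d δ1 lam (hammingNorm x)
    (by exact_mod_cast hLpos) (by exact_mod_cast hRpos) (by exact_mod_cast hNpos)
    (by exact_mod_cast hd) hδ hlam hl8 hL hR (hsub.trans hm)
  rw [Fintype.card_prod, Fintype.card_fin]
  push_cast
  exact hf

end Pool.Agent.Helper835_LTC.J_TDIST
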