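import Mathlib
import Pool.Agent.Helper835_LTC.J_LTC
import Pool.Agent.Helper835_LTC.J_POWPAD
import Pool.Agent.Helper835_LTC.J_MIX
import Pool.Agent.Helper835_LTC.J_GREEDY
import Pool.Agent.Helper835_LTC.J_SOUND
import Pool.Agent.Helper835_LTC.J_CLOS
import Pool.Agent.Helper835_LTC.J_TDIST
import Pool.Agent.Helper835_LTC.J_CDIST
import Pool.Agent.Helper835_LTC.J_TDIM
import Pool.Agent.Helper835_LTC.J_SPR
import Pool.Agent.Helper835_LTC.J_OCC
import Pool.Agent.Helper835_LTC.J_HYP
import Pool.Agent.Helper835_LTC.J_G0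
import Pool.Agent.Helper835_LTC.J_SIZE
import Pool.Agent.Helper835_LTC.J_GAP
import Pool.Agent.Helper835_LTC.J_AT
import Pool.Agent.Helper835_LTC.J_EXT
import Pool.Agent.Helper835_LTC.J_RATE
import Pool.Agent.Helper835_LTC.J_GV
import Pool.Agent.Helper835_LTC.J_DIST3
import Pool.Agent.Helper835_LTC.J_BASE
import Pool.Agent.Helper835_LTC.J_DEC
import Pool.Agent.Helper835_LTC.J_FIN
import Pool.Agent.Helper835_LTC.J_GRP
import Pool.Agent.Helper835_LTC.J_LMIN
import Pool.Agent.Helper835_LTC.J_CNT
import Pool.Agent.Helper835_LTC.J_COL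
import Pool.Agent.Helper835_LTC.J_POT
import Pool.Agent.Helper835_LTC.J_SND3
import Pool.Agent.Helper835_LTC.J_ST1
import Pool.Agent.Helper835_LTC.AsmGood

/-!
# Assembly: three query locally testable codes with few low weight dual words
-/

set_option autoImplicit false

namespace Pool.Agent.Helper835_LTC

theorem final : S_FINAL := by
  have exp : S_EXP := J_POWPAD.job (J_G0.job J_GRP.job J_GAP.job)
  have mix : S_MIX := J_MIX.job
  have tdist : S_TDIST := J_TDIST.job mix
  have clos : S_CLOS := J_CLOS.job mix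
  have col : S_COL := J_COL.job mix
  have at' : S_AT := J_AT.job tdist clos col J_EXT.job
  have base : S_BASE := J_BASE.job J_GV.job exp J_TDIM.job tdist at'
  have sound : S_SOUND := J_SOUND.job J_LMIN.job J_GREEDY.job J_DEC.job
  have ltc : S_LTC := J_LTC.job base exp sound J_RATE.job (J_CDIST.job mix)
  exact J_FIN.job (good_asm ltc J_ST1.job J_SPR.job J_POT.job J_CNT.job J_SIZE.job J_OCC.job
    J_HYP.job J_DIST3.job J_SND3.job)

end Pool.Agent.Helper835_LTC
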