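import Mathlib
import Pool.Agent.Helper835_LTC.Defs
/-!
Part of project LTC (three query locally testable codes with few short dual words).
-/

set_option autoImplicit false

open Finset
open scoped Classical

namespace Pool.Agent.Helper835_LTC.J_COL

open Pool.Agent.Helper835_LTC

/-- a word of `C1` with few labels in `V` has many nonzero labels outside of `V` -/
theorem many_off {d : ℕ} {δ1 : ℝ} {C1 : Submodule F2 (Fin d → F2)} (hmin : MinD (δ1 * d) C1)
    (v : Fin d → F2) (hv : v ∈ C1) (k0 : Fin d) (hk0 : v k0 ≠ 0) (V : Finset (Fin d))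
    (hV : (V.card : ℝ) < δ1 / 2 * d) :
    δ1 / 2 * d ≤ ((univ.filter fun k => v k ≠ 0 ∧ k ∉ V).card : ℝ) := by
  have h1 : δ1 * d ≤ (hammingNorm v : ℝ) := hmin v hv (by
    intro h; exact hk0 (by rw [h]; rfl))
  have h2 : (hammingNorm v : ℝ) ≤ ((univ.filter fun k => v k ≠ 0 ∧ k ∉ V).card : ℝ) + V.card := by
    have h3 : (univ.filter fun k => v k ≠ 0) ⊆ (univ.filter fun k => v k ≠ 0 ∧ k ∉ V) ∪ V := by
      intro k hk
      rw [Finset.mem_filter] at hk
      rw [Finset.mem_union, Finset.mem_filter]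
      by_cases h : k ∈ V
      · exact Or.inr h
      · exact Or.inl ⟨Finset.mem_univ _, hk.2, h⟩
    have h4 := (Finset.card_le_card h3).trans (Finset.card_union_le _ _)
    unfold hammingNorm
    exact_mod_cast h4
  linarith

theorem job : S_MIX → S_COL := by
  intro hmix H _ _ d b lam δ1 C1 hd hδ hlam hlam2 hexp hmin U hU x hx hex
  obtain ⟨E, hE⟩ : ∃ E : Finset (H × Fin d), E = univ.filter fun e : H × Fin d =>
    x e ≠ 0 ∧ (e.1, false) ∉ U ∧ (e.1 * b e.2, true) ∉ U := ⟨_, rfl⟩
  rw [← hE]
  have memE : ∀ e, e ∈ E ↔ x e ≠ 0 ∧ (e.1, false) ∉ U ∧ (e.1 * b e.2, true) ∉ U := by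
    intro e; rw [hE, Finset.mem_filter]; simp
  -- left end
  have hL : ∀ g ∈ E.image (fun e => e.1),
      δ1 / 2 * d ≤ ((E.filter fun e => e.1 = g).card : ℝ) := by
    intro g hg
    obtain ⟨e0, he0, rfl⟩ := Finset.mem_image.1 hg
    obtain ⟨k1, k2, k3⟩ := (memE e0).1 he0
    have h1 := many_off hmin (vw b x (e0.1, false)) (hx _ k2) e0.2 k1
      (univ.filter fun k : Fin d => oth b (e0.1, false) k ∈ U) (hU _ k2)
    refine h1.trans ?_
    have h2 : (univ.filter fun k => vw b x (e0.1, false) k ≠ 0 ∧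
        k ∉ univ.filter fun k : Fin d => oth b (e0.1, false) k ∈ U).card ≤
        (E.filter fun e => e.1 = e0.1).card := by
      refine Finset.card_le_card_of_injOn (fun k => (e0.1, k)) ?_ ?_
      · intro k hk
        rw [Finset.mem_coe, Finset.mem_filter, Finset.mem_filter] at hk
        rw [Finset.mem_coe, Finset.mem_filter, memE]
        refine ⟨⟨hk.2.1, k2, ?_⟩, rfl⟩
        intro h
        exact hk.2.2 ⟨Finset.mem_univ _, h⟩
      · intro k _ k' _ h
        exact (Prod.mk.inj h).2
    exact_mod_cast h2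
  have hR : ∀ g ∈ E.image (fun e => e.1 * b e.2),
      δ1 / 2 * d ≤ ((E.filter fun e => e.1 * b e.2 = g).card : ℝ) := by
    intro g hg
    obtain ⟨e0, he0, h0⟩ := Finset.mem_image.1 hg
    obtain ⟨k1, k2, k3⟩ := (memE e0).1 he0
    have h0' : e0.1 * b e0.2 = g := h0
    have hg' : (g, true) ∉ U := by rw [← h0']; exact k3
    have hne : vw b x (g, true) e0.2 ≠ 0 := by
      show x (g * (b e0.2)⁻¹, e0.2) ≠ 0
      rw [← h0', mul_inv_cancel_right]
      exact k1
    have h1 := many_off hmin (vw b x (g, true)) (hx _ hg') e0.2 hne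
      (univ.filter fun k : Fin d => oth b (g, true) k ∈ U) (hU _ hg')
    refine h1.trans ?_
    have h2 : (univ.filter fun k => vw b x (g, true) k ≠ 0 ∧
        k ∉ univ.filter fun k : Fin d => oth b (g, true) k ∈ U).card ≤
        (E.filter fun e => e.1 * b e.2 = g).card := by
      refine Finset.card_le_card_of_injOn (fun k => (g * (b k)⁻¹, k)) ?_ ?_
      · intro k hk
        rw [Finset.mem_coe, Finset.mem_filter, Finset.mem_filter] at hk
        rw [Finset.mem_coe, Finset.mem_filter, memE]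
        refine ⟨⟨hk.2.1, ?_, ?_⟩, ?_⟩
        · intro h
          exact hk.2.2 ⟨Finset.mem_univ _, h⟩
        · show (g * (b k)⁻¹ * b k, true) ∉ U
          rw [inv_mul_cancel_right]
          exact hg'
        · show g * (b k)⁻¹ * b k = g
          rw [inv_mul_cancel_right]
      · intro k _ k' _ h
        exact (Prod.mk.inj h).2
    exact_mod_cast h2
  obtain ⟨s, hs⟩ : ∃ s : ℝ, s = ((E.image (fun e => e.1)).card : ℝ) := ⟨_, rfl⟩
  obtain ⟨t, ht⟩ : ∃ t : ℝ, t = ((E.image (fun e => e.1 * b e.2)).card : ℝ) := ⟨_, rfl⟩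
  have cL : s * (δ1 / 2 * d) ≤ (E.card : ℝ) := by
    have h1 : E.card = ∑ g ∈ E.image (fun e => e.1), (E.filter fun e => e.1 = g).card :=
      Finset.card_eq_sum_card_image _ _
    rw [h1, Nat.cast_sum, hs, ← nsmul_eq_mul]
    exact Finset.card_nsmul_le_sum _ _ _ hL
  have cR : t * (δ1 / 2 * d) ≤ (E.card : ℝ) := by
    have h1 : E.card = ∑ g ∈ E.image (fun e => e.1 * b e.2),
        (E.filter fun e => e.1 * b e.2 = g).card :=
      Finset.card_eq_sum_card_image _ _
    rw [h1, Nat.cast_sum, ht, ← nsmul_eq_mul]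
    exact Finset.card_nsmul_le_sum _ _ _ hR
  have hne : E.Nonempty := by
    obtain ⟨e, he⟩ := hex
    exact ⟨e, (memE e).2 he⟩
  have hs0 : 0 < s := by
    rw [hs]; exact_mod_cast (hne.image _).card_pos
  have ht0 : 0 < t := by
    rw [ht]; exact_mod_cast (hne.image _).card_pos
  have hd0 : (0 : ℝ) < d := by exact_mod_cast hd
  obtain ⟨N, hN⟩ : ∃ N : ℝ, N = (Fintype.card H : ℝ) := ⟨_, rfl⟩
  have hN0 : 0 < N := by
    rw [hN]
    have : 0 < Fintype.card H := Fintype.card_pos
    exact_mod_cast this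
  have hm : (E.card : ℝ) ≤ d * (s * t) / N + lam * d * Real.sqrt (s * t) := by
    have h1 := hmix H (Fin d) lam b hlam.le hexp (E.image (fun e => e.1))
      (E.image (fun e => e.1 * b e.2))
    rw [Fintype.card_fin, ← hs, ← ht, ← hN] at h1
    refine le_trans ?_ h1
    have h2 : E ⊆ univ.filter fun p : H × Fin d => p.1 ∈ E.image (fun e => e.1) ∧
        p.1 * b p.2 ∈ E.image (fun e => e.1 * b e.2) := by
      intro e he
      rw [Finset.mem_filter]
      exact ⟨Finset.mem_univ _, Finset.mem_image_of_mem _ he,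
        Finset.mem_image_of_mem (fun e : H × Fin d => e.1 * b e.2) he⟩
    exact_mod_cast Finset.card_le_card h2
  have key : 3 / 8 * δ1 * N ≤ s := by
    rcases le_total t s with h | h
    · have h1 : Real.sqrt (s * t) ≤ s := by
        rw [Real.sqrt_le_left hs0.le]
        nlinarith
      have h2 : s * (δ1 / 2 * d) ≤ d * (s * t) / N + lam * d * s :=
        cL.trans (hm.trans (by
          have : lam * d * Real.sqrt (s * t) ≤ lam * d * s :=
            mul_le_mul_of_nonneg_left h1 (by positivity)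
          linarith))
      have h3 : (s * d) * (δ1 / 2) ≤ (s * d) * (t / N + lam) := by
        calc (s * d) * (δ1 / 2) = s * (δ1 / 2 * d) := by ring
          _ ≤ d * (s * t) / N + lam * d * s := h2
          _ = (s * d) * (t / N + lam) := by ring
      have h4 := le_of_mul_le_mul_left h3 (by positivity)
      have h5 : 3 / 8 * δ1 ≤ t / N := by linarith
      rw [le_div_iff₀ hN0] at h5
      linarith
    · have h1 : Real.sqrt (s * t) ≤ t := by
        rw [Real.sqrt_le_left ht0.le]
        nlinarith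
      have h2 : t * (δ1 / 2 * d) ≤ d * (s * t) / N + lam * d * t :=
        cR.trans (hm.trans (by
          have : lam * d * Real.sqrt (s * t) ≤ lam * d * t :=
            mul_le_mul_of_nonneg_left h1 (by positivity)
          linarith))
      have h3 : (t * d) * (δ1 / 2) ≤ (t * d) * (s / N + lam) := by
        calc (t * d) * (δ1 / 2) = t * (δ1 / 2 * d) := by ring
          _ ≤ d * (s * t) / N + lam * d * t := h2
          _ = (t * d) * (s / N + lam) := by ring
      have h4 := le_of_mul_le_mul_left h3 (by positivity)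
      have h5 : 3 / 8 * δ1 ≤ s / N := by linarith
      rw [le_div_iff₀ hN0] at h5
      exact h5
  rw [Fintype.card_prod, Fintype.card_fin, Nat.cast_mul, ← hN]
  have h1 : 3 / 8 * δ1 * N * (δ1 / 2 * d) ≤ s * (δ1 / 2 * d) :=
    mul_le_mul_of_nonneg_right key (by positivity)
  have h2 : δ1 ^ 2 / 8 * (N * d) ≤ 3 / 8 * δ1 * N * (δ1 / 2 * d) := by
    have : 0 ≤ δ1 ^ 2 * (N * d) := by positivity
    nlinarith
  linarith

end Pool.Agent.Helper835_LTC.J_COL
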