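import Mathlib
import Pool.Agent.Helper835_LTC.DefsG

set_option autoImplicit false

open Finset
open scoped Classical

namespace Pool.Agent.Helper835_LTC.J_G0

open Pool.Agent.Helper835_LTC

theorem job : S_GRP → S_GAP → S_G0 := by
  intro hgrp hgap
  have h17 : (4 : ℝ) < Real.sqrt 17 := by
    rw [show (4 : ℝ) = Real.sqrt 16 by
      rw [show (16 : ℝ) = 4 ^ 2 by norm_num]; exact (Real.sqrt_sq (by norm_num)).symm]
    exact Real.sqrt_lt_sqrt (by norm_num) (by norm_num)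
  have hpos : (0 : ℝ) < Real.sqrt 17 := by linarith
  have hlt : (4 : ℝ) / Real.sqrt 17 < 1 := by rwa [div_lt_one hpos]
  have hnn : (0 : ℝ) ≤ 4 / Real.sqrt 17 := by positivity
  refine ⟨6 * 17, 1 - (1 - 4 / Real.sqrt 17) / 6, by norm_num, by linarith, by linarith, ?_⟩
  intro N
  obtain ⟨G, hG, hF, s, hN, hT, hcl⟩ := hgrp N
  refine ⟨G, hG, hF, fun j => s (finProdFinEquiv.symm j).1 ^ ((finProdFinEquiv.symm j).2 : ℕ), hN, ?_⟩
  intro f hf
  have key := hgap G (Fin 6) 17 4 s hT hcl f hf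
  have hsum : ∀ g : G, (∑ j : Fin (6 * 17),
      f (g * s (finProdFinEquiv.symm j).1 ^ ((finProdFinEquiv.symm j).2 : ℕ))) =
      ∑ i : Fin 6, ∑ k ∈ Finset.range 17, f (g * s i ^ k) := by
    intro g
    have h1 : (∑ j : Fin (6 * 17),
        f (g * s (finProdFinEquiv.symm j).1 ^ ((finProdFinEquiv.symm j).2 : ℕ))) =
        ∑ p : Fin 6 × Fin 17, f (g * s p.1 ^ (p.2 : ℕ)) :=
      Equiv.sum_comp (finProdFinEquiv (m := 6) (n := 17)).symm
        (fun p : Fin 6 × Fin 17 => f (g * s p.1 ^ (p.2 : ℕ)))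
    rw [h1, Fintype.sum_prod_type]
    refine Finset.sum_congr rfl fun i _ => ?_
    rw [Finset.sum_range]
  simp only [hsum]
  have hc : ((1 - (1 - ((4 : ℕ) : ℝ) / Real.sqrt ((17 : ℕ) : ℝ)) / (Fintype.card (Fin 6) : ℝ)) *
      ((Fintype.card (Fin 6) : ℝ) * ((17 : ℕ) : ℝ))) =
      (1 - (1 - 4 / Real.sqrt 17) / 6) * (Fintype.card (Fin (6 * 17)) : ℝ) := by
    simp only [Fintype.card_fin]
    push_cast
    norm_num
  rw [← hc]
  exact key

end Pool.Agent.Helper835_LTC.J_G0
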